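import Pool.Agent.Lib.MP_021685_agTM.MD
import Pool.Agent.Lib.MP_021685_agTAL.AD
import Pool.Agent.Lib.MP_021685_agSP.DX

/-! Definitions used in the statement of `MP_021685_ag.AlmostAllLifts`: examples of good polynomials.  `Sep` and `Sep1` are defined
in `MP_021685_agSP/D0.lean`, `Explicit` and `Examples` in `MP_021685_agSP/DX.lean`, `Gens` in `MP_021685_agTAL/AD.lean`, `IsOver` in
`MP_021685_agTG/GD.lean`. -/

set_option autoImplicit false

namespace TPM

open Polynomial Module

/-- The fields `E i` are CM fields of degrees `2 (g i)`, and for any two embeddings `x`, `y` in `ℂ` of the fields (of one of them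
or of two of them), such that `y` is different from `x` and from its complex conjugate, there is an automorphism of `ℂ` which
changes `x` to its complex conjugate and fixes `y` (`TSP.Sep`). -/
def Family {r : ℕ} (g : Fin r → ℕ) (E : Fin r → Type) [∀ i, Field (E i)] [∀ i, NumberField (E i)] : Prop :=
  (∀ i, NumberField.IsCMField (E i) ∧ finrank ℚ (E i) = 2 * g i) ∧ TSP.Sep E

/-- The property of the polynomials `t i`: all number fields `E i` generated by roots of the `frobPoly q (t i)` are CM fields of
degree `2 g` with the property `TSP.Sep` (`Family`), and the product of the `frobPoly q (t i)` (the characteristic polynomial of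
the Frobenius of a product of abelian varieties with real Weil polynomials `t i`) is one of the polynomials over the `E i` for `q`
(`TGR.IsOver`). -/
def FrobOver (q g : ℕ) {r : ℕ} (t : Fin r → ℤ[X]) : Prop :=
  ∀ (E : Fin r → Type) [∀ i, Field (E i)] [∀ i, NumberField (E i)], (∀ i, HIA.IsFrobField q (t i) (E i)) →
    Family (fun _ => g) E ∧ TGR.IsOver q E (∏ i, TI.frobPoly q (t i))

end TPM
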