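import Pool.Agent.Lib.MP_021685_agTM.M0
import Pool.Agent.Lib.MP_021685_agTP.PE

/-!
# The relations between the roots, and the torus
-/

set_option autoImplicit false

namespace TPM

open Polynomial Module Function TPR

/-- The numbers `lam i` with the involution `bar`, and the set `S` of small numbers: the only relations modulo `S` are the trivial
ones. -/
structure RelSys (Q : ℕ) {ι : Type} [Fintype ι] (lam : ι → ℂ) (bar : ι → ι) (S : ℂ → Prop) : Prop where
  inj : Function.Injective lam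
  bb : ∀ i, bar (bar i) = i
  bn : ∀ i, bar i ≠ i
  mulbar : ∀ i, lam i * lam (bar i) = (Q : ℂ)
  one : S 1
  nat : S (Q : ℂ)
  mul : ∀ y y', S y → S y' → S (y * y')
  inv : ∀ y, y ≠ 0 → S y → S y⁻¹
  rel : ∀ (n : ι → ℤ) (y : ℂ), S y → (∏ i, lam i ^ n i) * y = 1 → ∀ i, n (bar i) = n i

variable {Q : ℕ} {ι : Type} [Fintype ι] {lam : ι → ℂ} {bar : ι → ι} {S : ℂ → Prop}

theorem RelSys.pow (h : RelSys Q lam bar S) {y : ℂ} (hy : S y) (n : ℕ) : S (y ^ n) := by
  induction n with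
  | zero =>
    rw [pow_zero]
    exact h.one
  | succ n ih =>
    rw [pow_succ]
    exact h.mul _ _ ih hy

theorem RelSys.zpow (h : RelSys Q lam bar S) {y : ℂ} (h0 : y ≠ 0) (hy : S y) (n : ℤ) : S (y ^ n) := by
  cases n with
  | ofNat n =>
    rw [Int.ofNat_eq_natCast, zpow_natCast]
    exact h.pow hy n
  | negSucc n =>
    rw [zpow_negSucc]
    exact h.inv _ (pow_ne_zero _ h0) (h.pow hy _)

theorem RelSys.prod (h : RelSys Q lam bar S) {k : ℕ} {s : Fin k → ℂ} (hs : ∀ a, s a ≠ 0 ∧ S (s a)) :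
    (∏ a, s a) ≠ 0 ∧ S (∏ a, s a) := by
  refine ⟨Finset.prod_ne_zero_iff.2 fun a _ => (hs a).1, ?_⟩
  refine Finset.prod_induction _ S (fun a b ha hb => h.mul a b ha hb) h.one fun a _ => (hs a).2

private theorem RA_single [DecidableEq ι] (lam : ι → ℂ) (i : ι) (m : ℤ) :
    ∏ j, lam j ^ (Pi.single i m : ι → ℤ) j = lam i ^ m := by
  rw [Finset.prod_eq_single i]
  · rw [Pi.single_eq_same]
  · intro j _ hj
    rw [Pi.single_eq_of_ne hj, zpow_zero]
  · intro h
    exact absurd (Finset.mem_univ i) h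

theorem RelSys.pow_ne (hR : RelSys Q lam bar S) (hQ : 1 < Q) {d : ℕ} (hd : 0 < d) (i : ι) :
    (∀ l, l ≠ i → lam l ^ d ≠ lam i ^ d) ∧ ∀ y, S y → y ^ d ≠ lam i ^ d := by
  classical
  have hq0c : (Q : ℂ) ≠ 0 := by
    have : Q ≠ 0 := by omega
    exact_mod_cast this
  have hbn := hR.bn
  have hlam0 : ∀ i, lam i ≠ 0 := by
    intro i h
    have h1 := hR.mulbar i
    rw [h, zero_mul] at h1
    exact hq0c h1.symm
  constructor
  · intro l hl h
    have h1 : ∏ j, lam j ^ (Pi.single i (d : ℤ) - Pi.single l (d : ℤ) : ι → ℤ) j = 1 := by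
      have h2 : ∀ j, lam j ^ (Pi.single i (d : ℤ) - Pi.single l (d : ℤ) : ι → ℤ) j =
          lam j ^ (Pi.single i (d : ℤ) : ι → ℤ) j / lam j ^ (Pi.single l (d : ℤ) : ι → ℤ) j := fun j => by
        rw [Pi.sub_apply, zpow_sub₀ (hlam0 j)]
      rw [Finset.prod_congr rfl fun j _ => h2 j, Finset.prod_div_distrib, RA_single, RA_single, zpow_natCast,
        zpow_natCast, h, div_self (pow_ne_zero _ (hlam0 i))]
    have h3 := hR.rel _ _ hR.one (by rw [h1, mul_one]) i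
    rw [Pi.sub_apply, Pi.sub_apply, Pi.single_eq_same, Pi.single_eq_of_ne (hbn i), Pi.single_eq_of_ne (Ne.symm hl)]
      at h3
    by_cases h4 : bar i = l
    · rw [h4, Pi.single_eq_same] at h3
      omega
    · rw [Pi.single_eq_of_ne h4] at h3
      omega
  · intro y hy h
    have hy0 : y ≠ 0 := by
      intro h0
      rw [h0, zero_pow hd.ne'] at h
      exact pow_ne_zero _ (hlam0 i) h.symm
    have h1 := hR.zpow hy0 hy (-(d : ℤ))
    have h2 : (∏ j, lam j ^ (Pi.single i (d : ℤ) : ι → ℤ) j) * y ^ (-(d : ℤ)) = 1 := by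
      rw [RA_single, zpow_natCast, zpow_neg, zpow_natCast, h, mul_inv_cancel₀ (pow_ne_zero _ (hlam0 i))]
    have h3 := hR.rel _ _ h1 h2 i
    rw [Pi.single_eq_same, Pi.single_eq_of_ne (hbn i)] at h3
    omega

private theorem RA_ext {H N : Type} [AddCommGroup H] [Module ℂ H] [AddCommGroup N] [Module ℂ N] {k : ℕ}
    (M : MultilinearMap ℂ (fun _ : Fin k => H) N) (S : Set H) (hS : ⊤ ≤ Submodule.span ℂ S)
    (h : ∀ v : Fin k → H, (∀ a, v a ∈ S) → M v = 0) : ∀ v, M v = 0 := by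
  have h1 : M = 0 := by
    refine Module.Basis.ext_multilinear (fun _ => Module.Basis.ofSpan hS) fun v => ?_
    show M _ = 0
    exact h _ fun a => Module.Basis.ofSpan_subset hS (Set.mem_range_self _)
  intro v
  rw [h1]
  rfl

private theorem RA_eig {H : Type} [AddCommGroup H] [Module ℂ H] {F : End ℂ H} {y : ℂ} {u : H}
    (hu : u ∈ F.maxGenEigenspace y) (hne : u ≠ 0) : ∃ w, w ≠ 0 ∧ F w = y • w := by
  classical
  rw [Module.End.mem_maxGenEigenspace] at hu
  have h0 := Nat.find_spec hu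
  have h1 : Nat.find hu ≠ 0 := by
    intro h
    rw [h, pow_zero] at h0
    exact hne h0
  obtain ⟨n, hn⟩ := Nat.exists_eq_succ_of_ne_zero h1
  refine ⟨((F - y • (1 : End ℂ H)) ^ n) u, fun h => ?_, ?_⟩
  · have := Nat.find_min' hu h
    omega
  · rw [hn, Nat.succ_eq_add_one, pow_succ', Module.End.mul_apply, LinearMap.sub_apply, LinearMap.smul_apply,
      Module.End.one_apply, sub_eq_zero] at h0
    exact h0

/-- The weights of the factors agree. -/
private theorem RA_count (hQ : 1 < Q) (hR : RelSys Q lam bar S) {d : ℕ} (hd : 0 < d) {j : ℤ} {k : ℕ} {y : Fin k → ℂ} (hy0 : ∀ a, y a ≠ 0)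
    (hy : ∀ a, (∃ l, y a = lam l) ∨ S (y a)) {z : ℂ} (hz : S z)
    (hyz : (∏ a, y a) ^ d * z ^ d = (Q : ℂ) ^ j) (i : ι) :
    (∑ a, if y a = lam (bar i) then 1 else 0 : ℕ) = ∑ a, if y a = lam i then 1 else 0 := by
  classical
  have hinj := hR.inj
  have hQ0 : (Q : ℂ) ≠ 0 := by
    have : Q ≠ 0 := by omega
    exact_mod_cast this
  have hz0 : z ≠ 0 := by
    intro h
    rw [h, zero_pow hd.ne', mul_zero] at hyz
    exact zpow_ne_zero j hQ0 hyz.symm
  have hlam0 : ∀ l, lam l ≠ 0 := by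
    intro l h
    have h1 := hR.mulbar l
    rw [h, zero_mul] at h1
    exact hQ0 h1.symm
  obtain ⟨s, hs⟩ : ∃ s : Fin k → ℂ, ∀ a, s a = if (∃ l, y a = lam l) then 1 else y a := ⟨_, fun _ => rfl⟩
  obtain ⟨cnt, hcnt⟩ : ∃ cnt : ι → ℕ, ∀ l, cnt l = ∑ a, if y a = lam l then 1 else 0 := ⟨_, fun _ => rfl⟩
  have h1 : ∀ a, y a = (∏ l, lam l ^ (if y a = lam l then 1 else 0 : ℕ)) * s a := by
    intro a
    rw [hs a]
    by_cases ha : ∃ l, y a = lam l
    · rw [if_pos ha, mul_one]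
      obtain ⟨l, hl⟩ := ha
      rw [Finset.prod_eq_single l]
      · rw [if_pos hl, pow_one, hl]
      · intro b _ hb
        rw [if_neg, pow_zero]
        intro h
        exact hb (hinj (h.symm.trans hl))
      · intro h
        exact absurd (Finset.mem_univ l) h
    · rw [if_neg ha, Finset.prod_eq_one, one_mul]
      intro l _
      rw [if_neg, pow_zero]
      exact fun h => ha ⟨l, h⟩
  have h2 : ∏ a, y a = (∏ l, lam l ^ cnt l) * ∏ a, s a := by
    rw [Finset.prod_congr rfl fun a _ => h1 a, Finset.prod_mul_distrib, Finset.prod_comm]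
    congr 1
    refine Finset.prod_congr rfl fun l _ => ?_
    rw [Finset.prod_pow_eq_pow_sum, hcnt]
  have h3 : ∀ a, s a ≠ 0 ∧ S (s a) := by
    intro a
    rw [hs a]
    by_cases ha : ∃ l, y a = lam l
    · rw [if_pos ha]
      exact ⟨one_ne_zero, hR.one⟩
    · rw [if_neg ha]
      exact ⟨hy0 a, (hy a).resolve_left ha⟩
  have h4 := hR.prod h3
  have h6 : S ((∏ a, s a) ^ (d : ℤ) * z ^ (d : ℤ) * (Q : ℂ) ^ (-j)) :=
    hR.mul _ _ (hR.mul _ _ (hR.zpow h4.1 h4.2 _) (hR.zpow hz0 hz _)) (hR.zpow hQ0 hR.nat _)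
  have h7 : (∏ l, lam l ^ (((d * cnt l : ℕ)) : ℤ)) * ((∏ a, s a) ^ (d : ℤ) * z ^ (d : ℤ) * (Q : ℂ) ^ (-j)) = 1 := by
    have h8 : (∏ l, lam l ^ (((d * cnt l : ℕ)) : ℤ)) = (∏ l, lam l ^ cnt l) ^ d := by
      rw [← Finset.prod_pow]
      refine Finset.prod_congr rfl fun l _ => ?_
      rw [zpow_natCast, mul_comm d, pow_mul]
    rw [h8, zpow_natCast, zpow_natCast, ← mul_assoc, ← mul_assoc, ← mul_pow, ← h2, hyz, ← zpow_add₀ hQ0, add_neg_cancel,
      zpow_zero]
  have h9 := hR.rel (fun l => ((d * cnt l : ℕ) : ℤ)) _ h6 h7 i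
  have h10 : d * cnt (bar i) = d * cnt i := by exact_mod_cast h9
  rw [← hcnt, ← hcnt]
  exact Nat.eq_of_mul_eq_mul_left hd h10

theorem RelSys.torus_kill {H W : Type} [AddCommGroup H] [Module ℂ H] [AddCommGroup W] [Module ℂ W] [FiniteDimensional ℂ H]
    [FiniteDimensional ℂ W] (hQ : 1 < Q) (hR : RelSys Q lam bar S) {F : End ℂ H} (hF0 : ∀ y, F.HasEigenvalue y → y ≠ 0)
    (hev : ∀ y, F.HasEigenvalue y → (∃ l, y = lam l) ∨ S y) {Φ : End ℂ W}
    (hsm : ∀ y, End.HasEigenvalue Φ y → S y) {d : ℕ} (hd : 0 < d) {j : ℤ} {k : ℕ}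
    {T : MultilinearMap ℂ (fun _ : Fin k => H) (W →ₗ[ℂ] ℂ)}
    (hT : ∀ v w, T (fun a => (F ^ d) (v a)) ((Φ ^ d) w) = (Q : ℂ) ^ j * T v w) (i : ι) {π π' : End ℂ H}
    (h1 : ∀ v ∈ F.maxGenEigenspace (lam i), π v = v) (h2 : ∀ y, y ≠ lam i → ∀ v ∈ F.maxGenEigenspace y, π v = 0)
    (h3 : ∀ v ∈ F.maxGenEigenspace (lam (bar i)), π' v = v)
    (h4 : ∀ y, y ≠ lam (bar i) → ∀ v ∈ F.maxGenEigenspace y, π' v = 0) : π' - π ∈ TGR.kill T := by
  classical
  have hne : lam i ≠ lam (bar i) := fun h => hR.bn i (hR.inj h).symm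
  have hact : ∀ y u, u ∈ F.maxGenEigenspace y → (π' - π) u =
      ((((if y = lam (bar i) then 1 else 0 : ℕ) : ℂ) - ((if y = lam i then 1 else 0 : ℕ) : ℂ))) • u := by
    intro y u hu
    rw [LinearMap.sub_apply]
    by_cases e1 : y = lam (bar i)
    · have e2 : y ≠ lam i := fun h => hne (h.symm.trans e1)
      rw [if_pos e1, if_neg e2, h2 y e2 u hu, h3 u (e1 ▸ hu)]
      push_cast
      rw [sub_zero, sub_zero, one_smul]
    · by_cases e2 : y = lam i
      · rw [if_neg e1, if_pos e2, h4 y e1 u hu, h1 u (e2 ▸ hu)]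
        push_cast
        rw [zero_sub, zero_sub, neg_smul, one_smul]
      · rw [if_neg e1, if_neg e2, h4 y e1 u hu, h2 y e2 u hu]
        push_cast
        rw [sub_zero, sub_zero, zero_smul]
  have hroot : ∀ y u, u ∈ F.maxGenEigenspace y → u ≠ 0 → y ≠ 0 ∧ ((∃ l, y = lam l) ∨ S y) := by
    intro y u hu hu0
    obtain ⟨w, hw0, hw⟩ := RA_eig hu hu0
    have e1 : End.HasEigenvalue F y :=
      Module.End.hasEigenvalue_of_hasEigenvector (x := w) ⟨Module.End.mem_eigenspace_iff.2 hw, hw0⟩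
    exact ⟨hF0 y e1, hev y e1⟩
  rw [TGR.mem_kill]
  intro v
  rw [← TGR.der_apply]
  refine RA_ext (TGR.der (π' - π) T) (⋃ y, (F.maxGenEigenspace y : Set H)) ?_ ?_ v
  · rw [← Module.End.iSup_maxGenEigenspace_eq_top F, Submodule.span_iUnion]
    refine iSup_mono fun y => ?_
    exact Submodule.subset_span
  · intro v hv
    have hv1 : ∀ a, ∃ y, v a ∈ F.maxGenEigenspace y := fun a => Set.mem_iUnion.1 (hv a)
    choose y hy using hv1
    rw [TGR.der_apply]
    have e1 : ∀ a, T (update v a ((π' - π) (v a))) =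
        ((((if y a = lam (bar i) then 1 else 0 : ℕ) : ℂ) - ((if y a = lam i then 1 else 0 : ℕ) : ℂ))) • T v := by
      intro a
      rw [hact (y a) (v a) (hy a), MultilinearMap.map_update_smul, update_eq_self]
    rw [Finset.sum_congr rfl fun a _ => e1 a, ← Finset.sum_smul]
    by_cases hTv : T v = 0
    · rw [hTv, smul_zero]
    · have hv0 : ∀ a, v a ≠ 0 := fun a h => hTv (T.map_coord_zero a h)
      obtain ⟨z, hz1, hz2⟩ := eig_prod hT (fun a => (hroot _ _ (hy a) (hv0 a)).1) hy hTv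
      have e2 := RA_count hQ hR hd (fun a => (hroot _ _ (hy a) (hv0 a)).1)
        (fun a => (hroot _ _ (hy a) (hv0 a)).2) (hsm z hz1) hz2 i
      have e3 : ∑ a, ((((if y a = lam (bar i) then 1 else 0 : ℕ) : ℂ) - ((if y a = lam i then 1 else 0 : ℕ) : ℂ))) = 0 := by
        rw [Finset.sum_sub_distrib, ← Nat.cast_sum, ← Nat.cast_sum, e2, sub_self]
      rw [e3, zero_smul]

end TPM
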