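import Pool.Agent.Lib.MP_021685_agTAF.FD
import Pool.Agent.Lib.MP_021685_agTM.RA

/-! The relations between the roots, from `TAF.FullFor` (as in `MP_021685_agTG/GN2.lean` and `GN3.lean`). -/

set_option autoImplicit false

namespace TPM

open Polynomial

private theorem RR_apply {ι : Type} [Fintype ι] [DecidableEq ι] (lam : ι → ℂ) (v : ι → ℂ) (i : ι) :
    Matrix.toLin' (Matrix.diagonal lam) v i = lam i * v i := by
  rw [Matrix.toLin'_apply, Matrix.mulVec_diagonal]

private theorem RR_single {ι : Type} [Fintype ι] [DecidableEq ι] (lam : ι → ℂ) (i : ι) :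
    Matrix.toLin' (Matrix.diagonal lam) (Pi.single i 1) = lam i • (Pi.single i 1 : ι → ℂ) := by
  funext j
  rw [RR_apply, Pi.smul_apply, smul_eq_mul]
  rcases eq_or_ne j i with h | h
  · rw [h]
  · rw [Pi.single_eq_of_ne h, mul_zero, mul_zero]

theorem diag_semisimple {ι : Type} [Fintype ι] [DecidableEq ι] (lam : ι → ℂ) :
    Module.End.IsSemisimple (Matrix.toLin' (Matrix.diagonal lam)) := by
  classical
  have hsq : Squarefree (∏ z ∈ Finset.univ.image lam, (X - C z)) := by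
    apply Polynomial.Separable.squarefree
    have := (Polynomial.separable_prod_X_sub_C_iff' (f := fun z : ℂ => z)
      (s := Finset.univ.image lam)).2 fun x _ y _ h => h
    exact this
  refine Module.End.isSemisimple_of_squarefree_aeval_eq_zero hsq ?_
  apply (Pi.basisFun ℂ ι).ext
  intro i
  rw [Pi.basisFun_apply, LinearMap.zero_apply]
  have hne : (Pi.single i 1 : ι → ℂ) ≠ 0 := by
    intro h
    have h1 := congrFun h i
    rw [Pi.single_eq_same, Pi.zero_apply] at h1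
    exact one_ne_zero h1
  have hev : Module.End.HasEigenvector (Matrix.toLin' (Matrix.diagonal lam)) (lam i)
      (Pi.single i 1 : ι → ℂ) :=
    ⟨Module.End.mem_eigenspace_iff.2 (RR_single lam i), hne⟩
  rw [Module.End.aeval_apply_of_hasEigenvector hev, Polynomial.eval_prod]
  have h0 : ∏ z ∈ Finset.univ.image lam, Polynomial.eval (lam i) (X - C z) = 0 := by
    refine Finset.prod_eq_zero (Finset.mem_image_of_mem lam (Finset.mem_univ i)) ?_
    rw [Polynomial.eval_sub, Polynomial.eval_X, Polynomial.eval_C, sub_self]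
  rw [h0, zero_smul]

private theorem RR_eig {y mu : ℂ} (h : Module.End.HasEigenvalue (y • (LinearMap.id : ℂ →ₗ[ℂ] ℂ)) mu) : mu = y := by
  obtain ⟨w, hw, hw0⟩ := h.exists_hasEigenvector
  rw [Module.End.mem_eigenspace_iff] at hw
  rw [LinearMap.smul_apply, LinearMap.id_apply, smul_eq_mul, smul_eq_mul] at hw
  exact (mul_right_cancel₀ hw0 hw).symm

theorem match_of_fullFor {q : ℕ} {P : ℤ[X]} {S : ℂ → Prop} (hF : TAF.FullFor q P S) {ι : Type} [Fintype ι]
    [DecidableEq ι] {lam : ι → ℂ} (hP : P.map (Int.castRingHom ℂ) = ∏ i, (X - C (lam i))) {k : ℕ} (s : Fin k → ι)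
    {y : ℂ} (hy : S y) (b : ℕ) (hs : (∏ a, lam (s a)) * y = ((Real.sqrt q : ℝ) : ℂ) ^ (k + b)) :
    ∃ (m : ℕ) (e : Fin m ⊕ Fin m ≃ Fin k), ∀ i,
      lam (s (e (Sum.inl i))) * lam (s (e (Sum.inr i))) = (q : ℂ) := by
  have hchar : (Matrix.toLin' (Matrix.diagonal lam)).charpoly = P.map (Int.castRingHom ℂ) := by
    rw [Matrix.charpoly_toLin', Matrix.charpoly_diagonal, hP]
  obtain ⟨T, hTv⟩ : ∃ T : MultilinearMap ℂ (fun _ : Fin k => ι → ℂ) (ℂ →ₗ[ℂ] ℂ),
      ∀ v w, T v w = (∏ a, v a (s a)) * w := by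
    refine ⟨(LinearMap.lsmul ℂ ℂ).compMultilinearMap ((MultilinearMap.mkPiAlgebra ℂ (Fin k) ℂ).compLinearMap
      fun a => (LinearMap.proj (s a) : (ι → ℂ) →ₗ[ℂ] ℂ)), fun v w => ?_⟩
    rw [LinearMap.compMultilinearMap_apply, MultilinearMap.compLinearMap_apply, MultilinearMap.mkPiAlgebra_apply]
    rfl
  have hT : ∀ v w, T (fun a => (Matrix.toLin' (Matrix.diagonal lam) ^ 1) (v a))
      ((y • (LinearMap.id : ℂ →ₗ[ℂ] ℂ)) w) = ((Real.sqrt q : ℝ) : ℂ) ^ (1 * (k + b)) * T v w := by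
    intro v w
    rw [hTv, hTv, pow_one, one_mul, ← hs, LinearMap.smul_apply, LinearMap.id_apply, smul_eq_mul]
    have h1 : ∏ a, Matrix.toLin' (Matrix.diagonal lam) (v a) (s a) = (∏ a, lam (s a)) * ∏ a, v a (s a) := by
      rw [← Finset.prod_mul_distrib]
      exact Finset.prod_congr rfl fun a _ => RR_apply lam (v a) (s a)
    rw [h1]
    ring
  have hspan := hF (ι → ℂ) ℂ (Matrix.toLin' (Matrix.diagonal lam)) (y • (LinearMap.id : ℂ →ₗ[ℂ] ℂ))
    (diag_semisimple lam) hchar (fun mu hmu => by rw [RR_eig hmu]; exact hy) 1 k b one_pos T hT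
  by_contra hcon
  have hz : ∀ T' ∈ Submodule.span ℂ {T' : MultilinearMap ℂ (fun _ : Fin k => ι → ℂ) (ℂ →ₗ[ℂ] ℂ) |
      TK.IsProdOver q 1 k b (Matrix.toLin' (Matrix.diagonal lam)) (y • (LinearMap.id : ℂ →ₗ[ℂ] ℂ)) T'},
      T' (fun a => Pi.single (s a) 1) 1 = 0 := by
    intro T' hT'
    induction hT' using Submodule.span_induction with
    | mem T₀ h =>
      obtain ⟨T₁, c, ⟨m, e, bb, hb, hprod⟩, hc, hTT⟩ := h
      rw [hTT, hprod]
      by_contra hne
      apply hcon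
      refine ⟨m, e, fun i => ?_⟩
      have hne1 := left_ne_zero_of_mul hne
      have hi := Finset.prod_ne_zero_iff.1 hne1 i (Finset.mem_univ i)
      have h1 := hb i (Pi.single (s (e (Sum.inl i))) 1) (Pi.single (s (e (Sum.inr i))) 1)
      rw [pow_one, pow_one, RR_single, RR_single, map_smul, map_smul, LinearMap.smul_apply,
        smul_eq_mul, smul_eq_mul, ← mul_assoc] at h1
      have h2 := mul_right_cancel₀ hi h1
      rw [mul_comm]
      exact h2
    | zero => rfl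
    | add x y _ _ hx hy => rw [add_apply, LinearMap.add_apply, hx, hy, add_zero]
    | smul c x _ hx => rw [smul_apply, LinearMap.smul_apply, hx, smul_zero]
  have h1 := hz T hspan
  rw [hTv] at h1
  have h2 : ∏ a, (Pi.single (s a) (1 : ℂ) : ι → ℂ) (s a) = 1 :=
    Finset.prod_eq_one fun a _ => Pi.single_eq_same _ _
  rw [h2, one_mul] at h1
  exact one_ne_zero h1

/-- No root of `P` is a square root of `q`. -/
theorem sq_ne_of_fullFor {q : ℕ} {P : ℤ[X]} {S : ℂ → Prop} (hF : TAF.FullFor q P S) (hS1 : S 1) {ι : Type} [Fintype ι]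
    [DecidableEq ι] {lam : ι → ℂ} (hP : P.map (Int.castRingHom ℂ) = ∏ i, (X - C (lam i))) (i : ι) :
    lam i ^ 2 ≠ (q : ℂ) := by
  intro hi
  have hchar : (Matrix.toLin' (Matrix.diagonal lam)).charpoly = P.map (Int.castRingHom ℂ) := by
    rw [Matrix.charpoly_toLin', Matrix.charpoly_diagonal, hP]
  have hs2 : ((Real.sqrt q : ℝ) : ℂ) ^ 2 = (q : ℂ) := by
    rw [← Complex.ofReal_pow, Real.sq_sqrt (Nat.cast_nonneg q), Complex.ofReal_natCast]
  obtain ⟨T, hTv⟩ : ∃ T : MultilinearMap ℂ (fun _ : Fin 1 => ι → ℂ) (ℂ →ₗ[ℂ] ℂ),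
      ∀ v w, T v w = (∏ a, v a i) * w := by
    refine ⟨(LinearMap.lsmul ℂ ℂ).compMultilinearMap ((MultilinearMap.mkPiAlgebra ℂ (Fin 1) ℂ).compLinearMap
      fun a => (LinearMap.proj i : (ι → ℂ) →ₗ[ℂ] ℂ)), fun v w => ?_⟩
    rw [LinearMap.compMultilinearMap_apply, MultilinearMap.compLinearMap_apply, MultilinearMap.mkPiAlgebra_apply]
    rfl
  have hT : ∀ v w, T (fun a => (Matrix.toLin' (Matrix.diagonal lam) ^ 2) (v a))
      (((1 : ℂ) • (LinearMap.id : ℂ →ₗ[ℂ] ℂ)) w) = ((Real.sqrt q : ℝ) : ℂ) ^ (2 * (1 + 0)) * T v w := by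
    intro v w
    have h0 : ((Real.sqrt q : ℝ) : ℂ) ^ (2 * (1 + 0)) = (q : ℂ) := hs2
    rw [hTv, hTv, Fin.prod_univ_one, Fin.prod_univ_one, pow_two, Module.End.mul_apply, RR_apply, RR_apply, one_smul,
      LinearMap.id_apply, h0, ← hi]
    ring
  have hspan := hF (ι → ℂ) ℂ (Matrix.toLin' (Matrix.diagonal lam)) ((1 : ℂ) • (LinearMap.id : ℂ →ₗ[ℂ] ℂ))
    (diag_semisimple lam) hchar (fun mu hmu => by rw [RR_eig hmu]; exact hS1) 2 1 0 two_pos T hT
  have hz : ∀ T' ∈ Submodule.span ℂ {T' : MultilinearMap ℂ (fun _ : Fin 1 => ι → ℂ) (ℂ →ₗ[ℂ] ℂ) |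
      TK.IsProdOver q 2 1 0 (Matrix.toLin' (Matrix.diagonal lam)) ((1 : ℂ) • (LinearMap.id : ℂ →ₗ[ℂ] ℂ)) T'},
      T' = 0 := by
    intro T' hT'
    induction hT' using Submodule.span_induction with
    | mem T₀ h =>
      obtain ⟨T₁, c, ⟨m, e, bb, hb, hprod⟩, hc, hTT⟩ := h
      have h1 := Fintype.card_congr e
      rw [Fintype.card_sum, Fintype.card_fin, Fintype.card_fin] at h1
      omega
    | zero => rfl
    | add x y _ _ hx hy => rw [hx, hy, add_zero]
    | smul c x _ hx => rw [hx, smul_zero]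
  have h1 := hz T hspan
  have h2 := hTv (fun _ => fun _ => 1) 1
  rw [h1, Fin.prod_univ_one, mul_one] at h2
  exact zero_ne_one h2

/-- a tuple which takes every value `i` exactly `c i` times -/
private theorem RR_tuple {ι : Type} [Fintype ι] [DecidableEq ι] (c : ι → ℕ) :
    ∃ s : Fin (∑ i, c i) → ι, ∀ i, (Finset.univ.filter fun a => s a = i).card = c i := by
  have hcard : Fintype.card (Σ i, Fin (c i)) = ∑ i, c i := by
    rw [Fintype.card_sigma]
    simp
  obtain ⟨e⟩ : Nonempty ((Σ i, Fin (c i)) ≃ Fin (∑ i, c i)) := ⟨Fintype.equivFinOfCardEq hcard⟩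
  refine ⟨fun a => (e.symm a).1, fun i => ?_⟩
  have h1 : (Finset.univ.filter fun a => (e.symm a).1 = i) =
      (Finset.univ : Finset (Fin (c i))).map ⟨fun x => e ⟨i, x⟩, fun x y h => by
        have h2 := e.injective h
        simpa using h2⟩ := by
    ext a
    simp only [Finset.mem_filter, Finset.mem_univ, true_and, Finset.mem_map, Function.Embedding.coeFn_mk]
    constructor
    · intro h
      obtain ⟨b, rfl⟩ := e.surjective a
      rw [Equiv.symm_apply_apply] at h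
      obtain ⟨j, x⟩ := b
      dsimp only at h
      subst h
      exact ⟨x, rfl⟩
    · rintro ⟨x, rfl⟩
      rw [Equiv.symm_apply_apply]
  rw [h1, Finset.card_map, Finset.card_univ, Fintype.card_fin]

theorem rel_of_fullFor {q : ℕ} (hq : 1 < q) {P : ℤ[X]} {S : ℂ → Prop} (hSm : ∀ y y', S y → S y' → S (y * y'))
    (hSn : ∀ n : ℕ, S ((q : ℂ) ^ n)) (hF : TAF.FullFor q P S)
    {ι : Type} [Fintype ι] [DecidableEq ι] {lam : ι → ℂ}
    (hP : P.map (Int.castRingHom ℂ) = ∏ i, (X - C (lam i))) (hinj : Function.Injective lam) (bar : ι → ι)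
    (hbb : ∀ i, bar (bar i) = i) (hbar : ∀ i, lam i * lam (bar i) = (q : ℂ)) (n : ι → ℤ) {y : ℂ}
    (hy : S y) (hn : (∏ i, lam i ^ n i) * y = 1) (i : ι) : n (bar i) = n i := by
  have hq0c : (q : ℂ) ≠ 0 := by
    have : q ≠ 0 := by omega
    exact_mod_cast this
  have hq0 : (0 : ℝ) < q := by
    have : 0 < q := by omega
    exact_mod_cast this
  have hlam : ∀ i, lam i ≠ 0 := by
    intro i h
    have h1 := hbar i
    rw [h, zero_mul] at h1
    exact hq0c h1.symm
  obtain ⟨p, hp⟩ : ∃ p : ι → ℕ, p = fun i => (n i).toNat := ⟨_, rfl⟩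
  obtain ⟨m, hm⟩ : ∃ m : ι → ℕ, m = fun i => (-n i).toNat := ⟨_, rfl⟩
  have hpm : ∀ i, (p i : ℤ) = n i + m i := by
    intro i
    rw [hp, hm]
    dsimp only
    omega
  obtain ⟨c, hc⟩ : ∃ c : ι → ℕ, c = fun i => p i + m (bar i) := ⟨_, rfl⟩
  have hinv : Function.Involutive bar := hbb
  have hsub : ∀ {M : Type} [CommMonoid M] (f : ι → M), ∏ i, f (bar i) = ∏ i, f i := by
    intro M _ f
    exact Equiv.prod_comp hinv.toPerm f
  have hsubs : ∀ f : ι → ℕ, ∑ i, f (bar i) = ∑ i, f i := by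
    intro f
    exact Equiv.sum_comp hinv.toPerm f
  have hpp : ∏ i, lam i ^ p i = (∏ i, lam i ^ n i) * ∏ i, lam i ^ m i := by
    have h1 : ∀ i, lam i ^ p i = lam i ^ n i * lam i ^ m i := by
      intro i
      rw [← zpow_natCast, hpm, zpow_add₀ (hlam i), zpow_natCast]
    rw [Finset.prod_congr rfl fun i _ => h1 i, Finset.prod_mul_distrib]
  have hprod : ∏ i, lam i ^ c i = (∏ i, lam i ^ n i) * (q : ℂ) ^ (∑ i, m i) := by
    have h1 : ∀ i, lam i ^ c i = lam i ^ p i * lam i ^ m (bar i) := by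
      intro i
      rw [hc]
      exact pow_add _ _ _
    rw [Finset.prod_congr rfl fun i _ => h1 i, Finset.prod_mul_distrib, hpp, mul_assoc]
    congr 1
    have h2 : ∏ i, lam i ^ m (bar i) = ∏ i, lam (bar i) ^ m i := by
      rw [← hsub fun i => lam i ^ m (bar i)]
      exact Finset.prod_congr rfl fun i _ => by rw [hbb]
    rw [h2, ← Finset.prod_mul_distrib, ← Finset.prod_pow_eq_pow_sum]
    refine Finset.prod_congr rfl fun i _ => ?_
    rw [← mul_pow, hbar]
  have hMk : ∑ i, m i ≤ ∑ i, c i := by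
    rw [hc, Finset.sum_add_distrib, hsubs m]
    omega
  have hy' : S (y * (q : ℂ) ^ (∑ i, c i - ∑ i, m i)) := hSm _ _ hy (hSn _)
  obtain ⟨s, hs⟩ := RR_tuple c
  have hsprod : (∏ a, lam (s a)) * (y * (q : ℂ) ^ (∑ i, c i - ∑ i, m i)) =
      ((Real.sqrt q : ℝ) : ℂ) ^ (∑ i, c i + ∑ i, c i) := by
    have h0 : ∏ a, lam (s a) = ∏ i, lam i ^ c i := by
      rw [← Finset.prod_fiberwise Finset.univ s fun a => lam (s a)]
      refine Finset.prod_congr rfl fun i _ => ?_
      rw [← hs i, ← Finset.prod_const]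
      refine Finset.prod_congr rfl fun a ha => ?_
      rw [(Finset.mem_filter.mp ha).2]
    have h1 : ((Real.sqrt q : ℝ) : ℂ) ^ (∑ i, c i + ∑ i, c i) = (q : ℂ) ^ (∑ i, c i) := by
      rw [← two_mul, pow_mul]
      congr 1
      rw [← Complex.ofReal_pow, Real.sq_sqrt hq0.le]
      norm_num
    rw [h0, h1, hprod]
    calc (∏ i, lam i ^ n i) * (q : ℂ) ^ (∑ i, m i) * (y * (q : ℂ) ^ (∑ i, c i - ∑ i, m i)) =
        ((∏ i, lam i ^ n i) * y) * ((q : ℂ) ^ (∑ i, m i) * (q : ℂ) ^ (∑ i, c i - ∑ i, m i)) := by ring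
      _ = (q : ℂ) ^ (∑ i, c i) := by rw [hn, one_mul, ← pow_add, Nat.add_sub_cancel' hMk]
  obtain ⟨m0, e, he⟩ := match_of_fullFor hF hP s hy' (∑ i, c i) hsprod
  have hr : ∀ x, s (e (Sum.inr x)) = bar (s (e (Sum.inl x))) := by
    intro x
    apply hinj
    have h1 := he x
    rw [← hbar (s (e (Sum.inl x)))] at h1
    exact mul_left_cancel₀ (hlam _) h1
  have hl : ∀ x, s (e (Sum.inl x)) = bar (s (e (Sum.inr x))) := by
    intro x
    rw [hr, hbb]
  have hswap : ∀ y, s (e y.swap) = bar (s (e y)) := by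
    intro y
    rcases y with x | x
    · exact hr x
    · exact hl x
  have hcc : c i = c (bar i) := by
    rw [← hs i, ← hs (bar i)]
    refine Finset.card_bij' (fun a _ => e (e.symm a).swap) (fun a _ => e (e.symm a).swap) ?_ ?_ ?_ ?_
    · intro a ha
      rw [Finset.mem_filter] at ha ⊢
      refine ⟨Finset.mem_univ _, ?_⟩
      rw [hswap, Equiv.apply_symm_apply, ha.2]
    · intro a ha
      rw [Finset.mem_filter] at ha ⊢
      refine ⟨Finset.mem_univ _, ?_⟩
      rw [hswap, Equiv.apply_symm_apply, ha.2, hbb]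
    · intro a _
      rw [Equiv.symm_apply_apply, Sum.swap_swap, Equiv.apply_symm_apply]
    · intro a _
      rw [Equiv.symm_apply_apply, Sum.swap_swap, Equiv.apply_symm_apply]
  rw [hc] at hcc
  dsimp only at hcc
  rw [hbb] at hcc
  have h1 := hpm i
  have h2 := hpm (bar i)
  have h3 : (p i : ℤ) + m (bar i) = p (bar i) + m i := by exact_mod_cast hcc
  linarith

end TPM
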