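import Pool.Agent.Lib.MP_021685_agTP.PD
import Pool.Agent.Lib.MP_021685_agTAF.FD

/-! Definitions used in the statement of `MP_021685_ag.AlmostAllLifts` (number fields: abelian varieties with good elements).
`HasForm`, `IsTate`, `IsPairing`, `IsProduct` are defined in `MP_021685_agTG/GD.lean` (with the dictionary), `IsSemisimple` in
`MP_021685_agTP/PD.lean`, `FullFor` in `MP_021685_agTAF/FD.lean`. -/

set_option autoImplicit false

namespace TPM

open Polynomial Module

/-- **`P` and `S` are good for `Q`**: `Q > 1`, `P` is monic with integral coefficients and without multiple roots, `|z| ^ 2 = Q` for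
all its complex roots `z`, `S` is a set of complex numbers which contains `1` and `Q`, the products of any two of its members, and
the inverses of its members, and `TAF.FullFor Q P S` holds: over all extensions of the field with `Q` elements, all Tate forms on
`V ^ k × W`, for an operator on `V` with characteristic polynomial `P` (the Frobenius of an abelian variety `A`) and any operator
on `W` with all eigenvalues in `S` (the Frobenius of a variety `Z`), are linear combinations of products of Tate pairings on `V` and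
one Tate form on `W` over the same extension (**there are no exotic Tate classes on the varieties `A ^ n × Z`**). -/
def Good (Q : ℕ) (P : ℤ[X]) (S : ℂ → Prop) : Prop :=
  1 < Q ∧ P.Monic ∧ (P.map (Int.castRingHom ℂ)).Separable ∧ (∀ z : ℂ, aeval z P = 0 → z * starRingEnd ℂ z = (Q : ℂ)) ∧
    S 1 ∧ S (Q : ℂ) ∧ (∀ y y', S y → S y' → S (y * y')) ∧ (∀ y, S y → S y⁻¹) ∧ TAF.FullFor Q P S

section

variable {G H : Type} [Group G] [AddCommGroup H] [Module ℂ H] (ρ : Representation ℂ G H)

/-- `U` is a piece of `H`: a non-zero subspace which is stable under a subgroup of finite index and such that every subspace of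
`U` which is stable under a subgroup of finite index is `0` or `U` (for an abelian variety `A`: the irreducible subspaces of
`H₁ (A)` over the algebraic closure of the ground field). -/
def IsPiece (U : Submodule ℂ H) : Prop :=
  U ≠ ⊥ ∧ (∃ G' : Subgroup G, G'.FiniteIndex ∧ ∀ g ∈ G', ∀ v ∈ U, ρ g v ∈ U) ∧
    ∀ (G' : Subgroup G) (S : Submodule ℂ H), G'.FiniteIndex → S ≤ U → (∀ g ∈ G', ∀ v ∈ S, ρ g v ∈ S) → S = ⊥ ∨ S = U

/-- The subspace `U` is symplectic: there is a bilinear form which is alternating and non-degenerate on `U`, with multiplier `μ`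
for a subgroup of finite index (the pieces of an abelian variety of type I or II in the classification of Albert are
symplectic). -/
def Symp (μ : G →* ℂˣ) (U : Submodule ℂ H) : Prop :=
  ∃ (G' : Subgroup G) (β : H →ₗ[ℂ] H →ₗ[ℂ] ℂ), G'.FiniteIndex ∧ (∀ u ∈ U, β u u = 0) ∧
    (∀ u ∈ U, (∀ v ∈ U, β u v = 0) → u = 0) ∧ ∀ g ∈ G', ∀ u ∈ U, ∀ v ∈ U, β (ρ g u) (ρ g v) = μ g * β u v

end

section

variable {G H W : Type} [Group G] [AddCommGroup H] [Module ℂ H] [AddCommGroup W] [Module ℂ W]

/-- `φ` is good for the polynomial `P` and the set `S` (`φ` is a Frobenius element for a place with a residue field of `Q`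
elements): `P` and `S` are good for `Q = μ (φ)` (`Good`), and all eigenvalues of `φ` on `W` are in `S`. -/
def GoodAt (σ : Representation ℂ G W) (μ : G →* ℂˣ) (φ : G) (P : ℤ[X]) (S : ℂ → Prop) : Prop :=
  ∃ Q : ℕ, Good Q P S ∧ (μ φ : ℂ) = Q ∧ ∀ y, End.HasEigenvalue (σ φ) y → S y

variable (R : G → ℤ[X] → (ℂ → Prop) → Prop) (ρ : Representation ℂ G H) (μ : G →* ℂˣ)

/-- The piece `U` has a good `φ` of its own, for a polynomial `P` and a set `S`: `U` is contained in a subspace `V` which is
stable under `φ`, all eigenvalues of `φ` on `V` are roots of `P` or in `S`, and a root `z` of `P` has multiplicity one on `V = H`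
and occurs on `U`, or it has multiplicity one on `U`, and `U` is symplectic. -/
def Own (U : Submodule ℂ H) : Prop :=
  ∃ (φ : G) (P : ℤ[X]) (S : ℂ → Prop) (V : Submodule ℂ H) (z : ℂ), R φ P S ∧ U ≤ V ∧ (∀ v ∈ V, ρ φ v ∈ V) ∧
    (∀ y, V ⊓ End.maxGenEigenspace (ρ φ) y ≠ ⊥ → aeval y P = 0 ∨ S y) ∧ aeval z P = 0 ∧
    ((V = ⊤ ∧ finrank ℂ (End.maxGenEigenspace (ρ φ) z) = 1 ∧ U ⊓ End.maxGenEigenspace (ρ φ) z ≠ ⊥) ∨
      (Symp ρ μ U ∧ finrank ℂ ↥(U ⊓ End.maxGenEigenspace (ρ φ) z) = 1))

/-- There are enough good elements: one good `φ` has the characteristic polynomial `P` on `H`; or the action on `H` is semisimple,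
every piece of dimension different from one has a good `φ` of its own, and so have the pieces of dimension one, or for one good
`φ` there is a root `z` of `P` for every piece of dimension one, on which it is the eigenvalue of `φ`, and different pieces have
different `z`. -/
def Enough [FiniteDimensional ℂ H] : Prop :=
  (∃ (φ : G) (P : ℤ[X]) (S : ℂ → Prop), R φ P S ∧ (ρ φ).charpoly = P.map (Int.castRingHom ℂ)) ∨
  (TPR.IsSemisimple ρ ∧ (∀ U : Submodule ℂ H, IsPiece ρ U → finrank ℂ U = 1 ∨ Own R ρ μ U) ∧
    ((∀ U : Submodule ℂ H, IsPiece ρ U → Own R ρ μ U) ∨ ∃ (φ : G) (P : ℤ[X]) (S : ℂ → Prop), R φ P S ∧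
      (∀ U : Submodule ℂ H, IsPiece ρ U → finrank ℂ U = 1 → ∃ z : ℂ, aeval z P = 0 ∧ U ≤ End.maxGenEigenspace (ρ φ) z) ∧
      ∀ (U U' : Submodule ℂ H) (z : ℂ), IsPiece ρ U → IsPiece ρ U' → finrank ℂ U = 1 → finrank ℂ U' = 1 →
        U ≤ End.maxGenEigenspace (ρ φ) z → U' ≤ End.maxGenEigenspace (ρ φ) z → U = U'))

end

/-- For all groups `G` with actions on `H`, which preserves a non-degenerate alternating form up to a character `μ`, and on `W`: if
there are enough good elements, then every Tate form over a finite extension (for a subgroup `G'` of finite index) is a linear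
combination of products of Tate pairings on `H` and of one Tate form on `W`, over a finite extension.  (`W = ℂ` with the trivial
action: every Tate form on `H` is a linear combination of products of Tate pairings.) -/
def FullG : Prop :=
  ∀ (G H W : Type) [Group G] [AddCommGroup H] [Module ℂ H] [FiniteDimensional ℂ H] [AddCommGroup W] [Module ℂ W]
    [FiniteDimensional ℂ W] (ρ : Representation ℂ G H) (σ : Representation ℂ G W) (μ : G →* ℂˣ), TGR.HasForm ρ μ →
      Enough (GoodAt σ μ) ρ μ →
        ∀ (G' : Subgroup G) (k : ℕ) (i : ℤ) (T : MultilinearMap ℂ (fun _ : Fin k => H) (W →ₗ[ℂ] ℂ)),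
          G'.FiniteIndex → TGR.IsTate ρ σ μ G' i T → ∃ G'' : Subgroup G, G''.FiniteIndex ∧
            T ∈ Submodule.span ℂ {T' : MultilinearMap ℂ (fun _ : Fin k => H) (W →ₗ[ℂ] ℂ) | TGR.IsProduct ρ σ μ G'' i T'}

end TPM
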