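import Pool.Agent.Lib.MP_021685_agTM.MD
import Pool.Agent.Lib.MP_021685_agTM.RR
import Pool.Agent.Lib.MP_021685_agTWF.W8
import Pool.Agent.Lib.MP_021685_agTAF.F2

/-! A polynomial without exotic Tate classes is good (without other factors). -/

set_option autoImplicit false

namespace TPM

open Polynomial TAF

private theorem GF_roots {P : ℤ[X]} (hm : P.Monic) : ∃ (n : ℕ) (lam : Fin n → ℂ),
    P.map (Int.castRingHom ℂ) = ∏ i, (X - C (lam i)) ∧ ∀ z : ℂ, aeval z P = 0 → ∃ i, lam i = z := by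
  classical
  set R : Multiset ℂ := (P.map (Int.castRingHom ℂ)).roots with hR
  have hmon : (P.map (Int.castRingHom ℂ)).Monic := hm.map _
  have hsplit : (R.map fun a => X - C a).prod = P.map (Int.castRingHom ℂ) :=
    ((IsAlgClosed.splits (P.map (Int.castRingHom ℂ))).eq_prod_roots_of_monic hmon).symm
  let L : List ℂ := R.toList
  let lam : Fin L.length → ℂ := fun i => L.get i
  have hP : P.map (Int.castRingHom ℂ) = ∏ i, (X - C (lam i)) := by
    rw [← hsplit, ← Multiset.coe_toList R, Multiset.map_coe, Multiset.prod_coe]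
    show _ = ∏ i : Fin L.length, (X - C (L.get i))
    rw [← List.prod_ofFn, ← List.ofFn_get (L.map fun a => X - C a)]
    congr 1
    apply List.ext_get
    · simp
    · intro n h1 h2
      simp [L]
  refine ⟨L.length, lam, hP, fun z hz => ?_⟩
  have h1 : z ∈ R := by
    rw [hR, mem_roots hmon.ne_zero, IsRoot.def, eval_map, ← algebraMap_int_eq]
    exact hz
  have h2 : z ∈ L := Multiset.mem_toList.2 h1
  obtain ⟨n, hn⟩ := List.get_of_mem h2
  exact ⟨n, hn⟩

private theorem GF_match {q : ℕ} {P : ℤ[X]} (hF : TI.Full q P) (hm : P.Monic) {T : Type} [Fintype T] (z : T → ℂ)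
    (hz : ∀ t, aeval (z t) P = 0) (hs : ∏ t, z t = ((Real.sqrt q : ℝ) : ℂ) ^ Fintype.card T) :
    ∃ (m : ℕ) (e : Fin m ⊕ Fin m ≃ T), ∀ i, z (e (Sum.inl i)) * z (e (Sum.inr i)) = (q : ℂ) := by
  classical
  obtain ⟨n, lam, hP, hmem⟩ := GF_roots hm
  choose i hi using fun t => hmem (z t) (hz t)
  let e := Fintype.equivFin T
  obtain ⟨m, e', he'⟩ := TWF.match_of_full hF hP (fun a : Fin (Fintype.card T) => i (e.symm a)) (by
    rw [← hs]
    refine (Finset.prod_congr rfl fun a _ => hi (e.symm a)).trans ?_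
    exact Equiv.prod_comp e.symm z)
  refine ⟨m, e'.trans e.symm, fun x => ?_⟩
  have h1 := he' x
  rw [hi, hi] at h1
  exact h1

private theorem GF_sq {q : ℕ} {P : ℤ[X]} (hF : TI.Full q P) (hm : P.Monic) {z : ℂ} (hz : aeval z P = 0) :
    z ^ 2 ≠ (q : ℂ) := by
  classical
  obtain ⟨n, lam, hP, hmem⟩ := GF_roots hm
  obtain ⟨i, rfl⟩ := hmem z hz
  intro hi
  have hchar : (Matrix.toLin' (Matrix.diagonal lam)).charpoly = P.map (Int.castRingHom ℂ) := by
    rw [Matrix.charpoly_toLin', Matrix.charpoly_diagonal, hP]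
  have hs2 : ((Real.sqrt q : ℝ) : ℂ) ^ 2 = (q : ℂ) := by
    rw [← Complex.ofReal_pow, Real.sq_sqrt (Nat.cast_nonneg q), Complex.ofReal_natCast]
  have happ : ∀ (v : Fin n → ℂ) (j : Fin n), Matrix.toLin' (Matrix.diagonal lam) v j = lam j * v j := by
    intro v j
    rw [Matrix.toLin'_apply, Matrix.mulVec_diagonal]
  have hT : TI.IsTate q 2 1 (Matrix.toLin' (Matrix.diagonal lam)) ((MultilinearMap.mkPiAlgebra ℂ (Fin 1) ℂ).compLinearMap
      fun _ => (LinearMap.proj i : (Fin n → ℂ) →ₗ[ℂ] ℂ)) := by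
    intro v
    rw [MultilinearMap.compLinearMap_apply, MultilinearMap.compLinearMap_apply, MultilinearMap.mkPiAlgebra_apply,
      MultilinearMap.mkPiAlgebra_apply, Fin.prod_univ_one, Fin.prod_univ_one, mul_one, hs2, ← hi]
    show (Matrix.toLin' (Matrix.diagonal lam) ^ 2) (v 0) i = lam i ^ 2 * v 0 i
    rw [pow_two, Module.End.mul_apply, happ, happ]
    ring
  have hspan := hF (Fin n → ℂ) (Matrix.toLin' (Matrix.diagonal lam)) (diag_semisimple lam) hchar 2 1 two_pos _ hT
  have hzero : ∀ T' ∈ Submodule.span ℂ {T' : MultilinearMap ℂ (fun _ : Fin 1 => Fin n → ℂ) ℂ |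
      TI.IsProduct q 2 1 (Matrix.toLin' (Matrix.diagonal lam)) T'}, T' = 0 := by
    intro T' hT'
    induction hT' using Submodule.span_induction with
    | mem T₀ h =>
      obtain ⟨m, e, -, -, -⟩ := h
      have h1 := Fintype.card_congr e
      rw [Fintype.card_sum, Fintype.card_fin, Fintype.card_fin] at h1
      omega
    | zero => rfl
    | add x y _ _ hx hy => rw [hx, hy, add_zero]
    | smul c x _ hx => rw [hx, smul_zero]
  have h1 := congrArg (fun T' : MultilinearMap ℂ (fun _ : Fin 1 => Fin n → ℂ) ℂ => T' fun _ => fun _ => 1) (hzero _ hspan)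
  rw [MultilinearMap.compLinearMap_apply, MultilinearMap.mkPiAlgebra_apply, Fin.prod_univ_one] at h1
  exact one_ne_zero h1

/-- **Without other factors**: if there are no exotic Tate classes on the powers of an abelian variety over the field with `Q`
elements with Frobenius polynomial `P`, then `P` is good. -/
theorem good_of_full {Q : ℕ} (hQ : 1 < Q) {P : ℤ[X]} (hm : P.Monic) (hsep : (P.map (Int.castRingHom ℂ)).Separable)
    (habs : ∀ z : ℂ, aeval z P = 0 → z * starRingEnd ℂ z = (Q : ℂ)) (hF : TI.Full Q P) :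
    Good Q P fun y => ∃ b : ℤ, y = (Q : ℂ) ^ b := by
  classical
  have hQC : (Q : ℂ) ≠ 0 := Nat.cast_ne_zero.2 (by omega)
  have hQR : (Q : ℝ) ≠ 0 := Nat.cast_ne_zero.2 (by omega)
  have hs2 : ((Real.sqrt Q : ℝ) : ℂ) ^ 2 = (Q : ℂ) := by
    rw [← Complex.ofReal_pow, Real.sq_sqrt (Nat.cast_nonneg Q), Complex.ofReal_natCast]
  refine ⟨hQ, hm, hsep, habs, ⟨0, (zpow_zero _).symm⟩, ⟨1, (zpow_one _).symm⟩, ?_, ?_, ?_⟩
  · rintro _ _ ⟨b, rfl⟩ ⟨b', rfl⟩
    exact ⟨b + b', (zpow_add₀ hQC b b').symm⟩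
  · rintro _ ⟨b, rfl⟩
    exact ⟨-b, (zpow_neg _ b).symm⟩
  refine full_of_match Q (by omega) P _ fun k d b z y hd hz hy hrel => ?_
  obtain ⟨c, rfl⟩ := hy
  have hnorm : ∀ a, ‖z a‖ ^ 2 = (Q : ℝ) := by
    intro a
    have h1 := habs (z a) (hz a)
    rw [Complex.mul_conj, Complex.normSq_eq_norm_sq] at h1
    exact_mod_cast h1
  have hz0 : ∀ a, z a ≠ 0 := by
    intro a h0
    have h1 := hnorm a
    rw [h0, norm_zero] at h1
    exact hQR (by rw [← h1]; norm_num)
  have hreal : ((Q : ℝ) ^ c) ^ 2 = (Q : ℝ) ^ (d * b) := by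
    have h1 := congrArg norm hrel
    rw [norm_mul, norm_pow, norm_pow, norm_pow, norm_zpow, norm_prod, Complex.norm_natCast, pow_mul,
      ← Finset.prod_pow, Finset.prod_congr rfl fun a _ => hnorm a, Finset.prod_const, Finset.card_univ,
      Fintype.card_fin, ← pow_mul, mul_add, pow_add, mul_comm k d] at h1
    exact mul_left_cancel₀ (pow_ne_zero _ hQR) h1
  have hcomp : ((Q : ℂ) ^ c) ^ 2 = (Q : ℂ) ^ (d * b) := by
    have h1 := congrArg (fun x : ℝ => (x : ℂ)) hreal
    push_cast at h1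
    exact h1
  have hprodQ : (∏ a, z a) ^ (2 * d) = (Q : ℂ) ^ (d * k) := by
    rw [hcomp, mul_add, pow_add] at hrel
    exact mul_right_cancel₀ (pow_ne_zero _ hQC) hrel
  let z' : Fin k × Fin (2 * d) → ℂ := fun t => z t.1
  have hprod : ∏ t, z' t = (∏ t, z t) ^ (2 * d) := by
    rw [Fintype.prod_prod_type, ← Finset.prod_pow]
    refine Finset.prod_congr rfl fun t _ => ?_
    show ∏ _y : Fin (2 * d), z t = _
    rw [Finset.prod_const, Finset.card_univ, Fintype.card_fin]
  have hcard : Fintype.card (Fin k × Fin (2 * d)) = 2 * (d * k) := by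
    rw [Fintype.card_prod, Fintype.card_fin, Fintype.card_fin]
    ring
  obtain ⟨m, e, he⟩ := GF_match hF hm z' (fun t => hz t.1) (by
    rw [hprod, hprodQ, hcard, pow_mul ((Real.sqrt Q : ℝ) : ℂ), hs2])
  have hbal : Bal Q z := by
    have h1 : Bal Q z' := by
      refine bal_of_pairing (by omega) ((e.symm.trans (Equiv.sumComm _ _)).trans e) fun t => ?_
      obtain ⟨x, rfl⟩ := e.surjective t
      rcases x with x | x
      · simp only [Equiv.trans_apply, Equiv.symm_apply_apply, Equiv.sumComm_apply, Sum.swap_inl]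
        exact he x
      · simp only [Equiv.trans_apply, Equiv.symm_apply_apply, Equiv.sumComm_apply, Sum.swap_inr]
        rw [mul_comm]
        exact he x
    intro c
    have h2 : ∀ c : ℂ, Nat.card {t // z' t = c} = Nat.card {t // z t = c} * (2 * d) := by
      intro c
      have h3 : {t // z' t = c} ≃ {t // z t = c} × Fin (2 * d) :=
        { toFun := fun t => (⟨t.1.1, t.2⟩, t.1.2)
          invFun := fun t => ⟨(t.1.1, t.2), t.1.2⟩
          left_inv := fun t => rfl
          right_inv := fun t => rfl }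
      rw [Nat.card_congr h3, Nat.card_prod, Nat.card_fin]
    have h4 := h1 c
    rw [h2, h2] at h4
    exact Nat.eq_of_mul_eq_mul_right (by omega) h4
  refine TI.matching z (Q : ℂ) hz0 (fun a => GF_sq hF hm (hz a)) fun a => ?_
  have h2 := hbal (z a)
  rw [Nat.card_eq_fintype_card, Nat.card_eq_fintype_card, Fintype.card_subtype, Fintype.card_subtype] at h2
  exact h2

end TPM
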