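import Pool.Agent.Lib.MP_021685_agTM.MD
import Pool.Agent.Lib.MP_021685_agTP.P0

/-! The context of the proof: no definition here occurs in the statement of the theorem. -/

set_option autoImplicit false

namespace TPM

open Module TPR

section

variable {G H X ι : Type} [Group G] [AddCommGroup H] [Module ℂ H] [Fintype X]

/-- `H` is the direct sum of the simple `G`-stable subspaces `U x`, with the projections `pr x`. -/
structure Dec (ρ : Representation ℂ G H) (U : X → Submodule ℂ H) (pr : X → End ℂ H) : Prop where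
  stab : ∀ x, Stab ρ ⊤ (U x)
  ne : ∀ x, U x ≠ ⊥
  simple : ∀ x, ∀ S ≤ U x, Stab ρ ⊤ S → S = ⊥ ∨ S = U x
  mem : ∀ x v, pr x v ∈ U x
  id : ∀ x, ∀ v ∈ U x, pr x v = v
  zero : ∀ x y, x ≠ y → ∀ v ∈ U y, pr x v = 0
  sum : ∀ v, ∑ x, pr x v = v
  comm : ∀ x g v, pr x (ρ g v) = ρ g (pr x v)

omit [Fintype X] in
/-- Two pieces of the decomposition are isomorphic. -/
def Iso (ρ : Representation ℂ G H) (pr : X → End ℂ H) (x y : X) : Prop :=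
  ∃ θ θ' : End ℂ H, (∀ g v, θ (ρ g v) = ρ g (θ v)) ∧ (∀ g v, θ' (ρ g v) = ρ g (θ' v)) ∧
    θ' * θ = pr x ∧ θ * θ' = pr y ∧ θ * pr x = θ ∧ θ' * pr y = θ'

/-- The context: a decomposition, a symplectic form with multiplier `μ`, such that `U x` is orthogonal to all the `U y`,
`y ≠ bar x`; every subspace which is stable under a subgroup of finite index is stable. -/
structure Cx (ρ : Representation ℂ G H) (μ : G →* ℂˣ) (U : X → Submodule ℂ H) (pr : X → End ℂ H) (bar : X → X)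
    (ψ : H →ₗ[ℂ] H →ₗ[ℂ] ℂ) : Prop where
  dec : Dec ρ U pr
  conn : ∀ K : Subgroup G, K.FiniteIndex → ∀ S : Submodule ℂ H, Stab ρ K S → Stab ρ ⊤ S
  alt : ∀ u, ψ u u = 0
  nd : ∀ u, (∀ v, ψ u v = 0) → u = 0
  sim : ∀ g u v, ψ (ρ g u) (ρ g v) = μ g * ψ u v
  bar_bar : ∀ x, bar (bar x) = x
  orth : ∀ x y, y ≠ bar x → ∀ u ∈ U x, ∀ v ∈ U y, ψ u v = 0

/-- The projections `pi i` to the (generalised eigen-) spaces `E i`; for every pairing with multiplier `μ` between stable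
subspaces, `pi (ib i)` is adjoint to `pi i`. -/
structure Spec (ρ : Representation ℂ G H) (μ : G →* ℂˣ) (ib : ι → ι) (E : ι → Submodule ℂ H) (pi : ι → End ℂ H) :
    Prop where
  mem : ∀ i v, pi i v ∈ E i
  id : ∀ i, ∀ v ∈ E i, pi i v = v
  off : ∀ i l, l ≠ i → ∀ v ∈ E l, pi i v = 0
  ib_ib : ∀ i, ib (ib i) = i
  ib_ne : ∀ i, ib i ≠ i
  stab : ∀ i S, Stab ρ ⊤ S → ∀ v ∈ S, pi i v ∈ S
  adj : ∀ (β : H →ₗ[ℂ] H →ₗ[ℂ] ℂ) (S S' : Submodule ℂ H), Stab ρ ⊤ S → Stab ρ ⊤ S' →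
    (∀ g, ∀ u ∈ S, ∀ v ∈ S', β (ρ g u) (ρ g v) = μ g * β u v) → ∀ i, ∀ u ∈ S, ∀ v ∈ S', β (pi i u) v = β u (pi (ib i) v)
  equi : ∀ θ : End ℂ H, (∀ g v, θ (ρ g v) = ρ g (θ v)) → ∀ i v, θ (pi i v) = pi i (θ v)

variable {W : Type} [AddCommGroup W] [Module ℂ W] {k : ℕ}

omit [Fintype X] in
/-- The skew endomorphisms which kill the form `T` and preserve all the pieces. -/
def Ap (T : MultilinearMap ℂ (fun _ : Fin k => H) (W →ₗ[ℂ] ℂ)) (ψ : H →ₗ[ℂ] H →ₗ[ℂ] ℂ) (U : X → Submodule ℂ H) :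
    Submodule ℂ (End ℂ H) where
  carrier := {Y | Y ∈ TGR.alg T ψ ∧ ∀ x, ∀ v ∈ U x, Y v ∈ U x}
  add_mem' := by
    rintro Y Z ⟨hY1, hY2⟩ ⟨hZ1, hZ2⟩
    exact ⟨add_mem hY1 hZ1, fun x v hv => add_mem (hY2 x v hv) (hZ2 x v hv)⟩
  zero_mem' := ⟨zero_mem _, fun x v _ => zero_mem _⟩
  smul_mem' := by
    rintro c Y ⟨hY1, hY2⟩
    exact ⟨Submodule.smul_mem _ _ hY1, fun x v hv => Submodule.smul_mem _ _ (hY2 x v hv)⟩

omit [Fintype X] in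
theorem mem_Ap {T : MultilinearMap ℂ (fun _ : Fin k => H) (W →ₗ[ℂ] ℂ)} {ψ : H →ₗ[ℂ] H →ₗ[ℂ] ℂ}
    {U : X → Submodule ℂ H} {Y : End ℂ H} :
    Y ∈ Ap T ψ U ↔ Y ∈ TGR.alg T ψ ∧ ∀ x, ∀ v ∈ U x, Y v ∈ U x := Iff.rfl

end

end TPM
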