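import Pool.Agent.Lib.MP_021685_agTM.M0

/-! LEAF QA (medium).  A semisimple action: the space is a direct sum of simple stable subspaces.

Say stable for `Stab ρ ⊤ S` (`∀ g ∈ ⊤, ∀ v ∈ S, ρ g v ∈ S`).  PROOF.  (1) By strong induction on the dimension: for every stable `S`
there are `n` and stable non-zero simple `U : Fin n → Submodule ℂ H` (simple: every stable `S' ≤ U x` is `⊥` or `U x`) with
`iSupIndep U` and `⨆ x, U x = S`.  If `S = ⊥` take `n = 0`.  Otherwise there is a minimal non-zero stable `U₀ ≤ S`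
(smallest dimension, or `wellFounded_lt.has_min`), it has a stable complement `S'` in `H` (`hss`), and `S'' = S ⊓ S'` is stable, with
`U₀ ⊔ S'' = S` (modular law: `sup_inf_assoc_of_le`), `Disjoint U₀ S''`, `finrank S'' < finrank S`.  By induction `S'' = ⨆ x, U x`; take
`Fin.cons U₀ U` (or use `Option (Fin n)`, `Fintype` and an equivalence with `Fin (n + 1)`; or work with finite sets of subspaces,
`sSupIndep`, and index them by `Fin n` at the end).
(Another way for (1): a maximal independent set of simple stable subspaces, compare the proof of `TPR.semisimple_normal`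
(`MP_021685_agTP/PH.lean`); it is finite by `WellFoundedGT.finite_of_sSupIndep`.)
(2) Apply this to `S = ⊤`.  Let `W x = ⨆ y ≠ x, U y`, stable, and `IsCompl (U x) (W x)` (from `iSupIndep` and `⨆ x, U x = ⊤`).  Let `pr x` be
the projection to `U x` along `W x` (`IsCompl.projection`, or `(U x).subtype ∘ₗ (U x).linearProjOfIsCompl (W x) h`).  `mem`, `id` clear; `zero`: `U y ≤ W x`
for `y ≠ x`; `sum`: both sides are linear in `v` and agree on every `U y`, and `⨆ y, U y = ⊤` (`Submodule.iSup_induction`);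
`comm`: for `v ∈ U y`, `ρ g v ∈ U y`, and both sides are `ρ g v` if `y = x` and `0` otherwise. -/

set_option autoImplicit false

namespace TPM

open Module TPR

private structure QA_D {G H : Type} [Group G] [AddCommGroup H] [Module ℂ H] (ρ : Representation ℂ G H)
    (S : Submodule ℂ H) (n : ℕ) (U : Fin n → Submodule ℂ H) (pr : Fin n → End ℂ H) : Prop where
  stab : ∀ x, Stab ρ ⊤ (U x)
  ne : ∀ x, U x ≠ ⊥
  simple : ∀ x, ∀ S ≤ U x, Stab ρ ⊤ S → S = ⊥ ∨ S = U x
  le : ∀ x, U x ≤ S
  mem : ∀ x v, pr x v ∈ U x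
  id : ∀ x, ∀ v ∈ U x, pr x v = v
  zero : ∀ x y, x ≠ y → ∀ v ∈ U y, pr x v = 0
  sum : ∀ v ∈ S, ∑ x, pr x v = v
  comm : ∀ x g v, pr x (ρ g v) = ρ g (pr x v)

private theorem QA_atom {G H : Type} [Group G] [AddCommGroup H] [Module ℂ H] [FiniteDimensional ℂ H]
    (ρ : Representation ℂ G H) : ∀ (n : ℕ) (S : Submodule ℂ H), finrank ℂ S = n → S ≠ ⊥ →
      Stab ρ ⊤ S → ∃ U ≤ S, U ≠ ⊥ ∧ Stab ρ ⊤ U ∧ ∀ S' ≤ U, Stab ρ ⊤ S' → S' = ⊥ ∨ S' = U := by
  intro n
  induction n using Nat.strong_induction_on with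
  | _ n ih =>
    intro S hn hS hst
    by_cases hmin : ∀ S' ≤ S, Stab ρ ⊤ S' → S' = ⊥ ∨ S' = S
    · exact ⟨S, le_rfl, hS, hst, hmin⟩
    · push Not at hmin
      obtain ⟨S', h1, h2, h3, h4⟩ := hmin
      have h5 : finrank ℂ S' < n := by
        rw [← hn]
        exact Submodule.finrank_lt_finrank_of_lt (lt_of_le_of_ne h1 h4)
      obtain ⟨U, hU, hA⟩ := ih _ h5 S' rfl h3 h2
      exact ⟨U, hU.trans h1, hA⟩

private theorem QA_proj {G H : Type} [Group G] [AddCommGroup H] [Module ℂ H]
    {ρ : Representation ℂ G H} {U C : Submodule ℂ H} (hU : Stab ρ ⊤ U) (hC : Stab ρ ⊤ C)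
    (h : IsCompl U C) : ∃ p : End ℂ H, (∀ v, p v ∈ U) ∧ (∀ v ∈ U, p v = v) ∧ (∀ v ∈ C, p v = 0) ∧
      (∀ v, v - p v ∈ C) ∧ ∀ g v, p (ρ g v) = ρ g (p v) := by
  obtain ⟨p, hp⟩ : ∃ p : End ℂ H, p = U.projection C h := ⟨_, rfl⟩
  have h1 : ∀ v, p v ∈ U := fun v => by
    rw [hp]
    exact Submodule.projection_apply_mem h v
  have h2 : ∀ v ∈ U, p v = v := fun v hv => by
    rw [hp]
    exact Submodule.projection_apply_of_mem_left h hv
  have h3 : ∀ v ∈ C, p v = 0 := fun v hv => by
    rw [hp, Submodule.projection_apply, (Submodule.projectionOnto_apply_eq_zero_iff h).2 hv]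
    rfl
  have h4 : ∀ v, v - p v ∈ C := fun v => by
    have h5 : v ∈ U ⊔ C := by
      rw [h.sup_eq_top]
      exact Submodule.mem_top
    obtain ⟨a, ha, c, hc, rfl⟩ := Submodule.mem_sup.1 h5
    rw [map_add, h2 a ha, h3 c hc, add_zero, add_sub_cancel_left]
    exact hc
  refine ⟨p, h1, h2, h3, h4, fun g v => ?_⟩
  have h6 : ρ g v = ρ g (p v) + ρ g (v - p v) := by
    rw [← map_add, add_sub_cancel]
  have h7 := h2 _ (hU g (Subgroup.mem_top g) _ (h1 v))
  have h8 := h3 _ (hC g (Subgroup.mem_top g) _ (h4 v))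
  rw [h6, map_add, h7, h8, add_zero]

private theorem QA_main {G H : Type} [Group G] [AddCommGroup H] [Module ℂ H] [FiniteDimensional ℂ H]
    {ρ : Representation ℂ G H} (hss : ∀ S, Stab ρ ⊤ S → ∃ S' : Submodule ℂ H, Stab ρ ⊤ S' ∧ IsCompl S S') :
    ∀ (m : ℕ) (S : Submodule ℂ H), finrank ℂ S = m → Stab ρ ⊤ S →
      ∃ (n : ℕ) (U : Fin n → Submodule ℂ H) (pr : Fin n → End ℂ H), QA_D ρ S n U pr := by
  intro m
  induction m using Nat.strong_induction_on with
  | _ m ih =>
    intro S hm hst
    by_cases hS : S = ⊥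
    · refine ⟨0, Fin.elim0, Fin.elim0, ?_⟩
      refine ⟨fun x => x.elim0, fun x => x.elim0, fun x => x.elim0, fun x => x.elim0, fun x => x.elim0,
        fun x => x.elim0, fun x => x.elim0, ?_, fun x => x.elim0⟩
      intro v hv
      rw [hS, Submodule.mem_bot] at hv
      rw [hv, Finset.univ_eq_empty, Finset.sum_empty]
    · obtain ⟨U₀, hle, hne, hU, hsim⟩ := QA_atom ρ _ S rfl hS hst
      obtain ⟨C, hC, hcomp⟩ := hss U₀ hU
      obtain ⟨p, h1, h2, h3, h4, h5⟩ := QA_proj hU hC hcomp
      have hst' : Stab ρ ⊤ (S ⊓ C) := fun g hg v hv => ⟨hst g hg v hv.1, hC g hg v hv.2⟩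
      have hlt : finrank ℂ (S ⊓ C : Submodule ℂ H) < m := by
        rw [← hm]
        refine Submodule.finrank_lt_finrank_of_lt (lt_of_le_of_ne inf_le_left ?_)
        intro he
        apply hne
        have h6 : U₀ ≤ C := hle.trans (inf_eq_left.1 he)
        have h7 : U₀ ≤ U₀ ⊓ C := le_inf le_rfl h6
        rw [hcomp.inf_eq_bot] at h7
        exact le_bot_iff.1 h7
      obtain ⟨n, U, pr, hD⟩ := ih _ hlt (S ⊓ C) rfl hst'
      refine ⟨n + 1, Fin.cons U₀ U, Fin.cons p fun x => pr x * (1 - p), ?_⟩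
      have hq : ∀ v : H, (1 - p) v = v - p v := fun v => rfl
      have hUC : ∀ x, ∀ v ∈ U x, p v = 0 := fun x v hv => h3 v (hD.le x hv).2
      refine ⟨?_, ?_, ?_, ?_, ?_, ?_, ?_, ?_, ?_⟩
      · intro x
        refine Fin.cases ?_ (fun x => ?_) x
        · rw [Fin.cons_zero]
          exact hU
        · rw [Fin.cons_succ]
          exact hD.stab x
      · intro x
        refine Fin.cases ?_ (fun x => ?_) x
        · rw [Fin.cons_zero]
          exact hne
        · rw [Fin.cons_succ]
          exact hD.ne x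
      · intro x
        refine Fin.cases ?_ (fun x => ?_) x
        · rw [Fin.cons_zero]
          exact hsim
        · rw [Fin.cons_succ]
          exact hD.simple x
      · intro x
        refine Fin.cases ?_ (fun x => ?_) x
        · rw [Fin.cons_zero]
          exact hle
        · rw [Fin.cons_succ]
          exact (hD.le x).trans inf_le_left
      · intro x v
        refine Fin.cases ?_ (fun x => ?_) x
        · rw [Fin.cons_zero, Fin.cons_zero]
          exact h1 v
        · rw [Fin.cons_succ, Fin.cons_succ]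
          exact hD.mem x _
      · intro x
        refine Fin.cases ?_ (fun x => ?_) x
        · rw [Fin.cons_zero, Fin.cons_zero]
          exact h2
        · rw [Fin.cons_succ, Fin.cons_succ]
          intro v hv
          rw [Module.End.mul_apply, hq, hUC x v hv, sub_zero]
          exact hD.id x v hv
      · intro x y
        refine Fin.cases ?_ (fun x => ?_) x
        · refine Fin.cases ?_ (fun y => ?_) y
          · intro h
            exact absurd rfl h
          · intro _ v hv
            rw [Fin.cons_succ] at hv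
            rw [Fin.cons_zero]
            exact hUC y v hv
        · refine Fin.cases ?_ (fun y => ?_) y
          · intro _ v hv
            rw [Fin.cons_zero] at hv
            rw [Fin.cons_succ, Module.End.mul_apply, hq, h2 v hv, sub_self, map_zero]
          · intro h v hv
            rw [Fin.cons_succ] at hv
            rw [Fin.cons_succ, Module.End.mul_apply, hq, hUC y v hv, sub_zero]
            exact hD.zero x y (fun he => h (by rw [he])) v hv
      · intro v hv
        rw [Fin.sum_univ_succ, Fin.cons_zero]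
        have h6 : v - p v ∈ S ⊓ C := ⟨sub_mem hv (hle (h1 v)), h4 v⟩
        have h7 := hD.sum _ h6
        have h8 : ∑ x : Fin n, (Fin.cons p (fun x => pr x * (1 - p)) : Fin (n + 1) → End ℂ H) x.succ v =
            ∑ x, pr x (v - p v) := by
          refine Finset.sum_congr rfl fun x _ => ?_
          rw [Fin.cons_succ]
          rfl
        rw [h8, h7, add_sub_cancel]
      · intro x g v
        refine Fin.cases ?_ (fun x => ?_) x
        · rw [Fin.cons_zero]
          exact h5 g v
        · rw [Fin.cons_succ, Module.End.mul_apply, Module.End.mul_apply, hq, hq, h5, ← map_sub]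
          exact hD.comm x g _

theorem exists_dec {G H : Type} [Group G] [AddCommGroup H] [Module ℂ H] [FiniteDimensional ℂ H]
    {ρ : Representation ℂ G H} (hss : ∀ S, Stab ρ ⊤ S → ∃ S' : Submodule ℂ H, Stab ρ ⊤ S' ∧ IsCompl S S') :
    ∃ (n : ℕ) (U : Fin n → Submodule ℂ H) (pr : Fin n → End ℂ H), Dec ρ U pr := by
  obtain ⟨n, U, pr, hD⟩ := QA_main hss _ ⊤ rfl fun g _ v _ => Submodule.mem_top
  exact ⟨n, U, pr, hD.stab, hD.ne, hD.simple, hD.mem, hD.id, hD.zero, fun v => hD.sum v Submodule.mem_top,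
    hD.comm⟩

end TPM
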