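import Pool.Agent.Lib.MP_021685_agTM.M0

/-! LEAF QC2 (easy+).  Generalised eigenvectors and a pairing with a multiplier.

PROOF.  By induction on `s`: for all `m n` with `m + n ≤ s`, `u ∈ S` with `((f - y • 1) ^ m) u = 0` and `v ∈ S'` with
`((f - y' • 1) ^ n) v = 0`: `β u v = 0`.  If `m = 0` or `n = 0` then `u = 0` or `v = 0`.  Otherwise let `u₁ = f u - y • u ∈ S`,
`v₁ = f v - y' • v ∈ S'`, killed by the powers `m - 1`, `n - 1`.  `β (f u) (f v) = β (y • u + u₁) (y' • v + v₁) = y * y' * β u v`, as the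
other three terms vanish by induction (`β u v₁`, `β u₁ v`, `β u₁ v₁`).  So `(q - y * y') * β u v = 0`.  (`Module.End.mem_maxGenEigenspace`.) -/

set_option autoImplicit false

namespace TPM

open Module TPR

private theorem QC2_aux {H : Type} [AddCommGroup H] [Module ℂ H] {f : End ℂ H} {β : H →ₗ[ℂ] H →ₗ[ℂ] ℂ}
    {S S' : Submodule ℂ H} (hS : ∀ v ∈ S, f v ∈ S) (hS' : ∀ v ∈ S', f v ∈ S') {q : ℂ}
    (hβ : ∀ u ∈ S, ∀ v ∈ S', β (f u) (f v) = q * β u v) {y y' : ℂ} (hne : y * y' ≠ q) (s : ℕ) :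
    ∀ m n : ℕ, m + n ≤ s → ∀ u ∈ S, ∀ v ∈ S', ((f - y • (1 : End ℂ H)) ^ m) u = 0 →
      ((f - y' • (1 : End ℂ H)) ^ n) v = 0 → β u v = 0 := by
  induction s with
  | zero =>
    intro m n hmn u _ v _ h1 _
    obtain rfl : m = 0 := by omega
    have h3 : u = 0 := by simpa using h1
    rw [h3, map_zero, LinearMap.zero_apply]
  | succ s ih =>
    intro m n hmn u hu v hv h1 h2
    rcases m with _ | m
    · have h3 : u = 0 := by simpa using h1
      rw [h3, map_zero, LinearMap.zero_apply]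
    rcases n with _ | n
    · have h3 : v = 0 := by simpa using h2
      rw [h3, map_zero]
    obtain ⟨u₁, hu₁⟩ : ∃ w, w = f u - y • u := ⟨_, rfl⟩
    obtain ⟨v₁, hv₁⟩ : ∃ w, w = f v - y' • v := ⟨_, rfl⟩
    have a1 : u₁ ∈ S := by
      rw [hu₁]
      exact S.sub_mem (hS u hu) (S.smul_mem y hu)
    have a2 : v₁ ∈ S' := by
      rw [hv₁]
      exact S'.sub_mem (hS' v hv) (S'.smul_mem y' hv)
    have b1 : ((f - y • (1 : End ℂ H)) ^ m) u₁ = 0 := by
      rw [pow_succ, Module.End.mul_apply] at h1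
      rw [hu₁]
      exact h1
    have b2 : ((f - y' • (1 : End ℂ H)) ^ n) v₁ = 0 := by
      rw [pow_succ, Module.End.mul_apply] at h2
      rw [hv₁]
      exact h2
    have c1 : β u v₁ = 0 := ih (m + 1) n (by omega) u hu v₁ a2 h1 b2
    have c2 : β u₁ v = 0 := ih m (n + 1) (by omega) u₁ a1 v hv b1 h2
    have c3 : β u₁ v₁ = 0 := ih m n (by omega) u₁ a1 v₁ a2 b1 b2
    have e1 : f u = y • u + u₁ := by rw [hu₁]; abel
    have e2 : f v = y' • v + v₁ := by rw [hv₁]; abel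
    have h3 := hβ u hu v hv
    rw [e1, e2] at h3
    simp only [map_add, map_smul, LinearMap.add_apply, LinearMap.smul_apply, smul_eq_mul, c1, c2, c3] at h3
    have h4 : (q - y * y') * β u v = 0 := by linear_combination -h3
    rcases mul_eq_zero.1 h4 with h5 | h5
    · exact absurd (sub_eq_zero.1 h5).symm hne
    · exact h5

theorem form_zero {H : Type} [AddCommGroup H] [Module ℂ H] {f : End ℂ H} {β : H →ₗ[ℂ] H →ₗ[ℂ] ℂ}
    {S S' : Submodule ℂ H} (hS : ∀ v ∈ S, f v ∈ S) (hS' : ∀ v ∈ S', f v ∈ S') {q : ℂ}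
    (hβ : ∀ u ∈ S, ∀ v ∈ S', β (f u) (f v) = q * β u v) {y y' : ℂ} (hne : y * y' ≠ q) {u v : H} (hu : u ∈ S)
    (hv : v ∈ S') (hu' : u ∈ f.maxGenEigenspace y) (hv' : v ∈ f.maxGenEigenspace y') : β u v = 0 := by
  obtain ⟨m, hm⟩ := (Module.End.mem_maxGenEigenspace f y u).1 hu'
  obtain ⟨n, hn⟩ := (Module.End.mem_maxGenEigenspace f y' v).1 hv'
  exact QC2_aux hS hS' hβ hne (m + n) m n le_rfl u hu v hv hm hn

end TPM
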