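import Pool.Agent.Lib.MP_021685_agTM.QC2

/-! LEAF QC3 (medium).  The projections to the generalised eigenspaces.

PROOF.  For `z : ℂ` write `f.charpoly = (X - C z) ^ n * m₁` with `m₁.eval z ≠ 0` (`exists_eq_pow_rootMultiplicity_mul_and_not_dvd`, see
`exists_proj` in `MP_021685_agTP/PC.lean`); `(X - C z) ^ n` and `m₁` are coprime, `a * (X - C z) ^ n + b * m₁ = 1`; let
`π z = aeval f (b * m₁)`.  (1) `((f - z) ^ n) (π z v) = aeval f (b * charpoly) v = 0`.  (2) If `v ∈ f.maxGenEigenspace z` then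
`((f - z) ^ n) v = 0`: the `N`-th power kills `v`, and so does `f.charpoly`; if `N ≤ n` clear; otherwise `(X - C z) ^ (N - n)` and `m₁` are coprime
and `(X - C z) ^ n = c * charpoly + c' * (X - C z) ^ N` (or: `Module.End.maxGenEigenspace_eq`..., or
`LinearMap.finrank_maxGenEigenspace_eq`; or choose `n` larger: take `n = finrank`: replace `(X - C z) ^ n` by `(X - C z) ^ (n + finrank ℂ H)`, which is
coprime to `m₁`, and use `Module.End.maxGenEigenspace_eq_genEigenspace_finrank`).  So `π z v = v - aeval f (a * (X - C z) ^ n) v = v`.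
(3) If `v ∈ f.maxGenEigenspace y`, `y ≠ z`: `m₁` is not enough alone: `aeval f m₁ v` is killed by `(f - z) ^ n` and by a power of
`f - y`, which are coprime polynomials, so it is `0`, and `π z v = 0`.
(4) `aeval f p` maps `S` to `S` (private `PC_mem` in `MP_021685_agTP/PC.lean`: copy it).
(5) Let `S`, `S'` be stable, `q ≠ 0`, `z * z' = q`.  `S` is the supremum of the `S ⊓ f.maxGenEigenspace y`
(`Submodule.eq_iSup_inf_genEigenspace` in `Mathlib/LinearAlgebra/Eigenspace/Triangularizable.lean`, with `k = ⊤` or `maxGenEigenspace`,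
`Module.End.iSup_maxGenEigenspace_eq_top`), and both sides are linear in `u` and in `v`, so (`Submodule.iSup_induction`) we may assume
`u ∈ S ⊓ f.maxGenEigenspace y`, `v ∈ S' ⊓ f.maxGenEigenspace y'`.  If `y = z` and `y' = z'` both sides are `β u v` (2).  If `y = z`, `y' ≠ z'`: the
right side is `0` (3), the left side is `β u v = 0` by `form_zero`, as `z * y' ≠ z * z' = q` (`z ≠ 0`).  If `y ≠ z`, `y' = z'`: the left side is
`0`, the right side `β u v = 0`, as `y * z' ≠ q` (`z' ≠ 0`).  If `y ≠ z`, `y' ≠ z'` both sides are `0`.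
(6) `θ` commutes with `aeval f p` (`Polynomial.induction_on'`, or `Commute`: `Algebra.commute..`, `Polynomial.aeval` of commuting elements). -/

set_option autoImplicit false

namespace TPM

open Polynomial Module TPR

private theorem QC3_mem {H : Type} [AddCommGroup H] [Module ℂ H] {f : End ℂ H} {S : Submodule ℂ H}
    (hS : ∀ v ∈ S, f v ∈ S) (p : ℂ[X]) : ∀ v ∈ S, aeval f p v ∈ S := by
  have hn : ∀ n : ℕ, ∀ v ∈ S, (f ^ n) v ∈ S := by
    intro n
    induction n with
    | zero =>
      intro v hv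
      rw [pow_zero, Module.End.one_apply]
      exact hv
    | succ n ih =>
      intro v hv
      rw [pow_succ', Module.End.mul_apply]
      exact hS _ (ih v hv)
  induction p using Polynomial.induction_on' with
  | add p q hp hq =>
    intro v hv
    rw [map_add, LinearMap.add_apply]
    exact S.add_mem (hp v hv) (hq v hv)
  | monomial n a =>
    intro v hv
    rw [aeval_monomial, ← Algebra.smul_def, LinearMap.smul_apply]
    exact S.smul_mem a (hn n v hv)

private theorem QC3_comm {H : Type} [AddCommGroup H] [Module ℂ H] {f θ : End ℂ H}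
    (hθ : ∀ v, θ (f v) = f (θ v)) (p : ℂ[X]) : ∀ v, θ (aeval f p v) = aeval f p (θ v) := by
  have hn : ∀ n : ℕ, ∀ v, θ ((f ^ n) v) = (f ^ n) (θ v) := by
    intro n
    induction n with
    | zero =>
      intro v
      rw [pow_zero, Module.End.one_apply, Module.End.one_apply]
    | succ n ih =>
      intro v
      rw [pow_succ', Module.End.mul_apply, Module.End.mul_apply, hθ, ih]
  induction p using Polynomial.induction_on' with
  | add p q hp hq =>
    intro v
    rw [map_add, LinearMap.add_apply, LinearMap.add_apply, map_add, hp, hq]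
  | monomial n a =>
    intro v
    rw [aeval_monomial, ← Algebra.smul_def, LinearMap.smul_apply, LinearMap.smul_apply, map_smul, hn]

private theorem QC3_one {H : Type} [AddCommGroup H] [Module ℂ H] [FiniteDimensional ℂ H]
    (f : End ℂ H) (z : ℂ) :
    ∃ p : ℂ[X], (∀ v, aeval f p v ∈ f.maxGenEigenspace z) ∧
      ∀ v ∈ f.maxGenEigenspace z, aeval f p v = v := by
  obtain ⟨m₁, hm, hd⟩ := exists_eq_pow_rootMultiplicity_mul_and_not_dvd f.charpoly
    (LinearMap.charpoly_monic f).ne_zero z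
  obtain ⟨n, hn⟩ : ∃ n, n = f.charpoly.rootMultiplicity z := ⟨_, rfl⟩
  rw [← hn] at hm
  have hco : IsCoprime ((X - C z) ^ (n + finrank ℂ H)) m₁ :=
    IsCoprime.pow_left (((irreducible_X_sub_C z).coprime_iff_not_dvd).2 hd)
  obtain ⟨a, b, hab⟩ := hco
  have hX : ∀ N : ℕ, aeval f ((X - C z) ^ N) = (f - z • (1 : End ℂ H)) ^ N := by
    intro N
    rw [map_pow, map_sub, aeval_X, aeval_C, Algebra.algebraMap_eq_smul_one]
  refine ⟨b * m₁, fun v => ?_, fun v hv => ?_⟩
  · rw [Module.End.mem_maxGenEigenspace]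
    refine ⟨n, ?_⟩
    rw [← hX, ← Module.End.mul_apply, ← map_mul]
    have h1 : (X - C z) ^ n * (b * m₁) = b * f.charpoly := by
      rw [hm]
      ring
    rw [h1, map_mul, LinearMap.aeval_self_charpoly, mul_zero, LinearMap.zero_apply]
  · have h1 : aeval f ((X - C z) ^ (n + finrank ℂ H)) v = 0 := by
      rw [Module.End.maxGenEigenspace_eq_genEigenspace_finrank, Module.End.mem_genEigenspace_nat,
        LinearMap.mem_ker] at hv
      rw [hX, pow_add, Module.End.mul_apply, hv, map_zero]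
    have h2 := congrArg (fun q => aeval f q v) hab
    simp only [map_add, map_one, LinearMap.add_apply, Module.End.one_apply] at h2
    rw [map_mul, Module.End.mul_apply, h1, map_zero, zero_add] at h2
    exact h2

private theorem QC3_form {H : Type} [AddCommGroup H] [Module ℂ H] [FiniteDimensional ℂ H]
    {f : End ℂ H} {π π' : End ℂ H} {β : H →ₗ[ℂ] H →ₗ[ℂ] ℂ} {S S' : Submodule ℂ H} {q z z' : ℂ}
    (hS : ∀ v ∈ S, f v ∈ S) (hS' : ∀ v ∈ S', f v ∈ S')
    (hβ : ∀ u ∈ S, ∀ v ∈ S', β (f u) (f v) = q * β u v) (hq : q ≠ 0) (hz : z * z' = q)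
    (h1 : ∀ v ∈ f.maxGenEigenspace z, π v = v)
    (h2 : ∀ y, y ≠ z → ∀ v ∈ f.maxGenEigenspace y, π v = 0)
    (h1' : ∀ v ∈ f.maxGenEigenspace z', π' v = v)
    (h2' : ∀ y, y ≠ z' → ∀ v ∈ f.maxGenEigenspace y, π' v = 0) :
    ∀ u ∈ S, ∀ v ∈ S', β (π u) v = β u (π' v) := by
  have hz0 : z ≠ 0 := by
    intro h
    rw [h, zero_mul] at hz
    exact hq hz.symm
  have hz0' : z' ≠ 0 := by
    intro h
    rw [h, mul_zero] at hz
    exact hq hz.symm
  have htop : ⨆ μ : ℂ, f.genEigenspace μ ⊤ = ⊤ := Module.End.iSup_maxGenEigenspace_eq_top f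
  have key : ∀ y y' : ℂ, ∀ u ∈ S, u ∈ f.maxGenEigenspace y → ∀ v ∈ S', v ∈ f.maxGenEigenspace y' →
      β (π u) v = β u (π' v) := by
    intro y y' u hu hu' v hv hv'
    by_cases hy : y = z
    · subst hy
      by_cases hy' : y' = z'
      · subst hy'
        rw [h1 u hu', h1' v hv']
      · rw [h1 u hu', h2' y' hy' v hv', map_zero]
        refine form_zero hS hS' hβ ?_ hu hv hu' hv'
        rw [← hz]
        exact fun h => hy' (mul_left_cancel₀ hz0 h)
    · by_cases hy' : y' = z'
      · subst hy'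
        rw [h2 y hy u hu', h1' v hv', map_zero, LinearMap.zero_apply]
        refine (form_zero hS hS' hβ ?_ hu hv hu' hv').symm
        rw [← hz]
        exact fun h => hy (mul_right_cancel₀ hz0' h)
      · rw [h2 y hy u hu', h2' y' hy' v hv', map_zero, map_zero, LinearMap.zero_apply]
  intro u hu
  rw [Submodule.eq_iSup_inf_genEigenspace (⊤ : ℕ∞) hS htop] at hu
  refine Submodule.iSup_induction (fun μ => S ⊓ f.genEigenspace μ ⊤)
    (motive := fun u => ∀ v ∈ S', β (π u) v = β u (π' v)) hu ?_ ?_ ?_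
  · intro y u hu1 v hv
    rw [Submodule.eq_iSup_inf_genEigenspace (⊤ : ℕ∞) hS' htop] at hv
    refine Submodule.iSup_induction (fun μ => S' ⊓ f.genEigenspace μ ⊤)
      (motive := fun v => β (π u) v = β u (π' v)) hv ?_ ?_ ?_
    · intro y' v hv1
      exact key y y' u hu1.1 hu1.2 v hv1.1 hv1.2
    · rw [map_zero, map_zero, map_zero]
    · intro v v' e e'
      rw [map_add, map_add, map_add, e, e']
  · intro v _
    rw [map_zero, map_zero, LinearMap.zero_apply, LinearMap.zero_apply]
  · intro u u' e e' v hv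
    rw [map_add, map_add, map_add, LinearMap.add_apply, LinearMap.add_apply, e v hv, e' v hv]

theorem exists_projs {H : Type} [AddCommGroup H] [Module ℂ H] [FiniteDimensional ℂ H] (f : End ℂ H) :
    ∃ π : ℂ → End ℂ H, (∀ z v, π z v ∈ f.maxGenEigenspace z) ∧ (∀ z, ∀ v ∈ f.maxGenEigenspace z, π z v = v) ∧
      (∀ z y, y ≠ z → ∀ v ∈ f.maxGenEigenspace y, π z v = 0) ∧
      (∀ z (S : Submodule ℂ H), (∀ v ∈ S, f v ∈ S) → ∀ v ∈ S, π z v ∈ S) ∧
      (∀ (β : H →ₗ[ℂ] H →ₗ[ℂ] ℂ) (S S' : Submodule ℂ H) (q z z' : ℂ), (∀ v ∈ S, f v ∈ S) → (∀ v ∈ S', f v ∈ S') →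
        (∀ u ∈ S, ∀ v ∈ S', β (f u) (f v) = q * β u v) → q ≠ 0 → z * z' = q →
          ∀ u ∈ S, ∀ v ∈ S', β (π z u) v = β u (π z' v)) ∧
      ∀ θ : End ℂ H, (∀ v, θ (f v) = f (θ v)) → ∀ z v, θ (π z v) = π z (θ v) := by
  choose p hp1 hp2 using QC3_one f
  have h3 : ∀ z y, y ≠ z → ∀ v ∈ f.maxGenEigenspace y, aeval f (p z) v = 0 := by
    intro z y hne v hv
    have e1 : aeval f (p z) v ∈ f.maxGenEigenspace y :=
      QC3_mem (fun w hw => Module.End.mapsTo_maxGenEigenspace_of_comm (Commute.refl f) y hw) (p z) v hv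
    have e2 := Module.End.disjoint_genEigenspace f hne ⊤ ⊤
    exact Submodule.disjoint_def.1 e2 _ e1 (hp1 z v)
  refine ⟨fun z => aeval f (p z), hp1, hp2, h3, fun z S hS => QC3_mem hS (p z), ?_,
    fun θ hθ z v => QC3_comm hθ (p z) v⟩
  intro β S S' q z z' hS hS' hβ hq hz
  exact QC3_form hS hS' hβ hq hz (hp2 z) (h3 z) (hp2 z') (h3 z')

end TPM
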