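import Pool.Agent.Lib.MP_021685_agTM.M0

/-! LEAF QD (medium).  The form adapted to the decomposition.

PROOF.  Choose the partner `b x` for `J x` (`choose!`), and the form `β x` for `¬ J x`.  Let `bar x = if J x then b x else x` (`classical`).  For `J x`:
(i) `ψ u v = 0` for `u ∈ U x`, `v ∈ U y'`, `y' ≠ b x`; (ii) `J (b x)`; (iii) `ψ ≠ 0` on `U x × U (b x)` (otherwise `ψ u v = ∑ y, ψ u (pr y v) = 0` for
`u ∈ U x`, `u ≠ 0`, all `v`: contradiction to `hnd`), so `ψ ≠ 0` on `U (b x) × U x` (`TPR.alt_neg`), so `x = b (b x)` by (i) for `b x`.  So `bar (bar x) = x`, and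
`J (bar x)` if `J x`.  Let `p = ∑ x with J x, pr x` (`Finset.univ.filter J`), an endomorphism: `p v = v` for `v ∈ U x`, `J x`, and `p v = 0` for `v ∈ U x`,
`¬ J x`; it commutes with `ρ g` (`hD.comm`).  Let `ψ' u v = ψ (p u) (p v) + ∑ x with ¬ J x, β x (pr x u) (pr x v)` (as a bilinear map:
`ψ.compl₁₂ p p + ∑ x with ¬ J x, (β x).compl₁₂ (pr x) (pr x)`, or `LinearMap.mk₂`).
`alt`: clear.  `sim`: `hψ`, `hβ`, `hD.comm`, `hD.mem`.  `orth`: let `u ∈ U x`, `v ∈ U y`, `y ≠ bar x`.  If `¬ J x`: `p u = 0`, and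
`β z (pr z u) (pr z v) = 0` for `z ≠ x` (`pr z u = 0`), and for `z = x` as `pr x v = 0` (`y ≠ x = bar x`).  If `J x`: the sum is zero (`pr z u = 0` as
`z ≠ x`); `ψ (p u) (p v) = ψ u (p v)`, which is `0` if `¬ J y` and `ψ u v = 0` by (i) if `J y`.
`nd`: let `ψ' u v = 0` for all `v`.  For `J y`, `v ∈ U y`: `ψ' u v = ψ (p u) v`, so `ψ (p u) v = 0`.  For `¬ J y`, `v ∈ U y`: `ψ (p u) v = ∑ x with J x, ψ (pr x u) v = 0`
by (i) (`y ≠ b x` as `J (b x)`).  So `ψ (p u) = 0` on all `U y`, `p u = 0` (`hnd`, `hD.sum`).  For `¬ J x`, `v ∈ U x`: `ψ' u v = β x (pr x u) v`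
(`p v = 0`), so `pr x u = 0` (`hβ`).  For `J x`: `pr x u = pr x (p u) = 0` (or: `u = ∑ x, pr x u = p u + ∑ x with ¬ J x, pr x u = 0`).  So `u = 0`. -/

set_option autoImplicit false

namespace TPM

open Module TPR

theorem exists_cx {G H X : Type} [Group G] [AddCommGroup H] [Module ℂ H] [Fintype X] {ρ : Representation ℂ G H}
    {μ : G →* ℂˣ} {U : X → Submodule ℂ H} {pr : X → End ℂ H} (hD : Dec ρ U pr)
    (hconn : ∀ K : Subgroup G, K.FiniteIndex → ∀ S : Submodule ℂ H, Stab ρ K S → Stab ρ ⊤ S)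
    {ψ : H →ₗ[ℂ] H →ₗ[ℂ] ℂ} (halt : ∀ u, ψ u u = 0) (hnd : ∀ u, (∀ v, ψ u v = 0) → u = 0)
    (hψ : ∀ g u v, ψ (ρ g u) (ρ g v) = μ g * ψ u v) {J : X → Prop}
    (hJ : ∀ x, J x → ∃ y, J y ∧ ∀ y', y' ≠ y → ∀ u ∈ U x, ∀ v ∈ U y', ψ u v = 0)
    (hβ : ∀ x, ¬ J x → ∃ β : H →ₗ[ℂ] H →ₗ[ℂ] ℂ, (∀ u ∈ U x, β u u = 0) ∧
      (∀ u ∈ U x, (∀ v ∈ U x, β u v = 0) → u = 0) ∧ ∀ g, ∀ u ∈ U x, ∀ v ∈ U x, β (ρ g u) (ρ g v) = μ g * β u v) :
    ∃ (bar : X → X) (ψ' : H →ₗ[ℂ] H →ₗ[ℂ] ℂ), Cx ρ μ U pr bar ψ' ∧ (∀ x, ¬ J x → bar x = x) ∧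
      ∀ x, J x → J (bar x) := by
  classical
  -- skew symmetry
  have hneg : ∀ u v, ψ u v = - ψ v u := by
    intro u v
    have h := halt (u + v)
    rw [map_add (ψ (u + v)), map_add ψ, LinearMap.add_apply, LinearMap.add_apply, halt u, halt v, zero_add, add_zero] at h
    exact eq_neg_of_add_eq_zero_right h
  -- the partner
  obtain ⟨bar, hbJ, hbn⟩ : ∃ bar : X → X, (∀ x, J x → J (bar x) ∧
      ∀ y', y' ≠ bar x → ∀ u ∈ U x, ∀ v ∈ U y', ψ u v = 0) ∧ ∀ x, ¬ J x → bar x = x := by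
    refine ⟨fun x => if h : J x then (hJ x h).choose else x, fun x hx => ?_, fun x hx => ?_⟩
    · beta_reduce
      rw [dif_pos hx]
      exact (hJ x hx).choose_spec
    · exact dif_neg hx
  obtain ⟨β, hβ1, hβ2, hβ3⟩ : ∃ β : X → (H →ₗ[ℂ] H →ₗ[ℂ] ℂ), (∀ x, ¬ J x → ∀ u ∈ U x, β x u u = 0) ∧
      (∀ x, ¬ J x → ∀ u ∈ U x, (∀ v ∈ U x, β x u v = 0) → u = 0) ∧
      (∀ x, ¬ J x → ∀ g, ∀ u ∈ U x, ∀ v ∈ U x, β x (ρ g u) (ρ g v) = μ g * β x u v) := by
    refine ⟨fun x => if h : J x then 0 else (hβ x h).choose, fun x hx => ?_, fun x hx => ?_, fun x hx => ?_⟩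
    · beta_reduce
      rw [dif_neg hx]
      exact (hβ x hx).choose_spec.1
    · beta_reduce
      rw [dif_neg hx]
      exact (hβ x hx).choose_spec.2.1
    · beta_reduce
      rw [dif_neg hx]
      exact (hβ x hx).choose_spec.2.2
  have hnz : ∀ x, J x → ∃ u ∈ U x, ∃ v ∈ U (bar x), ψ u v ≠ 0 := by
    intro x hx
    by_contra hcon
    push Not at hcon
    obtain ⟨u, hu, hu0⟩ := Submodule.exists_mem_ne_zero_of_ne_bot (hD.ne x)
    apply hu0
    apply hnd
    intro v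
    rw [← hD.sum v, map_sum]
    refine Finset.sum_eq_zero fun y _ => ?_
    by_cases hy : y = bar x
    · subst hy
      exact hcon u hu _ (hD.mem _ _)
    · exact (hbJ x hx).2 y hy u hu _ (hD.mem _ _)
  have hbb : ∀ x, bar (bar x) = x := by
    intro x
    by_cases hx : J x
    · by_contra hne
      obtain ⟨u, hu, v, hv, huv⟩ := hnz x hx
      apply huv
      rw [hneg, (hbJ (bar x) (hbJ x hx).1).2 x (fun h => hne h.symm) v hv u hu, neg_zero]
    · rw [hbn x hx, hbn x hx]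
  obtain ⟨p, hp⟩ : ∃ p : End ℂ H, p = ∑ x ∈ Finset.univ.filter J, pr x := ⟨_, rfl⟩
  have hpv : ∀ v, p v = ∑ x ∈ Finset.univ.filter J, pr x v := by
    intro v
    rw [hp, LinearMap.sum_apply]
  have hpJ : ∀ x, J x → ∀ v ∈ U x, p v = v := by
    intro x hx v hv
    rw [hpv, Finset.sum_eq_single x (fun y _ hy => hD.zero y x hy v hv)
      (fun h => absurd (Finset.mem_filter.2 ⟨Finset.mem_univ x, hx⟩) h), hD.id x v hv]
  have hpn : ∀ x, ¬ J x → ∀ v ∈ U x, p v = 0 := by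
    intro x hx v hv
    rw [hpv]
    refine Finset.sum_eq_zero fun y hy => hD.zero y x ?_ v hv
    rintro rfl
    exact hx (Finset.mem_filter.1 hy).2
  have hpc : ∀ g v, p (ρ g v) = ρ g (p v) := by
    intro g v
    rw [hpv, hpv, map_sum]
    exact Finset.sum_congr rfl fun y _ => hD.comm y g v
  obtain ⟨ψ', hψ'⟩ : ∃ ψ' : H →ₗ[ℂ] H →ₗ[ℂ] ℂ, ∀ u v, ψ' u v = ψ (p u) (p v) +
      ∑ x ∈ Finset.univ.filter (fun x => ¬ J x), β x (pr x u) (pr x v) := by
    refine ⟨ψ.compl₁₂ p p + ∑ x ∈ Finset.univ.filter (fun x => ¬ J x), (β x).compl₁₂ (pr x) (pr x), fun u v => ?_⟩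
    rw [LinearMap.add_apply, LinearMap.add_apply, LinearMap.compl₁₂_apply, LinearMap.sum_apply, LinearMap.sum_apply]
    rfl
  have horth : ∀ x y, y ≠ bar x → ∀ u ∈ U x, ∀ v ∈ U y, ψ' u v = 0 := by
    intro x y hy u hu v hv
    rw [hψ']
    by_cases hx : J x
    · have h1 : ∑ z ∈ Finset.univ.filter (fun x => ¬ J x), β z (pr z u) (pr z v) = 0 := by
        refine Finset.sum_eq_zero fun z hz => ?_
        have hzx : z ≠ x := by
          rintro rfl
          exact (Finset.mem_filter.1 hz).2 hx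
        rw [hD.zero z x hzx u hu, map_zero, LinearMap.zero_apply]
      rw [h1, add_zero, hpJ x hx u hu]
      by_cases hJy : J y
      · rw [hpJ y hJy v hv]
        exact (hbJ x hx).2 y hy u hu v hv
      · rw [hpn y hJy v hv, map_zero]
    · rw [hpn x hx u hu, map_zero, LinearMap.zero_apply, zero_add]
      refine Finset.sum_eq_zero fun z hz => ?_
      by_cases hzx : z = x
      · subst hzx
        rw [hbn z hx] at hy
        rw [hD.zero z y (fun h => hy h.symm) v hv, map_zero]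
      · rw [hD.zero z x hzx u hu, map_zero, LinearMap.zero_apply]
  refine ⟨bar, ψ', ⟨hD, hconn, ?_, ?_, ?_, hbb, horth⟩, hbn, fun x hx => (hbJ x hx).1⟩
  · intro u
    rw [hψ', halt, zero_add]
    exact Finset.sum_eq_zero fun z hz => hβ1 z (Finset.mem_filter.1 hz).2 _ (hD.mem _ _)
  · intro u hu
    have hv1 : ∀ y, ∀ v ∈ U y, ψ (p u) v = 0 := by
      intro y v hv
      by_cases hy : J y
      · have h1 := hu v
        rw [hψ', hpJ y hy v hv, Finset.sum_eq_zero, add_zero] at h1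
        · exact h1
        · intro z hz
          have hzy : z ≠ y := by
            rintro rfl
            exact (Finset.mem_filter.1 hz).2 hy
          rw [hD.zero z y hzy v hv, map_zero]
      · rw [hpv, map_sum, LinearMap.sum_apply]
        refine Finset.sum_eq_zero fun x hx => ?_
        have hxJ := (Finset.mem_filter.1 hx).2
        refine (hbJ x hxJ).2 y ?_ _ (hD.mem _ _) v hv
        rintro rfl
        exact hy (hbJ x hxJ).1
    have hpu : p u = 0 := by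
      apply hnd
      intro v
      rw [← hD.sum v, map_sum]
      exact Finset.sum_eq_zero fun y _ => hv1 y _ (hD.mem _ _)
    have hxu : ∀ x, ¬ J x → pr x u = 0 := by
      intro x hx
      refine hβ2 x hx _ (hD.mem _ _) fun v hv => ?_
      have h1 := hu v
      rw [hψ', hpu, map_zero, LinearMap.zero_apply, zero_add, Finset.sum_eq_single x] at h1
      · rwa [hD.id x v hv] at h1
      · intro z _ hzx
        rw [hD.zero z x hzx v hv, map_zero]
      · intro h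
        exact absurd (Finset.mem_filter.2 ⟨Finset.mem_univ x, hx⟩) h
    rw [← hD.sum u, ← Finset.sum_filter_add_sum_filter_not Finset.univ J, ← hpv, hpu, zero_add]
    exact Finset.sum_eq_zero fun z hz => hxu z (Finset.mem_filter.1 hz).2
  · intro g u v
    rw [hψ', hψ', hpc, hpc, hψ, mul_add, Finset.mul_sum]
    congr 1
    refine Finset.sum_congr rfl fun z hz => ?_
    rw [hD.comm, hD.comm]
    exact hβ3 z (Finset.mem_filter.1 hz).2 g _ (hD.mem _ _) _ (hD.mem _ _)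

end TPM
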