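import Pool.Agent.Lib.MP_021685_agTM.M0
import Pool.Agent.Lib.MP_021685_agTP.PO

/-! LEAF QF (medium-).  A piece with an element of rank two in the Lie algebra.

PROOF.  Apply `TPR.piece_mem` (`MP_021685_agTP/PO.lean`) for `G' = K = ⊤`, `ι = Bool`, the vectors `cond · e f` (`true ↦ e`, `false ↦ f`), the involution
`Bool.not`, `j = true`.  `orb ρ ⊤ e = U x`: `orb ρ ⊤ e ≤ U x` (`TPR.orb_le`), stable (`TPR.orb_stab`), not `⊥` (`TPR.mem_orb`, `e ≠ 0` as `ψ e f ≠ 0`), so `U x` by
`hC.dec.simple`; in the same way `orb ρ ⊤ f = U (bar x)`.  `hne`, `hkill`: for `false` with `TPR.alt_neg`, `TPR.sq_comm`.  `hsimple`: `Stab ρ K' S` for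
`K'` of finite index gives `Stab ρ ⊤ S` (`hC.conn`), and `hC.dec.simple`.  `horth`: for `j`, `l : Bool`: `U` of the index of `l` is not `U` of the index of the
partner of `j`, so the indices are different, and `hC.orth` (with `bar_bar`).  The result `sq ψ u v ∈ TGR.alg T ψ = kill T ⊓ sp ψ`. -/

set_option autoImplicit false

namespace TPM

open Module TPR

theorem piece_one {G H W X : Type} [Group G] [AddCommGroup H] [Module ℂ H] [FiniteDimensional ℂ H] [AddCommGroup W]
    [Module ℂ W] [Fintype X] {ρ : Representation ℂ G H} {σ : Representation ℂ G W} {μ : G →* ℂˣ}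
    {U : X → Submodule ℂ H} {pr : X → End ℂ H} {bar : X → X} {ψ : H →ₗ[ℂ] H →ₗ[ℂ] ℂ} (hC : Cx ρ μ U pr bar ψ) {k : ℕ}
    {m : ℤ} {T : MultilinearMap ℂ (fun _ : Fin k => H) (W →ₗ[ℂ] ℂ)} (hT : TGR.IsTate ρ σ μ ⊤ m T) {x : X} {e f : H}
    (he : e ∈ U x) (hf : f ∈ U (bar x)) (hef : ψ e f ≠ 0) (hk : sq ψ e f ∈ TGR.kill T) {u v : H} (hu : u ∈ U x)
    (hv : v ∈ U (bar x)) : sq ψ u v ∈ TGR.kill T := by
  have he0 : e ≠ 0 := by
    rintro rfl
    exact hef (by rw [map_zero, LinearMap.zero_apply])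
  have hf0 : f ≠ 0 := by
    rintro rfl
    exact hef (by rw [map_zero])
  have horb : ∀ (y : X) (w : H), w ∈ U y → w ≠ 0 → orb ρ ⊤ w = U y := by
    intro y w hw hw0
    refine (hC.dec.simple y _ (orb_le (hC.dec.stab y) hw) (orb_stab ⊤ w)).resolve_left ?_
    intro h
    have h1 : w ∈ orb ρ ⊤ w := mem_orb ⊤ w
    rw [h, Submodule.mem_bot] at h1
    exact hw0 h1
  let ev : Bool → H := fun j => cond j e f
  let yv : Bool → X := fun j => cond j x (bar x)
  have hev0 : ∀ j, ev j ≠ 0 := by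
    intro j
    cases j
    · exact hf0
    · exact he0
  have hevU : ∀ j, ev j ∈ U (yv j) := by
    intro j
    cases j
    · exact hf
    · exact he
  have horbj : ∀ j, orb ρ ⊤ (ev j) = U (yv j) := fun j => horb (yv j) (ev j) (hevU j) (hev0 j)
  have hbar : ∀ j, bar (yv j) = yv (!j) := by
    intro j
    cases j
    · exact hC.bar_bar x
    · rfl
  have hne : ∀ j, ψ (ev j) (ev (!j)) ≠ 0 := by
    intro j
    cases j
    · show ψ f e ≠ 0
      rw [alt_neg hC.alt]
      exact neg_ne_zero.2 hef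
    · exact hef
  have hkill : ∀ j, sq ψ (ev j) (ev (!j)) ∈ TGR.kill T := by
    intro j
    cases j
    · show sq ψ f e ∈ TGR.kill T
      rw [sq_comm]
      exact hk
    · exact hk
  have h := piece_mem (ρ := ρ) (σ := σ) (μ := μ) (ψ := ψ) hC.alt hC.sim hT (K := ⊤) inferInstance le_rfl
    (ι := Bool) (e := ev) hev0 (bar := fun j => !j) Bool.not_not hne hkill
    (by
      intro K' _ hK' j S hle hS
      rw [horbj j] at hle ⊢
      exact hC.dec.simple (yv j) S hle (hC.conn K' hK' S hS))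
    (by
      intro j l hjl p hp q hq
      rw [horbj l, horbj (!j)] at hjl
      rw [horbj j] at hp
      rw [horbj l] at hq
      refine hC.orth (yv j) (yv l) ?_ p hp q hq
      rw [hbar j]
      intro h1
      exact hjl (by rw [h1]))
    true (u := u) (v := v) (by rw [horbj true]; exact hu) (by
      show v ∈ orb ρ ⊤ (ev false)
      rw [horbj false]
      exact hv)
  exact h.1

end TPM
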