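import Pool.Agent.Lib.MP_021685_agTM.M0
import Pool.Agent.Lib.MP_021685_agTP.PJ
import Pool.Agent.Lib.MP_021685_agTP.PC2
import Pool.Agent.Lib.MP_021685_agTP.PL2
import Pool.Agent.Lib.MP_021685_agTG.GA

/-! LEAF QG (medium-).  The Lie algebra restricted to a symplectic piece is the whole symplectic Lie algebra.

Notation: `Ap T ψ U` (`M0.lean`, `mem_Ap`) are the endomorphisms in `TGR.alg T ψ = kill T ⊓ sp ψ` which preserve all the pieces `U y`.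

PROOF of `Ap_lie`, `Ap_conj`.  `TGR.kill_bracket` (`MP_021685_agTG/GA.lean`), for `sp` the computation `hlie` in the proof of `TPR.piece_mem`
(`MP_021685_agTP/PO.lean`); `TGR.kill_conj hT`, `TGR.sp_conj hψ g` (as `hn` there), `ρ g⁻¹` and `ρ g` preserve the pieces (`hC.dec.stab`).

PROOF of `restr`.  Let `p = pr x` and `𝔟 = {Z | ∃ Y ∈ Ap T ψ U, Z = Y * p}` (`Submodule.map` of `LinearMap.mulRight ℂ p`, or by hand): a submodule.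
(1) Lie: `p * Z * p = Z * p` for `Z` preserving `U x` (`hC.dec.mem`, `id`), so `(Y * p) * (Z * p) - (Z * p) * (Y * p) = (Y * Z - Z * Y) * p`.
(2) skew: `ψ (Y (p u)) v = ψ (Y (p u)) (p v)` as `Y (p u) ∈ U x`, `v = ∑ y, pr y v` and `ψ` is zero on `U x × U y`, `y ≠ x = bar x` (`hC.orth`); in the same way
`ψ u (Y (p v)) = ψ (p u) (Y (p v))`; the sum is zero as `Y` is skew.
(3) `sq ψ e f = τ * p ∈ 𝔟`: for `v`, `sq ψ e f v = sq ψ e f (p v)` by orthogonality (as in (2)), which is `τ (p v)`.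
(4) `𝔟` preserves `U x`.  (5) `𝔟` is normalised: `ρ g * (Y * p) * ρ g⁻¹ = (ρ g * Y * ρ g⁻¹) * p` (`hC.dec.comm`), `Ap_conj`.
(6) `TPR.clifford` (`MP_021685_agTP/PJ.lean`) for `K = ⊤`, `𝔞 = 𝔟`, `V = U x`, the vector `e` (`hVs` from `hC.conn` and `hC.dec.simple`; `⊤` has finite index: `inferInstance`), with
`hstar` from `TPR.star hC.alt hef` (`MP_021685_agTP/PC2.lean`): every `𝔟`-stable `S ≤ U x`, `S ≠ ⊥`, is `U x`.
(7) `TPR.rk` (`MP_021685_agTP/PL2.lean`) for `𝔟`, `V = V' = U x`: `sq ψ u v ∈ 𝔟`, so `sq ψ u v = Y * p` with `Y ∈ Ap T ψ U`, and on `U x` it is `Y`. -/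

set_option autoImplicit false

namespace TPM

open Module TPR

variable {G H W X : Type} [Group G] [AddCommGroup H] [Module ℂ H] [AddCommGroup W] [Module ℂ W] [Fintype X]
  {ρ : Representation ℂ G H} {σ : Representation ℂ G W} {μ : G →* ℂˣ} {U : X → Submodule ℂ H} {pr : X → End ℂ H}
  {bar : X → X} {ψ : H →ₗ[ℂ] H →ₗ[ℂ] ℂ} {k : ℕ} {m : ℤ} {T : MultilinearMap ℂ (fun _ : Fin k => H) (W →ₗ[ℂ] ℂ)}

omit [Fintype X] in
private theorem QG_kill_conj {G' : Subgroup G} (hT : TGR.IsTate ρ σ μ G' m T) {g : G} (hg : g ∈ G') {Y : End ℂ H}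
    (hY : Y ∈ TGR.kill T) : ρ g * Y * ρ g⁻¹ ∈ TGR.kill T := by
  rw [TGR.mem_kill] at hY ⊢
  intro v
  obtain ⟨v', hv'⟩ : ∃ v' : Fin k → H, v' = fun a => ρ g⁻¹ (v a) := ⟨_, rfl⟩
  have hv : ∀ a, ρ g (v' a) = v a := fun a => by rw [hv', ρ.self_inv_apply]
  refine LinearMap.ext fun w => ?_
  rw [LinearMap.sum_apply, LinearMap.zero_apply]
  have h1 : ∀ a, T (Function.update v a ((ρ g * Y * ρ g⁻¹) (v a))) w =
      (μ g ^ m : ℂˣ) * T (Function.update v' a (Y (v' a))) (σ g⁻¹ w) := by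
    intro a
    have h2 := hT g hg (Function.update v' a (Y (v' a))) (σ g⁻¹ w)
    rw [σ.self_inv_apply] at h2
    rw [← h2]
    refine congrArg (fun z => T z w) ?_
    funext b
    by_cases hb : b = a
    · subst hb
      rw [Function.update_self, Function.update_self, hv']
      rfl
    · rw [Function.update_of_ne hb, Function.update_of_ne hb, hv]
  rw [Finset.sum_congr rfl fun a _ => h1 a, ← Finset.mul_sum]
  have h3 := congrArg (fun f => f (σ g⁻¹ w)) (hY v')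
  simp only [LinearMap.sum_apply, LinearMap.zero_apply] at h3
  rw [h3, mul_zero]

omit [Fintype X] in
private theorem QG_sp_conj (hψ : ∀ g u v, ψ (ρ g u) (ρ g v) = μ g * ψ u v) (g : G) {Y : End ℂ H}
    (hY : Y ∈ TGR.sp ψ) : ρ g * Y * ρ g⁻¹ ∈ TGR.sp ψ := by
  rw [TGR.mem_sp] at hY ⊢
  intro u v
  have h1 := hψ g (Y (ρ g⁻¹ u)) (ρ g⁻¹ v)
  have h2 := hψ g (ρ g⁻¹ u) (Y (ρ g⁻¹ v))
  rw [ρ.self_inv_apply] at h1 h2
  have h3 := hY (ρ g⁻¹ u) (ρ g⁻¹ v)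
  show ψ (ρ g (Y (ρ g⁻¹ u))) v + ψ u (ρ g (Y (ρ g⁻¹ v))) = 0
  rw [h1, h2, ← mul_add, h3, mul_zero]

private theorem QG_orth (hC : Cx ρ μ U pr bar ψ) {x : X} (hx : bar x = x) {a : H} (ha : a ∈ U x) (v : H) :
    ψ a v = ψ a (pr x v) := by
  classical
  have h1 : ψ a v = ∑ y, ψ a (pr y v) := by
    rw [← map_sum, hC.dec.sum]
  rw [h1]
  refine Finset.sum_eq_single x (fun y _ hy => ?_) fun h => absurd (Finset.mem_univ _) h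
  exact hC.orth x y (by rwa [hx]) a ha _ (hC.dec.mem y v)

omit [Fintype X] in
theorem Ap_lie {Y Z : End ℂ H} (hY : Y ∈ Ap T ψ U) (hZ : Z ∈ Ap T ψ U) : Y * Z - Z * Y ∈ Ap T ψ U := by
  obtain ⟨⟨hY0, hY1⟩, hY2⟩ := hY
  obtain ⟨⟨hZ0, hZ1⟩, hZ2⟩ := hZ
  refine ⟨⟨TGR.kill_bracket hY0 hZ0, ?_⟩, fun x v hv => sub_mem (hY2 x _ (hZ2 x v hv)) (hZ2 x _ (hY2 x v hv))⟩
  refine TGR.mem_sp.2 fun u v => ?_
  have h1 := TGR.mem_sp.1 hY1 (Z u) v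
  have h2 := TGR.mem_sp.1 hY1 u (Z v)
  have h3 := TGR.mem_sp.1 hZ1 (Y u) v
  have h4 := TGR.mem_sp.1 hZ1 u (Y v)
  rw [LinearMap.sub_apply, LinearMap.sub_apply, map_sub, map_sub, LinearMap.sub_apply, Module.End.mul_apply,
    Module.End.mul_apply, Module.End.mul_apply, Module.End.mul_apply]
  linear_combination h1 - h3 - h4 + h2

theorem Ap_conj (hC : Cx ρ μ U pr bar ψ) (hT : TGR.IsTate ρ σ μ ⊤ m T) (g : G) {Y : End ℂ H}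
    (hY : Y ∈ Ap T ψ U) : ρ g * Y * ρ g⁻¹ ∈ Ap T ψ U := by
  obtain ⟨⟨hY0, hY1⟩, hY2⟩ := hY
  refine ⟨⟨QG_kill_conj hT (Subgroup.mem_top g) hY0, QG_sp_conj hC.sim g hY1⟩, fun x v hv => ?_⟩
  exact hC.dec.stab x g (Subgroup.mem_top g) _ (hY2 x _ (hC.dec.stab x g⁻¹ (Subgroup.mem_top _) v hv))

theorem restr [FiniteDimensional ℂ H] (hC : Cx ρ μ U pr bar ψ) (hT : TGR.IsTate ρ σ μ ⊤ m T) {x : X} (hx : bar x = x)
    {e f : H} (he : e ∈ U x) (hf : f ∈ U x) (hef : ψ e f ≠ 0) {τ : End ℂ H} (hτ : τ ∈ Ap T ψ U)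
    (h : ∀ v ∈ U x, τ v = sq ψ e f v) {u v : H} (hu : u ∈ U x) (hv : v ∈ U x) :
    ∃ Y ∈ Ap T ψ U, ∀ w ∈ U x, Y w = sq ψ u v w := by
  obtain ⟨p, hp⟩ : ∃ p : End ℂ H, p = pr x := ⟨_, rfl⟩
  have hpm : ∀ w, p w ∈ U x := fun w => hp ▸ hC.dec.mem x w
  have hpi : ∀ w ∈ U x, p w = w := fun w hw => hp ▸ hC.dec.id x w hw
  have ho1 : ∀ a ∈ U x, ∀ w, ψ a w = ψ a (p w) := fun a ha w => hp ▸ QG_orth hC hx ha w
  have ho2 : ∀ a ∈ U x, ∀ w, ψ w a = ψ (p w) a := by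
    intro a ha w
    rw [alt_neg hC.alt w a, ho1 a ha w, alt_neg hC.alt (p w) a]
  obtain ⟨𝔟, h𝔟⟩ : ∃ 𝔟 : Submodule ℂ (End ℂ H), ∀ Z, Z ∈ 𝔟 ↔ ∃ Y ∈ Ap T ψ U, Y * p = Z :=
    ⟨(Ap T ψ U).map (LinearMap.mulRight ℂ p), fun Z => Iff.rfl⟩
  have hlie : ∀ Y ∈ 𝔟, ∀ Z ∈ 𝔟, Y * Z - Z * Y ∈ 𝔟 := by
    intro Y' hY' Z' hZ'
    obtain ⟨Y, hY, rfl⟩ := (h𝔟 _).1 hY'
    obtain ⟨Z, hZ, rfl⟩ := (h𝔟 _).1 hZ'
    refine (h𝔟 _).2 ⟨Y * Z - Z * Y, Ap_lie hY hZ, ?_⟩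
    refine LinearMap.ext fun w => ?_
    show Y (Z (p w)) - Z (Y (p w)) = Y (p (Z (p w))) - Z (p (Y (p w)))
    rw [hpi _ (hZ.2 x _ (hpm w)), hpi _ (hY.2 x _ (hpm w))]
  have hskew : ∀ Y ∈ 𝔟, Y ∈ TGR.sp ψ := by
    intro Y' hY'
    obtain ⟨Y, hY, rfl⟩ := (h𝔟 _).1 hY'
    refine TGR.mem_sp.2 fun a w => ?_
    show ψ (Y (p a)) w + ψ a (Y (p w)) = 0
    rw [ho1 _ (hY.2 x _ (hpm a)) w, ho2 _ (hY.2 x _ (hpm w)) a]
    exact TGR.mem_sp.1 hY.1.2 (p a) (p w)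
  have hsq : sq ψ e f ∈ 𝔟 := by
    refine (h𝔟 _).2 ⟨τ, hτ, LinearMap.ext fun w => ?_⟩
    show τ (p w) = _
    rw [h _ (hpm w), sq_apply, sq_apply, ← ho1 e he w, ← ho1 f hf w]
  have hV : ∀ Y ∈ 𝔟, ∀ w ∈ U x, Y w ∈ U x := by
    intro Y' hY' w hw
    obtain ⟨Y, hY, rfl⟩ := (h𝔟 _).1 hY'
    exact hY.2 x _ (hpm w)
  have hn : ∀ g ∈ (⊤ : Subgroup G), ∀ Y ∈ (𝔟 : Set (End ℂ H)), ρ g * Y * ρ g⁻¹ ∈ (𝔟 : Set (End ℂ H)) := by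
    intro g _ Y' hY'
    obtain ⟨Y, hY, rfl⟩ := (h𝔟 _).1 hY'
    refine (h𝔟 _).2 ⟨ρ g * Y * ρ g⁻¹, Ap_conj hC hT g hY, LinearMap.ext fun w => ?_⟩
    show ρ g (Y (ρ g⁻¹ (p w))) = ρ g (Y (p (ρ g⁻¹ w)))
    rw [hp, hC.dec.comm]
  have he0 : e ≠ 0 := by
    intro h0
    apply hef
    rw [h0, map_zero, LinearMap.zero_apply]
  have hs := clifford (K := (⊤ : Subgroup G)) inferInstance (𝔞 := (𝔟 : Set (End ℂ H))) hn (hC.dec.stab x)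
    (fun K' _ h2 S hle hS => hC.dec.simple x S hle (hC.conn K' h2 S hS)) he0 he
    (fun 𝒮 h𝒮 hm => star hC.alt hef (𝔞 := (𝔟 : Set (End ℂ H))) hsq 𝒮 h𝒮 hm)
  have hfin := rk hC.alt hlie hskew hef hsq he hf hV hV hs hs (Or.inl rfl) hu hv
  obtain ⟨Y, hY, hYe⟩ := (h𝔟 _).1 hfin
  refine ⟨Y, hY, fun w hw => ?_⟩
  rw [← hYe, Module.End.mul_apply, hpi w hw]

end TPM
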