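import Pool.Agent.Lib.MP_021685_agTM.M0

/-! LEAF QH (medium-).  A non-zero ideal of the symplectic Lie algebra is everything.

Notation: `Z ~ A` for `Z w = A w` for all `w ∈ V`; `I` is the set of the `A` with `Z ~ A` for some `Z ∈ M`; it is a subspace.  For `Y ∈ 𝔞`, `Y ~ sq ψ a b`
(`a`, `b ∈ V`) and `Z ∈ M`, `Z ~ A`: `Y * Z - Z * Y ∈ M` is `~ sq ψ a b * A - A * sq ψ a b` (`Z`, `Y` preserve `V`: `hMV`, and `sq ψ a b w ∈ V` for `w ∈ V`).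
`sq ψ a b w = ψ a w • b + ψ b w • a` (`TPR.sq_apply`); `TPR.sq_bracket (sq_skew halt a b) c d : sq ψ a b * sq ψ c d - sq ψ c d * sq ψ a b =
sq ψ (sq ψ a b c) d + sq ψ c (sq ψ a b d)`.

PROOF.  (1) There is `u ∈ V` with `ψ u (Y₀ u) ≠ 0`: otherwise, for `u`, `v ∈ V`, from `ψ (u + v) (Y₀ (u + v)) = 0`: `ψ u (Y₀ v) + ψ v (Y₀ u) = 0`, and
`ψ v (Y₀ u) = - ψ (Y₀ u) v = ψ u (Y₀ v)` (`alt_neg`, `hsk`), so `ψ u (Y₀ v) = 0` for all `u ∈ V`, so `Y₀ v = 0` (`hV`, `alt_neg`) for all `v ∈ V`: contradiction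
to `hne`.
(2) Let `c = ψ u (Y₀ u)`.  `Y₀ * S - S * Y₀` with `S ~ sq ψ u u`, `S ∈ 𝔞`: on `w ∈ V` it is `2 • (ψ u w • Y₀ u - ψ u (Y₀ w) • u) = 2 • sq ψ (Y₀ u) u w`
(`ψ u (Y₀ w) = - ψ (Y₀ u) w`), so `sq ψ (Y₀ u) u ∈ I` (up to the factor; the sign does not matter).  Bracket again with `S`: `sq ψ (sq ψ (Y₀ u) u u) u + ..` with
`sq ψ (Y₀ u) u u = ψ (Y₀ u) u • u = - c • u`; so a multiple `± 4 c` of `sq ψ u u` is in `I`, and `c ≠ 0`: `sq ψ u u ∈ I`.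
(3) `u ≠ 0` (`c ≠ 0`), so there is `a ∈ V` with `ψ a u = 1` (`hV`, `alt_neg`, scale).  For `b`, `b' ∈ V` the bracket of `sq ψ b b'` and `sq ψ u u` is
`2 • (ψ b u • sq ψ b' u + ψ b' u • sq ψ b u) ∈ I`.  For `b = b' = a`: `sq ψ a u ∈ I`; for `b = a`: `sq ψ b' u + ψ b' u • sq ψ a u ∈ I`, so `sq ψ b' u ∈ I` for all
`b' ∈ V`.
(4) The bracket of `sq ψ a b'` and `sq ψ b u` (which is in `I`) is `sq ψ (..) u + sq ψ b (ψ a u • b' + ψ b' u • a)`, and `sq ψ (..) u ∈ I`; so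
`sq ψ b b' + ψ b' u • sq ψ b a ∈ I` for all `b`, `b' ∈ V`.  For `b' = a`: `2 • sq ψ b a ∈ I`; so `sq ψ b b' ∈ I`. -/

set_option autoImplicit false

namespace TPM

open Module TPR

private def QH_In {H : Type} [AddCommGroup H] [Module ℂ H] (V : Submodule ℂ H) (M : Submodule ℂ (End ℂ H))
    (A : End ℂ H) : Prop := ∃ Z ∈ M, ∀ w ∈ V, Z w = A w

private theorem QH_congr {H : Type} [AddCommGroup H] [Module ℂ H] {V : Submodule ℂ H} {M : Submodule ℂ (End ℂ H)}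
    {A B : End ℂ H} (h : QH_In V M A) (hAB : ∀ w ∈ V, A w = B w) : QH_In V M B := by
  obtain ⟨Z, hZ, h1⟩ := h
  exact ⟨Z, hZ, fun w hw => (h1 w hw).trans (hAB w hw)⟩

private theorem QH_add {H : Type} [AddCommGroup H] [Module ℂ H] {V : Submodule ℂ H} {M : Submodule ℂ (End ℂ H)}
    {A B : End ℂ H} (h : QH_In V M A) (h' : QH_In V M B) : QH_In V M (A + B) := by
  obtain ⟨Z, hZ, h1⟩ := h
  obtain ⟨Z', hZ', h1'⟩ := h'
  exact ⟨Z + Z', M.add_mem hZ hZ', fun w hw => by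
    rw [LinearMap.add_apply, LinearMap.add_apply, h1 w hw, h1' w hw]⟩

private theorem QH_smul {H : Type} [AddCommGroup H] [Module ℂ H] {V : Submodule ℂ H} {M : Submodule ℂ (End ℂ H)}
    {A : End ℂ H} (z : ℂ) (h : QH_In V M A) : QH_In V M (z • A) := by
  obtain ⟨Z, hZ, h1⟩ := h
  exact ⟨z • Z, M.smul_mem z hZ, fun w hw => by
    rw [LinearMap.smul_apply, LinearMap.smul_apply, h1 w hw]⟩

private theorem QH_of_smul {H : Type} [AddCommGroup H] [Module ℂ H] {V : Submodule ℂ H} {M : Submodule ℂ (End ℂ H)}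
    {A : End ℂ H} {z : ℂ} (hz : z ≠ 0) (h : QH_In V M (z • A)) : QH_In V M A := by
  have h1 := QH_smul z⁻¹ h
  rwa [smul_smul, inv_mul_cancel₀ hz, one_smul] at h1

private theorem QH_of_add {H : Type} [AddCommGroup H] [Module ℂ H] {V : Submodule ℂ H} {M : Submodule ℂ (End ℂ H)}
    {A B : End ℂ H} (h : QH_In V M (A + B)) (h' : QH_In V M B) : QH_In V M A := by
  have h1 := QH_add h (QH_smul (-1) h')
  have h2 : A + B + (-1 : ℂ) • B = A := by module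
  rwa [h2] at h1

private theorem QH_br {H : Type} [AddCommGroup H] [Module ℂ H] {ψ : H →ₗ[ℂ] H →ₗ[ℂ] ℂ}
    {V : Submodule ℂ H} {𝔞 M : Submodule ℂ (End ℂ H)} (hMV : ∀ Y ∈ M, ∀ v ∈ V, Y v ∈ V)
    (hfull : ∀ a ∈ V, ∀ b ∈ V, ∃ Y ∈ 𝔞, ∀ w ∈ V, Y w = sq ψ a b w)
    (hid : ∀ Y ∈ 𝔞, ∀ Z ∈ M, Y * Z - Z * Y ∈ M) {a b : H} (ha : a ∈ V) (hb : b ∈ V) {A : End ℂ H}
    (hA : QH_In V M A) : QH_In V M (sq ψ a b * A - A * sq ψ a b) := by
  obtain ⟨Z, hZ, h1⟩ := hA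
  obtain ⟨Y, hY, h2⟩ := hfull a ha b hb
  refine ⟨Y * Z - Z * Y, hid Y hY Z hZ, fun w hw => ?_⟩
  have h3 : A w ∈ V := by
    rw [← h1 w hw]
    exact hMV Z hZ w hw
  have h4 : sq ψ a b w ∈ V := by
    rw [sq_apply]
    exact V.add_mem (V.smul_mem _ hb) (V.smul_mem _ ha)
  rw [LinearMap.sub_apply, Module.End.mul_apply, Module.End.mul_apply, LinearMap.sub_apply, Module.End.mul_apply,
    Module.End.mul_apply, h1 w hw, h2 w hw, h2 _ h3, h1 _ h4]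

private theorem QH_brs {H : Type} [AddCommGroup H] [Module ℂ H] {ψ : H →ₗ[ℂ] H →ₗ[ℂ] ℂ} (halt : ∀ u, ψ u u = 0)
    {V : Submodule ℂ H} {𝔞 M : Submodule ℂ (End ℂ H)} (hMV : ∀ Y ∈ M, ∀ v ∈ V, Y v ∈ V)
    (hfull : ∀ a ∈ V, ∀ b ∈ V, ∃ Y ∈ 𝔞, ∀ w ∈ V, Y w = sq ψ a b w)
    (hid : ∀ Y ∈ 𝔞, ∀ Z ∈ M, Y * Z - Z * Y ∈ M) {a b c d : H} (ha : a ∈ V) (hb : b ∈ V)
    (hA : QH_In V M (sq ψ c d)) : QH_In V M (sq ψ (sq ψ a b c) d + sq ψ c (sq ψ a b d)) := by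
  have h := QH_br hMV hfull hid ha hb hA
  rwa [sq_bracket (sq_skew halt a b) c d] at h

theorem ideal_all {H : Type} [AddCommGroup H] [Module ℂ H] {ψ : H →ₗ[ℂ] H →ₗ[ℂ] ℂ} (halt : ∀ u, ψ u u = 0)
    {V : Submodule ℂ H} (hV : ∀ u ∈ V, (∀ v ∈ V, ψ u v = 0) → u = 0) {𝔞 M : Submodule ℂ (End ℂ H)}
    (hsk : ∀ Y ∈ M, ∀ u ∈ V, ∀ v ∈ V, ψ (Y u) v + ψ u (Y v) = 0) (hMV : ∀ Y ∈ M, ∀ v ∈ V, Y v ∈ V)
    (hfull : ∀ a ∈ V, ∀ b ∈ V, ∃ Y ∈ 𝔞, ∀ w ∈ V, Y w = sq ψ a b w)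
    (hid : ∀ Y ∈ 𝔞, ∀ Z ∈ M, Y * Z - Z * Y ∈ M) {Y₀ : End ℂ H} (h0 : Y₀ ∈ M) {v₀ : H} (hv₀ : v₀ ∈ V)
    (hne : Y₀ v₀ ≠ 0) : ∀ a ∈ V, ∀ b ∈ V, ∃ Y ∈ M, ∀ w ∈ V, Y w = sq ψ a b w := by
  have hY0 : QH_In V M Y₀ := ⟨Y₀, h0, fun w _ => rfl⟩
  -- step 1
  obtain ⟨u, hu, hc⟩ : ∃ u ∈ V, ψ u (Y₀ u) ≠ 0 := by
    by_contra hcon
    push Not at hcon
    apply hne
    refine hV _ (hMV Y₀ h0 v₀ hv₀) fun v hv => ?_
    have h1 := hcon (v₀ + v) (V.add_mem hv₀ hv)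
    rw [map_add, map_add, LinearMap.add_apply, map_add, map_add, hcon v₀ hv₀, hcon v hv] at h1
    have h2 := hsk Y₀ h0 v₀ hv₀ v hv
    have h3 := alt_neg halt (Y₀ v₀) v
    have h4 : 2 * ψ (Y₀ v₀) v = 0 := by linear_combination h2 - h1 + h3
    exact (mul_eq_zero.1 h4).resolve_left two_ne_zero
  -- step 2
  have h5 : QH_In V M (sq ψ (Y₀ u) u) := by
    have h6 := QH_br hMV hfull hid hu hu hY0
    refine QH_of_smul (z := -2) (by norm_num) (QH_congr h6 fun w hw => ?_)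
    have h7 : ψ u (Y₀ w) = - ψ (Y₀ u) w := by
      have := hsk Y₀ h0 u hu w hw
      linear_combination this
    rw [LinearMap.sub_apply, Module.End.mul_apply, Module.End.mul_apply, LinearMap.smul_apply, sq_apply, sq_apply,
      sq_apply, map_add, map_smul, h7]
    module
  have h8 : QH_In V M (sq ψ u u) := by
    have h6 := QH_brs halt hMV hfull hid hu hu h5
    have h7 : sq ψ u u (Y₀ u) = (2 * ψ u (Y₀ u)) • u := by
      rw [sq_apply]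
      module
    have h9 : sq ψ u u u = 0 := by
      rw [sq_apply, halt u, zero_smul, add_zero]
    rw [h7, h9, sq_zero, add_zero, sq_comm, sq_smul] at h6
    exact QH_of_smul (mul_ne_zero two_ne_zero hc) h6
  -- step 3
  obtain ⟨a, ha, hau⟩ : ∃ a ∈ V, ψ a u = 1 := by
    have hu0 : u ≠ 0 := by
      intro h
      apply hc
      rw [h, map_zero, LinearMap.zero_apply]
    by_contra hcon
    apply hu0
    refine hV u hu fun v hv => ?_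
    by_contra hv0
    have h9 : ψ v u ≠ 0 := by
      rw [alt_neg halt v u]
      exact neg_ne_zero.2 hv0
    exact hcon ⟨(ψ v u)⁻¹ • v, V.smul_mem _ hv, by
      rw [map_smul, LinearMap.smul_apply, smul_eq_mul, inv_mul_cancel₀ h9]⟩
  have h10 : ∀ b ∈ V, ∀ b' ∈ V, QH_In V M (sq ψ u (ψ b u • b' + ψ b' u • b)) := by
    intro b hb b' hb'
    have h6 := QH_brs halt hMV hfull hid hb hb' h8
    rw [sq_comm ψ (sq ψ b b' u) u, sq_apply] at h6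
    refine QH_of_smul (z := 2) two_ne_zero ?_
    rwa [two_smul]
  have h11 : QH_In V M (sq ψ u a) := by
    have h6 := h10 a ha a ha
    rw [hau, one_smul, ← two_smul ℂ a, sq_smul] at h6
    exact QH_of_smul two_ne_zero h6
  have h12 : ∀ b ∈ V, QH_In V M (sq ψ u b) := by
    intro b hb
    have h6 := h10 a ha b hb
    rw [hau, one_smul, sq_add, sq_smul] at h6
    exact QH_of_add h6 (QH_smul _ h11)
  -- step 4
  have h13 : ∀ b ∈ V, ∀ b' ∈ V, QH_In V M (sq ψ b b' + ψ b' u • sq ψ b a) := by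
    intro b hb b' hb'
    have h6 : QH_In V M (sq ψ b u) := by
      rw [sq_comm]
      exact h12 b hb
    have h7 := QH_brs halt hMV hfull hid ha hb' h6
    have h9 : sq ψ a b' b ∈ V := by
      rw [sq_apply]
      exact V.add_mem (V.smul_mem _ hb') (V.smul_mem _ ha)
    rw [add_comm] at h7
    have h14 : QH_In V M (sq ψ (sq ψ a b' b) u) := by
      rw [sq_comm]
      exact h12 _ h9
    have h15 := QH_of_add h7 h14
    rwa [sq_apply, hau, one_smul, sq_add, sq_smul] at h15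
  have h16 : ∀ b ∈ V, QH_In V M (sq ψ b a) := by
    intro b hb
    have h6 := h13 b hb a ha
    rw [hau, one_smul, ← two_smul ℂ (sq ψ b a)] at h6
    exact QH_of_smul two_ne_zero h6
  intro b hb b' hb'
  have h17 : QH_In V M (sq ψ b b') := QH_of_add (h13 b hb b' hb') (QH_smul _ (h16 b hb))
  exact h17

end TPM
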