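import Pool.Agent.Lib.MP_021685_agTM.M0

/-! LEAF QI1 (easy+).  Eigenvectors of the bracket with `t = sq ψ e f`, `ψ e f = 1`.

`t w = ψ e w • f + ψ f w • e` (`TPR.sq_apply`); `t e = - e`, `t f = f` (`ψ f e = - 1`: `TPR.alt_neg`).  LINES.  Let `t w = l • w`.  Apply `ψ e`: `ψ e w = l * ψ e w`
(`ψ e e = 0`, `ψ e f = 1`); apply `ψ f`: `- ψ f w = l * ψ f w`.  So: if `l ≠ 1` then `ψ e w = 0`; if `l ≠ - 1` then `ψ f w = 0`; so `w = 0` if `l ≠ 0, 1, - 1`;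
`w = (ψ f w / l) • e = - ψ f w • e` if `l = - 1`; `w = ψ e w • f` if `l = 1`; and `ψ e w = ψ f w = 0` if `l = 0`.

PROOF of `ad_two`.  Every `v ∈ V` is `v = - ψ f v • e + ψ e v • f + v₀`, `ψ e v₀ = ψ f v₀ = 0`, `v₀ ∈ V`, `t v₀ = 0`.  By the hypothesis `t (Θ v) = Θ (t v) - 2 • Θ v`:
`t (Θ e) = - 3 • Θ e`, so `Θ e = 0`; `t (Θ f) = - Θ f`, so `Θ f = s₀ • e`; `t (Θ v₀) = - 2 • Θ v₀`, so `Θ v₀ = 0`.  So `Θ v = (ψ e v * s₀) • e = (s₀ / 2) • sq ψ e e v`.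

PROOF of `ad_two'`.  In the same way with `t (Θ v) = Θ (t v) + 2 • Θ v`: `t (Θ f) = 3 • Θ f`, `Θ f = 0`; `t (Θ e) = Θ e`, `Θ e = s₀ • f`; `t (Θ v₀) = 2 • Θ v₀`,
`Θ v₀ = 0`; `Θ v = (- ψ f v * s₀) • f = (- s₀ / 2) • sq ψ f f v`.  (Or apply `ad_two` to `e₁ = f`, `f₁ = - e`.)

PROOF of `ad_one`.  `t (Θ v) = Θ (t v) - Θ v`: `t (Θ f) = 0`, so `ψ e (Θ f) = ψ f (Θ f) = 0`; `t (Θ e) = - 2 • Θ e`, `Θ e = 0`; `t (Θ v₀) = - Θ v₀`, so
`Θ v₀ = - ψ f (Θ v₀) • e`, and `ψ f (Θ v₀) = - ψ (Θ v₀) f = ψ v₀ (Θ f) = - ψ (Θ f) v₀` (`hsk`).  So `Θ v = ψ e v • Θ f + ψ (Θ f) v₀ • e`, and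
`ψ (Θ f) v = ψ (Θ f) v₀` as `ψ (Θ f) e = ψ (Θ f) f = 0`: `Θ v = sq ψ e (Θ f) v`. -/

set_option autoImplicit false

namespace TPM

open Module TPR

variable {H : Type} [AddCommGroup H] [Module ℂ H] {ψ : H →ₗ[ℂ] H →ₗ[ℂ] ℂ} {V : Submodule ℂ H} {Θ : End ℂ H} {e f : H}

private theorem QI1_te (halt : ∀ u, ψ u u = 0) (hef : ψ e f = 1) : sq ψ e f e = -e := by
  rw [sq_apply, halt, alt_neg halt f e, hef, zero_smul, zero_add, neg_smul, one_smul]

private theorem QI1_tf (halt : ∀ u, ψ u u = 0) (hef : ψ e f = 1) : sq ψ e f f = f := by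
  rw [sq_apply, halt, hef, zero_smul, add_zero, one_smul]

private theorem QI1_l (halt : ∀ u, ψ u u = 0) (hef : ψ e f = 1) {l : ℂ} {w : H} (h : sq ψ e f w = l • w) :
    ψ e w = l * ψ e w ∧ - ψ f w = l * ψ f w := by
  rw [sq_apply] at h
  constructor
  · have h1 := congrArg (fun u => ψ e u) h
    simp only [map_add, map_smul, smul_eq_mul, halt, hef, mul_zero, add_zero, mul_one] at h1
    exact h1
  · have h1 := congrArg (fun u => ψ f u) h
    simp only [map_add, map_smul, smul_eq_mul, halt, mul_zero, zero_add] at h1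
    rw [alt_neg halt f e, hef] at h1
    rw [← h1]
    ring

private theorem QI1_e (halt : ∀ u, ψ u u = 0) (hef : ψ e f = 1) {l : ℂ} {w : H} (h : sq ψ e f w = l • w)
    (hl : l ≠ 1) : ψ e w = 0 := by
  have h1 := (QI1_l halt hef h).1
  have h2 : (l - 1) * ψ e w = 0 := by linear_combination -h1
  exact (mul_eq_zero.1 h2).resolve_left (sub_ne_zero.2 hl)

private theorem QI1_f (halt : ∀ u, ψ u u = 0) (hef : ψ e f = 1) {l : ℂ} {w : H} (h : sq ψ e f w = l • w)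
    (hl : l ≠ -1) : ψ f w = 0 := by
  have h1 := (QI1_l halt hef h).2
  have h2 : (l + 1) * ψ f w = 0 := by linear_combination -h1
  refine (mul_eq_zero.1 h2).resolve_left fun h3 => hl ?_
  linear_combination h3

private theorem QI1_z (halt : ∀ u, ψ u u = 0) (hef : ψ e f = 1) {l : ℂ} {w : H} (h : sq ψ e f w = l • w)
    (h0 : l ≠ 0) (h1 : l ≠ 1) (h2 : l ≠ -1) : w = 0 := by
  have h3 := h
  rw [sq_apply, QI1_e halt hef h h1, QI1_f halt hef h h2, zero_smul, zero_smul, add_zero] at h3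
  exact (smul_eq_zero.1 h3.symm).resolve_left h0

private theorem QI1_n (halt : ∀ u, ψ u u = 0) (hef : ψ e f = 1) {w : H} (h : sq ψ e f w = -w) :
    w = (- ψ f w) • e := by
  have h0 : sq ψ e f w = (-1 : ℂ) • w := by rw [h, neg_smul, one_smul]
  have h3 := h
  rw [sq_apply, QI1_e halt hef h0 (by norm_num), zero_smul, zero_add] at h3
  rw [neg_smul, h3, neg_neg]

private theorem QI1_p (halt : ∀ u, ψ u u = 0) (hef : ψ e f = 1) {w : H} (h : sq ψ e f w = w) :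
    w = ψ e w • f := by
  have h0 : sq ψ e f w = (1 : ℂ) • w := by rw [h, one_smul]
  have h3 := h
  rw [sq_apply, QI1_f halt hef h0 (by norm_num), zero_smul, add_zero] at h3
  exact h3.symm

private theorem QI1_dec (halt : ∀ u, ψ u u = 0) (he : e ∈ V) (hf : f ∈ V) (hef : ψ e f = 1) {v : H} (hv : v ∈ V) :
    ∃ v₀ ∈ V, ψ e v₀ = 0 ∧ ψ f v₀ = 0 ∧ sq ψ e f v₀ = 0 ∧ v = (- ψ f v) • e + ψ e v • f + v₀ := by
  have h1 : ψ e (v - ((- ψ f v) • e + ψ e v • f)) = 0 := by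
    simp only [map_sub, map_add, map_smul, smul_eq_mul, halt, hef]
    ring
  have h2 : ψ f (v - ((- ψ f v) • e + ψ e v • f)) = 0 := by
    simp only [map_sub, map_add, map_smul, smul_eq_mul, halt]
    rw [alt_neg halt f e, hef]
    ring
  refine ⟨v - ((- ψ f v) • e + ψ e v • f), V.sub_mem hv (V.add_mem (V.smul_mem _ he) (V.smul_mem _ hf)), h1, h2, ?_, ?_⟩
  · rw [sq_apply, h1, h2, zero_smul, zero_smul, add_zero]
  · rw [add_sub_cancel]

theorem ad_two (halt : ∀ u, ψ u u = 0) (he : e ∈ V) (hf : f ∈ V) (hef : ψ e f = 1)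
    (h : ∀ v ∈ V, sq ψ e f (Θ v) - Θ (sq ψ e f v) = (-2 : ℂ) • Θ v) : ∃ s : ℂ, ∀ v ∈ V, Θ v = s • sq ψ e e v := by
  have h1 : Θ e = 0 := by
    have h2 := h e he
    rw [QI1_te halt hef, map_neg, sub_neg_eq_add] at h2
    have h3 : sq ψ e f (Θ e) = (-3 : ℂ) • Θ e := by
      rw [eq_sub_of_add_eq h2]
      module
    exact QI1_z halt hef h3 (by norm_num) (by norm_num) (by norm_num)
  have h4 : Θ f = (- ψ f (Θ f)) • e := by
    have h2 := h f hf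
    rw [QI1_tf halt hef] at h2
    have h3 : sq ψ e f (Θ f) = - Θ f := by
      rw [eq_add_of_sub_eq h2]
      module
    exact QI1_n halt hef h3
  refine ⟨- ψ f (Θ f) / 2, fun v hv => ?_⟩
  obtain ⟨v₀, hv₀, _, _, h5, h6⟩ := QI1_dec halt he hf hef hv
  have h7 : Θ v₀ = 0 := by
    have h2 := h v₀ hv₀
    rw [h5, map_zero, sub_zero] at h2
    exact QI1_z halt hef h2 (by norm_num) (by norm_num) (by norm_num)
  have h8 : Θ v = ψ e v • Θ f := by
    conv_lhs => rw [h6]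
    rw [map_add, map_add, map_smul, map_smul, h1, h7, smul_zero, zero_add, add_zero]
  rw [h8, sq_apply]
  conv_lhs => rw [h4]
  module

theorem ad_two' (halt : ∀ u, ψ u u = 0) (he : e ∈ V) (hf : f ∈ V) (hef : ψ e f = 1)
    (h : ∀ v ∈ V, sq ψ e f (Θ v) - Θ (sq ψ e f v) = (2 : ℂ) • Θ v) : ∃ s : ℂ, ∀ v ∈ V, Θ v = s • sq ψ f f v := by
  have h1 : Θ f = 0 := by
    have h2 := h f hf
    rw [QI1_tf halt hef] at h2
    have h3 : sq ψ e f (Θ f) = (3 : ℂ) • Θ f := by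
      rw [eq_add_of_sub_eq h2]
      module
    exact QI1_z halt hef h3 (by norm_num) (by norm_num) (by norm_num)
  have h4 : Θ e = ψ e (Θ e) • f := by
    have h2 := h e he
    rw [QI1_te halt hef, map_neg, sub_neg_eq_add] at h2
    have h3 : sq ψ e f (Θ e) = Θ e := by
      rw [eq_sub_of_add_eq h2]
      module
    exact QI1_p halt hef h3
  refine ⟨- ψ e (Θ e) / 2, fun v hv => ?_⟩
  obtain ⟨v₀, hv₀, _, _, h5, h6⟩ := QI1_dec halt he hf hef hv
  have h7 : Θ v₀ = 0 := by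
    have h2 := h v₀ hv₀
    rw [h5, map_zero, sub_zero] at h2
    exact QI1_z halt hef h2 (by norm_num) (by norm_num) (by norm_num)
  have h8 : Θ v = (- ψ f v) • Θ e := by
    conv_lhs => rw [h6]
    rw [map_add, map_add, map_smul, map_smul, h1, h7, smul_zero, add_zero, add_zero]
  rw [h8, sq_apply]
  conv_lhs => rw [h4]
  module

theorem ad_one (halt : ∀ u, ψ u u = 0) (he : e ∈ V) (hf : f ∈ V) (hef : ψ e f = 1)
    (hsk : ∀ u ∈ V, ∀ v ∈ V, ψ (Θ u) v + ψ u (Θ v) = 0) (h : ∀ v ∈ V, sq ψ e f (Θ v) - Θ (sq ψ e f v) = - Θ v) :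
    ψ e (Θ f) = 0 ∧ ψ f (Θ f) = 0 ∧ ∀ v ∈ V, Θ v = sq ψ e (Θ f) v := by
  have h1 : Θ e = 0 := by
    have h2 := h e he
    rw [QI1_te halt hef, map_neg, sub_neg_eq_add] at h2
    have h3 : sq ψ e f (Θ e) = (-2 : ℂ) • Θ e := by
      rw [eq_sub_of_add_eq h2]
      module
    exact QI1_z halt hef h3 (by norm_num) (by norm_num) (by norm_num)
  have h4 : sq ψ e f (Θ f) = (0 : ℂ) • Θ f := by
    have h2 := h f hf
    rw [QI1_tf halt hef] at h2
    rw [eq_add_of_sub_eq h2]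
    module
  have h5 := QI1_e halt hef h4 (by norm_num)
  have h6 := QI1_f halt hef h4 (by norm_num)
  refine ⟨h5, h6, fun v hv => ?_⟩
  obtain ⟨v₀, hv₀, _, _, h7, h8⟩ := QI1_dec halt he hf hef hv
  have h9 : Θ v₀ = ψ (Θ f) v₀ • e := by
    have h2 := h v₀ hv₀
    rw [h7, map_zero, sub_zero] at h2
    have h10 := QI1_n halt hef h2
    have h11 := hsk v₀ hv₀ f hf
    have h12 : - ψ f (Θ v₀) = ψ (Θ f) v₀ := by
      rw [alt_neg halt f (Θ v₀), alt_neg halt (Θ f) v₀]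
      linear_combination h11
    rw [h12] at h10
    exact h10
  have h13 : Θ v = ψ e v • Θ f + ψ (Θ f) v₀ • e := by
    conv_lhs => rw [h8]
    rw [map_add, map_add, map_smul, map_smul, h1, h9, smul_zero, zero_add]
  have h14 : ψ (Θ f) v = ψ (Θ f) v₀ := by
    conv_lhs => rw [h8]
    rw [map_add, map_add, map_smul, map_smul, alt_neg halt (Θ f) e, alt_neg halt (Θ f) f, h5, h6, neg_zero,
      smul_zero, smul_zero, zero_add, zero_add]
  rw [h13, sq_apply, h14]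

end TPM
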