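import Pool.Agent.Lib.MP_021685_agTM.QI1

/-! LEAF QI2 (medium+).  An isomorphism of symplectic Lie algebras which maps `sq e' f'` to `sq e f`.

Notation: for `Y ∈ 𝔞` write `Y |' A'` if `Y w = A' w` for `w ∈ V'`, and `Y | A` if `Y w = A w` for `w ∈ V`.  By `hgr` the restriction of `Y ∈ 𝔞` to `V` depends only on
its restriction to `V'`, and by `hgr'` conversely; all the elements of `𝔞` preserve `V` and `V'` and are skew (`TGR.mem_sp`).  For `a`, `b ∈ V'` take `Y a b ∈ 𝔞`,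
`Y a b |' sq ψ a b` (`hfull'`, `choose`).  `TPR.sq_bracket hX a b : X * sq ψ a b - sq ψ a b * X = sq ψ (X a) b + sq ψ a (X b)` (use the same computation on `V'`, for `X ∈ 𝔞`; brackets
of elements of `𝔞` are in `𝔞` and their restrictions are the brackets of the restrictions).  So for `X ∈ 𝔞`: `X * Y a b - Y a b * X |' sq ψ (X a) b + sq ψ a (X b)`.

PROOF.  (1) For `t` and `a = b = e'`: `t e' = sq ψ e' f' e' = - e'`, so `t * Y e' e' - Y e' e' * t |' - 2 • sq ψ e' e'`, hence it is `- 2 • Y e' e'` on `V'` and (`hgr`)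
on `V`: by `ad_two`, `Y e' e' | c • sq ψ e e`.  `c ≠ 0`: otherwise `Y e' e'` is zero on `V`, so on `V'` (`hgr'`), but `sq ψ e' e' f' = 2 • e' ≠ 0`.  In the same way
(`t f' = f'`, `ad_two'`): `Y f' f' | c' • sq ψ f f`.
(2) `Y e' e' * Y f' f' - Y f' f' * Y e' e' |' 4 • sq ψ e' f'` (`sq ψ e' e' f' = 2 • e'`), which is `4 • t`; on `V` it is `c * c'` times `4 • sq ψ e f`.  So
`c * c' = 1` (apply both sides to `f`: `sq ψ e f f = f ≠ 0`).
(3) Let `a ∈ V'` with `ψ e' a = ψ f' a = 0` (write `a ∈ U'`).  `t a = 0`, so the bracket of `t` and `Y e' a` is `|' - sq ψ e' a`, and by `ad_one`: `Y e' a | sq ψ e (Y e' a f)` with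
`ψ e (Y e' a f) = ψ f (Y e' a f) = 0`.
(4) Let `J : H → H` be the linear map with `J w = c⁻¹ • (Y e' w) f - ψ w f' • e` for `w ∈ V'` (linear on `V'`, as `(Y e' w) f` depends only on the restriction to `V'`, by `hgr`, and
`sq ψ e' w` is linear in `w`; compose with `p`, so `J w = c⁻¹ • (Y e' (p w)) f - ψ (p w) f' • e`).  `J w ∈ V`.  We get `J e' = c⁻¹ • c • 2 • e - e = e` (`Y e' e' f = c • 2 • e`),
`J f' = c⁻¹ • f` (`Y e' f' | sq ψ e f`, by `hgr` for `Y e' f' - t`, and `sq ψ e f f = f`), and `J a = c⁻¹ • (Y e' a) f` for `a ∈ U'`, `ψ e (J a) = ψ f (J a) = 0`, `Y e' a | c • sq ψ e (J a)`.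
(5) For `a ∈ U'`: the bracket of `Y f' f'` and `Y e' a` is `|' sq ψ (sq ψ f' f' e') a + sq ψ e' (sq ψ f' f' a) = - 2 • sq ψ f' a` (`sq ψ f' f' e' = 2 • ψ f' e' • f' = - 2 • f'`,
`sq ψ f' f' a = 0`), and on `V` it is `c' * c` times `- 2 • sq ψ f (J a)`; so `Y f' a | sq ψ f (J a)`.
(6) For `a`, `b ∈ U'`: the bracket of `Y f' a` and `Y e' b` is `|' - sq ψ a b + ψ a b • sq ψ e' f'` (`sq ψ f' a e' = - a`, `sq ψ f' a b = ψ a b • f'`); on `V` it is
`c • (- sq ψ (J a) (J b) + ψ (J a) (J b) • sq ψ e f)`.  So `Y a b | c • sq ψ (J a) (J b) + (ψ a b - c * ψ (J a) (J b)) • sq ψ e f`.  `Y a b` and `Y b a` have the same restriction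
(`TPR.sq_comm`), and `ψ a b - c * ψ (J a) (J b)` is antisymmetric in `a`, `b` (`alt_neg`), so `(ψ a b - c * ψ (J a) (J b)) • sq ψ e f = 0` on `V`: `c * ψ (J a) (J b) = ψ a b`, and
`Y a b | c • sq ψ (J a) (J b)`.
(7) Every `a ∈ V'` is `- ψ f' a • e' + ψ e' a • f' + a₀`, `a₀ ∈ U'`.  Both sides of the two assertions `c * ψ (J a) (J b) = ψ a b` and `Y a b | c • sq ψ (J a) (J b)` are bilinear in
`a`, `b` (for the second: `Y (a + a') b - Y a b - Y a' b` is zero on `V'`, so on `V`; `TPR.sq_add`, `TPR.sq_smul`, `TPR.sq_comm`), so it is enough to check them for `a`, `b` equal to `e'`, `f'` or in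
`U'`: (1), (4), (5), (6), and `Y f' f' | c' • sq ψ f f = c • sq ψ (c⁻¹ • f) (c⁻¹ • f)`.  In the statement `Y` is any element with `Y |' sq ψ a b`: by `hgr` it agrees with
`Y a b` on `V`. -/

set_option autoImplicit false

namespace TPM

open Module TPR

private theorem QI2_br {H : Type} [AddCommGroup H] [Module ℂ H] {ψ : H →ₗ[ℂ] H →ₗ[ℂ] ℂ} {S : Submodule ℂ H}
    {X Y : End ℂ H} (hX : X ∈ TGR.sp ψ) (hXS : ∀ v ∈ S, X v ∈ S) {a b : H} {z : ℂ}
    (hY : ∀ w ∈ S, Y w = z • sq ψ a b w) {w : H} (hw : w ∈ S) :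
    X (Y w) - Y (X w) = z • (sq ψ (X a) b w + sq ψ a (X b) w) := by
  rw [hY w hw, hY (X w) (hXS w hw), map_smul, ← smul_sub]
  congr 1
  have h := congrArg (fun T : End ℂ H => T w) (sq_bracket hX a b)
  simpa only [LinearMap.sub_apply, Module.End.mul_apply, LinearMap.add_apply] using h

private theorem QI2_tr {H : Type} [AddCommGroup H] [Module ℂ H] {𝔞 : Submodule ℂ (End ℂ H)} {S S' : Submodule ℂ H}
    (hgr : ∀ X ∈ 𝔞, (∀ v ∈ S', X v = 0) → ∀ v ∈ S, X v = 0) {X Y : End ℂ H} (hX : X ∈ 𝔞) (hY : Y ∈ 𝔞)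
    (h : ∀ v ∈ S', X v = Y v) : ∀ v ∈ S, X v = Y v := by
  intro v hv
  have h1 := hgr (X - Y) (sub_mem hX hY) (fun w hw => by rw [LinearMap.sub_apply, h w hw, sub_self]) v hv
  rwa [LinearMap.sub_apply, sub_eq_zero] at h1

private theorem QI2_ind {H : Type} [AddCommGroup H] [Module ℂ H] {ψ : H →ₗ[ℂ] H →ₗ[ℂ] ℂ} (halt : ∀ u, ψ u u = 0)
    {V' : Submodule ℂ H} {e' f' : H} (he' : e' ∈ V') (hf' : f' ∈ V') (h1' : ψ e' f' = 1) {P : H → Prop}
    (pe : P e') (pf : P f') (pU : ∀ a ∈ V', ψ e' a = 0 → ψ f' a = 0 → P a)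
    (padd : ∀ a ∈ V', ∀ b ∈ V', P a → P b → P (a + b)) (psmul : ∀ (z : ℂ), ∀ a ∈ V', P a → P (z • a)) :
    ∀ a ∈ V', P a := by
  intro a ha
  have fe' : ψ f' e' = -1 := by rw [alt_neg halt, h1']
  obtain ⟨a₀, h0⟩ : ∃ a₀, a₀ = a + ψ f' a • e' - ψ e' a • f' := ⟨_, rfl⟩
  have m0 : a₀ ∈ V' := by
    rw [h0]
    exact sub_mem (add_mem ha (V'.smul_mem _ he')) (V'.smul_mem _ hf')
  have e0 : ψ e' a₀ = 0 := by
    rw [h0, map_sub, map_add, map_smul, map_smul, halt, h1']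
    simp
  have f0 : ψ f' a₀ = 0 := by
    rw [h0, map_sub, map_add, map_smul, map_smul, halt, fe']
    simp
  have h2 : a = ((-ψ f' a) • e' + ψ e' a • f') + a₀ := by
    rw [h0]
    module
  rw [h2]
  exact padd _ (add_mem (V'.smul_mem _ he') (V'.smul_mem _ hf')) _ m0
    (padd _ (V'.smul_mem _ he') _ (V'.smul_mem _ hf') (psmul _ _ he' pe) (psmul _ _ hf' pf)) (pU _ m0 e0 f0)

theorem exists_J {H : Type} [AddCommGroup H] [Module ℂ H] {ψ : H →ₗ[ℂ] H →ₗ[ℂ] ℂ} (halt : ∀ u, ψ u u = 0)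
    {V V' : Submodule ℂ H} {𝔞 : Submodule ℂ (End ℂ H)} (hlie : ∀ X ∈ 𝔞, ∀ Y ∈ 𝔞, X * Y - Y * X ∈ 𝔞)
    (hskew : ∀ X ∈ 𝔞, X ∈ TGR.sp ψ) (hsV : ∀ X ∈ 𝔞, ∀ v ∈ V, X v ∈ V) (hsV' : ∀ X ∈ 𝔞, ∀ v ∈ V', X v ∈ V')
    (hfull' : ∀ a ∈ V', ∀ b ∈ V', ∃ Y ∈ 𝔞, ∀ w ∈ V', Y w = sq ψ a b w)
    (hgr : ∀ X ∈ 𝔞, (∀ v ∈ V', X v = 0) → ∀ v ∈ V, X v = 0) (hgr' : ∀ X ∈ 𝔞, (∀ v ∈ V, X v = 0) → ∀ v ∈ V', X v = 0)
    {t : End ℂ H} (ht : t ∈ 𝔞) {e f e' f' : H} (he : e ∈ V) (hf : f ∈ V) (he' : e' ∈ V') (hf' : f' ∈ V')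
    (h1 : ψ e f = 1) (h1' : ψ e' f' = 1) (h2 : ∀ v ∈ V, t v = sq ψ e f v) (h2' : ∀ v ∈ V', t v = sq ψ e' f' v)
    {p : End ℂ H} (hp : ∀ v, p v ∈ V') (hp' : ∀ v ∈ V', p v = v) :
    ∃ (J : End ℂ H) (c : ℂ), c ≠ 0 ∧ (∀ v ∈ V', J v ∈ V) ∧ (∀ a ∈ V', ∀ b ∈ V', c * ψ (J a) (J b) = ψ a b) ∧
      ∀ a ∈ V', ∀ b ∈ V', ∀ Y ∈ 𝔞, (∀ w ∈ V', Y w = sq ψ a b w) → ∀ w ∈ V, Y w = c • sq ψ (J a) (J b) w := by
  choose! Y hYm hY using hfull'
  have fe : ψ f e = -1 := by rw [alt_neg halt, h1]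
  have fe' : ψ f' e' = -1 := by rw [alt_neg halt, h1']
  have hf0 : f ≠ 0 := by
    rintro rfl
    rw [map_zero] at h1
    exact zero_ne_one h1
  have he0' : e' ≠ 0 := by
    rintro rfl
    rw [map_zero, LinearMap.zero_apply] at h1'
    exact zero_ne_one h1'
  have te' : t e' = -e' := by
    rw [h2' e' he', sq_apply, halt, fe', zero_smul, zero_add, neg_one_smul]
  have tf' : t f' = f' := by
    rw [h2' f' hf', sq_apply, halt, h1', one_smul, zero_smul, add_zero]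
  have tr : ∀ {X Z : End ℂ H}, X ∈ 𝔞 → Z ∈ 𝔞 → (∀ w ∈ V', X w = Z w) → ∀ v ∈ V, X v = Z v :=
    fun hX hZ h => QI2_tr hgr hX hZ h
  have brV' : ∀ X ∈ 𝔞, ∀ a ∈ V', ∀ b ∈ V', ∀ w ∈ V',
      X (Y a b w) - Y a b (X w) = sq ψ (X a) b w + sq ψ a (X b) w := by
    intro X hX a ha b hb w hw
    rw [QI2_br (hskew X hX) (hsV' X hX) (fun w hw => (hY a ha b hb w hw).trans (one_smul ℂ _).symm) hw, one_smul]
  have key : ∀ a ∈ V', ∀ b ∈ V', ∀ l : ℂ, (∀ w, sq ψ (t a) b w + sq ψ a (t b) w = l • sq ψ a b w) →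
      ∀ v ∈ V, sq ψ e f (Y a b v) - Y a b (sq ψ e f v) = l • Y a b v := by
    intro a ha b hb l hl v hv
    have hm := hYm a ha b hb
    have h3 := tr (hlie t ht _ hm) (𝔞.smul_mem l hm) (fun w hw => by
      show t (Y a b w) - Y a b (t w) = l • Y a b w
      rw [brV' t ht a ha b hb w hw, hl, hY a ha b hb w hw]) v hv
    rw [← h2 (Y a b v) (hsV _ hm v hv), ← h2 v hv]
    exact h3
  -- the two elements of weight two
  have hEm := hYm e' he' e' he'
  have hFm := hYm f' hf' f' hf'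
  obtain ⟨c, hE⟩ := ad_two halt he hf h1 (key e' he' e' he' (-2) (fun w => by
    rw [te', sq_apply, sq_apply, sq_apply]
    simp only [map_neg, LinearMap.neg_apply]
    module))
  obtain ⟨c', hF⟩ := ad_two' halt he hf h1 (key f' hf' f' hf' 2 (fun w => by
    rw [tf', sq_apply]
    module))
  have Ef' : Y e' e' f' = (2 : ℂ) • e' := by
    rw [hY e' he' e' he' f' hf', sq_apply, h1']
    module
  have Ff' : Y f' f' f' = 0 := by
    rw [hY f' hf' f' hf' f' hf', sq_apply, halt, zero_smul, add_zero]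
  have Fe' : Y f' f' e' = (-2 : ℂ) • f' := by
    rw [hY f' hf' f' hf' e' he', sq_apply, fe']
    module
  have Ef : Y e' e' f = (2 * c) • e := by
    rw [hE f hf, sq_apply, h1]
    module
  have Fe : Y f' f' e = (-2 * c') • f := by
    rw [hF e he, sq_apply, fe]
    module
  have hc0 : c ≠ 0 := by
    rintro rfl
    have h3 := hgr' _ hEm (fun v hv => by rw [hE v hv, zero_smul]) f' hf'
    rw [Ef'] at h3
    rcases smul_eq_zero.1 h3 with h4 | h4
    · exact two_ne_zero h4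
    · exact he0' h4
  have hcc : c * c' = 1 := by
    have h3 := tr (hlie _ hEm _ hFm) (𝔞.smul_mem (4 : ℂ) ht) (fun w hw => by
      show Y e' e' (Y f' f' w) - Y f' f' (Y e' e' w) = (4 : ℂ) • t w
      rw [brV' _ hEm f' hf' f' hf' w hw, h2' w hw, Ef', sq_apply, sq_apply, sq_apply]
      simp only [map_smul, LinearMap.smul_apply, smul_eq_mul]
      module) f hf
    have h4 : Y e' e' (Y f' f' f) - Y f' f' (Y e' e' f) = (4 : ℂ) • t f := h3
    rw [QI2_br (hskew _ hEm) (hsV _ hEm) hF hf, h2 f hf, Ef, sq_apply, sq_apply, sq_apply, halt f] at h4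
    simp only [map_smul, LinearMap.smul_apply, smul_eq_mul, h1, zero_smul, add_zero, zero_add, mul_one] at h4
    have h5 : (4 * (c * c' - 1)) • f = 0 := by
      linear_combination (norm := module) h4
    rcases smul_eq_zero.1 h5 with h6 | h6
    · have h7 : c * c' - 1 = 0 := (mul_eq_zero.1 h6).resolve_left (by norm_num)
      linear_combination h7
    · exact absurd h6 hf0
  have hU1 : ∀ a ∈ V', ψ e' a = 0 → ψ f' a = 0 →
      ψ e (Y e' a f) = 0 ∧ ψ f (Y e' a f) = 0 ∧ ∀ v ∈ V, Y e' a v = sq ψ e (Y e' a f) v := by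
    intro a ha ha1 ha2
    have ta : t a = 0 := by rw [h2' a ha, sq_apply, ha1, ha2, zero_smul, zero_smul, add_zero]
    refine ad_one halt he hf h1 ?_ ?_
    · intro u _ v _
      exact (TGR.mem_sp.1 (hskew _ (hYm e' he' a ha))) u v
    · intro v hv
      rw [key e' he' a ha (-1) (fun w => by
        rw [te', ta, sq_apply, sq_apply, sq_apply]
        simp only [map_neg, LinearMap.neg_apply, map_zero, LinearMap.zero_apply]
        module) v hv, neg_one_smul]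
  -- linearity
  have Yadd : ∀ a ∈ V', ∀ x ∈ V', ∀ y ∈ V', ∀ v ∈ V, Y a (x + y) v = Y a x v + Y a y v := by
    intro a ha x hx y hy
    exact tr (hYm a ha _ (add_mem hx hy)) (add_mem (hYm a ha x hx) (hYm a ha y hy)) (fun w hw => by
      rw [hY a ha _ (add_mem hx hy) w hw, LinearMap.add_apply, hY a ha x hx w hw, hY a ha y hy w hw, sq_add,
        LinearMap.add_apply])
  have Ysmul : ∀ a ∈ V', ∀ (z : ℂ), ∀ x ∈ V', ∀ v ∈ V, Y a (z • x) v = z • Y a x v := by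
    intro a ha z x hx
    exact tr (hYm a ha _ (V'.smul_mem z hx)) (𝔞.smul_mem z (hYm a ha x hx)) (fun w hw => by
      rw [hY a ha _ (V'.smul_mem z hx) w hw, LinearMap.smul_apply, hY a ha x hx w hw, sq_smul,
        LinearMap.smul_apply])
  have Ycomm : ∀ a ∈ V', ∀ b ∈ V', ∀ v ∈ V, Y a b v = Y b a v := by
    intro a ha b hb
    exact tr (hYm a ha b hb) (hYm b hb a ha) (fun w hw => by
      rw [hY a ha b hb w hw, hY b hb a ha w hw, sq_comm])
  obtain ⟨J, hJ⟩ : ∃ J : End ℂ H, ∀ w ∈ V', J w = c⁻¹ • Y e' w f - ψ w f' • e := by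
    refine ⟨{ toFun := fun w => c⁻¹ • Y e' (p w) f - ψ (p w) f' • e
              map_add' := ?_
              map_smul' := ?_ }, ?_⟩
    · intro x y
      rw [map_add, Yadd e' he' _ (hp x) _ (hp y) f hf, map_add, LinearMap.add_apply]
      module
    · intro z x
      rw [map_smul, Ysmul e' he' z _ (hp x) f hf, map_smul, LinearMap.smul_apply, smul_eq_mul, RingHom.id_apply]
      module
    · intro w hw
      show c⁻¹ • Y e' (p w) f - ψ (p w) f' • e = _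
      rw [hp' w hw]
  have JV : ∀ v ∈ V', J v ∈ V := by
    intro v hv
    rw [hJ v hv]
    exact sub_mem (V.smul_mem _ (hsV _ (hYm e' he' v hv) f hf)) (V.smul_mem _ he)
  have Je : J e' = e := by
    rw [hJ e' he', Ef, h1', smul_smul, one_smul]
    have h3 : c⁻¹ * (2 * c) = 2 := by
      field_simp
    rw [h3]
    module
  have Yef : ∀ v ∈ V, Y e' f' v = sq ψ e f v := by
    intro v hv
    rw [← h2 v hv]
    exact tr (hYm e' he' f' hf') ht (fun w hw => by rw [hY e' he' f' hf' w hw, h2' w hw]) v hv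
  have Jf : J f' = c⁻¹ • f := by
    rw [hJ f' hf', Yef f hf, sq_apply, h1, halt, halt, one_smul, zero_smul, add_zero, sub_zero]
  have JU : ∀ a ∈ V', ψ e' a = 0 → ψ f' a = 0 → Y e' a f = c • J a ∧ ψ e (J a) = 0 ∧ ψ f (J a) = 0 ∧
      ψ (J a) e = 0 ∧ ψ (J a) f = 0 := by
    intro a ha ha1 ha2
    obtain ⟨h3, h4, -⟩ := hU1 a ha ha1 ha2
    have h5 : J a = c⁻¹ • Y e' a f := by
      rw [hJ a ha, alt_neg halt a f', ha2, neg_zero, zero_smul, sub_zero]
    have h6 : ψ e (J a) = 0 := by rw [h5, map_smul, h3, smul_zero]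
    have h7 : ψ f (J a) = 0 := by rw [h5, map_smul, h4, smul_zero]
    refine ⟨?_, h6, h7, ?_, ?_⟩
    · rw [h5, smul_smul, mul_inv_cancel₀ hc0, one_smul]
    · rw [alt_neg halt, h6, neg_zero]
    · rw [alt_neg halt, h7, neg_zero]
  have YeU : ∀ a ∈ V', ψ e' a = 0 → ψ f' a = 0 → ∀ v ∈ V, Y e' a v = c • sq ψ e (J a) v := by
    intro a ha ha1 ha2 v hv
    obtain ⟨-, -, h3⟩ := hU1 a ha ha1 ha2
    rw [h3 v hv, (JU a ha ha1 ha2).1, sq_smul, LinearMap.smul_apply]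
  have YfU : ∀ a ∈ V', ψ e' a = 0 → ψ f' a = 0 → ∀ v ∈ V, Y f' a v = sq ψ f (J a) v := by
    intro a ha ha1 ha2 v hv
    have hm := hYm e' he' a ha
    obtain ⟨-, j1, j2, j3, j4⟩ := JU a ha ha1 ha2
    have Fa : Y f' f' a = 0 := by
      rw [hY f' hf' f' hf' a ha, sq_apply, ha2, zero_smul, add_zero]
    have FJ : Y f' f' (J a) = 0 := by
      rw [hF (J a) (JV a ha), sq_apply, j2, zero_smul, add_zero, smul_zero]
    have h3 := tr (hlie _ hFm _ hm) (𝔞.smul_mem (-2 : ℂ) (hYm f' hf' a ha)) (fun w hw => by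
      show Y f' f' (Y e' a w) - Y e' a (Y f' f' w) = (-2 : ℂ) • Y f' a w
      rw [brV' _ hFm e' he' a ha w hw, Fe', Fa, hY f' hf' a ha w hw, sq_apply, sq_apply, sq_apply]
      simp only [map_smul, LinearMap.smul_apply, smul_eq_mul, map_zero, LinearMap.zero_apply]
      module) v hv
    have h4 : Y f' f' (Y e' a v) - Y e' a (Y f' f' v) = (-2 : ℂ) • Y f' a v := h3
    rw [QI2_br (hskew _ hFm) (hsV _ hFm) (YeU a ha ha1 ha2) hv, Fe, FJ] at h4
    have h5 : sq ψ ((-2 * c') • f) (J a) v + sq ψ e 0 v = (-2 * c') • sq ψ f (J a) v := by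
      rw [sq_apply, sq_apply, sq_apply]
      simp only [map_smul, LinearMap.smul_apply, smul_eq_mul, map_zero, LinearMap.zero_apply]
      module
    rw [h5, smul_smul] at h4
    have h6 : c * (-2 * c') = -2 := by linear_combination (-2) * hcc
    rw [h6] at h4
    have h7 := congrArg (fun x : H => (-(1 / 2) : ℂ) • x) h4
    simp only [smul_smul] at h7
    norm_num at h7
    exact h7.symm
  have hABU : ∀ a ∈ V', ψ e' a = 0 → ψ f' a = 0 → ∀ b ∈ V', ψ e' b = 0 → ψ f' b = 0 → ∀ v ∈ V,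
      Y a b v = c • sq ψ (J a) (J b) v + (ψ a b - c * ψ (J a) (J b)) • sq ψ e f v := by
    intro a ha ha1 ha2 b hb hb1 hb2 v hv
    obtain ⟨-, j1, j2, j3, j4⟩ := JU a ha ha1 ha2
    obtain ⟨-, k1, k2, k3, k4⟩ := JU b hb hb1 hb2
    have hX := hYm f' hf' a ha
    have hZ := hYm e' he' b hb
    have Xe' : Y f' a e' = -a := by
      rw [hY f' hf' a ha e' he', sq_apply, fe', alt_neg halt a e', ha1, neg_zero, zero_smul, add_zero, neg_one_smul]
    have Xb : Y f' a b = ψ a b • f' := by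
      rw [hY f' hf' a ha b hb, sq_apply, hb2, zero_smul, zero_add]
    have Xe : Y f' a e = -J a := by
      rw [YfU a ha ha1 ha2 e he, sq_apply, fe, j3, zero_smul, add_zero, neg_one_smul]
    have XJ : Y f' a (J b) = ψ (J a) (J b) • f := by
      rw [YfU a ha ha1 ha2 (J b) (JV b hb), sq_apply, k2, zero_smul, zero_add]
    have h3 := tr (hlie _ hX _ hZ) (sub_mem (𝔞.smul_mem (ψ a b) ht) (hYm a ha b hb)) (fun w hw => by
      show Y f' a (Y e' b w) - Y e' b (Y f' a w) = ψ a b • t w - Y a b w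
      rw [brV' _ hX e' he' b hb w hw, Xe', Xb, h2' w hw, hY a ha b hb w hw, sq_apply, sq_apply, sq_apply,
        sq_apply]
      simp only [map_smul, LinearMap.smul_apply, smul_eq_mul, map_neg, LinearMap.neg_apply]
      module) v hv
    have h4 : Y f' a (Y e' b v) - Y e' b (Y f' a v) = ψ a b • t v - Y a b v := h3
    rw [QI2_br (hskew _ hX) (hsV _ hX) (YeU b hb hb1 hb2) hv, Xe, XJ, h2 v hv] at h4
    have h5 : sq ψ (-J a) (J b) v + sq ψ e (ψ (J a) (J b) • f) v =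
        -sq ψ (J a) (J b) v + ψ (J a) (J b) • sq ψ e f v := by
      rw [sq_apply, sq_apply, sq_apply, sq_apply]
      simp only [map_smul, LinearMap.smul_apply, smul_eq_mul, map_neg, LinearMap.neg_apply]
      module
    rw [h5] at h4
    linear_combination (norm := module) h4
  -- the pairs
  obtain ⟨Q, hQ⟩ : ∃ Q : H → H → Prop, Q = fun a b => c * ψ (J a) (J b) = ψ a b ∧
      ∀ v ∈ V, Y a b v = c • sq ψ (J a) (J b) v := ⟨_, rfl⟩
  have Qsymm : ∀ a ∈ V', ∀ b ∈ V', Q a b → Q b a := by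
    intro a ha b hb h
    rw [hQ] at h ⊢
    obtain ⟨h3, h4⟩ := h
    refine ⟨?_, ?_⟩
    · rw [alt_neg halt (J b) (J a), alt_neg halt b a, ← h3]
      ring
    · intro v hv
      rw [← Ycomm a ha b hb v hv, h4 v hv, sq_comm]
  have Qadd : ∀ a ∈ V', ∀ x ∈ V', ∀ y ∈ V', Q a x → Q a y → Q a (x + y) := by
    intro a ha x hx y hy h h'
    rw [hQ] at h h' ⊢
    obtain ⟨h3, h4⟩ := h
    obtain ⟨h3', h4'⟩ := h'
    refine ⟨?_, ?_⟩
    · rw [map_add, map_add, map_add, ← h3, ← h3']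
      ring
    · intro v hv
      rw [Yadd a ha x hx y hy v hv, h4 v hv, h4' v hv, map_add, sq_add, LinearMap.add_apply, smul_add]
  have Qsmul : ∀ a ∈ V', ∀ (z : ℂ), ∀ x ∈ V', Q a x → Q a (z • x) := by
    intro a ha z x hx h
    rw [hQ] at h ⊢
    obtain ⟨h3, h4⟩ := h
    refine ⟨?_, ?_⟩
    · rw [map_smul, map_smul, map_smul, ← h3, smul_eq_mul, smul_eq_mul]
      ring
    · intro v hv
      rw [Ysmul a ha z x hx v hv, h4 v hv, map_smul, sq_smul, LinearMap.smul_apply, smul_comm]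
  have Qee : Q e' e' := by
    rw [hQ]
    refine ⟨?_, ?_⟩
    · rw [Je, halt, halt, mul_zero]
    · intro v hv
      rw [hE v hv, Je]
  have Qef : Q e' f' := by
    rw [hQ]
    refine ⟨?_, ?_⟩
    · rw [Je, Jf, map_smul, h1, h1', smul_eq_mul, mul_one, mul_inv_cancel₀ hc0]
    · intro v hv
      rw [Yef v hv, Je, Jf, sq_smul, LinearMap.smul_apply, smul_smul, mul_inv_cancel₀ hc0, one_smul]
  have QeU : ∀ a ∈ V', ψ e' a = 0 → ψ f' a = 0 → Q e' a := by
    intro a ha ha1 ha2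
    obtain ⟨-, j1, j2, j3, j4⟩ := JU a ha ha1 ha2
    rw [hQ]
    refine ⟨?_, ?_⟩
    · rw [Je, j1, ha1, mul_zero]
    · intro v hv
      rw [YeU a ha ha1 ha2 v hv, Je]
  have Qff : Q f' f' := by
    rw [hQ]
    refine ⟨?_, ?_⟩
    · rw [halt, halt, mul_zero]
    · intro v hv
      have h3 : c' = c⁻¹ := eq_inv_of_mul_eq_one_right hcc
      rw [hF v hv, Jf, sq_smul, sq_comm ψ (c⁻¹ • f) f, sq_smul, LinearMap.smul_apply, LinearMap.smul_apply, smul_smul,
        smul_smul, h3]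
      congr 1
      field_simp
  have QfU : ∀ a ∈ V', ψ e' a = 0 → ψ f' a = 0 → Q f' a := by
    intro a ha ha1 ha2
    obtain ⟨-, j1, j2, j3, j4⟩ := JU a ha ha1 ha2
    rw [hQ]
    refine ⟨?_, ?_⟩
    · rw [Jf, map_smul, LinearMap.smul_apply, j2, ha2, smul_zero, mul_zero]
    · intro v hv
      rw [YfU a ha ha1 ha2 v hv, Jf, sq_comm ψ (c⁻¹ • f), sq_smul, LinearMap.smul_apply, smul_smul,
        mul_inv_cancel₀ hc0, one_smul, sq_comm]
  have QUU : ∀ a ∈ V', ψ e' a = 0 → ψ f' a = 0 → ∀ b ∈ V', ψ e' b = 0 → ψ f' b = 0 → Q a b := by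
    intro a ha ha1 ha2 b hb hb1 hb2
    have h3 := hABU a ha ha1 ha2 b hb hb1 hb2
    have h4 := hABU b hb hb1 hb2 a ha ha1 ha2
    have h5 : ψ a b - c * ψ (J a) (J b) = 0 := by
      have h6 := h3 f hf
      have h7 := h4 f hf
      rw [Ycomm a ha b hb f hf, h7, sq_comm ψ (J b), alt_neg halt b a, alt_neg halt (J b) (J a)] at h6
      have h8 : sq ψ e f f = f := by rw [sq_apply, h1, halt, one_smul, zero_smul, add_zero]
      rw [h8] at h6
      have h9 : (2 * (ψ a b - c * ψ (J a) (J b))) • f = 0 := by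
        linear_combination (norm := module) -h6
      rcases smul_eq_zero.1 h9 with h10 | h10
      · exact (mul_eq_zero.1 h10).resolve_left two_ne_zero
      · exact absurd h10 hf0
    rw [hQ]
    refine ⟨?_, ?_⟩
    · linear_combination -h5
    · intro v hv
      rw [h3 v hv, h5, zero_smul, add_zero]
  have Qe : ∀ b ∈ V', Q e' b := QI2_ind halt he' hf' h1' Qee Qef QeU (Qadd e' he') (Qsmul e' he')
  have Qf : ∀ b ∈ V', Q f' b := QI2_ind halt he' hf' h1' (Qsymm _ he' _ hf' Qef) Qff QfU (Qadd f' hf') (Qsmul f' hf')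
  have QU : ∀ a ∈ V', ψ e' a = 0 → ψ f' a = 0 → ∀ b ∈ V', Q a b := fun a ha ha1 ha2 =>
    QI2_ind halt he' hf' h1' (Qsymm _ he' _ ha (Qe a ha)) (Qsymm _ hf' _ ha (Qf a ha)) (QUU a ha ha1 ha2)
      (Qadd a ha) (Qsmul a ha)
  have QQ : ∀ a ∈ V', ∀ b ∈ V', Q a b := fun a ha =>
    QI2_ind halt he' hf' h1' (Qsymm _ he' _ ha (Qe a ha)) (Qsymm _ hf' _ ha (Qf a ha))
      (fun b hb hb1 hb2 => Qsymm _ hb _ ha (QU b hb hb1 hb2 a ha)) (Qadd a ha) (Qsmul a ha)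
  refine ⟨J, c, hc0, JV, ?_, ?_⟩
  · intro a ha b hb
    have h3 := QQ a ha b hb
    rw [hQ] at h3
    exact h3.1
  · intro a ha b hb Z hZ hZ' w hw
    have h3 := QQ a ha b hb
    rw [hQ] at h3
    rw [← h3.2 w hw]
    exact tr hZ (hYm a ha b hb) (fun w hw => by rw [hZ' w hw, hY a ha b hb w hw]) w hw

end TPM
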