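import Pool.Agent.Lib.MP_021685_agTM.M0

/-! LEAF QI3 (easy+).  The intertwining operator.

PROOF.  Let `Y ∈ 𝔞`, `a ∈ V'`; if `a = 0` clear.  Let `D = Y (J a) - J (Y a) ∈ V`.  Take `Z ∈ 𝔞` with `Z w = sq ψ a a w` for `w ∈ V'`, and `Z' ∈ 𝔞` with
`Z' w = sq ψ (Y a) a w` for `w ∈ V'` (`hfull'`; `Y a ∈ V'`).  On `V'`: `Y * Z - Z * Y` is `sq ψ (Y a) a + sq ψ a (Y a) = 2 • sq ψ (Y a) a` (as in `TPR.sq_bracket`:
`Y (sq ψ a a w) - sq ψ a a (Y w) = 2 • (ψ a w • Y a - ψ a (Y w) • a)` and `ψ a (Y w) = - ψ (Y a) w`; here `Z (Y w) = sq ψ a a (Y w)` as `Y w ∈ V'`).  So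
`Y * Z - Z * Y - 2 • Z' ∈ 𝔞` is zero on `V'`, hence on `V` (`hgr`).  On `V`: `Z = c • sq ψ (J a) (J a)`, `Z' = c • sq ψ (J (Y a)) (J a)` (`hθ`), and `Y * Z - Z * Y = 2 c • sq ψ (Y (J a)) (J a)`
(the same computation, with `Y w ∈ V` for `w ∈ V`).  So `2 c • sq ψ D (J a) w = 0`, `sq ψ D (J a) w = 0` for `w ∈ V`: `ψ D w • J a + ψ (J a) w • D = 0`.
As `a ≠ 0` there is `b ∈ V'` with `ψ a b ≠ 0` (`hV'`); `w = J b ∈ V` has `ψ (J a) w = c⁻¹ * ψ a b ≠ 0`, so `D = r • J a` for some `r`, and then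
`sq ψ D (J a) w = 2 * r * ψ (J a) w • J a = 0` (`TPR.sq_smul`), `J a ≠ 0`, so `r = 0` and `D = 0`. -/

set_option autoImplicit false

namespace TPM

open Module TPR

theorem comm_J {H : Type} [AddCommGroup H] [Module ℂ H] {ψ : H →ₗ[ℂ] H →ₗ[ℂ] ℂ} (halt : ∀ u, ψ u u = 0)
    {V V' : Submodule ℂ H} (hV' : ∀ u ∈ V', (∀ v ∈ V', ψ u v = 0) → u = 0) {𝔞 : Submodule ℂ (End ℂ H)}
    (hlie : ∀ X ∈ 𝔞, ∀ Y ∈ 𝔞, X * Y - Y * X ∈ 𝔞) (hskew : ∀ X ∈ 𝔞, X ∈ TGR.sp ψ) (hsV : ∀ X ∈ 𝔞, ∀ v ∈ V, X v ∈ V)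
    (hsV' : ∀ X ∈ 𝔞, ∀ v ∈ V', X v ∈ V') (hfull' : ∀ a ∈ V', ∀ b ∈ V', ∃ Y ∈ 𝔞, ∀ w ∈ V', Y w = sq ψ a b w)
    (hgr : ∀ X ∈ 𝔞, (∀ v ∈ V', X v = 0) → ∀ v ∈ V, X v = 0) {J : End ℂ H} {c : ℂ} (hc : c ≠ 0)
    (hJ : ∀ v ∈ V', J v ∈ V) (hform : ∀ a ∈ V', ∀ b ∈ V', c * ψ (J a) (J b) = ψ a b)
    (hθ : ∀ a ∈ V', ∀ b ∈ V', ∀ Y ∈ 𝔞, (∀ w ∈ V', Y w = sq ψ a b w) → ∀ w ∈ V, Y w = c • sq ψ (J a) (J b) w) :
    ∀ Y ∈ 𝔞, ∀ v ∈ V', Y (J v) = J (Y v) := by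
  intro Y hY a ha
  by_cases ha0 : a = 0
  · rw [ha0, map_zero, map_zero, map_zero]
  obtain ⟨Z, hZ, hZw⟩ := hfull' a ha a ha
  obtain ⟨Z', hZ', hZw'⟩ := hfull' (Y a) (hsV' Y hY a ha) a ha
  have hbr : ∀ x w : H, Y (sq ψ x x w) - sq ψ x x (Y w) = (2 : ℂ) • sq ψ (Y x) x w := by
    intro x w
    have h1 := congrArg (fun f : End ℂ H => f w) (sq_bracket (hskew Y hY) x x)
    have h2 : Y (sq ψ x x w) - sq ψ x x (Y w) = sq ψ (Y x) x w + sq ψ x (Y x) w := h1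
    rw [h2, sq_comm ψ x (Y x), two_smul]
  have hX : Y * Z - Z * Y - (2 : ℂ) • Z' ∈ 𝔞 :=
    Submodule.sub_mem _ (hlie Y hY Z hZ) (Submodule.smul_mem _ _ hZ')
  have hX0 : ∀ v ∈ V', (Y * Z - Z * Y - (2 : ℂ) • Z') v = 0 := by
    intro v hv
    show Y (Z v) - Z (Y v) - (2 : ℂ) • Z' v = 0
    rw [hZw v hv, hZw (Y v) (hsV' Y hY v hv), hZw' v hv, hbr, sub_self]
  have hXV := hgr _ hX hX0
  obtain ⟨D, hDd⟩ : ∃ D, D = Y (J a) - J (Y a) := ⟨_, rfl⟩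
  have hD : ∀ w ∈ V, ψ D w • J a + ψ (J a) w • D = 0 := by
    intro w hw
    have h1 : Y (Z w) - Z (Y w) - (2 : ℂ) • Z' w = 0 := hXV w hw
    rw [hθ a ha a ha Z hZ hZw w hw, hθ a ha a ha Z hZ hZw (Y w) (hsV Y hY w hw),
      hθ (Y a) (hsV' Y hY a ha) a ha Z' hZ' hZw' w hw, map_smul, ← smul_sub, hbr] at h1
    have h2 : (2 * c) • (ψ D w • J a + ψ (J a) w • D) = 0 := by
      rw [← h1, sq_apply, sq_apply, hDd, map_sub, LinearMap.sub_apply]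
      module
    exact (smul_eq_zero.1 h2).resolve_left (mul_ne_zero two_ne_zero hc)
  obtain ⟨b, hb, hab⟩ : ∃ b ∈ V', ψ a b ≠ 0 := by
    by_contra hcon
    refine ha0 (hV' a ha fun v hv => ?_)
    by_contra h1
    exact hcon ⟨v, hv, h1⟩
  have hw : ψ (J a) (J b) ≠ 0 := by
    intro h1
    have h2 := hform a ha b hb
    rw [h1, mul_zero] at h2
    exact hab h2.symm
  have h3 := hD (J b) (hJ b hb)
  have h4 : D = (-(ψ D (J b)) / ψ (J a) (J b)) • J a := by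
    have h5 : ψ (J a) (J b) • D = (-(ψ D (J b))) • J a := by
      rw [neg_smul]
      exact eq_neg_of_add_eq_zero_right h3
    rw [div_eq_inv_mul, mul_smul, ← h5, smul_smul, inv_mul_cancel₀ hw, one_smul]
  have h6 : ψ D (J b) = -(ψ D (J b)) := by
    conv_lhs => rw [h4]
    rw [map_smul, LinearMap.smul_apply, smul_eq_mul, div_mul_cancel₀ _ hw]
  have h7 : ψ D (J b) = 0 := self_eq_neg.1 h6
  rw [h7, neg_zero, zero_div, zero_smul] at h4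
  rw [h4] at hDd
  exact sub_eq_zero.1 hDd.symm

end TPM
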