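import Pool.Agent.Lib.MP_021685_agTM.QG
import Pool.Agent.Lib.MP_021685_agTG.GG

/-! LEAF QJ (medium+).  The intertwining operator of the Lie algebras is an isomorphism of representations.

Notation: `hC : Cx ρ μ U pr bar ψ` (`M0.lean`), `Ap T ψ U`; `Ap_conj` (leaf QG): `ρ g * Y * ρ g⁻¹ ∈ Ap T ψ U` for `Y ∈ Ap T ψ U`.

PROOF.  (1) `J v = 0`, `v ∈ U y` implies `v = 0`: `ψ v b = c * ψ (J v) (J b) = 0` for `b ∈ U y`, and `ψ v b' = 0` for `b' ∈ U z`, `z ≠ y = bar y` (`hC.orth`), so `ψ v = 0` (`hC.dec.sum`),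
`hC.nd`.
(2) For `g : G` let `Jg v = ρ g (J (ρ g⁻¹ v))`.  For `v ∈ U y`: `Jg v ∈ U x`, and `Y (Jg v) = Jg (Y v)` for `Y ∈ Ap T ψ U` (`hJc` for `ρ g⁻¹ * Y * ρ g`, `Ap_conj` for `g⁻¹`), and
`c * ψ (Jg a) (Jg b) = ψ a b` for `a`, `b ∈ U y` (`hC.sim`: the two multipliers cancel).
(3) There is `r` with `r = 1 ∨ r = - 1` and `Jg v = r • J v` for all `v ∈ U y`: let `v ∈ U y`, and `Y ∈ Ap T ψ U` with `Y w = sq ψ (J v) (J v) w` for `w ∈ U x` (`hfull`).  For `w ∈ U y`: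
`J (Y w) = Y (J w) = (2 * ψ (J v) (J w)) • J v = J ((2 * c⁻¹ * ψ v w) • v)`, so by (1) `Y w = (2 * c⁻¹ * ψ v w) • v`; and
`Y (Jg w) = (2 * ψ (J v) (Jg w)) • J v`, which is `Jg (Y w) = (2 * c⁻¹ * ψ v w) • Jg v`.  If `v ≠ 0` take `w ∈ U y` with `ψ v w ≠ 0`: `Jg v` is a multiple of `J v`.  So for all `v ∈ U y` there is
`r v` with `Jg v = r v • J v`.  `r` is constant: for `v`, `v' ∈ U y` non-zero: if `v' = s • v` clear (`J v ≠ 0`); otherwise `J v`, `J v'` are linearly independent by (1), and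
`r (v + v') • (J v + J v') = r v • J v + r v' • J v'`.  (If `U y = ⊥`.. not possible.)  (`LinearMap.exists_eq_smul_id_of_forall_notLinearIndependent` or similar can help.)  By (2) `r * r = 1`: take `a`, `b ∈ U y` with
`ψ a b ≠ 0`.
(4) Let `S = (U y).map (LinearMap.id + J)`, `S' = (U y).map (LinearMap.id - J)`.  For all `g`: `S.map (ρ g)` is `S` or `S'` and `S'.map (ρ g)` is `S'` or `S`: `ρ g (v + J v) = w + Jg w` with
`w = ρ g v ∈ U y`, and conversely.  `TGR.exists_fix ρ ⊤ inferInstance {S, S'} ..` (`MP_021685_agTG/GG.lean`) gives `K` of finite index with `S.map (ρ g) = S` for `g ∈ K`: so `Stab ρ K S`, and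
`Stab ρ ⊤ S` by `hC.conn`.
(5) So for `v ∈ U y`, `g : G`: `ρ g v + ρ g (J v) = w + J w` for some `w ∈ U y`; `ρ g v - w = J w - ρ g (J v) ∈ U y ⊓ U x = ⊥` (`x ≠ y`: `pr y z = z` and `pr y z = 0`), so `w = ρ g v` and
`ρ g (J v) = J (ρ g v)`.
(6) `(U y).map J ≤ U x` is stable by (5) and not `⊥` by (1), so it is `U x` (`hC.dec.simple`).  Let `θ = J * pr y`, equivariant (`hC.dec.comm`), and `θ'` the endomorphism with `θ' w = v` if
`pr x w = J v`, `v ∈ U y` (compose `pr x : H → U x` with the inverse of the linear equivalence `U y ≃ U x` given by `J`: `LinearEquiv.ofBijective`).  `θ' * θ = pr y`, `θ * θ' = pr x`, `θ * pr y = θ`,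
`θ' * pr x = θ'`, and `θ'` is equivariant (`θ' (ρ g w) = θ' (pr x (ρ g w))`, `pr x w = J v`, `ρ g (J v) = J (ρ g v)`).  So `Iso ρ pr y x`. -/

set_option autoImplicit false

namespace TPM

open Module TPR

section

variable {G H W X : Type} [Group G] [AddCommGroup H] [Module ℂ H] [AddCommGroup W] [Module ℂ W] [Fintype X]
  {ρ : Representation ℂ G H} {σ : Representation ℂ G W} {μ : G →* ℂˣ} {U : X → Submodule ℂ H} {pr : X → End ℂ H}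
  {bar : X → X} {ψ : H →ₗ[ℂ] H →ₗ[ℂ] ℂ} {k : ℕ} {m : ℤ} {T : MultilinearMap ℂ (fun _ : Fin k => H) (W →ₗ[ℂ] ℂ)}

private theorem QJ_nd (hC : Cx ρ μ U pr bar ψ) {y : X} (hy : bar y = y) {v : H} (hv : v ∈ U y)
    (h : ∀ b ∈ U y, ψ v b = 0) : v = 0 := by
  refine hC.nd v fun w => ?_
  rw [← hC.dec.sum w, map_sum]
  refine Finset.sum_eq_zero fun z _ => ?_
  by_cases hz : z = y
  · subst hz
    exact h _ (hC.dec.mem _ _)
  · exact hC.orth y z (fun h1 => hz (h1.trans hy)) v hv _ (hC.dec.mem _ _)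

private theorem QJ_ex (hC : Cx ρ μ U pr bar ψ) {y : X} (hy : bar y = y) {v : H} (hv : v ∈ U y) (hv0 : v ≠ 0) :
    ∃ b ∈ U y, ψ v b ≠ 0 := by
  by_contra hcon
  push Not at hcon
  exact hv0 (QJ_nd hC hy hv hcon)

private theorem QJ_inj (hC : Cx ρ μ U pr bar ψ) {y : X} (hy : bar y = y) {J : End ℂ H} {c : ℂ}
    (hform : ∀ a ∈ U y, ∀ b ∈ U y, c * ψ (J a) (J b) = ψ a b) {v : H} (hv : v ∈ U y) (h : J v = 0) : v = 0 := by
  refine QJ_nd hC hy hv fun b hb => ?_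
  rw [← hform v hv b hb, h, map_zero, LinearMap.zero_apply, mul_zero]

/-- the basic identity -/
private theorem QJ_key (hC : Cx ρ μ U pr bar ψ) {x y : X} (hy : bar y = y)
    (hfull : ∀ a ∈ U x, ∀ b ∈ U x, ∃ Y ∈ Ap T ψ U, ∀ w ∈ U x, Y w = sq ψ a b w) {J J' : End ℂ H} {c : ℂ} (hc : c ≠ 0)
    (hJ : ∀ v ∈ U y, J v ∈ U x) (hform : ∀ a ∈ U y, ∀ b ∈ U y, c * ψ (J a) (J b) = ψ a b)
    (hJc : ∀ Y ∈ Ap T ψ U, ∀ v ∈ U y, Y (J v) = J (Y v)) (hJ' : ∀ v ∈ U y, J' v ∈ U x)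
    (hJc' : ∀ Y ∈ Ap T ψ U, ∀ v ∈ U y, Y (J' v) = J' (Y v)) {v w : H} (hv : v ∈ U y) (hw : w ∈ U y) :
    ψ v w • J' v = (c * ψ (J v) (J' w)) • J v := by
  obtain ⟨Y, hY, hYx⟩ := hfull (J v) (hJ v hv) (J v) (hJ v hv)
  have h1 : J (Y w) = (2 * ψ (J v) (J w)) • J v := by
    rw [← hJc Y hY w hw, hYx _ (hJ w hw), sq_apply]
    module
  have hform' : ψ (J v) (J w) = c⁻¹ * ψ v w := by
    rw [← hform v hv w hw]
    field_simp
  have hYw : Y w ∈ U y := (mem_Ap.1 hY).2 y w hw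
  have h2 : Y w = (2 * (c⁻¹ * ψ v w)) • v := by
    have h3 : J (Y w - (2 * (c⁻¹ * ψ v w)) • v) = 0 := by
      rw [map_sub, map_smul, h1, hform', sub_self]
    have h4 := QJ_inj hC hy hform (sub_mem hYw (Submodule.smul_mem _ _ hv)) h3
    exact sub_eq_zero.1 h4
  have h5 : J' (Y w) = (2 * ψ (J v) (J' w)) • J v := by
    rw [← hJc' Y hY w hw, hYx _ (hJ' w hw), sq_apply]
    module
  rw [h2, map_smul] at h5
  have h6 : (2⁻¹ * c) • ((2 * (c⁻¹ * ψ v w)) • J' v) = (2⁻¹ * c) • ((2 * ψ (J v) (J' w)) • J v) := by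
    rw [h5]
  rw [smul_smul, smul_smul] at h6
  have h7 : 2⁻¹ * c * (2 * (c⁻¹ * ψ v w)) = ψ v w := by
    field_simp
  have h8 : 2⁻¹ * c * (2 * ψ (J v) (J' w)) = c * ψ (J v) (J' w) := by
    field_simp
  rw [h7, h8] at h6
  exact h6

/-- two such operators are proportional -/
private theorem QJ_prop (hC : Cx ρ μ U pr bar ψ) {x y : X} (hy : bar y = y)
    (hfull : ∀ a ∈ U x, ∀ b ∈ U x, ∃ Y ∈ Ap T ψ U, ∀ w ∈ U x, Y w = sq ψ a b w) {J J' : End ℂ H} {c : ℂ} (hc : c ≠ 0)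
    (hJ : ∀ v ∈ U y, J v ∈ U x) (hform : ∀ a ∈ U y, ∀ b ∈ U y, c * ψ (J a) (J b) = ψ a b)
    (hJc : ∀ Y ∈ Ap T ψ U, ∀ v ∈ U y, Y (J v) = J (Y v)) (hJ' : ∀ v ∈ U y, J' v ∈ U x)
    (hJc' : ∀ Y ∈ Ap T ψ U, ∀ v ∈ U y, Y (J' v) = J' (Y v)) : ∃ r : ℂ, ∀ v ∈ U y, J' v = r • J v := by
  obtain ⟨w0, hw0, hw1⟩ := (Submodule.ne_bot_iff _).1 (hC.dec.ne y)
  obtain ⟨v0, hv0, hv1⟩ := QJ_ex hC hy hw0 hw1
  have key := fun {v w : H} (hv : v ∈ U y) (hw : w ∈ U y) => QJ_key hC hy hfull hc hJ hform hJc hJ' hJc' hv hw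
  have h1 : J' w0 = ((ψ w0 v0)⁻¹ * (c * ψ (J w0) (J' v0))) • J w0 := by
    rw [mul_smul, ← key hw0 hv0, smul_smul, inv_mul_cancel₀ hv1, one_smul]
  obtain ⟨r, hr⟩ : ∃ r, r = (ψ w0 v0)⁻¹ * (c * ψ (J w0) (J' v0)) := ⟨_, rfl⟩
  rw [← hr] at h1
  have h2 : ∀ v ∈ U y, ψ v w0 ≠ 0 → J' v = r • J v := by
    intro v hv h3
    have h4 := key hv hw0
    rw [h1, map_smul, smul_eq_mul] at h4
    have h5 : c * (r * ψ (J v) (J w0)) = ψ v w0 * r := by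
      rw [← hform v hv w0 hw0]
      ring
    rw [h5, mul_smul] at h4
    exact smul_right_injective H h3 h4
  have h0 : ψ v0 w0 ≠ 0 := by
    rw [alt_neg hC.alt]
    exact neg_ne_zero.2 hv1
  refine ⟨r, fun v hv => ?_⟩
  by_cases h3 : ψ v w0 = 0
  · have h4 := h2 (v + v0) (add_mem hv hv0) (by rw [map_add, LinearMap.add_apply, h3, zero_add]; exact h0)
    have h5 := h2 v0 hv0 h0
    rw [map_add, map_add, h5, smul_add] at h4
    exact add_right_cancel h4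
  · exact h2 v hv h3

private theorem QJ_inv (g : G) (v : H) : ρ g (ρ g⁻¹ v) = v := by
  have h := congrArg (fun f : End ℂ H => f v) (map_mul ρ g g⁻¹)
  simp only [mul_inv_cancel, map_one] at h
  exact h.symm

private theorem QJ_inv' (g : G) (v : H) : ρ g⁻¹ (ρ g v) = v := by
  have h := congrArg (fun f : End ℂ H => f v) (map_mul ρ g⁻¹ g)
  simp only [inv_mul_cancel, map_one] at h
  exact h.symm

/-- the sign -/
private theorem QJ_sign (hC : Cx ρ μ U pr bar ψ) (hT : TGR.IsTate ρ σ μ ⊤ m T) {x y : X} (hy : bar y = y)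
    (hfull : ∀ a ∈ U x, ∀ b ∈ U x, ∃ Y ∈ Ap T ψ U, ∀ w ∈ U x, Y w = sq ψ a b w) {J : End ℂ H} {c : ℂ} (hc : c ≠ 0)
    (hJ : ∀ v ∈ U y, J v ∈ U x) (hform : ∀ a ∈ U y, ∀ b ∈ U y, c * ψ (J a) (J b) = ψ a b)
    (hJc : ∀ Y ∈ Ap T ψ U, ∀ v ∈ U y, Y (J v) = J (Y v)) (g : G) :
    ∃ r : ℂ, (r = 1 ∨ r = -1) ∧ ∀ v ∈ U y, ρ g (J v) = r • J (ρ g v) := by
  have hst : ∀ z (h : G), ∀ v ∈ U z, ρ h v ∈ U z := fun z h v hv => hC.dec.stab z h (Subgroup.mem_top h) v hv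
  obtain ⟨r, hr⟩ := QJ_prop (J' := ρ g * J * ρ g⁻¹) hC hy hfull hc hJ hform hJc
    (fun v hv => hst x g _ (hJ _ (hst y g⁻¹ v hv))) (fun Y hY v hv => by
      have h1 := hJc _ (Ap_conj hC hT g⁻¹ hY) (ρ g⁻¹ v) (hst y g⁻¹ v hv)
      rw [inv_inv] at h1
      have h2 := congrArg (ρ g) h1
      show Y (ρ g (J (ρ g⁻¹ v))) = ρ g (J (ρ g⁻¹ (Y v)))
      have h3 : (ρ g⁻¹ * Y * ρ g) (J (ρ g⁻¹ v)) = ρ g⁻¹ (Y (ρ g (J (ρ g⁻¹ v)))) := rfl
      have h4 : (ρ g⁻¹ * Y * ρ g) (ρ g⁻¹ v) = ρ g⁻¹ (Y (ρ g (ρ g⁻¹ v))) := rfl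
      rw [h3, h4, QJ_inv, QJ_inv] at h2
      exact h2)
  have hr' : ∀ v ∈ U y, ρ g (J (ρ g⁻¹ v)) = r • J v := hr
  refine ⟨r, ?_, fun v hv => ?_⟩
  · obtain ⟨a, ha, ha0⟩ := (Submodule.ne_bot_iff _).1 (hC.dec.ne y)
    obtain ⟨b, hb, hab⟩ := QJ_ex hC hy ha ha0
    have h1 : c * ψ (ρ g (J (ρ g⁻¹ a))) (ρ g (J (ρ g⁻¹ b))) = ψ a b := by
      rw [hC.sim]
      have h2 := hform (ρ g⁻¹ a) (hst y _ a ha) (ρ g⁻¹ b) (hst y _ b hb)
      have h3 := hC.sim g (ρ g⁻¹ a) (ρ g⁻¹ b)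
      rw [QJ_inv, QJ_inv] at h3
      rw [h3, ← h2]
      ring
    rw [hr' a ha, hr' b hb, map_smul, map_smul, LinearMap.smul_apply, smul_eq_mul, smul_eq_mul] at h1
    have h4 : r * r * ψ a b = 1 * ψ a b := by
      rw [← hform a ha b hb] at h1 ⊢
      linear_combination h1
    exact mul_self_eq_one_iff.1 (mul_right_cancel₀ hab h4)
  · have h1 := hr' (ρ g v) (hst y g v hv)
    rw [QJ_inv'] at h1
    exact h1

private theorem QJ_equi (hC : Cx ρ μ U pr bar ψ) (hT : TGR.IsTate ρ σ μ ⊤ m T) {x y : X} (hxy : x ≠ y)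
    (hy : bar y = y)
    (hfull : ∀ a ∈ U x, ∀ b ∈ U x, ∃ Y ∈ Ap T ψ U, ∀ w ∈ U x, Y w = sq ψ a b w) {J : End ℂ H} {c : ℂ} (hc : c ≠ 0)
    (hJ : ∀ v ∈ U y, J v ∈ U x) (hform : ∀ a ∈ U y, ∀ b ∈ U y, c * ψ (J a) (J b) = ψ a b)
    (hJc : ∀ Y ∈ Ap T ψ U, ∀ v ∈ U y, Y (J v) = J (Y v)) (g : G) {v : H} (hv : v ∈ U y) :
    ρ g (J v) = J (ρ g v) := by
  have hst : ∀ z (h : G), ∀ v ∈ U z, ρ h v ∈ U z := fun z h v hv => hC.dec.stab z h (Subgroup.mem_top h) v hv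
  have hmap : ∀ (t : ℂ) (h : G) (r : ℂ), (∀ v ∈ U y, ρ h (J v) = r • J (ρ h v)) →
      ((U y).map (1 + t • J)).map (ρ h) = (U y).map (1 + (r * t) • J) := by
    intro t h r hr
    ext z
    constructor
    · rintro ⟨_, ⟨v, hv, rfl⟩, rfl⟩
      refine ⟨ρ h v, hst y h v hv, ?_⟩
      show ρ h v + (r * t) • J (ρ h v) = ρ h (v + t • J v)
      rw [map_add, map_smul, hr v hv, smul_smul, mul_comm r t]
    · rintro ⟨v, hv, rfl⟩
      refine ⟨ρ h⁻¹ v + t • J (ρ h⁻¹ v), ⟨ρ h⁻¹ v, hst y h⁻¹ v hv, rfl⟩, ?_⟩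
      show ρ h (ρ h⁻¹ v + t • J (ρ h⁻¹ v)) = v + (r * t) • J v
      rw [map_add, map_smul, hr _ (hst y h⁻¹ v hv), QJ_inv, smul_smul, mul_comm r t]
  have hSf : ∀ h ∈ (⊤ : Subgroup G), ∀ S ∈ ({(U y).map (1 + (1 : ℂ) • J), (U y).map (1 + (-1 : ℂ) • J)} :
      Set (Submodule ℂ H)), S.map (ρ h) ∈ ({(U y).map (1 + (1 : ℂ) • J), (U y).map (1 + (-1 : ℂ) • J)} :
      Set (Submodule ℂ H)) := by
    intro h _ S hS
    obtain ⟨r, hr1, hr⟩ := QJ_sign hC hT hy hfull hc hJ hform hJc h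
    rcases hS with rfl | hS
    · rw [hmap 1 h r hr, mul_one]
      rcases hr1 with rfl | rfl
      · exact Or.inl rfl
      · exact Or.inr rfl
    · rw [Set.mem_singleton_iff] at hS
      subst hS
      rw [hmap (-1) h r hr]
      rcases hr1 with rfl | rfl
      · rw [one_mul]
        exact Or.inr rfl
      · rw [neg_mul_neg, one_mul]
        exact Or.inl rfl
  obtain ⟨K, hK, -, hfix⟩ := TGR.exists_fix ρ ⊤ inferInstance _ (Set.toFinite _) hSf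
  have hstab : Stab ρ ⊤ ((U y).map (1 + (1 : ℂ) • J)) := by
    refine hC.conn K hK _ fun h hh z hz => ?_
    rw [← hfix h hh _ (Or.inl rfl)]
    exact Submodule.mem_map_of_mem hz
  have h1 := hstab g (Subgroup.mem_top g) _ (Submodule.mem_map_of_mem (f := 1 + (1 : ℂ) • J) hv)
  obtain ⟨w, hw, hw1⟩ := h1
  have h2 : w + (1 : ℂ) • J w = ρ g (v + (1 : ℂ) • J v) := hw1
  rw [one_smul, one_smul, map_add] at h2
  have h3 : ρ g v - w = J w - ρ g (J v) := by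
    rw [sub_eq_sub_iff_add_eq_add, ← h2]
    abel
  have h4 : ρ g v - w ∈ U y := sub_mem (hst y g v hv) hw
  have h5 : ρ g v - w ∈ U x := by
    rw [h3]
    exact sub_mem (hJ w hw) (hst x g _ (hJ v hv))
  have h6 : ρ g v - w = 0 := by
    rw [← hC.dec.id y _ h4]
    exact hC.dec.zero y x hxy.symm _ h5
  rw [h6] at h3
  rw [sub_eq_zero.1 h6]
  exact (sub_eq_zero.1 h3.symm).symm

end

theorem iso_of_J {G H W X : Type} [Group G] [AddCommGroup H] [Module ℂ H] [FiniteDimensional ℂ H] [AddCommGroup W]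
    [Module ℂ W] [Fintype X] {ρ : Representation ℂ G H} {σ : Representation ℂ G W} {μ : G →* ℂˣ}
    {U : X → Submodule ℂ H} {pr : X → End ℂ H} {bar : X → X} {ψ : H →ₗ[ℂ] H →ₗ[ℂ] ℂ} (hC : Cx ρ μ U pr bar ψ) {k : ℕ}
    {m : ℤ} {T : MultilinearMap ℂ (fun _ : Fin k => H) (W →ₗ[ℂ] ℂ)} (hT : TGR.IsTate ρ σ μ ⊤ m T) {x y : X}
    (hxy : x ≠ y) (hx : bar x = x) (hy : bar y = y)
    (hfull : ∀ a ∈ U x, ∀ b ∈ U x, ∃ Y ∈ Ap T ψ U, ∀ w ∈ U x, Y w = sq ψ a b w) {J : End ℂ H} {c : ℂ} (hc : c ≠ 0)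
    (hJ : ∀ v ∈ U y, J v ∈ U x) (hform : ∀ a ∈ U y, ∀ b ∈ U y, c * ψ (J a) (J b) = ψ a b)
    (hJc : ∀ Y ∈ Ap T ψ U, ∀ v ∈ U y, Y (J v) = J (Y v)) : Iso ρ pr y x := by
  have hinj : ∀ v ∈ U y, J v = 0 → v = 0 := fun v hv h => QJ_inj hC hy hform hv h
  have hequi : ∀ g, ∀ v ∈ U y, ρ g (J v) = J (ρ g v) := fun g v hv =>
    QJ_equi hC hT hxy hy hfull hc hJ hform hJc g hv
  have hmapU : (U y).map J = U x := by
    refine (hC.dec.simple x _ (Submodule.map_le_iff_le_comap.2 fun v hv => hJ v hv) ?_).resolve_left ?_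
    · rintro g _ _ ⟨v, hv, rfl⟩
      rw [hequi g v hv]
      exact Submodule.mem_map_of_mem (hC.dec.stab y g (Subgroup.mem_top g) v hv)
    · intro h0
      obtain ⟨v, hv, hv0⟩ := (Submodule.ne_bot_iff _).1 (hC.dec.ne y)
      have h1 : J v ∈ (U y).map J := Submodule.mem_map_of_mem hv
      rw [h0, Submodule.mem_bot] at h1
      exact hv0 (hinj v hv h1)
  have hsurj : ∀ w, ∃ v ∈ U y, pr x w = J v := by
    intro w
    have h1 := hC.dec.mem x w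
    rw [← hmapU] at h1
    obtain ⟨v, hv, h2⟩ := h1
    exact ⟨v, hv, h2.symm⟩
  have hbij : Function.Bijective (J.restrict hJ) := by
    constructor
    · rw [injective_iff_map_eq_zero]
      rintro ⟨v, hv⟩ h
      exact Subtype.ext (hinj v hv (congrArg Subtype.val h))
    · rintro ⟨w, hw⟩
      rw [← hmapU] at hw
      obtain ⟨v, hv, h1⟩ := hw
      exact ⟨⟨v, hv⟩, Subtype.ext h1⟩
  obtain ⟨θ', hθ'⟩ : ∃ θ' : End ℂ H, ∀ w, ∀ v ∈ U y, pr x w = J v → θ' w = v := by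
    refine ⟨(U y).subtype ∘ₗ (LinearEquiv.ofBijective (J.restrict hJ) hbij).symm.toLinearMap ∘ₗ
      (pr x).codRestrict (U x) (hC.dec.mem x), fun w v hv h => ?_⟩
    have h1 : (LinearEquiv.ofBijective (J.restrict hJ) hbij).symm ((pr x).codRestrict (U x) (hC.dec.mem x) w) =
        ⟨v, hv⟩ := by
      rw [LinearEquiv.symm_apply_eq]
      exact Subtype.ext h
    show (((LinearEquiv.ofBijective (J.restrict hJ) hbij).symm
      ((pr x).codRestrict (U x) (hC.dec.mem x) w) : U y) : H) = v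
    rw [h1]
  have hprx : ∀ v ∈ U y, pr x (J v) = J v := fun v hv => hC.dec.id x _ (hJ v hv)
  refine ⟨J * pr y, θ', fun g v => ?_, fun g w => ?_, ?_, ?_, ?_, ?_⟩
  · show J (pr y (ρ g v)) = ρ g (J (pr y v))
    rw [hC.dec.comm, hequi g _ (hC.dec.mem y v)]
  · obtain ⟨v, hv, h1⟩ := hsurj w
    rw [hθ' w v hv h1]
    refine hθ' _ _ (hC.dec.stab y g (Subgroup.mem_top g) v hv) ?_
    rw [hC.dec.comm, h1, hequi g v hv]
  · apply LinearMap.ext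
    intro v
    exact hθ' _ _ (hC.dec.mem y v) (hprx _ (hC.dec.mem y v))
  · apply LinearMap.ext
    intro w
    obtain ⟨v, hv, h1⟩ := hsurj w
    show J (pr y (θ' w)) = pr x w
    rw [hθ' w v hv h1, hC.dec.id y v hv, h1]
  · apply LinearMap.ext
    intro v
    show J (pr y (pr y v)) = J (pr y v)
    rw [hC.dec.id y _ (hC.dec.mem y v)]
  · apply LinearMap.ext
    intro w
    obtain ⟨v, hv, h1⟩ := hsurj w
    show θ' (pr x w) = θ' w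
    rw [hθ' w v hv h1]
    refine hθ' _ v hv ?_
    rw [hC.dec.id x _ (hC.dec.mem x w), h1]

end TPM
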