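import Pool.Agent.Lib.MP_021685_agTM.QG
import Pool.Agent.Lib.MP_021685_agTM.QH

/-! LEAF QK (medium-).  From pairs of pieces to all the pieces (Goursat).

PROOF.  Let `hC : Cx ρ μ U pr bar ψ`, `bar x = x`.  NON-DEGENERACY: for `u ∈ U x`, `u ≠ 0` there is `v ∈ U x` with `ψ u v ≠ 0` (`hC.nd`, `v = ∑ y, pr y v` and
`ψ u (pr y v) = 0` for `y ≠ x` by `hC.orth`).  Induction on the finite set `s`.  `s = ∅`: `hfull`.  Let the claim hold for `s`, and `y ∉ s`, and let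
`M = {Z ∈ Ap T ψ U | Z v = 0 for v ∈ U z, z ∈ insert y s}` (a submodule).  `Y * Z - Z * Y ∈ M` for `Y ∈ Ap T ψ U`, `Z ∈ M` (`Ap_lie` in leaf QG; `Z (Y v) = 0` as `Y v ∈ U z`).
Take `e₀ ∈ U x`, `e₀ ≠ 0` (`hC.dec.ne`) and `f ∈ U x` with `ψ e f = 1`, `e = e₀` (scale `f`).  By induction there is `Y₁ ∈ Ap T ψ U` with `Y₁ w = sq ψ e f w` on `U x`, zero on the `U z`, `z ∈ s`,
and by `hpair` `Y₂ ∈ Ap T ψ U` with `Y₂ w = sq ψ e e w` on `U x`, zero on `U y`.  `Y₀ = Y₁ * Y₂ - Y₂ * Y₁ ∈ M`: zero on `U z`, `z ∈ s` (`Y₂ v ∈ U z`), and on `U y`.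
`Y₀ f = sq ψ e f (2 • e) - sq ψ e e f = - 2 • e - 2 • e = - 4 • e ≠ 0` (`sq ψ e e f = 2 • e`, `sq ψ e f e = - e`, `sq ψ e f f = f`).  Apply `ideal_all` (leaf QH) with `V = U x`,
`𝔞 = Ap T ψ U`, `M`, `v₀ = f`. -/

set_option autoImplicit false

namespace TPM

open Module TPR

private theorem QK_nd {G H X : Type} [Group G] [AddCommGroup H] [Module ℂ H] [Fintype X] {ρ : Representation ℂ G H}
    {μ : G →* ℂˣ} {U : X → Submodule ℂ H} {pr : X → End ℂ H} {bar : X → X} {ψ : H →ₗ[ℂ] H →ₗ[ℂ] ℂ}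
    (hC : Cx ρ μ U pr bar ψ) {x : X} (hx : bar x = x) (u : H) (hu : u ∈ U x) (h : ∀ v ∈ U x, ψ u v = 0) : u = 0 := by
  refine hC.nd u fun v => ?_
  rw [← hC.dec.sum v, map_sum]
  refine Finset.sum_eq_zero fun y _ => ?_
  rcases eq_or_ne y x with rfl | hy
  · exact h _ (hC.dec.mem _ v)
  · exact hC.orth x y (by rw [hx]; exact hy) u hu _ (hC.dec.mem y v)

private def QK_M {H W X : Type} [AddCommGroup H] [Module ℂ H] [AddCommGroup W]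
    [Module ℂ W] (U : X → Submodule ℂ H) (ψ : H →ₗ[ℂ] H →ₗ[ℂ] ℂ) {k : ℕ}
    (T : MultilinearMap ℂ (fun _ : Fin k => H) (W →ₗ[ℂ] ℂ)) (s : Finset X) : Submodule ℂ (End ℂ H) where
  carrier := {Z | Z ∈ Ap T ψ U ∧ ∀ z ∈ s, ∀ w ∈ U z, Z w = 0}
  add_mem' := by
    rintro Y Z ⟨hY1, hY2⟩ ⟨hZ1, hZ2⟩
    refine ⟨add_mem hY1 hZ1, fun z hz w hw => ?_⟩
    rw [LinearMap.add_apply, hY2 z hz w hw, hZ2 z hz w hw, add_zero]
  zero_mem' := ⟨zero_mem _, fun z hz w hw => rfl⟩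
  smul_mem' := by
    rintro c Y ⟨hY1, hY2⟩
    refine ⟨Submodule.smul_mem _ _ hY1, fun z hz w hw => ?_⟩
    rw [LinearMap.smul_apply, hY2 z hz w hw, smul_zero]

theorem goursat {G H W X : Type} [Group G] [AddCommGroup H] [Module ℂ H] [AddCommGroup W]
    [Module ℂ W] [Fintype X] {ρ : Representation ℂ G H} {μ : G →* ℂˣ}
    {U : X → Submodule ℂ H} {pr : X → End ℂ H} {bar : X → X} {ψ : H →ₗ[ℂ] H →ₗ[ℂ] ℂ} (hC : Cx ρ μ U pr bar ψ) {k : ℕ}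
    {T : MultilinearMap ℂ (fun _ : Fin k => H) (W →ₗ[ℂ] ℂ)} {x : X} (hx : bar x = x)
    (hfull : ∀ a ∈ U x, ∀ b ∈ U x, ∃ Y ∈ Ap T ψ U, ∀ w ∈ U x, Y w = sq ψ a b w) (s : Finset X)
    (hpair : ∀ y ∈ s, ∀ a ∈ U x, ∀ b ∈ U x, ∃ Y ∈ Ap T ψ U, (∀ w ∈ U x, Y w = sq ψ a b w) ∧ ∀ w ∈ U y, Y w = 0) :
    ∀ a ∈ U x, ∀ b ∈ U x, ∃ Y ∈ Ap T ψ U, (∀ w ∈ U x, Y w = sq ψ a b w) ∧ ∀ y ∈ s, ∀ w ∈ U y, Y w = 0 := by
  classical
  induction s using Finset.induction_on with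
  | empty =>
    intro a ha b hb
    obtain ⟨Y, hY, h⟩ := hfull a ha b hb
    exact ⟨Y, hY, h, fun y hy => absurd hy (Finset.notMem_empty y)⟩
  | insert y s hy ih =>
    have ih' := ih fun z hz => hpair z (Finset.mem_insert_of_mem hz)
    have hV := QK_nd hC hx
    obtain ⟨e, he, he0⟩ := Submodule.exists_mem_ne_zero_of_ne_bot (hC.dec.ne x)
    obtain ⟨v, hv, hev⟩ : ∃ v ∈ U x, ψ e v ≠ 0 := by
      by_contra hcon
      push Not at hcon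
      exact he0 (hV e he hcon)
    obtain ⟨f, hf, hef⟩ : ∃ f ∈ U x, ψ e f = 1 := by
      refine ⟨(ψ e v)⁻¹ • v, Submodule.smul_mem _ _ hv, ?_⟩
      rw [map_smul, smul_eq_mul, inv_mul_cancel₀ hev]
    obtain ⟨Y₁, hY₁, h1, h1'⟩ := ih' e he f hf
    obtain ⟨Y₂, hY₂, h2, h2'⟩ := hpair y (Finset.mem_insert_self y s) e he e he
    have hfe : ψ f e = -1 := by rw [alt_neg hC.alt, hef]
    have e1 : Y₁ e = -e := by
      rw [h1 e he, sq_apply, hC.alt, zero_smul, zero_add, hfe, neg_smul, one_smul]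
    have e2 : Y₁ f = f := by
      rw [h1 f hf, sq_apply, hC.alt, zero_smul, add_zero, hef, one_smul]
    have e3 : Y₂ f = e + e := by
      rw [h2 f hf, sq_apply, hef, one_smul]
    have h0 : Y₁ * Y₂ - Y₂ * Y₁ ∈ QK_M U ψ T (insert y s) := by
      refine ⟨Ap_lie hY₁ hY₂, fun z hz w hw => ?_⟩
      rw [LinearMap.sub_apply, Module.End.mul_apply, Module.End.mul_apply]
      rcases Finset.mem_insert.1 hz with rfl | hz
      · rw [h2' w hw, map_zero, h2' _ ((mem_Ap.1 hY₁).2 _ w hw), sub_zero]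
      · rw [h1' z hz w hw, map_zero, h1' z hz _ ((mem_Ap.1 hY₂).2 z w hw), sub_zero]
    have hne : (Y₁ * Y₂ - Y₂ * Y₁) f ≠ 0 := by
      rw [LinearMap.sub_apply, Module.End.mul_apply, Module.End.mul_apply, e2, e3, map_add, e1]
      intro h4
      have h5 : (-4 : ℂ) • e = 0 := by
        rw [← h4]
        module
      rcases smul_eq_zero.1 h5 with h6 | h6
      · norm_num at h6
      · exact he0 h6
    have h3 := ideal_all hC.alt hV (𝔞 := Ap T ψ U) (M := QK_M U ψ T (insert y s))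
      (fun Y hY u _ v _ => (mem_Ap.1 hY.1).1.2 u v) (fun Y hY v hv => (mem_Ap.1 hY.1).2 x v hv) hfull
      (fun Y hY Z hZ => ⟨Ap_lie hY hZ.1, fun z hz w hw => by
        rw [LinearMap.sub_apply, Module.End.mul_apply, Module.End.mul_apply, hZ.2 z hz w hw, map_zero,
          hZ.2 z hz _ ((mem_Ap.1 hY).2 z w hw), sub_zero]⟩) h0 hf hne
    intro a ha b hb
    obtain ⟨Y, hY, h⟩ := h3 a ha b hb
    exact ⟨Y, hY.1, h, hY.2⟩

end TPM
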