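import Pool.Agent.Lib.MP_021685_agTM.M0

/-! LEAF QL (medium-).  An element of the Lie algebra which agrees with `sq ψ u v` up to pieces where the form vanishes.

PROOF.  Let `D = Y - sq ψ u v`.  For `z : X` and `w ∈ U z`: if `z = x`, `D w = 0`.  If `z ≠ x`: `sq ψ u v w = 0` (`ψ u w = ψ v w = 0` by `hC.orth`, `z ≠ x = bar x`), so `D w = Y w ∈ U z`, and it is `0` if
`¬ N z` (`hY0`).  Claim `D ∈ kill T`: the form `TGR.der D T` (`TGR.der_apply`, `MP_021685_agTG/G0.lean`) is multilinear, and `H` is spanned by the union of the `U z` (`hC.dec.sum`, `mem`), so it is enough to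
consider tuples `v a ∈ U (z a)` (private `PF_ext` in `MP_021685_agTP/PF.lean`: copy it).  Every term `T (update v a (D (v a)))` is zero: if `¬ N (z a)` then `D (v a) = 0`
(`z a = x` or `hY0`; note `¬ N x`), and `MultilinearMap.map_coord_zero`; if `N (z a)` then `D (v a) ∈ U (z a)` and `hN` gives zero (the argument number `a` of the updated tuple is in `U (z a)`).
So `sq ψ u v = Y - D ∈ kill T` (`Y ∈ Ap T ψ U`, `Ap`: `mem_Ap`, `TGR.alg T ψ = kill T ⊓ sp ψ`).

PROOF of `kill_zero`.  `sq ψ u v w ∈ U x` for all `w`, if `u`, `v ∈ U x`, so every term `T (update v' a (sq ψ u v (v' a)))` is zero by `hN`. -/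

set_option autoImplicit false

namespace TPM

open Module Function TPR

variable {G H W X : Type} [Group G] [AddCommGroup H] [Module ℂ H] [AddCommGroup W] [Module ℂ W] [Fintype X]
  {ρ : Representation ℂ G H} {μ : G →* ℂˣ} {U : X → Submodule ℂ H} {pr : X → End ℂ H} {bar : X → X}
  {ψ : H →ₗ[ℂ] H →ₗ[ℂ] ℂ} {k : ℕ} {T : MultilinearMap ℂ (fun _ : Fin k => H) (W →ₗ[ℂ] ℂ)}

private theorem QL_ext {H N : Type} [AddCommGroup H] [Module ℂ H] [AddCommGroup N] [Module ℂ N] {k : ℕ}
    (M : MultilinearMap ℂ (fun _ : Fin k => H) N) (S : Set H) (hS : ⊤ ≤ Submodule.span ℂ S)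
    (h : ∀ v : Fin k → H, (∀ a, v a ∈ S) → M v = 0) : ∀ v, M v = 0 := by
  have h1 : M = 0 := by
    refine Module.Basis.ext_multilinear (fun _ => Module.Basis.ofSpan hS) fun v => ?_
    show M _ = 0
    exact h _ fun a => Module.Basis.ofSpan_subset hS (Set.mem_range_self _)
  intro v
  rw [h1]
  rfl

theorem kill_diff (hC : Cx ρ μ U pr bar ψ) {N : X → Prop} (hN : ∀ z, N z → ∀ v a, v a ∈ U z → T v = 0) {x : X}
    (hx : bar x = x) (hxN : ¬ N x) {Y : End ℂ H} (hY : Y ∈ Ap T ψ U) {u v : H} (hu : u ∈ U x) (hv : v ∈ U x)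
    (hYx : ∀ w ∈ U x, Y w = sq ψ u v w) (hY0 : ∀ z, z ≠ x → ¬ N z → ∀ w ∈ U z, Y w = 0) : sq ψ u v ∈ TGR.kill T := by
  classical
  have hD1 : ∀ w ∈ U x, (Y - sq ψ u v) w = 0 := by
    intro w hw
    rw [LinearMap.sub_apply, hYx w hw, sub_self]
  have hD2 : ∀ z, z ≠ x → ∀ w ∈ U z, (Y - sq ψ u v) w = Y w := by
    intro z hz w hw
    have hzx : z ≠ bar x := by rwa [hx]
    rw [LinearMap.sub_apply, sq_apply, hC.orth x z hzx u hu w hw, hC.orth x z hzx v hv w hw,
      zero_smul, zero_smul, add_zero, sub_zero]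
  have hD : Y - sq ψ u v ∈ TGR.kill T := by
    show ∀ v', ∑ a, T (update v' a ((Y - sq ψ u v) (v' a))) = 0
    intro v'
    rw [← TGR.der_apply]
    refine QL_ext (TGR.der (Y - sq ψ u v) T) (⋃ z, (U z : Set H)) ?_ ?_ v'
    · intro w _
      rw [← hC.dec.sum w]
      refine Submodule.sum_mem _ fun z _ => Submodule.subset_span (Set.mem_iUnion.2 ⟨z, ?_⟩)
      exact hC.dec.mem z w
    · intro w hw
      rw [TGR.der_apply]
      refine Finset.sum_eq_zero fun a _ => ?_
      obtain ⟨z, hz⟩ := Set.mem_iUnion.1 (hw a)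
      have hz' : w a ∈ U z := hz
      by_cases hNz : N z
      · have hzx : z ≠ x := by
          rintro rfl
          exact hxN hNz
        refine hN z hNz _ a ?_
        rw [update_self, hD2 z hzx _ hz']
        exact (mem_Ap.1 hY).2 z _ hz'
      · have h0 : (Y - sq ψ u v) (w a) = 0 := by
          by_cases hzx : z = x
          · rw [hzx] at hz'
            exact hD1 _ hz'
          · rw [hD2 z hzx _ hz']
            exact hY0 z hzx hNz _ hz'
        exact T.map_coord_zero a (by rw [update_self, h0])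
  have hYk : Y ∈ TGR.kill T := (Submodule.mem_inf.1 (mem_Ap.1 hY).1).1
  have h1 := sub_mem hYk hD
  rwa [sub_sub_cancel] at h1

omit [Fintype X] in
theorem kill_zero {N : X → Prop} (hN : ∀ z, N z → ∀ v a, v a ∈ U z → T v = 0) {x : X} (hxN : N x) {u v : H}
    (hu : u ∈ U x) (hv : v ∈ U x) : sq ψ u v ∈ TGR.kill T := by
  classical
  show ∀ v', ∑ a, T (update v' a (sq ψ u v (v' a))) = 0
  intro v'
  refine Finset.sum_eq_zero fun a _ => hN x hxN _ a ?_
  rw [update_self, sq_apply]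
  exact add_mem (Submodule.smul_mem _ _ hv) (Submodule.smul_mem _ _ hu)

end TPM
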