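import Pool.Agent.Lib.MP_021685_agTM.M0

/-! LEAF QM (easy).  From a subgroup to the group.

PROOF.  `G''' = G''.map K.subtype`; it has finite index (`Subgroup.index_map_subtype`: the index is `G''.index * K.index`, or
`Subgroup.relIndex`..).  `Submodule.span_mono`: a product for `ρ.comp K.subtype`, .., `G''` is a product for `ρ`, .., `G'''`, with the same `m`, `e`, `β`, `χ`: every
`g ∈ G'''` is `(g' : G)` with `g' ∈ G''` (`Subgroup.mem_map`), and `(ρ.comp K.subtype) g' = ρ g'` etc. (`rfl`). -/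

set_option autoImplicit false

namespace TPM

open Module TPR

theorem of_subgroup {G H W : Type} [Group G] [AddCommGroup H] [Module ℂ H] [AddCommGroup W] [Module ℂ W]
    {ρ : Representation ℂ G H} {σ : Representation ℂ G W} {μ : G →* ℂˣ} {K : Subgroup G} (hK : K.FiniteIndex)
    {G'' : Subgroup K} (hG : G''.FiniteIndex) {k : ℕ} {i : ℤ} {T : MultilinearMap ℂ (fun _ : Fin k => H) (W →ₗ[ℂ] ℂ)}
    (hT : T ∈ Submodule.span ℂ {T' : MultilinearMap ℂ (fun _ : Fin k => H) (W →ₗ[ℂ] ℂ) |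
      TGR.IsProduct (ρ.comp K.subtype) (σ.comp K.subtype) (μ.comp K.subtype) G'' i T'}) :
    ∃ G''' : Subgroup G, G'''.FiniteIndex ∧
      T ∈ Submodule.span ℂ {T' : MultilinearMap ℂ (fun _ : Fin k => H) (W →ₗ[ℂ] ℂ) | TGR.IsProduct ρ σ μ G''' i T'} := by
  refine ⟨G''.map K.subtype, ⟨?_⟩, Submodule.span_mono ?_ hT⟩
  · rw [Subgroup.index_map_subtype]
    exact mul_ne_zero hG.index_ne_zero hK.index_ne_zero
  · rintro T' ⟨m, e, β, χ, hβ, hχ, hT'⟩
    refine ⟨m, e, β, χ, fun j => ?_, ?_, hT'⟩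
    · rintro g ⟨g', hg', rfl⟩ u v
      exact hβ j g' hg' u v
    · rintro g ⟨g', hg', rfl⟩ w
      exact hχ g' hg' w

end TPM
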