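import Pool.Agent.Lib.MP_021685_agTM.M0

/-! LEAF QN (medium).  Reduction to forms which vanish on the pieces which are not representatives.

`MultilinearMap.compLinearMap T (fun a => A a)` is `v ↦ T (fun a => A a (v a))`.

PROOF.  (1) For `x : Fin k → X` let `Tx = T.compLinearMap (fun a => R (x a))`: a Tate form for `⊤` (`hRe`).  It vanishes if `v a ∈ U y`, `r y ≠ y`: `y ≠ r (x a)` (as `r (r (x a)) = r (x a)`), so
`R (x a) (v a) = 0` (`hR0`), `MultilinearMap.map_coord_zero`.  By `h` there is `Gx` of finite index with `Tx ∈ span {T' | IsProduct ρ σ μ Gx i T'}`.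
(2) Let `G'' = ⨅ x, Gx` (finitely many `x : Fin k → X`; `classical`; finite index: `Subgroup.finiteIndex_iInf`), so `Tx ∈ span {T' | IsProduct ρ σ μ G'' i T'}` for all `x` (a product for `Gx` is a product for
`G'' ≤ Gx`: `Submodule.span_mono`).
(3) For `x`: `Tx.compLinearMap (fun a => Q (x a)) = T.compLinearMap (fun a => pr (x a))` (`hRQ`), and it is in the same span: the map `T' ↦ T'.compLinearMap (fun a => Q (x a))` is linear
(`MultilinearMap.compLinearMapₗ`, or `Submodule.span_induction`), and it maps products to products: if `T' v w = (∏ j, β j (v (e (inl j))) (v (e (inr j)))) * χ w` then use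
`β' j u v = β j (Q (x (e (inl j))) u) (Q (x (e (inr j))) v)` (`LinearMap.compl₁₂`), a Tate pairing for `G''` by `hQe`, and the same `χ`.
(4) `T = ∑ x : Fin k → X, T.compLinearMap (fun a => pr (x a))`: `T v = T (fun a => ∑ x, pr x (v a))` (`hD.sum`) and `MultilinearMap.map_sum`.  So `T` is in the span. -/

set_option autoImplicit false

namespace TPM

open Module TPR

private theorem QN_span {G H W : Type} [Group G] [AddCommGroup H] [Module ℂ H] [AddCommGroup W] [Module ℂ W]
    {ρ : Representation ℂ G H} {σ : Representation ℂ G W} {μ : G →* ℂˣ} {Gx G'' : Subgroup G} (hle : G'' ≤ Gx)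
    {k : ℕ} {i : ℤ} {T : MultilinearMap ℂ (fun _ : Fin k => H) (W →ₗ[ℂ] ℂ)}
    (hT : T ∈ Submodule.span ℂ {T' : MultilinearMap ℂ (fun _ : Fin k => H) (W →ₗ[ℂ] ℂ) | TGR.IsProduct ρ σ μ Gx i T'})
    (A : Fin k → End ℂ H) (hA : ∀ a g v, A a (ρ g v) = ρ g (A a v)) :
    T.compLinearMap (fun a => A a) ∈
      Submodule.span ℂ {T' : MultilinearMap ℂ (fun _ : Fin k => H) (W →ₗ[ℂ] ℂ) | TGR.IsProduct ρ σ μ G'' i T'} := by
  induction hT using Submodule.span_induction with
  | mem T' hT' =>
    obtain ⟨m, e, β, χ, hβ, hχ, hval⟩ := hT'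
    refine Submodule.subset_span ⟨m, e, fun j => (β j).compl₁₂ (A (e (Sum.inl j))) (A (e (Sum.inr j))), χ,
      fun j g hg u v => ?_, fun g hg w => hχ g (hle hg) w, fun v w => ?_⟩
    · rw [LinearMap.compl₁₂_apply, LinearMap.compl₁₂_apply, hA, hA]
      exact hβ j g (hle hg) _ _
    · rw [MultilinearMap.compLinearMap_apply, hval]
      rfl
  | zero =>
    have h0 : (0 : MultilinearMap ℂ (fun _ : Fin k => H) (W →ₗ[ℂ] ℂ)).compLinearMap (fun a => A a) = 0 := by
      refine MultilinearMap.ext fun v => ?_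
      rw [MultilinearMap.compLinearMap_apply]
      rfl
    rw [h0]
    exact Submodule.zero_mem _
  | add x y _ _ hx hy =>
    have h0 : (x + y).compLinearMap (fun a => A a) = x.compLinearMap (fun a => A a) + y.compLinearMap (fun a => A a) := by
      refine MultilinearMap.ext fun v => ?_
      rw [MultilinearMap.compLinearMap_apply]
      rfl
    rw [h0]
    exact Submodule.add_mem _ hx hy
  | smul c x _ hx =>
    have h0 : (c • x).compLinearMap (fun a => A a) = c • x.compLinearMap (fun a => A a) := by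
      refine MultilinearMap.ext fun v => ?_
      rw [MultilinearMap.compLinearMap_apply]
      rfl
    rw [h0]
    exact Submodule.smul_mem _ _ hx

theorem recomb {G H W X : Type} [Group G] [AddCommGroup H] [Module ℂ H] [AddCommGroup W] [Module ℂ W] [Fintype X]
    {ρ : Representation ℂ G H} {σ : Representation ℂ G W} {μ : G →* ℂˣ} {U : X → Submodule ℂ H} {pr : X → End ℂ H}
    (hD : Dec ρ U pr) {r : X → X} (hrr : ∀ x, r (r x) = r x) {R Q : X → End ℂ H} (hRe : ∀ x g v, R x (ρ g v) = ρ g (R x v))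
    (hQe : ∀ x g v, Q x (ρ g v) = ρ g (Q x v)) (hRQ : ∀ x, R x * Q x = pr x)
    (hR0 : ∀ x y, y ≠ r x → ∀ v ∈ U y, R x v = 0) {k : ℕ} {i : ℤ}
    (h : ∀ T : MultilinearMap ℂ (fun _ : Fin k => H) (W →ₗ[ℂ] ℂ), TGR.IsTate ρ σ μ ⊤ i T →
      (∀ y, r y ≠ y → ∀ v a, v a ∈ U y → T v = 0) → ∃ G'' : Subgroup G, G''.FiniteIndex ∧
        T ∈ Submodule.span ℂ {T' : MultilinearMap ℂ (fun _ : Fin k => H) (W →ₗ[ℂ] ℂ) | TGR.IsProduct ρ σ μ G'' i T'})
    {T : MultilinearMap ℂ (fun _ : Fin k => H) (W →ₗ[ℂ] ℂ)} (hT : TGR.IsTate ρ σ μ ⊤ i T) :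
    ∃ G'' : Subgroup G, G''.FiniteIndex ∧
      T ∈ Submodule.span ℂ {T' : MultilinearMap ℂ (fun _ : Fin k => H) (W →ₗ[ℂ] ℂ) | TGR.IsProduct ρ σ μ G'' i T'} := by
  classical
  have key : ∀ x : Fin k → X, ∃ G'' : Subgroup G, G''.FiniteIndex ∧
      T.compLinearMap (fun a => R (x a)) ∈
        Submodule.span ℂ {T' : MultilinearMap ℂ (fun _ : Fin k => H) (W →ₗ[ℂ] ℂ) | TGR.IsProduct ρ σ μ G'' i T'} := by
    intro x
    refine h _ (fun g hg v w => ?_) (fun y hy v a hv => ?_)
    · rw [MultilinearMap.compLinearMap_apply, MultilinearMap.compLinearMap_apply]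
      have h1 : (fun a => R (x a) (ρ g (v a))) = fun a => ρ g (R (x a) (v a)) := funext fun a => hRe _ _ _
      rw [h1]
      exact hT g hg _ w
    · rw [MultilinearMap.compLinearMap_apply]
      refine T.map_coord_zero a (hR0 (x a) y (fun h1 => hy ?_) (v a) hv)
      rw [h1, hrr]
  choose Gx hGx hTx using key
  refine ⟨⨅ x, Gx x, Subgroup.finiteIndex_iInf hGx, ?_⟩
  have hsum : T = ∑ x : Fin k → X, (T.compLinearMap (fun a => R (x a))).compLinearMap (fun a => Q (x a)) := by
    refine MultilinearMap.ext fun v => ?_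
    have h1 : T v = T fun a => ∑ x, pr x (v a) := by
      congr 1
      funext a
      exact (hD.sum (v a)).symm
    rw [h1, MultilinearMap.map_sum, MultilinearMap.sum_apply]
    refine Finset.sum_congr rfl fun x _ => ?_
    rw [MultilinearMap.compLinearMap_apply, MultilinearMap.compLinearMap_apply]
    congr 1
    funext a
    rw [← hRQ]
    rfl
  rw [hsum]
  exact Submodule.sum_mem _ fun x _ => QN_span (iInf_le Gx x) (hTx x) (fun a => Q (x a)) fun a g v => hQe _ _ _

end TPM
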