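import Pool.Agent.Lib.MP_021685_agTM.M0

/-! LEAF QP (medium-).  The action of `τ = pi (ib i) - pi i` on a piece.  Notation: `hC : Cx ρ μ U pr bar ψ`, `hE : Spec ρ μ ib E pi`
(structures in `M0.lean`), `sq ψ e f v = ψ e v • f + ψ f v • e` (`TPR.sq_apply`).

PROOF.  ADJ: `ψ (pi i u) v = ψ u (pi (ib i) v)` for all `i`, `u`, `v` (`hE.adj` for `ψ`, `S = S' = ⊤`, `hC.sim`).  `tau_skew`: `TGR.mem_sp`, ADJ for `i` and for
`ib i`, `ib_ib`.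
`tau_two` (`bar x = x`).  Take `e₀ ∈ U x ⊓ E i`, `e₀ ≠ 0`.  There is `v ∈ U x` with `ψ e₀ v ≠ 0` (`hC.nd` gives `v : H`; `v = ∑ y, pr y v`, `ψ e₀ (pr y v) = 0` for
`y ≠ x` by `hC.orth`).  `ψ e₀ v = ψ (pi i e₀) v = ψ e₀ (pi (ib i) v)`; `f₀ = pi (ib i) v ∈ U x ⊓ E (ib i)` (`hE.stab`, `hE.mem`).  Let `e = e₀`,
`f = (ψ e₀ f₀)⁻¹ • f₀`, so `ψ e f = 1`.  For `v ∈ U x`: `pi i v ∈ U x ⊓ E i`, which has `finrank ≤ 1` and contains `e ≠ 0`, so `pi i v = s • e`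
(`finrank_le_one_iff`, or `finrank_eq_one_iff_of_nonzero'`), and `s = ψ (pi i v) f = ψ v (pi (ib i) f) = ψ v f = - ψ f v` (`hE.id`, `TPR.alt_neg`).  In the same way
`pi (ib i) v = r • f`, `r = ψ e (pi (ib i) v) = ψ (pi i e) v = ψ e v`.  So `(pi (ib i) - pi i) v = ψ e v • f + ψ f v • e`.
`tau_one`.  Take `e ∈ U x ⊓ E i`, `e ≠ 0`; there is `v ∈ U (bar x)` with `ψ e v ≠ 0` (as above: `ψ e (pr y v) = 0` for `y ≠ bar x`), and
`f₀ = pi (ib i) v ∈ U (bar x) ⊓ E (ib i)`, `ψ e f₀ = ψ e v ≠ 0`, `f = (ψ e f₀)⁻¹ • f₀`.  `E i` has `finrank ≤ 1` and contains `e`, `E (ib i)` has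
`finrank ≤ 1` (`hfin'`) and contains `f`: the same computation for all `v : H`. -/

set_option autoImplicit false

namespace TPM

open Module TPR

variable {G H X ι : Type} [Group G] [AddCommGroup H] [Module ℂ H] [FiniteDimensional ℂ H] [Fintype X]
  {ρ : Representation ℂ G H} {μ : G →* ℂˣ} {U : X → Submodule ℂ H} {pr : X → End ℂ H} {bar : X → X}
  {ψ : H →ₗ[ℂ] H →ₗ[ℂ] ℂ} {ib : ι → ι} {E : ι → Submodule ℂ H} {pi : ι → End ℂ H}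

omit [FiniteDimensional ℂ H] in
private theorem QP_adj (hC : Cx ρ μ U pr bar ψ) (hE : Spec ρ μ ib E pi) (i : ι) (u v : H) :
    ψ (pi i u) v = ψ u (pi (ib i) v) :=
  hE.adj ψ ⊤ ⊤ (fun _ _ _ _ => Submodule.mem_top) (fun _ _ _ _ => Submodule.mem_top)
    (fun g u _ v _ => hC.sim g u v) i u Submodule.mem_top v Submodule.mem_top

private theorem QP_span {H : Type} [AddCommGroup H] [Module ℂ H] [FiniteDimensional ℂ H] {S : Submodule ℂ H}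
    (h : finrank ℂ ↥S ≤ 1) {e v : H} (he : e ∈ S) (he0 : e ≠ 0) (hv : v ∈ S) : ∃ s : ℂ, v = s • e := by
  obtain ⟨w, hw⟩ := finrank_le_one_iff.1 h
  obtain ⟨c, hc⟩ := hw ⟨e, he⟩
  obtain ⟨c', hc'⟩ := hw ⟨v, hv⟩
  have h1 : c • (w : H) = e := congrArg Subtype.val hc
  have h2 : c' • (w : H) = v := congrArg Subtype.val hc'
  have hc0 : c ≠ 0 := by
    rintro rfl
    rw [zero_smul] at h1
    exact he0 h1.symm
  refine ⟨c' * c⁻¹, ?_⟩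
  rw [← h1, smul_smul, mul_assoc, inv_mul_cancel₀ hc0, mul_one, h2]

omit [FiniteDimensional ℂ H] in
private theorem QP_nd (hC : Cx ρ μ U pr bar ψ) {x : X} {u : H} (hu : u ∈ U x) (hu0 : u ≠ 0) :
    ∃ v ∈ U (bar x), ψ u v ≠ 0 := by
  by_contra hcon
  push Not at hcon
  refine hu0 (hC.nd u fun v => ?_)
  rw [← hC.dec.sum v, map_sum]
  refine Finset.sum_eq_zero fun y _ => ?_
  by_cases hy : y = bar x
  · rw [hy]
    exact hcon _ (hC.dec.mem (bar x) v)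
  · exact hC.orth x y hy u hu _ (hC.dec.mem y v)

omit [FiniteDimensional ℂ H] in
private theorem QP_ef (hC : Cx ρ μ U pr bar ψ) (hE : Spec ρ μ ib E pi) {x : X} {i : ι} (hi : U x ⊓ E i ≠ ⊥) :
    ∃ e f : H, e ∈ U x ∧ e ∈ E i ∧ f ∈ U (bar x) ∧ f ∈ E (ib i) ∧ ψ e f = 1 := by
  obtain ⟨e, he, he0⟩ := Submodule.exists_mem_ne_zero_of_ne_bot hi
  obtain ⟨he1, he2⟩ := Submodule.mem_inf.1 he
  obtain ⟨v, hv, hne⟩ := QP_nd hC he1 he0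
  have h1 : ψ e (pi (ib i) v) = ψ e v := by
    rw [← QP_adj hC hE, hE.id i e he2]
  refine ⟨e, (ψ e v)⁻¹ • pi (ib i) v, he1, he2, Submodule.smul_mem _ _ (hE.stab (ib i) _ (hC.dec.stab _) v hv),
    Submodule.smul_mem _ _ (hE.mem (ib i) v), ?_⟩
  rw [map_smul, smul_eq_mul, h1, inv_mul_cancel₀ hne]

omit [FiniteDimensional ℂ H] in
private theorem QP_core (hC : Cx ρ μ U pr bar ψ) (hE : Spec ρ μ ib E pi) {i : ι} {e f v : H} (he : e ∈ E i)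
    (hf : f ∈ E (ib i)) (h1 : ψ e f = 1) {s r : ℂ} (hs : pi i v = s • e) (hr : pi (ib i) v = r • f) :
    (pi (ib i) - pi i) v = sq ψ e f v := by
  have e1 : s = - ψ f v := by
    have h2 := QP_adj hC hE i v f
    rw [hE.id (ib i) f hf, hs, map_smul, LinearMap.smul_apply, h1, smul_eq_mul, mul_one] at h2
    rw [h2, alt_neg hC.alt]
  have e2 : r = ψ e v := by
    have h2 := QP_adj hC hE i e v
    rw [hE.id i e he, hr, map_smul, h1, smul_eq_mul, mul_one] at h2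
    exact h2.symm
  rw [LinearMap.sub_apply, hs, hr, e1, e2, sq_apply, neg_smul, sub_neg_eq_add]

omit [FiniteDimensional ℂ H] [Fintype X] in
private theorem QP_ne {e f : H} (h : ψ e f = 1) : e ≠ 0 ∧ f ≠ 0 := by
  constructor
  · rintro rfl
    rw [map_zero, LinearMap.zero_apply] at h
    exact zero_ne_one h
  · rintro rfl
    rw [map_zero] at h
    exact zero_ne_one h

theorem tau_skew (hC : Cx ρ μ U pr bar ψ) (hE : Spec ρ μ ib E pi) (i : ι) : pi (ib i) - pi i ∈ TGR.sp ψ := by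
  rw [TGR.mem_sp]
  intro u v
  rw [LinearMap.sub_apply, LinearMap.sub_apply, map_sub, map_sub, LinearMap.sub_apply, QP_adj hC hE (ib i) u v,
    QP_adj hC hE i u v, hE.ib_ib]
  ring

theorem tau_two (hC : Cx ρ μ U pr bar ψ) (hE : Spec ρ μ ib E pi) {x : X} (hx : bar x = x)
    {i : ι} (hfin : finrank ℂ ↥(U x ⊓ E i) ≤ 1) (hfin' : finrank ℂ ↥(U x ⊓ E (ib i)) ≤ 1) (hi : U x ⊓ E i ≠ ⊥) :
    ∃ e f : H, e ∈ U x ∧ f ∈ U x ∧ ψ e f = 1 ∧ ∀ v ∈ U x, (pi (ib i) - pi i) v = sq ψ e f v := by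
  obtain ⟨e, f, he1, he2, hf1, hf2, h1⟩ := QP_ef hC hE hi
  rw [hx] at hf1
  refine ⟨e, f, he1, hf1, h1, fun v hv => ?_⟩
  obtain ⟨s, hs⟩ := QP_span hfin (Submodule.mem_inf.2 ⟨he1, he2⟩) (QP_ne h1).1
    (Submodule.mem_inf.2 ⟨hE.stab i _ (hC.dec.stab x) v hv, hE.mem i v⟩)
  obtain ⟨r, hr⟩ := QP_span hfin' (Submodule.mem_inf.2 ⟨hf1, hf2⟩) (QP_ne h1).2
    (Submodule.mem_inf.2 ⟨hE.stab (ib i) _ (hC.dec.stab x) v hv, hE.mem (ib i) v⟩)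
  exact QP_core hC hE he2 hf2 h1 hs hr

theorem tau_one (hC : Cx ρ μ U pr bar ψ) (hE : Spec ρ μ ib E pi) {x : X} {i : ι} (hi : U x ⊓ E i ≠ ⊥)
    (hfin : finrank ℂ (E i) ≤ 1) (hfin' : finrank ℂ (E (ib i)) ≤ 1) :
    ∃ e f : H, e ∈ U x ∧ f ∈ U (bar x) ∧ ψ e f = 1 ∧ pi (ib i) - pi i = sq ψ e f := by
  obtain ⟨e, f, he1, he2, hf1, hf2, h1⟩ := QP_ef hC hE hi
  refine ⟨e, f, he1, hf1, h1, LinearMap.ext fun v => ?_⟩
  obtain ⟨s, hs⟩ := QP_span hfin he2 (QP_ne h1).1 (hE.mem i v)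
  obtain ⟨r, hr⟩ := QP_span hfin' hf2 (QP_ne h1).2 (hE.mem (ib i) v)
  exact QP_core hC hE he2 hf2 h1 hs hr

end TPM
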