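import Pool.Agent.Lib.MP_021685_agTM.M0

/-! LEAF QR (easy+).  Representatives of the isomorphism classes of pieces; pieces of multiplicity one.

PROOF of `exists_reps`.  `Iso ρ pr` (`M0.lean`) is an equivalence relation: reflexive with `θ = θ' = pr x` (`hD.comm`; `pr x * pr x = pr x` by `hD.mem`, `hD.id`), symmetric (exchange `θ`, `θ'`),
transitive (`θ₂ * θ₁`, `θ'₁ * θ'₂`: for example `(θ'₁ * θ'₂) * (θ₂ * θ₁) = θ'₁ * pr y * θ₁ = θ'₁ * θ₁ = pr x`).  Let `r x` be the chosen representative of the class of `x` (`Quotient.out` for the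
`Setoid`); `Iso ρ pr (r x) x` gives `θ`, `θ'` (`choose`): `R x = θ` (`θ * θ' = pr x`), `Q x = θ'`.  `R x v = 0` for `v ∈ U y`, `y ≠ r x`: `θ v = θ (pr (r x) v) = 0` (`hD.zero`).

PROOF of `iso_one`.  Let `θ`, `θ'` be the isomorphism, `e ∈ U x ⊓ E i`, `e ≠ 0`.  `θ' (θ e) = pr x e = e`, so `θ e ≠ 0`; `θ e = θ (θ' (θ e)) = pr y (θ e) ∈ U y`; `pi i (θ e) = θ (pi i e) = θ e`
(`hE.equi`, `hE.id`), so `θ e ∈ E i` (`hE.mem`).  If `finrank (E i) ≤ 1` then `θ e = s • e` (`e ≠ 0` in `E i`); apply `pr y`: `θ e = s • pr y e = 0` (`x ≠ y`): contradiction. -/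

set_option autoImplicit false

namespace TPM

open Module TPR

private theorem QR_idem {G H X : Type} [Group G] [AddCommGroup H] [Module ℂ H] [Fintype X] {ρ : Representation ℂ G H}
    {U : X → Submodule ℂ H} {pr : X → End ℂ H} (hD : Dec ρ U pr) (x : X) : pr x * pr x = pr x := by
  apply LinearMap.ext
  intro v
  rw [Module.End.mul_apply]
  exact hD.id x _ (hD.mem x v)

private theorem QR_refl {G H X : Type} [Group G] [AddCommGroup H] [Module ℂ H] [Fintype X] {ρ : Representation ℂ G H}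
    {U : X → Submodule ℂ H} {pr : X → End ℂ H} (hD : Dec ρ U pr) (x : X) : Iso ρ pr x x :=
  ⟨pr x, pr x, hD.comm x, hD.comm x, QR_idem hD x, QR_idem hD x, QR_idem hD x, QR_idem hD x⟩

private theorem QR_symm {G H X : Type} [Group G] [AddCommGroup H] [Module ℂ H] {ρ : Representation ℂ G H}
    {pr : X → End ℂ H} {x y : X} (h : Iso ρ pr x y) : Iso ρ pr y x := by
  obtain ⟨θ, θ', h1, h2, h3, h4, h5, h6⟩ := h
  exact ⟨θ', θ, h2, h1, h4, h3, h6, h5⟩

private theorem QR_trans {G H X : Type} [Group G] [AddCommGroup H] [Module ℂ H] {ρ : Representation ℂ G H}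
    {pr : X → End ℂ H} {x y z : X} (h : Iso ρ pr x y) (h' : Iso ρ pr y z) : Iso ρ pr x z := by
  obtain ⟨θ, θ', h1, h2, h3, h4, h5, h6⟩ := h
  obtain ⟨η, η', k1, k2, k3, k4, k5, k6⟩ := h'
  refine ⟨η * θ, θ' * η', fun g v => ?_, fun g v => ?_, ?_, ?_, ?_, ?_⟩
  · rw [Module.End.mul_apply, Module.End.mul_apply, h1, k1]
  · rw [Module.End.mul_apply, Module.End.mul_apply, k2, h2]
  · calc θ' * η' * (η * θ) = θ' * (η' * η) * θ := by simp only [mul_assoc]
      _ = pr x := by rw [k3, h6, h3]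
  · calc η * θ * (θ' * η') = η * (θ * θ') * η' := by simp only [mul_assoc]
      _ = pr z := by rw [h4, k5, k4]
  · rw [mul_assoc, h5]
  · rw [mul_assoc, k6]

theorem exists_reps {G H X : Type} [Group G] [AddCommGroup H] [Module ℂ H] [Fintype X] {ρ : Representation ℂ G H}
    {U : X → Submodule ℂ H} {pr : X → End ℂ H} (hD : Dec ρ U pr) :
    ∃ (r : X → X) (R Q : X → End ℂ H), (∀ x, r (r x) = r x) ∧ (∀ x y, Iso ρ pr x y → r x = r y) ∧
      (∀ x, Iso ρ pr (r x) x) ∧ (∀ x g v, R x (ρ g v) = ρ g (R x v)) ∧ (∀ x g v, Q x (ρ g v) = ρ g (Q x v)) ∧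
        (∀ x, R x * Q x = pr x) ∧ ∀ x y, y ≠ r x → ∀ v ∈ U y, R x v = 0 := by
  classical
  let S : Setoid X := ⟨Iso ρ pr, QR_refl hD, QR_symm, QR_trans⟩
  have hr : ∀ x, Iso ρ pr (Quotient.out (Quotient.mk S x)) x := fun x => Quotient.mk_out (s := S) x
  have he : ∀ x y, Iso ρ pr x y → Quotient.out (Quotient.mk S x) = Quotient.out (Quotient.mk S y) :=
    fun x y h => congrArg Quotient.out (Quotient.sound (s := S) h)
  have hr' := hr
  choose R Q h1 h2 h3 h4 h5 h6 using hr'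
  refine ⟨fun x => Quotient.out (Quotient.mk S x), R, Q, fun x => he _ _ (hr x), he, hr, h1, h2, h4, ?_⟩
  intro x y hy v hv
  have h7 := congrArg (fun f : End ℂ H => f v) (h5 x)
  simp only [Module.End.mul_apply] at h7
  rw [← h7, hD.zero _ y hy.symm v hv, map_zero]

theorem iso_one {G H X ι : Type} [Group G] [AddCommGroup H] [Module ℂ H] [FiniteDimensional ℂ H] [Fintype X]
    {ρ : Representation ℂ G H} {μ : G →* ℂˣ} {U : X → Submodule ℂ H} {pr : X → End ℂ H} (hD : Dec ρ U pr) {ib : ι → ι}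
    {E : ι → Submodule ℂ H} {pi : ι → End ℂ H} (hE : Spec ρ μ ib E pi) {x y : X} (hxy : x ≠ y) (h : Iso ρ pr x y)
    {i : ι} (hi : U x ⊓ E i ≠ ⊥) : ¬ finrank ℂ (E i) ≤ 1 := by
  intro hfr
  obtain ⟨θ, θ', h1, h2, h3, h4, h5, h6⟩ := h
  obtain ⟨e, he, he0⟩ := Submodule.exists_mem_ne_zero_of_ne_bot hi
  have heU : e ∈ U x := he.1
  have heE : e ∈ E i := he.2
  have h7 : θ' (θ e) = e := by
    rw [← Module.End.mul_apply, h3]
    exact hD.id x e heU
  have h8 : θ e ≠ 0 := by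
    intro h0
    rw [h0, map_zero] at h7
    exact he0 h7.symm
  have h9 : pr y (θ e) = θ e := by
    rw [← h4, Module.End.mul_apply, h7]
  have h10 : θ e ∈ E i := by
    have h11 := hE.equi θ h1 i e
    rw [hE.id i e heE] at h11
    rw [h11]
    exact hE.mem i _
  obtain ⟨w, hw⟩ := finrank_le_one_iff.1 hfr
  obtain ⟨a, ha⟩ := hw ⟨e, heE⟩
  obtain ⟨b, hb⟩ := hw ⟨θ e, h10⟩
  have ha' : a • (w : H) = e := congrArg Subtype.val ha
  have hb' : b • (w : H) = θ e := congrArg Subtype.val hb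
  have ha0 : a ≠ 0 := by
    intro h0
    rw [h0, zero_smul] at ha'
    exact he0 ha'.symm
  have h12 : pr y e = 0 := hD.zero y x hxy.symm e heU
  rw [← ha', map_smul] at h12
  have h13 : pr y (w : H) = 0 := (smul_eq_zero.1 h12).resolve_left ha0
  apply h8
  rw [← h9, ← hb', map_smul, h13, smul_zero]

end TPM
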