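import Pool.Agent.Lib.MP_021685_agTM.M0

/-! LEAF QS (easy+).  Dimensions.  Notation: `hC : Cx ρ μ U pr bar ψ`, `hE : Spec ρ μ ib E pi` (structures in `M0.lean`).

PROOF of `fin_le`.  The linear map `B → Dual ℂ A`, `v ↦ (u ↦ β u v)`, is injective (`h`): `LinearMap.finrank_le_finrank_of_injective`,
`Subspace.dual_finrank_eq`.
ADJ: `ψ (pi i u) v = ψ u (pi (ib i) v)` for all `u`, `v` (`hE.adj` for `ψ`, `S = S' = ⊤`, `hC.sim`).
PROOF of `fin_ib`: `fin_le` for `A = E i`, `B = E (ib i)`: if `v ∈ E (ib i)` and `ψ u v = 0` for `u ∈ E i` then for all `w`, `ψ w v = ψ w (pi (ib i) v) = ψ (pi i w) v = 0`, so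
`v = 0` (`hC.nd` with `TPR.alt_neg`).
PROOF of `fin_piece`: `A = U x ⊓ E i`, `B = U x ⊓ E (ib i)`: if `v ∈ B`, `ψ u v = 0` for `u ∈ A`, then for `w ∈ U x`, `ψ w v = ψ (pi i w) v = 0` (`pi i w ∈ U x ⊓ E i`: `hE.stab`, `hE.mem`); and
`ψ w v = 0` for `w ∈ U y`, `y ≠ x` (`hC.orth y x`: `x ≠ bar y`, as otherwise `y = bar x = x`).  So `ψ w v = 0` for all `w` (`hC.dec.sum`).
PROOF of `fin_bar`: `A = U x`, `B = U (bar x)`: if `v ∈ U (bar x)`, `ψ u v = 0` for `u ∈ U x`; `ψ u v = 0` for `u ∈ U y`, `y ≠ x` (`hC.orth y (bar x)`: `bar x ≠ bar y`). -/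

set_option autoImplicit false

namespace TPM

open Module TPR

theorem fin_le {H : Type} [AddCommGroup H] [Module ℂ H] [FiniteDimensional ℂ H] {β : H →ₗ[ℂ] H →ₗ[ℂ] ℂ}
    {A B : Submodule ℂ H} (h : ∀ v ∈ B, (∀ u ∈ A, β u v = 0) → v = 0) : finrank ℂ B ≤ finrank ℂ A := by
  have hinj : Function.Injective (A.subtype.dualMap ∘ₗ β.flip ∘ₗ B.subtype) := by
    rw [injective_iff_map_eq_zero]
    rintro ⟨v, hv⟩ h0
    refine Subtype.ext (h v hv fun u hu => ?_)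
    exact congrArg (fun f : Dual ℂ A => f ⟨u, hu⟩) h0
  have h1 := LinearMap.finrank_le_finrank_of_injective hinj
  rwa [Subspace.dual_finrank_eq] at h1

variable {G H X ι : Type} [Group G] [AddCommGroup H] [Module ℂ H] [FiniteDimensional ℂ H] [Fintype X]
  {ρ : Representation ℂ G H} {μ : G →* ℂˣ} {U : X → Submodule ℂ H} {pr : X → End ℂ H} {bar : X → X}
  {ψ : H →ₗ[ℂ] H →ₗ[ℂ] ℂ} {ib : ι → ι} {E : ι → Submodule ℂ H} {pi : ι → End ℂ H}

omit [FiniteDimensional ℂ H] in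
private theorem QS_adj (hC : Cx ρ μ U pr bar ψ) (hE : Spec ρ μ ib E pi) (i : ι) (u v : H) :
    ψ (pi i u) v = ψ u (pi (ib i) v) :=
  hE.adj ψ ⊤ ⊤ (fun _ _ _ _ => Submodule.mem_top) (fun _ _ _ _ => Submodule.mem_top)
    (fun g u _ v _ => hC.sim g u v) i u Submodule.mem_top v Submodule.mem_top

theorem fin_ib (hC : Cx ρ μ U pr bar ψ) (hE : Spec ρ μ ib E pi) (i : ι) :
    finrank ℂ (E (ib i)) ≤ finrank ℂ (E i) := by
  refine fin_le (β := ψ) fun v hv h => ?_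
  refine hC.nd v fun w => ?_
  rw [alt_neg hC.alt, ← hE.id (ib i) v hv, ← QS_adj hC hE, h _ (hE.mem i w), neg_zero]

theorem fin_piece (hC : Cx ρ μ U pr bar ψ) (hE : Spec ρ μ ib E pi) {x : X} (hx : bar x = x) (i : ι) :
    finrank ℂ ↥(U x ⊓ E (ib i)) ≤ finrank ℂ ↥(U x ⊓ E i) := by
  refine fin_le (β := ψ) fun v hv h => ?_
  refine hC.nd v fun w => ?_
  rw [alt_neg hC.alt, neg_eq_zero, ← hC.dec.sum w, map_sum, LinearMap.sum_apply]
  refine Finset.sum_eq_zero fun y _ => ?_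
  by_cases hy : y = x
  · subst hy
    rw [← hE.id (ib i) v hv.2, ← QS_adj hC hE]
    exact h _ ⟨hE.stab i _ (hC.dec.stab y) _ (hC.dec.mem y w), hE.mem i _⟩
  · refine hC.orth y x (fun h1 => hy ?_) _ (hC.dec.mem y w) v hv.1
    rw [← hC.bar_bar y, ← h1, hx]

theorem fin_bar (hC : Cx ρ μ U pr bar ψ) (x : X) : finrank ℂ (U (bar x)) ≤ finrank ℂ (U x) := by
  refine fin_le (β := ψ) fun v hv h => ?_
  refine hC.nd v fun w => ?_
  rw [alt_neg hC.alt, neg_eq_zero, ← hC.dec.sum w, map_sum, LinearMap.sum_apply]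
  refine Finset.sum_eq_zero fun y _ => ?_
  by_cases hy : y = x
  · subst hy
    exact h _ (hC.dec.mem y w)
  · refine hC.orth y (bar x) (fun h1 => hy ?_) _ (hC.dec.mem y w) v hv
    rw [← hC.bar_bar y, ← h1, hC.bar_bar]

end TPM
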