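import Pool.Agent.Lib.MP_021685_agTM.QS

/-! LEAF QV (medium-).  Pieces of dimension one.

PROOF of `kill_of_zero`.  `TGR.der D T` (`TGR.der_apply`, `MP_021685_agTG/G0.lean`) is multilinear and `H` is spanned by the union of the `U z` (`hD.sum`, `mem`), so it is enough to consider tuples `v a ∈ U (z a)`
(private `PF_ext` in `MP_021685_agTP/PF.lean`: copy it).  Every term `T (update v a (D (v a)))` is zero: if `¬ N (z a)` then `D (v a) = 0` and `MultilinearMap.map_coord_zero`; if `N (z a)` then `D (v a) ∈ U (z a)` and `hN`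
(the argument number `a` of the updated tuple is in `U (z a)`).  (The same as in leaf QL.)

PROOF of `line_kill`.  Let `τ = pi (ib i) - pi i`.  ADJ: `ψ (pi i u) v = ψ u (pi (ib i) v)` (`hE.adj`, `S = S' = ⊤`, `hC.sim`).  Take `e ∈ U x ⊓ E i`, `e ≠ 0`, `v : H` with `ψ e v ≠ 0` (`hC.nd`); `v = ∑ y, pr y v`,
so `ψ e (pr (bar x) v) = ψ e v ≠ 0` (`hC.orth`), `f₀ = pi (ib i) (pr (bar x) v) ∈ U (bar x) ⊓ E (ib i)`, `ψ e f₀ = ψ e v` (ADJ, `hE.id`), `f = (ψ e f₀)⁻¹ • f₀`, `ψ e f = 1`.  `U x` is the line of `e`, and `U (bar x)` is the line of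
`f` (`fin_bar`, leaf QS).  `τ e = - e`, `τ f = f` (`hE.id`, `hE.off`, `hE.ib_ne`).  `S = sq ψ e f`: `S e = - e`, `S f = f` (`TPR.alt_neg`), and `S w = 0` for `w ∈ U z`, `z ≠ x`, `z ≠ bar x` (`ψ e w = 0`: `hC.orth x z`; `ψ f w = 0`:
`hC.orth (bar x) z`, `bar (bar x) = x`).  So `S` preserves all the pieces, and agrees with `τ` on `U x` and `U (bar x)`.
Let `Z` be the set of the `z ≠ x, bar x` with `¬ N z` and the second alternative of `hother`, with the vectors `e' z`, `f' z` (`classical`, `choose`), and `S' = ∑ z ∈ Z, sq ψ (e' z) (f' z) ∈ TGR.kill T`.  For `z ∈ Z`, `sq ψ (e' z) (f' z)` is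
zero on `U y`, `y ≠ z = bar z` (`hC.orth`), and preserves `U z`; so `S'` preserves all the pieces, is `τ` on `U z`, `z ∈ Z`, and zero on `U y`, `y ∉ Z`.  Let `D = τ - S - S'`: it preserves all the pieces (`hE.stab` for `τ`), and it is zero on
`U z` if `z = x`, `z = bar x` (not in `Z`), or `¬ N z` (then `z ∈ Z`, or `τ` is zero on `U z` and `z ∉ Z` or both; if `τ` is zero on `U z` do not put `z` into `Z`).  So `D ∈ TGR.kill T` by `kill_of_zero`, and `S = τ - S' - D ∈ TGR.kill T`. -/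

set_option autoImplicit false

namespace TPM

open Module Function TPR

private theorem QV_ext {H N : Type} [AddCommGroup H] [Module ℂ H] [AddCommGroup N] [Module ℂ N] {k : ℕ}
    (M : MultilinearMap ℂ (fun _ : Fin k => H) N) (S : Set H) (hS : ⊤ ≤ Submodule.span ℂ S)
    (h : ∀ v : Fin k → H, (∀ a, v a ∈ S) → M v = 0) : ∀ v, M v = 0 := by
  have h1 : M = 0 := by
    refine Module.Basis.ext_multilinear (fun _ => Module.Basis.ofSpan hS) fun v => ?_
    show M _ = 0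
    exact h _ fun a => Module.Basis.ofSpan_subset hS (Set.mem_range_self _)
  intro v
  rw [h1]
  rfl

private theorem QV_line {H : Type} [AddCommGroup H] [Module ℂ H] [FiniteDimensional ℂ H] {S : Submodule ℂ H}
    (h : finrank ℂ S ≤ 1) {e : H} (he : e ∈ S) (h0 : e ≠ 0) : ∀ w ∈ S, ∃ c : ℂ, w = c • e := by
  have h1 : finrank ℂ S = 1 := by
    refine le_antisymm h ?_
    have h2 : S ≠ ⊥ := fun h3 => by
      rw [h3, Submodule.mem_bot] at he
      exact h0 he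
    exact Submodule.one_le_finrank_iff.2 h2
  intro w hw
  have h2 : (⟨e, he⟩ : S) ≠ 0 := fun h3 => h0 (congrArg Subtype.val h3)
  obtain ⟨c, hc⟩ := (finrank_eq_one_iff_of_nonzero' (⟨e, he⟩ : S) h2).1 h1 ⟨w, hw⟩
  exact ⟨c, (congrArg Subtype.val hc).symm⟩

theorem kill_of_zero {G H W X : Type} [Group G] [AddCommGroup H] [Module ℂ H] [AddCommGroup W] [Module ℂ W]
    [Fintype X] {ρ : Representation ℂ G H} {U : X → Submodule ℂ H} {pr : X → End ℂ H} (hD : Dec ρ U pr) {k : ℕ}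
    {T : MultilinearMap ℂ (fun _ : Fin k => H) (W →ₗ[ℂ] ℂ)} {N : X → Prop}
    (hN : ∀ z, N z → ∀ v a, v a ∈ U z → T v = 0) {D : End ℂ H} (hDU : ∀ z, ∀ w ∈ U z, D w ∈ U z)
    (hD0 : ∀ z, ¬ N z → ∀ w ∈ U z, D w = 0) : D ∈ TGR.kill T := by
  classical
  show ∀ v', ∑ a, T (update v' a (D (v' a))) = 0
  intro v'
  rw [← TGR.der_apply]
  refine QV_ext (TGR.der D T) (⋃ z, (U z : Set H)) ?_ ?_ v'
  · intro w _
    rw [← hD.sum w]
    refine Submodule.sum_mem _ fun z _ => Submodule.subset_span (Set.mem_iUnion.2 ⟨z, ?_⟩)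
    exact hD.mem z w
  · intro w hw
    rw [TGR.der_apply]
    refine Finset.sum_eq_zero fun a _ => ?_
    obtain ⟨z, hz⟩ := Set.mem_iUnion.1 (hw a)
    have hz' : w a ∈ U z := hz
    by_cases hNz : N z
    · refine hN z hNz _ a ?_
      rw [update_self]
      exact hDU z _ hz'
    · exact T.map_coord_zero a (by rw [update_self, hD0 z hNz _ hz'])

theorem line_kill {G H W X ι : Type} [Group G] [AddCommGroup H] [Module ℂ H] [FiniteDimensional ℂ H] [AddCommGroup W]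
    [Module ℂ W] [Fintype X] {ρ : Representation ℂ G H} {μ : G →* ℂˣ} {U : X → Submodule ℂ H} {pr : X → End ℂ H}
    {bar : X → X} {ψ : H →ₗ[ℂ] H →ₗ[ℂ] ℂ} {ib : ι → ι} {E : ι → Submodule ℂ H} {pi : ι → End ℂ H} {k : ℕ}
    {T : MultilinearMap ℂ (fun _ : Fin k => H) (W →ₗ[ℂ] ℂ)} (hC : Cx ρ μ U pr bar ψ) (hE : Spec ρ μ ib E pi)
    {N : X → Prop} (hN : ∀ z, N z → ∀ v a, v a ∈ U z → T v = 0) {x : X} {i : ι} (hx1 : finrank ℂ (U x) ≤ 1)
    (hi : U x ⊓ E i ≠ ⊥) (hkill : pi (ib i) - pi i ∈ TGR.kill T)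
    (hother : ∀ z, z ≠ x → z ≠ bar x → ¬ N z → (∀ v ∈ U z, (pi (ib i) - pi i) v = 0) ∨ (bar z = z ∧
      ∃ e' f' : H, e' ∈ U z ∧ f' ∈ U z ∧ (∀ v ∈ U z, (pi (ib i) - pi i) v = sq ψ e' f' v) ∧
        sq ψ e' f' ∈ TGR.kill T)) :
    ∃ e f : H, e ∈ U x ∧ f ∈ U (bar x) ∧ ψ e f = 1 ∧ sq ψ e f ∈ TGR.kill T := by
  classical
  obtain ⟨τ, hτ⟩ : ∃ τ : End ℂ H, τ = pi (ib i) - pi i := ⟨_, rfl⟩
  rw [← hτ] at hkill hother
  have adj : ∀ j u v, ψ (pi j u) v = ψ u (pi (ib j) v) := fun j u v =>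
    hE.adj ψ ⊤ ⊤ (fun _ _ _ _ => Submodule.mem_top) (fun _ _ _ _ => Submodule.mem_top)
      (fun g u _ v _ => hC.sim g u v) j u Submodule.mem_top v Submodule.mem_top
  obtain ⟨e, heI, he0⟩ := Submodule.exists_mem_ne_zero_of_ne_bot hi
  obtain ⟨heU, heE⟩ := Submodule.mem_inf.1 heI
  obtain ⟨v, hv⟩ : ∃ v, ψ e v ≠ 0 := by
    by_contra hcon
    push Not at hcon
    exact he0 (hC.nd e hcon)
  have h1 : ψ e v = ψ e (pr (bar x) v) := by
    conv_lhs => rw [← hC.dec.sum v]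
    rw [map_sum]
    refine Finset.sum_eq_single (bar x) (fun y _ hy => ?_) (fun h => absurd (Finset.mem_univ _) h)
    exact hC.orth x y hy e heU _ (hC.dec.mem y v)
  obtain ⟨f₀, hf₀⟩ : ∃ f₀, f₀ = pi (ib i) (pr (bar x) v) := ⟨_, rfl⟩
  have hf0U : f₀ ∈ U (bar x) := by
    rw [hf₀]
    exact hE.stab (ib i) (U (bar x)) (hC.dec.stab (bar x)) _ (hC.dec.mem (bar x) v)
  have hf0E : f₀ ∈ E (ib i) := by
    rw [hf₀]
    exact hE.mem (ib i) _
  have h2 : ψ e f₀ = ψ e v := by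
    rw [hf₀, ← adj i, hE.id i e heE, h1]
  have h3 : ψ e f₀ ≠ 0 := by
    rw [h2]
    exact hv
  obtain ⟨f, hf⟩ : ∃ f, f = (ψ e f₀)⁻¹ • f₀ := ⟨_, rfl⟩
  have hfU : f ∈ U (bar x) := by
    rw [hf]
    exact Submodule.smul_mem _ _ hf0U
  have hfE : f ∈ E (ib i) := by
    rw [hf]
    exact Submodule.smul_mem _ _ hf0E
  have hef : ψ e f = 1 := by
    rw [hf, map_smul, smul_eq_mul, inv_mul_cancel₀ h3]
  have hfe : ψ f e = -1 := by
    rw [alt_neg hC.alt f e, hef]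
  have hf0 : f ≠ 0 := by
    intro h
    rw [h, map_zero] at hef
    exact zero_ne_one hef
  have hlx := QV_line hx1 heU he0
  have hlbx := QV_line ((fin_bar hC x).trans hx1) hfU hf0
  have hτe : τ e = -e := by
    rw [hτ, LinearMap.sub_apply, hE.id i e heE, hE.off (ib i) i (hE.ib_ne i).symm e heE, zero_sub]
  have hτf : τ f = f := by
    rw [hτ, LinearMap.sub_apply, hE.id (ib i) f hfE, hE.off i (ib i) (hE.ib_ne i) f hfE, sub_zero]
  have hτU : ∀ z, ∀ w ∈ U z, τ w ∈ U z := by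
    intro z w hw
    rw [hτ, LinearMap.sub_apply]
    exact Submodule.sub_mem _ (hE.stab (ib i) (U z) (hC.dec.stab z) w hw) (hE.stab i (U z) (hC.dec.stab z) w hw)
  have hSe : sq ψ e f e = -e := by
    rw [sq_apply, hC.alt e, zero_smul, zero_add, hfe, neg_smul, one_smul]
  have hSf : sq ψ e f f = f := by
    rw [sq_apply, hC.alt f, zero_smul, add_zero, hef, one_smul]
  have hSx : ∀ w ∈ U x, sq ψ e f w = τ w := by
    intro w hw
    obtain ⟨c, rfl⟩ := hlx w hw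
    rw [map_smul, map_smul, hSe, hτe]
  have hSbx : ∀ w ∈ U (bar x), sq ψ e f w = τ w := by
    intro w hw
    obtain ⟨c, rfl⟩ := hlbx w hw
    rw [map_smul, map_smul, hSf, hτf]
  have hS0 : ∀ z, z ≠ x → z ≠ bar x → ∀ w ∈ U z, sq ψ e f w = 0 := by
    intro z hz hz' w hw
    have h4 : z ≠ bar (bar x) := by
      rw [hC.bar_bar]
      exact hz
    rw [sq_apply, hC.orth x z hz' e heU w hw, hC.orth (bar x) z h4 f hfU w hw, zero_smul, zero_smul, add_zero]
  -- the pieces where the second alternative is used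
  obtain ⟨Zp, hZp⟩ : ∃ Zp : X → Prop, Zp = fun z => (z ≠ x ∧ z ≠ bar x ∧ ¬ N z) ∧ ¬ ∀ v ∈ U z, τ v = 0 := ⟨_, rfl⟩
  have hch : ∀ z, ∃ e' f' : H, Zp z → bar z = z ∧ e' ∈ U z ∧ f' ∈ U z ∧ (∀ v ∈ U z, τ v = sq ψ e' f' v) ∧
      sq ψ e' f' ∈ TGR.kill T := by
    intro z
    by_cases hz : Zp z
    · have hz2 := hz
      rw [hZp] at hz2
      rcases hother z hz2.1.1 hz2.1.2.1 hz2.1.2.2 with h | ⟨h4, e', f', h5, h6, h7, h8⟩
      · exact absurd h hz2.2
      · exact ⟨e', f', fun _ => ⟨h4, h5, h6, h7, h8⟩⟩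
    · exact ⟨0, 0, fun h => absurd h hz⟩
  choose e' f' hef' using hch
  obtain ⟨S', hS'⟩ : ∃ S' : End ℂ H, S' = ∑ z ∈ Finset.univ.filter Zp, sq ψ (e' z) (f' z) := ⟨_, rfl⟩
  have hS'k : S' ∈ TGR.kill T := by
    rw [hS']
    exact Submodule.sum_mem _ fun z hz => (hef' z (Finset.mem_filter.1 hz).2).2.2.2.2
  have hS'1 : ∀ z w, w ∈ U z → Zp z → S' w = τ w := by
    intro z w hw hz
    rw [hS', LinearMap.sum_apply, (hef' z hz).2.2.2.1 w hw]
    refine Finset.sum_eq_single z (fun y hy hyz => ?_) (fun h => absurd (Finset.mem_filter.2 ⟨Finset.mem_univ _, hz⟩) h)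
    obtain ⟨h4, h5, h6, -, -⟩ := hef' y (Finset.mem_filter.1 hy).2
    have h7 : z ≠ bar y := by
      rw [h4]
      exact fun h => hyz h.symm
    rw [sq_apply, hC.orth y z h7 _ h5 w hw, hC.orth y z h7 _ h6 w hw, zero_smul, zero_smul, add_zero]
  have hS'0 : ∀ z w, w ∈ U z → ¬ Zp z → S' w = 0 := by
    intro z w hw hz
    rw [hS', LinearMap.sum_apply]
    refine Finset.sum_eq_zero fun y hy => ?_
    obtain ⟨h4, h5, h6, -, -⟩ := hef' y (Finset.mem_filter.1 hy).2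
    have h7 : z ≠ bar y := by
      rw [h4]
      intro h
      rw [h] at hz
      exact hz (Finset.mem_filter.1 hy).2
    rw [sq_apply, hC.orth y z h7 _ h5 w hw, hC.orth y z h7 _ h6 w hw, zero_smul, zero_smul, add_zero]
  have hxZ : ¬ Zp x := by
    rw [hZp]
    exact fun h => h.1.1 rfl
  have hbxZ : ¬ Zp (bar x) := by
    rw [hZp]
    exact fun h => h.1.2.1 rfl
  have hDc : ∀ z, ∀ w ∈ U z, (τ - sq ψ e f - S') w = 0 ∨ ((τ - sq ψ e f - S') w = τ w ∧ (¬ N z → τ w = 0)) := by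
    intro z w hw
    rw [LinearMap.sub_apply, LinearMap.sub_apply]
    by_cases hzx : z = x
    · subst hzx
      left
      rw [hSx w hw, hS'0 _ w hw hxZ, sub_self, sub_self]
    · by_cases hzb : z = bar x
      · rw [hzb] at hw
        left
        rw [hSbx w hw, hS'0 _ w hw hbxZ, sub_self, sub_self]
      · rw [hS0 z hzx hzb w hw, sub_zero]
        by_cases hz : Zp z
        · left
          rw [hS'1 z w hw hz, sub_self]
        · right
          rw [hS'0 z w hw hz, sub_zero]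
          refine ⟨rfl, fun hNz => ?_⟩
          by_contra hcon
          apply hz
          rw [hZp]
          exact ⟨⟨hzx, hzb, hNz⟩, fun h => hcon (h w hw)⟩
  have hDk : τ - sq ψ e f - S' ∈ TGR.kill T := by
    refine kill_of_zero hC.dec hN (fun z w hw => ?_) fun z hz w hw => ?_
    · rcases hDc z w hw with h | ⟨h, -⟩
      · rw [h]
        exact Submodule.zero_mem _
      · rw [h]
        exact hτU z w hw
    · rcases hDc z w hw with h | ⟨h, h'⟩
      · exact h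
      · rw [h]
        exact h' hz
  refine ⟨e, f, heU, hfU, hef, ?_⟩
  have h4 : sq ψ e f = τ - S' - (τ - sq ψ e f - S') := by abel
  rw [h4]
  exact Submodule.sub_mem _ (Submodule.sub_mem _ hkill hS'k) hDk

end TPM
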