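import Pool.Agent.Lib.MP_021685_agTM.QH
import Pool.Agent.Lib.MP_021685_agTM.QI2
import Pool.Agent.Lib.MP_021685_agTM.QI3
import Pool.Agent.Lib.MP_021685_agTM.QJ
import Pool.Agent.Lib.MP_021685_agTM.QK
import Pool.Agent.Lib.MP_021685_agTM.QL
import Pool.Agent.Lib.MP_021685_agTM.QP
import Pool.Agent.Lib.MP_021685_agTM.QF
import Pool.Agent.Lib.MP_021685_agTM.QR
import Pool.Agent.Lib.MP_021685_agTM.QV

/-!
# Two pieces, and all the pieces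
-/

set_option autoImplicit false

namespace TPM

open Module TPR

section

variable {G H W X : Type} [Group G] [AddCommGroup H] [Module ℂ H] [AddCommGroup W] [Module ℂ W] [Fintype X]
  {ρ : Representation ℂ G H} {σ : Representation ℂ G W} {μ : G →* ℂˣ} {U : X → Submodule ℂ H} {pr : X → End ℂ H}
  {bar : X → X} {ψ : H →ₗ[ℂ] H →ₗ[ℂ] ℂ} {k : ℕ} {m : ℤ} {T : MultilinearMap ℂ (fun _ : Fin k => H) (W →ₗ[ℂ] ℂ)}

theorem Cx.sum_form (hC : Cx ρ μ U pr bar ψ) {x : X} {u : H} (hu : u ∈ U x) (v : H) :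
    ψ u v = ψ u (pr (bar x) v) := by
  classical
  conv_lhs => rw [← hC.dec.sum v, map_sum]
  rw [Finset.sum_eq_single (bar x)]
  · intro y _ hy
    exact hC.orth x y hy u hu _ (hC.dec.mem y v)
  · intro h
    exact absurd (Finset.mem_univ _) h

theorem Cx.nd_piece (hC : Cx ρ μ U pr bar ψ) {x : X} (hx : bar x = x) : ∀ u ∈ U x, (∀ v ∈ U x, ψ u v = 0) → u = 0 := by
  intro u hu h
  refine hC.nd u fun v => ?_
  rw [hC.sum_form hu, hx]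
  exact h _ (hC.dec.mem x v)

/-- The elements which vanish on the piece `U y`. -/
private def QX_M (T : MultilinearMap ℂ (fun _ : Fin k => H) (W →ₗ[ℂ] ℂ)) (ψ : H →ₗ[ℂ] H →ₗ[ℂ] ℂ)
    (U : X → Submodule ℂ H) (y : X) : Submodule ℂ (End ℂ H) where
  carrier := {Z | Z ∈ Ap T ψ U ∧ ∀ v ∈ U y, Z v = 0}
  add_mem' := by
    rintro Y Z ⟨hY1, hY2⟩ ⟨hZ1, hZ2⟩
    exact ⟨add_mem hY1 hZ1, fun v hv => by rw [LinearMap.add_apply, hY2 v hv, hZ2 v hv, add_zero]⟩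
  zero_mem' := ⟨zero_mem _, fun v _ => rfl⟩
  smul_mem' := by
    rintro c Y ⟨hY1, hY2⟩
    exact ⟨Submodule.smul_mem _ _ hY1, fun v hv => by rw [LinearMap.smul_apply, hY2 v hv, smul_zero]⟩

private theorem QX_ideal (hC : Cx ρ μ U pr bar ψ) {x y : X} (hx : bar x = x)
    (hfull : ∀ a ∈ U x, ∀ b ∈ U x, ∃ Y ∈ Ap T ψ U, ∀ w ∈ U x, Y w = sq ψ a b w) {Z : End ℂ H} (hZ : Z ∈ Ap T ψ U)
    (hZy : ∀ v ∈ U y, Z v = 0) {v₀ : H} (hv₀ : v₀ ∈ U x) (hne : Z v₀ ≠ 0) :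
    ∀ a ∈ U x, ∀ b ∈ U x, ∃ Y ∈ Ap T ψ U, (∀ w ∈ U x, Y w = sq ψ a b w) ∧ ∀ w ∈ U y, Y w = 0 := by
  intro a ha b hb
  obtain ⟨Y, hY, hYab⟩ := ideal_all hC.alt (V := U x) (hC.nd_piece hx) (𝔞 := Ap T ψ U) (M := QX_M T ψ U y)
    (fun Y hY u _ v _ => TGR.mem_sp.1 hY.1.1.2 u v) (fun Y hY v hv => hY.1.2 x v hv) hfull
    (fun Y hY Z hZ => ⟨Ap_lie hY hZ.1, fun v hv => by
      rw [LinearMap.sub_apply, Module.End.mul_apply, Module.End.mul_apply, hZ.2 v hv, hZ.2 _ (hY.2 y v hv), map_zero,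
        sub_zero]⟩) (Y₀ := Z) ⟨hZ, hZy⟩ hv₀ hne a ha b hb
  exact ⟨Y, hY.1, hYab, hY.2⟩

/-- A piece of dimension one. -/
theorem pair_one [FiniteDimensional ℂ H] (hC : Cx ρ μ U pr bar ψ) {x y : X} (hx : bar x = x)
    (hfull : ∀ a ∈ U x, ∀ b ∈ U x, ∃ Y ∈ Ap T ψ U, ∀ w ∈ U x, Y w = sq ψ a b w) (hy : finrank ℂ (U y) ≤ 1) :
    ∀ a ∈ U x, ∀ b ∈ U x, ∃ Y ∈ Ap T ψ U, (∀ w ∈ U x, Y w = sq ψ a b w) ∧ ∀ w ∈ U y, Y w = 0 := by
  obtain ⟨e, he, he0⟩ := (Submodule.ne_bot_iff _).1 (hC.dec.ne x)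
  obtain ⟨f₀, hf₀, hne⟩ : ∃ v ∈ U x, ψ e v ≠ 0 := by
    by_contra hcon
    push Not at hcon
    exact he0 (hC.nd_piece hx e he hcon)
  obtain ⟨f, hf, hef⟩ : ∃ f ∈ U x, ψ e f = 1 :=
    ⟨(ψ e f₀)⁻¹ • f₀, Submodule.smul_mem _ _ hf₀, by rw [map_smul, smul_eq_mul, inv_mul_cancel₀ hne]⟩
  obtain ⟨Y₁, hY₁, h1⟩ := hfull e he f hf
  obtain ⟨Y₂, hY₂, h2⟩ := hfull e he e he
  refine QX_ideal hC hx hfull (Ap_lie hY₁ hY₂) (fun w hw => ?_) hf ?_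
  · obtain ⟨w₀, hw₀⟩ := finrank_le_one_iff.1 hy
    obtain ⟨c, hc⟩ := hw₀ ⟨w, hw⟩
    obtain ⟨c₁, hc₁⟩ := hw₀ ⟨Y₁ w₀, hY₁.2 y _ w₀.2⟩
    obtain ⟨c₂, hc₂⟩ := hw₀ ⟨Y₂ w₀, hY₂.2 y _ w₀.2⟩
    have e0 : c • (w₀ : H) = w := congrArg Subtype.val hc
    have e1 : c₁ • (w₀ : H) = Y₁ w₀ := congrArg Subtype.val hc₁
    have e2 : c₂ • (w₀ : H) = Y₂ w₀ := congrArg Subtype.val hc₂
    rw [← e0, map_smul, LinearMap.sub_apply, Module.End.mul_apply, Module.End.mul_apply, ← e1, ← e2, map_smul, map_smul,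
      ← e1, ← e2, smul_smul, smul_smul, mul_comm, sub_self, smul_zero]
  · have hfe : ψ f e = -1 := by rw [alt_neg hC.alt f e, hef]
    have e1 : Y₂ f = (2 : ℂ) • e := by
      rw [h2 f hf, sq_apply, hef, ← add_smul]
      norm_num
    have e2 : Y₁ e = - e := by
      rw [h1 e he, sq_apply, hC.alt, hfe, zero_smul, zero_add, neg_smul, one_smul]
    have e3 : Y₁ f = f := by
      rw [h1 f hf, sq_apply, hef, hC.alt, one_smul, zero_smul, add_zero]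
    have e4 : (Y₁ * Y₂ - Y₂ * Y₁) f = (-4 : ℂ) • e := by
      rw [LinearMap.sub_apply, Module.End.mul_apply, Module.End.mul_apply, e1, map_smul, e2, e3, e1]
      module
    rw [e4]
    exact smul_ne_zero (by norm_num) he0

end

end TPM
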