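import Pool.Agent.Lib.MP_021685_agTM.RA
import Pool.Agent.Lib.MP_021685_agTM.QC3
import Pool.Agent.Lib.MP_021685_agTP.PB
import Pool.Agent.Lib.MP_021685_agTP.PT
import Pool.Agent.Lib.MP_021685_agTG.GX

/-! LEAF RB (medium).  One element with simple spectrum.  (A copy of the proof of `TGR.full_of_data` in `MP_021685_agTG/GX.lean`, over `RelSys`.)

PROOF.  Let `F = ρ φ`, `ψ` the form.  `hR.pow_ne hQ hd i` (file `RA.lean`): `lam l ^ d ≠ lam i ^ d` for `l ≠ i`.  `TPR.eigen_data` (`MP_021685_agTP/PB.lean`) for `R = 1` (no roots: `Polynomial.root_one`..) gives `e₀ : ι → H`,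
`e₀ i ≠ 0`, `F (e₀ i) = lam i • e₀ i`.  These are linearly independent (`Module.End.eigenvectors_linearIndependent'`, `hR.inj`) and `card ι = natDegree F.charpoly = finrank H` (`LinearMap.charpoly_natDegree`,
`Polynomial.natDegree_prod_X_sub_C`..): a basis (`basisOfLinearIndependentOfCardEqFinrank`).  As in `TGR.full_of_data`: `ψ (e₀ i) (e₀ j) ≠ 0` implies `j = bar i` (`hφ`, `hR.mulbar`, `hR.inj`), so `exists_scaling`
(`MP_021685_agTG`, used in `GX.lean`) gives `ε`, `t` and the basis `e = e₀.unitsSMul t` with `TGR.Nf bar ε e ψ`, `F (e i) = lam i • e i`.  By `TPR.full_of_torus` (`MP_021685_agTP/PT.lean`) it is enough that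
`Matrix.toLin e e (Matrix.diagonal x) ∈ TGR.kill T` for `x (bar i) = - x i`.  `TGR.exists_pow hφ hG' hT` gives `d > 0` with `T (F ^ d v, Φ ^ d w) = Q ^ (d m) T v w`, `Φ = σ φ`.  `exists_projs F` (leaf QC3) gives `π`; let
`p i = π (lam i)`: identity on `F.maxGenEigenspace (lam i)`, zero on the other `F.maxGenEigenspace y`.  `hR.torus_kill` (`RA.lean`: for `π = p i`, `π' = p (bar i)`): `p (bar i) - p i ∈ TGR.kill T` for all `i`
(`hF0`: an eigenvalue of `F` is a root of the characteristic polynomial, so some `lam l ≠ 0`; `hev`: `Or.inl`).  `p i (e l) = if l = i then e l else 0` (`e l` is in the eigenspace of `lam l`).  So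
`Matrix.toLin e e (Matrix.diagonal x) = ∑ i, x i • p i` (both map `e l` to `x l • e l`: `Matrix.toLin_self`, see `diag_mem` in `MP_021685_agTP/PN.lean`), and
`∑ i, x i • p i = - (1 / 2) • ∑ i, x i • (p (bar i) - p i)`, as `∑ i, x i • p (bar i) = ∑ i, x (bar i) • p i = - ∑ i, x i • p i` (`Equiv.sum_comp` for the involution `bar`).  It is in `TGR.kill T`. -/

set_option autoImplicit false

namespace TPM

open Polynomial Module Function TPR

theorem full_simple {Q : ℕ} (hQ : 1 < Q) {ι : Type} [Fintype ι] [DecidableEq ι] {lam : ι → ℂ} {bar : ι → ι}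
    {S : ℂ → Prop} (hR : RelSys Q lam bar S) {G H W : Type} [Group G] [AddCommGroup H] [Module ℂ H]
    [FiniteDimensional ℂ H] [AddCommGroup W] [Module ℂ W] [FiniteDimensional ℂ W] {ρ : Representation ℂ G H}
    {σ : Representation ℂ G W} {μ : G →* ℂˣ} (hform : TGR.HasForm ρ μ) {φ : G} (hφ : (μ φ : ℂ) = Q)
    (hchar : (ρ φ).charpoly = ∏ i, (X - C (lam i))) (hsm : ∀ y, End.HasEigenvalue (σ φ) y → S y)
    {G' : Subgroup G} {k : ℕ} {m : ℤ} {T : MultilinearMap ℂ (fun _ : Fin k => H) (W →ₗ[ℂ] ℂ)} (hG' : G'.FiniteIndex)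
    (hT : TGR.IsTate ρ σ μ G' m T) : ∃ G'' : Subgroup G, G''.FiniteIndex ∧
      T ∈ Submodule.span ℂ {T' : MultilinearMap ℂ (fun _ : Fin k => H) (W →ₗ[ℂ] ℂ) | TGR.IsProduct ρ σ μ G'' m T'} := by
  classical
  obtain ⟨ψ, halt, hnd, hψ⟩ := hform
  have hQ0 : (Q : ℂ) ≠ 0 := Nat.cast_ne_zero.2 (by omega)
  have hlam0 : ∀ i, lam i ≠ 0 := fun i h0 => hQ0 (by rw [← hR.mulbar i, h0, zero_mul])
  obtain ⟨e₀, he₀⟩ := eigen_data (F := ρ φ) (lam := lam) (R := 1) (by rw [hchar, mul_one]) fun d hd i =>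
    ⟨(hR.pow_ne hQ hd i).1, fun y hy => by
      rw [IsRoot.def, eval_one] at hy
      exact absurd hy one_ne_zero⟩
  have hli : LinearIndependent ℂ e₀ := Module.End.eigenvectors_linearIndependent' (ρ φ) lam hR.inj e₀
    fun i => ⟨Module.End.mem_eigenspace_iff.2 (he₀ i).2.1, (he₀ i).1⟩
  have hcard : Fintype.card ι = finrank ℂ H := by
    have h1 := LinearMap.charpoly_natDegree (ρ φ)
    rw [hchar, Polynomial.natDegree_finsetProd_X_sub_C_eq_card, Finset.card_univ] at h1
    exact h1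
  obtain ⟨b, hb⟩ : ∃ b : Basis ι ℂ H, ∀ i, b i = e₀ i :=
    ⟨Basis.mk hli (hli.span_eq_top_of_card_eq_finrank' hcard).ge, fun i => Basis.mk_apply _ _ i⟩
  have hbe : ∀ i, ρ φ (b i) = lam i • b i := fun i => by
    rw [hb i]
    exact (he₀ i).2.1
  have h0 : ∀ i j, ψ (b i) (b j) ≠ 0 → j = bar i := by
    intro i j hij
    have h1 := hψ φ (b i) (b j)
    rw [hbe, hbe, map_smul, map_smul, LinearMap.smul_apply, smul_eq_mul, smul_eq_mul, hφ] at h1
    have h2 : lam i * lam j = Q := mul_right_cancel₀ hij (by linear_combination h1)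
    exact hR.inj (mul_left_cancel₀ (hlam0 i) (h2.trans (hR.mulbar i).symm))
  obtain ⟨ε, t, h1, h2, h3, h4⟩ := TLL.exists_scaling halt hnd b bar hR.bb hR.bn h0
  obtain ⟨e, hee⟩ : ∃ e : Basis ι ℂ H, e = b.unitsSMul t := ⟨_, rfl⟩
  have hnf : TGR.Nf bar ε e ψ := ⟨hR.bb, hR.bn, h1, h2, h3, by rw [hee]; exact h4⟩
  have he' : ∀ i, ρ φ (e i) = lam i • e i := by
    intro i
    rw [hee, Basis.unitsSMul_apply, Units.smul_def, map_smul, hbe, smul_comm]
  obtain ⟨d, hd, hTd⟩ := TGR.exists_pow hφ hG' hT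
  refine full_of_torus hψ hnf hG' hT fun x hx => ?_
  obtain ⟨π, -, hπ1, hπ2, -⟩ := exists_projs (ρ φ)
  have hev : ∀ y, End.HasEigenvalue (ρ φ) y → ∃ l, y = lam l := by
    intro y hy
    rw [Module.End.hasEigenvalue_iff_isRoot_charpoly, hchar, IsRoot.def, eval_prod, Finset.prod_eq_zero_iff] at hy
    obtain ⟨l, -, hl⟩ := hy
    rw [eval_sub, eval_X, eval_C, sub_eq_zero] at hl
    exact ⟨l, hl⟩
  have hF0 : ∀ y, End.HasEigenvalue (ρ φ) y → y ≠ 0 := by
    intro y hy
    obtain ⟨l, rfl⟩ := hev y hy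
    exact hlam0 l
  have hk : ∀ i, π (lam (bar i)) - π (lam i) ∈ TGR.kill T := fun i =>
    hR.torus_kill hQ hF0 (fun y hy => Or.inl (hev y hy)) hsm hd hTd i (hπ1 _) (fun y hy => hπ2 _ y hy) (hπ1 _)
      fun y hy => hπ2 _ y hy
  have hmem : ∀ l, e l ∈ End.maxGenEigenspace (ρ φ) (lam l) := by
    intro l
    rw [Module.End.mem_maxGenEigenspace]
    refine ⟨1, ?_⟩
    rw [pow_one, LinearMap.sub_apply, LinearMap.smul_apply, Module.End.one_apply, he' l, sub_self]
  have hpi : ∀ j l, π (lam j) (e l) = if j = l then e l else 0 := by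
    intro j l
    by_cases h : j = l
    · rw [if_pos h, h]
      exact hπ1 _ _ (hmem l)
    · rw [if_neg h]
      exact hπ2 _ _ (fun h5 => h (hR.inj h5).symm) _ (hmem l)
  have key : Matrix.toLin e e (Matrix.diagonal x) =
      (-(1 / 2) : ℂ) • ∑ i, x i • (π (lam (bar i)) - π (lam i)) := by
    refine e.ext fun l => ?_
    have hL : Matrix.toLin e e (Matrix.diagonal x) (e l) = x l • e l := by
      rw [Matrix.toLin_self, Finset.sum_eq_single l]
      · rw [Matrix.diagonal_apply_eq]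
      · intro j _ hj
        rw [Matrix.diagonal_apply_ne _ hj, zero_smul]
      · intro hi
        exact absurd (Finset.mem_univ l) hi
    have h5 : ∀ i, x i • ((π (lam (bar i)) - π (lam i)) (e l)) =
        (if i = bar l then x i • e l else 0) - (if i = l then x i • e l else 0) := by
      intro i
      rw [LinearMap.sub_apply, hpi, hpi, smul_sub]
      have h6 : bar i = l ↔ i = bar l := by
        constructor
        · intro h
          rw [← h, hR.bb]
        · intro h
          rw [h, hR.bb]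
      congr 1
      · by_cases h7 : bar i = l
        · rw [if_pos h7, if_pos (h6.1 h7)]
        · rw [if_neg h7, if_neg fun h => h7 (h6.2 h), smul_zero]
      · by_cases h7 : i = l
        · rw [if_pos h7, if_pos h7]
        · rw [if_neg h7, if_neg h7, smul_zero]
    have h6 : (∑ i, x i • (π (lam (bar i)) - π (lam i))) (e l) = x (bar l) • e l - x l • e l := by
      rw [LinearMap.sum_apply]
      rw [Finset.sum_congr rfl fun i _ => show (x i • (π (lam (bar i)) - π (lam i))) (e l) = _ from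
        (LinearMap.smul_apply _ _ _).trans (h5 i)]
      rw [Finset.sum_sub_distrib, Finset.sum_ite_eq' Finset.univ (bar l) fun i => x i • e l,
        Finset.sum_ite_eq' Finset.univ l fun i => x i • e l, if_pos (Finset.mem_univ _), if_pos (Finset.mem_univ _)]
    rw [hL, LinearMap.smul_apply, h6, hx l]
    module
  rw [key]
  exact Submodule.smul_mem _ _ (Submodule.sum_mem _ fun i _ => Submodule.smul_mem _ _ (hk i))

end TPM
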