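import Pool.Agent.Lib.MP_021685_agTM.M0

/-! The elements of the Lie algebra which come from one place: no definition here occurs in the statement of the theorem. -/

set_option autoImplicit false

namespace TPM

open Module TPR

/-- `D` preserves all stable subspaces, is skew for all pairings with multiplier `μ`, is diagonalisable on all stable subspaces,
and kills all the Tate forms. -/
structure Tor {G H W : Type} [Group G] [AddCommGroup H] [Module ℂ H] [AddCommGroup W] [Module ℂ W]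
    (ρ : Representation ℂ G H) (σ : Representation ℂ G W) (μ : G →* ℂˣ) (k : ℕ) (m : ℤ) (D : End ℂ H) : Prop where
  stab : ∀ S : Submodule ℂ H, Stab ρ ⊤ S → ∀ v ∈ S, D v ∈ S
  skew : ∀ (β : H →ₗ[ℂ] H →ₗ[ℂ] ℂ) (S S' : Submodule ℂ H), Stab ρ ⊤ S → Stab ρ ⊤ S' →
    (∀ g, ∀ u ∈ S, ∀ v ∈ S', β (ρ g u) (ρ g v) = μ g * β u v) → ∀ u ∈ S, ∀ v ∈ S', β (D u) v + β u (D v) = 0
  diag : ∀ S : Submodule ℂ H, Stab ρ ⊤ S → S ≤ Submodule.span ℂ {w | w ∈ S ∧ ∃ a : ℂ, D w = a • w}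
  kill : ∀ T : MultilinearMap ℂ (fun _ : Fin k => H) (W →ₗ[ℂ] ℂ), TGR.IsTate ρ σ μ ⊤ m T → D ∈ TGR.kill T

end TPM
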