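import Pool.Agent.Lib.MP_021685_agTM.RA

/-! LEAF SA (medium-).  An additive character of the multiplicative group.

PROOF.  Let `N : Subgroup ℂˣ` be the units `u` with `S u` (closed by `hR.one`, `hR.mul`, `hR.inv`).  `lam l ≠ 0` for all `l` (`hR.mulbar`, `Q ≠ 0`); let `L l : ℂˣ` be this unit.  Consider the homomorphism
`f : (ι → ℤ) × Additive N →+ Additive ℂˣ`, `(n, s) ↦ ∏ l, L l ^ n l * s` and `c : (ι → ℤ) × Additive N →+ ℂ`, `(n, s) ↦ n (bar i) - n i`.  If `f (n, s) = 0` then `(∏ l, lam l ^ n l) * s = 1`, so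
`n (bar i) = n i` by `hR.rel`, and `c (n, s) = 0`.  So `c` factors over the range of `f`: there is `c' : f.range →+ ℂ` with `c' (f x) = c x` (for example `QuotientAddGroup.lift` and `QuotientAddGroup.quotientKerEquivRange`, or
`c' y = c (choose x)`).  `ℂ` is divisible, so `Module.Baer ℤ ℂ` (`Module.Baer.of_divisible`) and `c'` extends to `X : Additive ℂˣ →+ ℂ` (`Module.Baer.extension_property_addMonoidHom` for the inclusion of the range).  Let
`χ y = X (Units.mk0 y h)` for `y ≠ 0` and `χ 0 = 0`.  `χ (lam l) = c (Pi.single l 1, 0)`: `- 1` for `l = i` (`bar i ≠ i`), `1` for `l = bar i`, `0` otherwise; and `χ y = c (0, y) = 0` for `y ≠ 0`, `S y`. -/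

set_option autoImplicit false

namespace TPM

open Polynomial Module Function TPR

theorem exists_char {Q : ℕ} {ι : Type} [Fintype ι] {lam : ι → ℂ} {bar : ι → ι} {S : ℂ → Prop}
    (hR : RelSys Q lam bar S) (hQ : 1 < Q) (i : ι) :
    ∃ χ : ℂ → ℂ, (∀ y y', y ≠ 0 → y' ≠ 0 → χ (y * y') = χ y + χ y') ∧ χ (lam i) = -1 ∧ χ (lam (bar i)) = 1 ∧
      (∀ l, l ≠ i → l ≠ bar i → χ (lam l) = 0) ∧ ∀ y, y ≠ 0 → S y → χ y = 0 := by
  classical
  have hne : ∀ l, lam l ≠ 0 := fun l h => by
    have h1 := hR.mulbar l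
    rw [h, zero_mul] at h1
    have h2 : (Q : ℂ) ≠ 0 := by
      exact_mod_cast (by omega : Q ≠ 0)
    exact h2 h1.symm
  let N : Subgroup ℂˣ :=
    { carrier := {u | S (u : ℂ)}
      mul_mem' := fun {a b} ha hb => by
        change S ((a * b : ℂˣ) : ℂ)
        rw [Units.val_mul]
        exact hR.mul _ _ ha hb
      one_mem' := by
        change S ((1 : ℂˣ) : ℂ)
        rw [Units.val_one]
        exact hR.one
      inv_mem' := fun {a} ha => by
        change S ((a⁻¹ : ℂˣ) : ℂ)
        rw [Units.val_inv_eq_inv_val]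
        exact hR.inv _ a.ne_zero ha }
  let L : ι → ℂˣ := fun l => Units.mk0 (lam l) (hne l)
  let f1 : (ι → ℤ) →+ Additive ℂˣ :=
    { toFun := fun n => ∑ l, n l • Additive.ofMul (L l)
      map_zero' := by simp
      map_add' := fun a b => by
        rw [← Finset.sum_add_distrib]
        refine Finset.sum_congr rfl fun l _ => ?_
        rw [Pi.add_apply, add_zsmul] }
  let f2 : Additive N →+ Additive ℂˣ := MonoidHom.toAdditive N.subtype
  let f : (ι → ℤ) × Additive N →+ Additive ℂˣ := AddMonoidHom.coprod f1 f2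
  let c : (ι → ℤ) × Additive N →+ ℂ :=
    { toFun := fun x => ((x.1 (bar i) - x.1 i : ℤ) : ℂ)
      map_zero' := by simp
      map_add' := fun a b => by
        simp only [Prod.fst_add, Pi.add_apply]
        push_cast
        ring }
  have hf : ∀ (n : ι → ℤ) (u : ℂˣ) (hu : u ∈ N),
      f (n, Additive.ofMul ⟨u, hu⟩) = Additive.ofMul ((∏ l, L l ^ n l) * u) := by
    intro n u hu
    have h1 : f (n, Additive.ofMul ⟨u, hu⟩) = ∑ l, n l • Additive.ofMul (L l) + Additive.ofMul u := rfl
    rw [h1, ofMul_mul]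
    refine congrArg (fun v => v + Additive.ofMul u) ?_
    rw [ofMul_prod]
    exact Finset.sum_congr rfl fun l _ => rfl
  have hker : ∀ x ∈ f.ker, c x = 0 := by
    rintro ⟨n, s⟩ hx
    rw [AddMonoidHom.mem_ker] at hx
    obtain ⟨u, hu⟩ := s
    have h1 : f (n, Additive.ofMul ⟨u, hu⟩) = 0 := hx
    rw [hf] at h1
    have h2 : (∏ l, L l ^ n l) * u = 1 := Additive.ofMul.injective h1
    have h3 : (∏ l, lam l ^ n l) * (u : ℂ) = 1 := by
      have h4 := congrArg (fun v : ℂˣ => (v : ℂ)) h2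
      simp only [Units.val_mul, Units.coe_prod, Units.val_zpow_eq_zpow_val, Units.val_one] at h4
      exact h4
    have h4 := hR.rel n u hu h3 i
    change ((n (bar i) - n i : ℤ) : ℂ) = 0
    rw [h4, sub_self, Int.cast_zero]
  obtain ⟨X, hX⟩ := Module.Baer.extension_property_addMonoidHom (M := ((ι → ℤ) × Additive N) ⧸ f.ker) (N := Additive ℂˣ)
    (Q := ℂ) (Module.Baer.of_divisible (A := ℂ))
    (QuotientAddGroup.kerLift f) (QuotientAddGroup.kerLift_injective f)
    (QuotientAddGroup.lift f.ker c hker)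
  have hXf : ∀ x, X (f x) = c x := by
    intro x
    have h1 := DFunLike.congr_fun hX (QuotientAddGroup.mk x)
    exact h1
  have hLam : ∀ l, X (Additive.ofMul (L l)) = (((Pi.single l 1 : ι → ℤ) (bar i) - (Pi.single l 1 : ι → ℤ) i : ℤ) : ℂ) := by
    intro l
    have h1 := hXf (Pi.single l 1, Additive.ofMul ⟨1, N.one_mem⟩)
    rw [hf] at h1
    have h2 : (∏ m, L m ^ (Pi.single l 1 : ι → ℤ) m) * 1 = L l := by
      rw [mul_one, Finset.prod_eq_single l]
      · rw [Pi.single_eq_same, zpow_one]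
      · intro j _ hj
        rw [Pi.single_eq_of_ne hj, zpow_zero]
      · intro h
        exact absurd (Finset.mem_univ l) h
    rw [h2] at h1
    exact h1
  have hN : ∀ u : ℂˣ, S (u : ℂ) → X (Additive.ofMul u) = 0 := by
    intro u hu
    have hu' : u ∈ N := hu
    have h1 := hXf (0, Additive.ofMul ⟨u, hu'⟩)
    rw [hf] at h1
    have h2 : (∏ m, L m ^ (0 : ι → ℤ) m) * u = u := by
      rw [Finset.prod_eq_one (fun m _ => by rw [Pi.zero_apply, zpow_zero]), one_mul]
    rw [h2] at h1
    rw [h1]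
    change (((0 : ι → ℤ) (bar i) - (0 : ι → ℤ) i : ℤ) : ℂ) = 0
    rw [Pi.zero_apply, Pi.zero_apply, sub_self, Int.cast_zero]
  have hbi : bar i ≠ i := hR.bn i
  refine ⟨fun y => if h : y = 0 then 0 else X (Additive.ofMul (Units.mk0 y h)), ?_, ?_, ?_, ?_, ?_⟩
  · intro y y' hy hy'
    simp only
    rw [dif_neg hy, dif_neg hy', dif_neg (mul_ne_zero hy hy'), ← map_add, ← ofMul_mul]
    refine congrArg X (congrArg Additive.ofMul ?_)
    ext
    rfl
  · simp only
    rw [dif_neg (hne i)]
    have h1 := hLam i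
    rw [Pi.single_eq_same, Pi.single_eq_of_ne hbi] at h1
    refine h1.trans ?_
    norm_num
  · simp only
    rw [dif_neg (hne (bar i))]
    have h1 := hLam (bar i)
    rw [Pi.single_eq_same, Pi.single_eq_of_ne hbi.symm] at h1
    refine h1.trans ?_
    norm_num
  · intro l hl hl'
    simp only
    rw [dif_neg (hne l)]
    have h1 := hLam l
    rw [Pi.single_eq_of_ne (fun h => hl h.symm), Pi.single_eq_of_ne (fun h => hl' h.symm)] at h1
    refine h1.trans ?_
    norm_num
  · intro y hy hSy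
    simp only
    rw [dif_neg hy]
    exact hN (Units.mk0 y hy) hSy

end TPM
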