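import Pool.Agent.Lib.MP_021685_agTM.QC3
import Pool.Agent.Lib.MP_021685_agTP.PE
import Pool.Agent.Lib.MP_021685_agTG.G0

/-! LEAF SB (medium+).  The element of the Lie algebra defined by an additive character.

Notation: `f = F ^ d`.  An eigenvalue of `f` is not `0` (`f` is injective, as `F` is: `0` is not an eigenvalue, `Module.End.hasEigenvalue_iff`..; or: `hF0`).  `χ 1 = 0` and `χ (y ^ d) = d * χ y` for `y ≠ 0` (induction).

PROOF.  `exists_projs f` (leaf QC3) gives the projections `π w` to `f.maxGenEigenspace w`.  Let `Z` be the finite set of the eigenvalues of `f` (`f.charpoly.roots.toFinset`, `Module.End.hasEigenvalue_iff_isRoot_charpoly`) and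
`D = ∑ w ∈ Z, (χ w / d) • π w`.  For `v ∈ f.maxGenEigenspace w`: `D v = (χ w / d) • v` (if `v ≠ 0` then `w ∈ Z`: the generalised eigenspace is not zero; `π w' v = 0` for `w' ≠ w`, `π w v = v`).
(a) `v ∈ F.maxGenEigenspace y`, `v ≠ 0`: `y` is an eigenvalue, `y ≠ 0`, and `v ∈ f.maxGenEigenspace (y ^ d)` (`f - y ^ d = G * (F - y)` with `G` commuting: private `PE_fac` in `MP_021685_agTP/PE.lean`, copy it; compare leaf QC1), so
`D v = (χ (y ^ d) / d) • v = χ y • v`.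
(b) clear from the property of the `π w`.
(c) both sides are bilinear; `S` is the supremum of the `S ⊓ f.maxGenEigenspace w` (`Submodule.eq_iSup_inf_genEigenspace`, see leaf QC3), the same for `S'`; for `u ∈ S ⊓ f.maxGenEigenspace w`,
`v ∈ S' ⊓ f.maxGenEigenspace w'`: the sum is `((χ w + χ w') / d) * β u v`; if `β u v ≠ 0` then `w * w' = Q ^ d` (`form_zero`, leaf QC2), so `χ w + χ w' = χ (Q ^ d) = d * χ Q = 0` (`w`, `w' ≠ 0`, as `Q ≠ 0`).
(d) `S` is the supremum of the `S ⊓ f.maxGenEigenspace w`, whose elements are eigenvectors of `D` in `S`: `Submodule.mem_iSup`../`Submodule.span_mono` (`⨆ w, S ⊓ f.maxGenEigenspace w ≤ span ..`).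
(e) As in `torus_kill` (`RA.lean`): `TGR.der D T` is multilinear (`TGR.der_apply`), so it is enough to consider tuples `v a ∈ F.maxGenEigenspace (y a)` (private `RA_ext`: copy it; `Module.End.iSup_maxGenEigenspace_eq_top F`).  Then
`T (update v a (D (v a))) = χ (y a) • T v` by (a), so the sum is `(∑ a, χ (y a)) • T v`.  If `T v ≠ 0`: all `v a ≠ 0`, `y a ≠ 0` are eigenvalues; `TPR.eig_prod` gives an eigenvalue `z` of `Φ` with
`(∏ a, y a) ^ d * z ^ d = Q ^ j`; `z ≠ 0` (`Q ≠ 0`), so `d * (∑ a, χ (y a)) + d * χ z = χ (Q ^ j) = j * χ Q = 0` (`χ` of an integral power), and `χ z = 0`: `∑ a, χ (y a) = 0`. -/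

set_option autoImplicit false

namespace TPM

open Polynomial Module Function TPR

private theorem SB_fac {H : Type} [AddCommGroup H] [Module ℂ H] (F : End ℂ H) (y : ℂ) (d : ℕ) :
    ∃ G : End ℂ H, F ^ d - (y ^ d) • (1 : End ℂ H) = G * (F - y • (1 : End ℂ H)) ∧
      Commute (F - y • (1 : End ℂ H)) G := by
  have hc : Commute F (y • (1 : End ℂ H)) := (Commute.one_right F).smul_right y
  have h1 := hc.geom_sum₂_mul d
  have h2 := hc.mul_geom_sum₂ d
  have h3 : (y • (1 : End ℂ H)) ^ d = (y ^ d) • (1 : End ℂ H) := by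
    rw [_root_.smul_pow, one_pow]
  refine ⟨∑ i ∈ Finset.range d, F ^ i * (y • (1 : End ℂ H)) ^ (d - 1 - i), ?_, ?_⟩
  · rw [h1, h3]
  · exact h2.trans h1.symm

private theorem SB_gen {H : Type} [AddCommGroup H] [Module ℂ H] (F : End ℂ H) (y : ℂ) (d : ℕ) {v : H}
    (hv : v ∈ F.maxGenEigenspace y) : v ∈ (F ^ d).maxGenEigenspace (y ^ d) := by
  rw [Module.End.mem_maxGenEigenspace] at hv ⊢
  obtain ⟨N, hN⟩ := hv
  obtain ⟨G, hG, hC⟩ := SB_fac F y d
  refine ⟨N, ?_⟩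
  rw [hG, hC.symm.mul_pow, Module.End.mul_apply, hN, map_zero]

private theorem SB_ext {H N : Type} [AddCommGroup H] [Module ℂ H] [AddCommGroup N] [Module ℂ N] {k : ℕ}
    (M : MultilinearMap ℂ (fun _ : Fin k => H) N) (S : Set H) (hS : ⊤ ≤ Submodule.span ℂ S)
    (h : ∀ v : Fin k → H, (∀ a, v a ∈ S) → M v = 0) : ∀ v, M v = 0 := by
  have h1 : M = 0 := by
    refine Module.Basis.ext_multilinear (fun _ => Module.Basis.ofSpan hS) fun v => ?_
    show M _ = 0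
    exact h _ fun a => Module.Basis.ofSpan_subset hS (Set.mem_range_self _)
  intro v
  rw [h1]
  rfl

private theorem SB_eig {H : Type} [AddCommGroup H] [Module ℂ H] {F : End ℂ H} {y : ℂ} {u : H}
    (hu : u ∈ F.maxGenEigenspace y) (hne : u ≠ 0) : F.HasEigenvalue y := by
  classical
  rw [Module.End.mem_maxGenEigenspace] at hu
  have h0 := Nat.find_spec hu
  have h1 : Nat.find hu ≠ 0 := by
    intro h
    rw [h, pow_zero] at h0
    exact hne h0
  obtain ⟨n, hn⟩ := Nat.exists_eq_succ_of_ne_zero h1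
  obtain ⟨w, hw0, hw⟩ : ∃ w, w ≠ 0 ∧ F w = y • w := by
    refine ⟨((F - y • (1 : End ℂ H)) ^ n) u, fun h => ?_, ?_⟩
    · have := Nat.find_min' hu h
      omega
    · rw [hn, Nat.succ_eq_add_one, pow_succ', Module.End.mul_apply, LinearMap.sub_apply, LinearMap.smul_apply,
        Module.End.one_apply, sub_eq_zero] at h0
      exact h0
  exact Module.End.hasEigenvalue_of_hasEigenvector (x := w) ⟨Module.End.mem_eigenspace_iff.2 hw, hw0⟩

private theorem SB_one {χ : ℂ → ℂ} (hχ : ∀ y y', y ≠ 0 → y' ≠ 0 → χ (y * y') = χ y + χ y') : χ 1 = 0 := by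
  have h := hχ 1 1 one_ne_zero one_ne_zero
  rw [mul_one] at h
  linear_combination -h

private theorem SB_pow {χ : ℂ → ℂ} (hχ : ∀ y y', y ≠ 0 → y' ≠ 0 → χ (y * y') = χ y + χ y') {y : ℂ} (hy : y ≠ 0)
    (n : ℕ) : χ (y ^ n) = n * χ y := by
  induction n with
  | zero => rw [pow_zero, SB_one hχ, Nat.cast_zero, zero_mul]
  | succ n ih =>
    rw [pow_succ, hχ _ _ (pow_ne_zero _ hy) hy, ih, Nat.cast_succ]
    ring

private theorem SB_zpow {χ : ℂ → ℂ} (hχ : ∀ y y', y ≠ 0 → y' ≠ 0 → χ (y * y') = χ y + χ y') {y : ℂ} (hy : y ≠ 0)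
    (h0 : χ y = 0) (j : ℤ) : χ (y ^ j) = 0 := by
  cases j with
  | ofNat n => rw [Int.ofNat_eq_natCast, zpow_natCast, SB_pow hχ hy, h0, mul_zero]
  | negSucc n =>
    rw [zpow_negSucc]
    have h1 := hχ (y ^ (n + 1)) (y ^ (n + 1))⁻¹ (pow_ne_zero _ hy) (inv_ne_zero (pow_ne_zero _ hy))
    rw [mul_inv_cancel₀ (pow_ne_zero _ hy), SB_one hχ, SB_pow hχ hy, h0, mul_zero, zero_add] at h1
    exact h1.symm

private theorem SB_prod {χ : ℂ → ℂ} (hχ : ∀ y y', y ≠ 0 → y' ≠ 0 → χ (y * y') = χ y + χ y') {k : ℕ}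
    {y : Fin k → ℂ} (hy : ∀ a, y a ≠ 0) : χ (∏ a, y a) = ∑ a, χ (y a) := by
  classical
  have h : ∀ s : Finset (Fin k), χ (∏ a ∈ s, y a) = ∑ a ∈ s, χ (y a) := by
    intro s
    induction s using Finset.induction_on with
    | empty => rw [Finset.prod_empty, Finset.sum_empty, SB_one hχ]
    | insert a s ha ih =>
      rw [Finset.prod_insert ha, Finset.sum_insert ha, hχ _ _ (hy a) (Finset.prod_ne_zero_iff.2 fun b _ => hy b), ih]
  exact h Finset.univ

private theorem SB_act {H : Type} [AddCommGroup H] [Module ℂ H] [FiniteDimensional ℂ H] {f : End ℂ H}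
    {π : ℂ → End ℂ H} (h2 : ∀ z, ∀ v ∈ f.maxGenEigenspace z, π z v = v)
    (h3 : ∀ z y, y ≠ z → ∀ v ∈ f.maxGenEigenspace y, π z v = 0) (c : ℂ → ℂ) {w : ℂ} {v : H}
    (hv : v ∈ f.maxGenEigenspace w) : (∑ z ∈ f.charpoly.roots.toFinset, c z • π z) v = c w • v := by
  classical
  rw [LinearMap.sum_apply]
  by_cases hv0 : v = 0
  · rw [hv0, smul_zero]
    exact Finset.sum_eq_zero fun z _ => map_zero _
  · have hw : w ∈ f.charpoly.roots.toFinset := by
      rw [Multiset.mem_toFinset, Polynomial.mem_roots (LinearMap.charpoly_monic f).ne_zero]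
      exact (Module.End.hasEigenvalue_iff_isRoot_charpoly f w).1 (SB_eig hv hv0)
    rw [Finset.sum_eq_single w]
    · rw [LinearMap.smul_apply, h2 w v hv]
    · intro z _ hz
      rw [LinearMap.smul_apply, h3 z w (Ne.symm hz) v hv, smul_zero]
    · intro h
      exact absurd hw h

private theorem SB_form {H : Type} [AddCommGroup H] [Module ℂ H] [FiniteDimensional ℂ H] {f D : End ℂ H}
    {c : ℂ → ℂ} (hD : ∀ w, ∀ v ∈ f.maxGenEigenspace w, D v = c w • v) {β : H →ₗ[ℂ] H →ₗ[ℂ] ℂ}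
    {S S' : Submodule ℂ H} {q : ℂ} (hS : ∀ v ∈ S, f v ∈ S) (hS' : ∀ v ∈ S', f v ∈ S')
    (hβ : ∀ u ∈ S, ∀ v ∈ S', β (f u) (f v) = q * β u v)
    (hc : ∀ w w', w * w' = q → c w + c w' = 0) :
    ∀ u ∈ S, ∀ v ∈ S', β (D u) v + β u (D v) = 0 := by
  have htop : ⨆ μ : ℂ, f.genEigenspace μ ⊤ = ⊤ := Module.End.iSup_maxGenEigenspace_eq_top f
  have key : ∀ y y' : ℂ, ∀ u ∈ S, u ∈ f.maxGenEigenspace y → ∀ v ∈ S', v ∈ f.maxGenEigenspace y' →
      β (D u) v + β u (D v) = 0 := by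
    intro y y' u hu hu' v hv hv'
    rw [hD y u hu', hD y' v hv', map_smul, map_smul, LinearMap.smul_apply, smul_eq_mul, smul_eq_mul, ← add_mul]
    by_cases h : y * y' = q
    · rw [hc y y' h, zero_mul]
    · rw [form_zero hS hS' hβ h hu hv hu' hv', mul_zero]
  intro u hu
  rw [Submodule.eq_iSup_inf_genEigenspace (⊤ : ℕ∞) hS htop] at hu
  refine Submodule.iSup_induction (fun μ => S ⊓ f.genEigenspace μ ⊤)
    (motive := fun u => ∀ v ∈ S', β (D u) v + β u (D v) = 0) hu ?_ ?_ ?_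
  · intro y u hu1 v hv
    rw [Submodule.eq_iSup_inf_genEigenspace (⊤ : ℕ∞) hS' htop] at hv
    refine Submodule.iSup_induction (fun μ => S' ⊓ f.genEigenspace μ ⊤)
      (motive := fun v => β (D u) v + β u (D v) = 0) hv ?_ ?_ ?_
    · intro y' v hv1
      exact key y y' u hu1.1 hu1.2 v hv1.1 hv1.2
    · rw [map_zero, map_zero, map_zero, add_zero]
    · intro v v' e e'
      rw [map_add, map_add, map_add]
      linear_combination e + e'
  · intro v _
    rw [map_zero, map_zero, LinearMap.zero_apply, LinearMap.zero_apply, add_zero]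
  · intro u u' e e' v hv
    rw [map_add, map_add, map_add, LinearMap.add_apply, LinearMap.add_apply]
    linear_combination e v hv + e' v hv

private theorem SB_kill {H W : Type} [AddCommGroup H] [Module ℂ H] [FiniteDimensional ℂ H] [AddCommGroup W]
    [Module ℂ W] [FiniteDimensional ℂ W] {F D : End ℂ H} {Φ : End ℂ W}
    (hF0 : ∀ y, F.HasEigenvalue y → y ≠ 0) {d : ℕ} (hd : 0 < d) {χ : ℂ → ℂ}
    (hχ : ∀ y y', y ≠ 0 → y' ≠ 0 → χ (y * y') = χ y + χ y') {Q : ℕ} (hQ : 1 < Q) (hχQ : χ (Q : ℂ) = 0)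
    (hD : ∀ y, ∀ v ∈ F.maxGenEigenspace y, D v = χ y • v)
    (hΦ : ∀ y, Φ.HasEigenvalue y → y ≠ 0 → χ y = 0) {k : ℕ} {j : ℤ}
    {T : MultilinearMap ℂ (fun _ : Fin k => H) (W →ₗ[ℂ] ℂ)}
    (hT : ∀ v w, T (fun a => (F ^ d) (v a)) ((Φ ^ d) w) = (Q : ℂ) ^ j * T v w) : D ∈ TGR.kill T := by
  classical
  have hQ0 : (Q : ℂ) ≠ 0 := by
    have : Q ≠ 0 := by omega
    exact_mod_cast this
  rw [TGR.mem_kill]
  intro v
  rw [← TGR.der_apply]
  refine SB_ext (TGR.der D T) (⋃ y, (F.maxGenEigenspace y : Set H)) ?_ ?_ v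
  · rw [← Module.End.iSup_maxGenEigenspace_eq_top F, Submodule.span_iUnion]
    refine iSup_mono fun y => ?_
    exact Submodule.subset_span
  · intro v hv
    have hv1 : ∀ a, ∃ y, v a ∈ F.maxGenEigenspace y := fun a => Set.mem_iUnion.1 (hv a)
    choose y hy using hv1
    rw [TGR.der_apply]
    have e1 : ∀ a, T (update v a (D (v a))) = χ (y a) • T v := by
      intro a
      rw [hD (y a) (v a) (hy a), MultilinearMap.map_update_smul, update_eq_self]
    rw [Finset.sum_congr rfl fun a _ => e1 a, ← Finset.sum_smul]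
    by_cases hTv : T v = 0
    · rw [hTv, smul_zero]
    · have hv0 : ∀ a, v a ≠ 0 := fun a h => hTv (T.map_coord_zero a h)
      have hy0 : ∀ a, y a ≠ 0 := fun a => hF0 _ (SB_eig (hy a) (hv0 a))
      obtain ⟨z, hz1, hz2⟩ := eig_prod hT hy0 hy hTv
      have hz0 : z ≠ 0 := by
        intro h
        rw [h, zero_pow hd.ne', mul_zero] at hz2
        exact zpow_ne_zero j hQ0 hz2.symm
      have hp0 : (∏ a, y a) ≠ 0 := Finset.prod_ne_zero_iff.2 fun a _ => hy0 a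
      have e2 := congrArg χ hz2
      rw [hχ _ _ (pow_ne_zero _ hp0) (pow_ne_zero _ hz0), SB_pow hχ hp0, SB_pow hχ hz0, hΦ z hz1 hz0, mul_zero,
        add_zero, SB_zpow hχ hQ0 hχQ, SB_prod hχ hy0] at e2
      have hd0 : (d : ℂ) ≠ 0 := Nat.cast_ne_zero.2 hd.ne'
      rw [(mul_eq_zero.1 e2).resolve_left hd0, zero_smul]

theorem exists_torus {H : Type} [AddCommGroup H] [Module ℂ H] [FiniteDimensional ℂ H] {F : End ℂ H}
    (hF0 : ∀ y, F.HasEigenvalue y → y ≠ 0) {d : ℕ} (hd : 0 < d) {χ : ℂ → ℂ}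
    (hχ : ∀ y y', y ≠ 0 → y' ≠ 0 → χ (y * y') = χ y + χ y') {Q : ℕ} (hQ : 1 < Q) (hχQ : χ (Q : ℂ) = 0) :
    ∃ D : End ℂ H, (∀ y, ∀ v ∈ F.maxGenEigenspace y, D v = χ y • v) ∧
      (∀ S : Submodule ℂ H, (∀ v ∈ S, (F ^ d) v ∈ S) → ∀ v ∈ S, D v ∈ S) ∧
      (∀ (β : H →ₗ[ℂ] H →ₗ[ℂ] ℂ) (S S' : Submodule ℂ H), (∀ v ∈ S, (F ^ d) v ∈ S) → (∀ v ∈ S', (F ^ d) v ∈ S') →
        (∀ u ∈ S, ∀ v ∈ S', β ((F ^ d) u) ((F ^ d) v) = (Q : ℂ) ^ d * β u v) →
          ∀ u ∈ S, ∀ v ∈ S', β (D u) v + β u (D v) = 0) ∧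
      (∀ S : Submodule ℂ H, (∀ v ∈ S, (F ^ d) v ∈ S) → S ≤ Submodule.span ℂ {w | w ∈ S ∧ ∃ a : ℂ, D w = a • w}) ∧
      (∀ (W : Type) [AddCommGroup W] [Module ℂ W] [FiniteDimensional ℂ W] (Φ : End ℂ W),
        (∀ y, Φ.HasEigenvalue y → y ≠ 0 → χ y = 0) → ∀ (k : ℕ) (j : ℤ)
          (T : MultilinearMap ℂ (fun _ : Fin k => H) (W →ₗ[ℂ] ℂ)),
            (∀ v w, T (fun a => (F ^ d) (v a)) ((Φ ^ d) w) = (Q : ℂ) ^ j * T v w) → D ∈ TGR.kill T) ∧
      ∀ w, ∀ v ∈ (F ^ d).maxGenEigenspace w, D v = (χ w / d) • v := by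
  classical
  have hQ0 : (Q : ℂ) ≠ 0 := by
    have : Q ≠ 0 := by omega
    exact_mod_cast this
  have hd0 : (d : ℂ) ≠ 0 := Nat.cast_ne_zero.2 hd.ne'
  have htop : ⨆ μ : ℂ, (F ^ d).genEigenspace μ ⊤ = ⊤ := Module.End.iSup_maxGenEigenspace_eq_top (F ^ d)
  obtain ⟨π, _, h2, h3, h4, _, _⟩ := exists_projs (F ^ d)
  obtain ⟨D, hDd⟩ : ∃ D : End ℂ H, D = ∑ z ∈ (F ^ d).charpoly.roots.toFinset, (χ z / d) • π z := ⟨_, rfl⟩
  have hact : ∀ w, ∀ v ∈ (F ^ d).maxGenEigenspace w, D v = (χ w / d) • v := by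
    intro w v hv
    rw [hDd]
    exact SB_act h2 h3 (fun z => χ z / d) hv
  have ha : ∀ y, ∀ v ∈ F.maxGenEigenspace y, D v = χ y • v := by
    intro y v hv
    by_cases hv0 : v = 0
    · rw [hv0, map_zero, smul_zero]
    · have hy := hF0 y (SB_eig hv hv0)
      rw [hact _ v (SB_gen F y d hv), SB_pow hχ hy, mul_div_cancel_left₀ _ hd0]
  refine ⟨D, ha, ?_, ?_, ?_, ?_, hact⟩
  · intro S hS v hv
    rw [hDd, LinearMap.sum_apply]
    exact S.sum_mem fun z _ => S.smul_mem _ (h4 z S hS v hv)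
  · intro β S S' hS hS' hβ
    refine SB_form hact hS hS' hβ fun w w' hw => ?_
    have hQd : (Q : ℂ) ^ d ≠ 0 := pow_ne_zero _ hQ0
    have hw0 : w ≠ 0 := by
      intro h
      rw [h, zero_mul] at hw
      exact hQd hw.symm
    have hw0' : w' ≠ 0 := by
      intro h
      rw [h, mul_zero] at hw
      exact hQd hw.symm
    have e := congrArg χ hw
    rw [hχ _ _ hw0 hw0', SB_pow hχ hQ0, hχQ, mul_zero] at e
    rw [← add_div, e, zero_div]
  · intro S hS
    refine (Submodule.eq_iSup_inf_genEigenspace (⊤ : ℕ∞) hS htop).le.trans (iSup_le fun μ => ?_)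
    intro v hv
    exact Submodule.subset_span ⟨hv.1, _, hact μ v hv.2⟩
  · intro W _ _ _ Φ hΦ k j T hT
    exact SB_kill hF0 hd hχ hQ hχQ ha hΦ hT

end TPM
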