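import Pool.Agent.Lib.MP_021685_agTM.M0

/-! LEAF SC (medium).  The element `D` on a symplectic piece with a simple eigenvalue.

PROOF.  `U` is the supremum of the `U ⊓ F.maxGenEigenspace y` (`Submodule.eq_iSup_inf_genEigenspace` in `Mathlib/LinearAlgebra/Eigenspace/Triangularizable.lean`, `hFU`, `Module.End.iSup_maxGenEigenspace_eq_top F`).
For `u ∈ U ⊓ F.maxGenEigenspace y`, `u ≠ 0`: `D u = χ y • u` (`hDF`) and `χ y` is `- 1` if `y = lam i`, `1` if `y = lam (bar i)`, and `0` otherwise: by `hev`, `y = lam l` for some `l` or `S y`; `y ≠ 0` as `lam l ≠ 0` resp.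
`hF0` (`y` is an eigenvalue of `F`: the generalised eigenspace is not zero); note `χ y = 0` if `S y`, and if `S y` and `y = lam i` then `χ y = 0` and `- 1`: excluded.
SKEW: `(a + b) * ψ u v = 0` if `D u = a • u`, `D v = b • v`, `u`, `v ∈ U` (`hsk`).
Take `e ∈ U ⊓ F.maxGenEigenspace (lam i)`, `e ≠ 0` (`hone`: `finrank = 1`).  There is `v ∈ U` with `ψ e v ≠ 0` (`hU`), and by decomposition of `v` and SKEW there is such a `v` in `U ⊓ F.maxGenEigenspace (lam (bar i))` (the components in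
the other `U ⊓ F.maxGenEigenspace y` are orthogonal to `e`: the eigenvalue of `D` there is `0` or `- 1`, and `- 1 + 0 ≠ 0`, `- 1 - 1 ≠ 0`).  Let `f` be the multiple of it with `ψ e f = 1`.  `D e = - e`, `D f = f`.
The elements of `U` are sums of `u ∈ U ⊓ F.maxGenEigenspace y`; both sides of `D v = sq ψ e f v` are linear in `v`, so (`Submodule.iSup_induction`, after rewriting `U` as the supremum) let `v = u`.
`y = lam i`: `u = s • e` (`hone`: `finrank_eq_one_iff_of_nonzero'`), `sq ψ e f (s • e) = - s • e` (`TPR.sq_apply`, `halt`, `ψ f e = - 1`).  `y = lam (bar i)`: let `c = ψ e u`, `u' = u - c • f`: `ψ e u' = 0`, `u' ∈ U ⊓ F.maxGenEigenspace (lam (bar i))`; for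
all `w ∈ U`: `ψ w u' = 0` (for `w ∈ U ⊓ F.maxGenEigenspace y'`: zero by SKEW unless `y' = lam i`, and then `w` is a multiple of `e`), so `u' = 0` (`hU`, `TPR.alt_neg`), `u = c • f`, and `sq ψ e f f = f`.  Otherwise `D u = 0`, and `ψ e u = 0`, `ψ f u = 0`
by SKEW (`- 1 + 0`, `1 + 0`). -/

set_option autoImplicit false

namespace TPM

open Module TPR

theorem torus_piece {H : Type} [AddCommGroup H] [Module ℂ H] [FiniteDimensional ℂ H] {F D : End ℂ H} {ι : Type}
    {lam : ι → ℂ} {bar : ι → ι} {S : ℂ → Prop} {χ : ℂ → ℂ} (hF0 : ∀ y, F.HasEigenvalue y → y ≠ 0) {i : ι}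
    (h1 : χ (lam i) = -1) (h2 : χ (lam (bar i)) = 1) (h3 : ∀ l, l ≠ i → l ≠ bar i → χ (lam l) = 0)
    (h4 : ∀ y, y ≠ 0 → S y → χ y = 0) (hDF : ∀ y, ∀ v ∈ F.maxGenEigenspace y, D v = χ y • v)
    {ψ : H →ₗ[ℂ] H →ₗ[ℂ] ℂ} (halt : ∀ u, ψ u u = 0) {U : Submodule ℂ H} (hFU : ∀ v ∈ U, F v ∈ U)
    (hU : ∀ u ∈ U, (∀ v ∈ U, ψ u v = 0) → u = 0) (hsk : ∀ u ∈ U, ∀ v ∈ U, ψ (D u) v + ψ u (D v) = 0)
    (hev : ∀ y, U ⊓ F.maxGenEigenspace y ≠ ⊥ → (∃ l, lam l = y) ∨ S y)
    (hone : finrank ℂ ↥(U ⊓ F.maxGenEigenspace (lam i)) = 1) :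
    ∃ e f : H, e ∈ U ∧ f ∈ U ∧ ψ e f = 1 ∧ ∀ v ∈ U, D v = sq ψ e f v := by
  have hsup : U = ⨆ y, U ⊓ F.maxGenEigenspace y :=
    Submodule.eq_iSup_inf_genEigenspace (p := U) (f := F) ⊤ hFU (Module.End.iSup_maxGenEigenspace_eq_top F)
  have hind : ∀ P : H → Prop, P 0 → (∀ u v, P u → P v → P (u + v)) →
      (∀ y, ∀ u ∈ U, u ∈ F.maxGenEigenspace y → u ≠ 0 → P u) → ∀ u ∈ U, P u := by
    intro P h0 hadd hy u hu
    rw [hsup] at hu
    refine Submodule.iSup_induction _ (motive := P) hu ?_ h0 hadd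
    intro y w hw
    rcases eq_or_ne w 0 with h | h
    · rw [h]
      exact h0
    · exact hy y w (Submodule.mem_inf.1 hw).1 (Submodule.mem_inf.1 hw).2 h
  have hcl : ∀ y, ∀ u ∈ U, u ∈ F.maxGenEigenspace y → u ≠ 0 → y = lam i ∨ y = lam (bar i) ∨ χ y = 0 := by
    intro y u hu hy hu0
    rcases hev y (fun h => hu0 ((Submodule.mem_bot ℂ).1 (h ▸ Submodule.mem_inf.2 ⟨hu, hy⟩))) with ⟨l, hl⟩ | hS
    · by_cases h : l = i
      · exact Or.inl (by rw [← hl, h])
      · by_cases h' : l = bar i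
        · exact Or.inr (Or.inl (by rw [← hl, h']))
        · exact Or.inr (Or.inr (by rw [← hl]; exact h3 l h h'))
    · refine Or.inr (Or.inr (h4 y (hF0 y ?_) hS))
      have h : F.HasUnifEigenvalue y ⊤ := fun h => hu0 ((Submodule.mem_bot ℂ).1 (h ▸ hy))
      exact h.lt zero_lt_one
  have hs : ∀ (a b : ℂ) (u v : H), u ∈ U → v ∈ U → D u = a • u → D v = b • v → a + b ≠ 0 → ψ u v = 0 := by
    intro a b u v hu hv ha hb hab
    have h := hsk u hu v hv
    rw [ha, hb, map_smul, LinearMap.smul_apply, map_smul, smul_eq_mul, smul_eq_mul, ← add_mul] at h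
    exact (mul_eq_zero.1 h).resolve_left hab
  have hne : U ⊓ F.maxGenEigenspace (lam i) ≠ ⊥ := by
    intro h
    rw [h, finrank_bot] at hone
    exact zero_ne_one hone
  obtain ⟨e, he, he0⟩ := Submodule.exists_mem_ne_zero_of_ne_bot hne
  have heU := (Submodule.mem_inf.1 he).1
  have heE := (Submodule.mem_inf.1 he).2
  have hline : ∀ w ∈ U, w ∈ F.maxGenEigenspace (lam i) → ∃ c : ℂ, c • e = w := by
    intro w hw hw'
    obtain ⟨c, hc⟩ := (finrank_eq_one_iff_of_nonzero' (⟨e, he⟩ : ↥(U ⊓ F.maxGenEigenspace (lam i)))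
      (fun h => he0 (congrArg Subtype.val h))).1 hone ⟨w, Submodule.mem_inf.2 ⟨hw, hw'⟩⟩
    exact ⟨c, congrArg Subtype.val hc⟩
  have hDe : D e = (-1 : ℂ) • e := by rw [hDF _ e heE, h1]
  have hex : ∃ v ∈ U, v ∈ F.maxGenEigenspace (lam (bar i)) ∧ ψ e v ≠ 0 := by
    by_contra hno
    have hno' : ∀ v ∈ U, v ∈ F.maxGenEigenspace (lam (bar i)) → ψ e v = 0 :=
      fun v hv hv' => by_contra fun h => hno ⟨v, hv, hv', h⟩
    refine he0 (hU e heU (hind (fun v => ψ e v = 0) (map_zero _) (fun u v hu hv => ?_) (fun y u hu hy hu0 => ?_)))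
    · rw [map_add, hu, hv, add_zero]
    · rcases hcl y u hu hy hu0 with h | h | h
      · refine hs (-1) (-1) e u heU hu hDe ?_ (by norm_num)
        rw [hDF y u hy, h, h1]
      · exact hno' u hu (h ▸ hy)
      · refine hs (-1) 0 e u heU hu hDe ?_ (by norm_num)
        rw [hDF y u hy, h]
  obtain ⟨v₀, hv₀, hv₀', hv₀0⟩ := hex
  obtain ⟨f, hf⟩ : ∃ f : H, f = (ψ e v₀)⁻¹ • v₀ := ⟨_, rfl⟩
  have hfU : f ∈ U := hf ▸ Submodule.smul_mem _ _ hv₀
  have hfE : f ∈ F.maxGenEigenspace (lam (bar i)) := hf ▸ Submodule.smul_mem _ _ hv₀'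
  have hef : ψ e f = 1 := by
    rw [hf, map_smul, smul_eq_mul, inv_mul_cancel₀ hv₀0]
  have hfe : ψ f e = -1 := by
    rw [alt_neg halt, hef]
  have hDf : D f = (1 : ℂ) • f := by rw [hDF _ f hfE, h2]
  refine ⟨e, f, heU, hfU, hef, hind (fun v => D v = sq ψ e f v) ?_ (fun u v hu hv => ?_) (fun y u hu hy hu0 => ?_)⟩
  · rw [map_zero, map_zero]
  · rw [map_add, map_add, hu, hv]
  · rw [sq_apply]
    rcases hcl y u hu hy hu0 with h | h | h
    · obtain ⟨c, hc⟩ := hline u hu (h ▸ hy)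
      rw [← hc, map_smul, map_smul, map_smul, halt, hfe, hDe, smul_zero, zero_smul, zero_add, smul_smul, smul_eq_mul]
    · have hDu : D u = (1 : ℂ) • u := by rw [hDF y u hy, h, h2]
      have hu' : u - ψ e u • f = 0 := by
        have hm : u - ψ e u • f ∈ U := Submodule.sub_mem _ hu (Submodule.smul_mem _ _ hfU)
        have hD' : D (u - ψ e u • f) = (1 : ℂ) • (u - ψ e u • f) := by
          rw [map_sub, map_smul, hDu, hDf, one_smul, one_smul, one_smul]
        refine hU _ hm (hind (fun w => ψ (u - ψ e u • f) w = 0) (map_zero _) (fun w w' hw hw' => ?_) (fun y' w hw hy' hw0 => ?_))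
        · rw [map_add, hw, hw', add_zero]
        · rcases hcl y' w hw hy' hw0 with h' | h' | h'
          · obtain ⟨s, hs'⟩ := hline w hw (h' ▸ hy')
            rw [← hs', map_smul, alt_neg halt, map_sub, map_smul, hef, smul_eq_mul, smul_eq_mul, mul_one, sub_self, neg_zero, mul_zero]
          · refine hs 1 1 _ w hm hw hD' ?_ (by norm_num)
            rw [hDF y' w hy', h', h2]
          · refine hs 1 0 _ w hm hw hD' ?_ (by norm_num)
            rw [hDF y' w hy', h']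
      have hu'' : u = ψ e u • f := sub_eq_zero.1 hu'
      have hfu : ψ f u = 0 := by
        rw [hu'', map_smul, halt, smul_zero]
      rw [hDu, one_smul, hfu, zero_smul, add_zero]
      exact hu''
    · have hDu : D u = (0 : ℂ) • u := by rw [hDF y u hy, h]
      have h5 : ψ e u = 0 := hs (-1) 0 e u heU hu hDe hDu (by norm_num)
      have h6 : ψ f u = 0 := hs 1 0 f u hfU hu hDf hDu (by norm_num)
      rw [hDu, h5, h6, zero_smul, zero_smul, zero_smul, add_zero]

end TPM
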