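import Pool.Agent.Lib.MP_021685_agTM.QI1

/-! LEAF SD (medium+).  In the case of a graph the element `t` is a product `sq e' f'` on `V'`.

Notation as in leaf QI2 (`QI2.lean`): for `Y ∈ 𝔞` write `Y |' A'` if `Y w = A' w` for `w ∈ V'`, and `Y | A` if `Y w = A w` for `w ∈ V`.  EIG: an eigenvector is a `u ∈ V'`, `u ≠ 0`, with `t u = a • u`; they span `V'` (`hdiag`).
NZ: `sq ψ u v` is not zero on `V'` if `u`, `v ∈ V'` are not zero: take `w ∈ V'` with `ψ u w ≠ 0` (`hV'`, `alt_neg`); if `ψ u w • v + ψ v w • u = 0` then `v = s • u`, `s ≠ 0`, and `sq ψ u (s • u) w = 2 s ψ u w • u ≠ 0`.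

PROOF.  (1) LINES.  Let `Θ : H → H` be linear with `t (Θ v) - Θ (t v) = c • Θ v` for `v ∈ V`, where `t v = sq ψ e f v` for `v ∈ V`, and `Θ` maps `V` to `V`.  As in leaf QI1: `t (Θ e) = (c - 1) • Θ e`, `t (Θ f) = (c + 1) • Θ f`, `t (Θ v₀) = c • Θ v₀` for `v₀ ∈ V`
with `ψ e v₀ = ψ f v₀ = 0`, and `t w = l • w`, `w ∈ V`, `w ≠ 0` implies `l ∈ {0, 1, - 1}`.  So if `Θ` is not zero on `V` then `c ∈ {0, 1, - 1, 2, - 2}`.
(2) Let `u`, `v` be eigenvectors for `a`, `b`, and `Y ∈ 𝔞` with `Y |' sq ψ u v` (`hfull'`).  `t * Y - Y * t |' (a + b) • sq ψ u v` (`TPR.sq_bracket` on `V'`: `t` is skew), so `t * Y - Y * t - (a + b) • Y ∈ 𝔞` is zero on `V'`, hence on `V` (`hgr`).  `Y` is not zero on `V'` (NZ),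
so not on `V` (`hgr'`), and by (1) `a + b ∈ {0, 1, - 1, 2, - 2}`.  In particular `2 a ∈ {0, 1, - 1, 2, - 2}` for all eigenvalues `a`.
(3) Let `Y ∈ 𝔞` with `Y | sq ψ f f` (`hfull`): on `V`, `t * Y - Y * t = 2 • Y` (`sq_bracket`, `sq ψ e f f = f`), so also on `V'` (`hgr'`).  `Y` is not zero on `V` (`sq ψ f f e = - 2 • f`), so not on `V'` (`hgr`): there is an eigenvector `u` for some `a` with
`Y u ≠ 0` (`hdiag`), and `t (Y u) = (a + 2) • Y u`, `Y u ∈ V'`.  As `2 a` and `2 (a + 2)` are in `{0, 1, - 1, 2, - 2}`: `a = - 1`.  So there are eigenvectors `e'` for `- 1` (`= u`) and `f'` for `1` (`= Y u`).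
(4) If `a` is an eigenvalue then `a`, `a + 1`, `2 a` are in the set `{0, 1, - 1, 2, - 2}` resp. (`a + 1` by (2) for `f'`), so `a ∈ {0, 1, - 1}` (`a = ± 1 / 2` gives `a + 1 ∈ {3 / 2, 1 / 2}`).
(5) An eigenvector `v` for `1` is a multiple of `f'`: let `Y₁ |' sq ψ f' f'`, `Y₂ |' sq ψ f' v`; both satisfy `t * Y - Y * t = 2 • Y` on `V'` and so on `V` (`hgr`), so by `ad_two'` (leaf QI1; `t v = sq ψ e f v` for `v ∈ V`, `Y v ∈ V`) `Y₁ | s₁ • sq ψ f f`, `Y₂ | s₂ • sq ψ f f`; `s₁ ≠ 0` (otherwise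
`Y₁` is zero on `V`, so on `V'`, against NZ).  `s₁ • Y₂ - s₂ • Y₁` is zero on `V`, so on `V'` (`hgr'`): `s₁ • sq ψ f' v w = s₂ • sq ψ f' f' w` for `w ∈ V'`; take `w` with `ψ f' w = 1`: `s₁ • (v + ψ v w • f') = 2 s₂ • f'`.
(6) SKEW: `(a + b) * ψ u v = 0` for eigenvectors `u`, `v` for `a`, `b`.  There is `w ∈ V'` with `ψ e' w ≠ 0`, and by `hdiag` (a sum of eigenvectors) an eigenvector `v` with `ψ e' v ≠ 0`: its eigenvalue is `1` (SKEW), so `v` is a multiple of `f'` (5), so `ψ e' f' ≠ 0`; replace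
`f'` by a multiple: `ψ e' f' = 1`.  An eigenvector `v` for `- 1` is a multiple of `e'`: `v' = v - ψ v f' • e'` is orthogonal to `f'`, to the eigenvectors for `0`, `- 1` (SKEW) and for `1` (multiples of `f'`), so to `V'`, so `v' = 0`.  Now `t v = sq ψ e' f' v` for the
eigenvectors: for `e'`: `- e'`; for `f'`: `f'`; for `0`: `ψ e' v = ψ f' v = 0` by SKEW.  As they span `V'`: for all `v ∈ V'` (`Submodule.span_induction`). -/

set_option autoImplicit false

namespace TPM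

open Module TPR

private theorem SD_te {H : Type} [AddCommGroup H] [Module ℂ H] {ψ : H →ₗ[ℂ] H →ₗ[ℂ] ℂ} {e f : H}
    (halt : ∀ u, ψ u u = 0) (hef : ψ e f = 1) : sq ψ e f e = -e := by
  rw [sq_apply, halt, alt_neg halt f e, hef, zero_smul, zero_add, neg_smul, one_smul]

private theorem SD_tf {H : Type} [AddCommGroup H] [Module ℂ H] {ψ : H →ₗ[ℂ] H →ₗ[ℂ] ℂ} {e f : H}
    (halt : ∀ u, ψ u u = 0) (hef : ψ e f = 1) : sq ψ e f f = f := by
  rw [sq_apply, halt, hef, zero_smul, add_zero, one_smul]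

/-- The eigenvalues of `sq e f`. -/
private theorem SD_l {H : Type} [AddCommGroup H] [Module ℂ H] {ψ : H →ₗ[ℂ] H →ₗ[ℂ] ℂ} {e f : H}
    (halt : ∀ u, ψ u u = 0) (hef : ψ e f = 1) {l : ℂ} {w : H} (h : sq ψ e f w = l • w) (hw : w ≠ 0) :
    l = 0 ∨ l = 1 ∨ l = -1 := by
  have h1 : (l - 1) * ψ e w = 0 := by
    have h1 := congrArg (fun u => ψ e u) h
    simp only [sq_apply, map_add, map_smul, smul_eq_mul, halt, hef, mul_zero, add_zero, mul_one] at h1
    linear_combination -h1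
  have h2 : (l + 1) * ψ f w = 0 := by
    have h1 := congrArg (fun u => ψ f u) h
    simp only [sq_apply, map_add, map_smul, smul_eq_mul, halt, mul_zero, zero_add] at h1
    rw [alt_neg halt f e, hef] at h1
    linear_combination -h1
  rcases mul_eq_zero.1 h1 with h3 | h3
  · exact Or.inr (Or.inl (sub_eq_zero.1 h3))
  rcases mul_eq_zero.1 h2 with h4 | h4
  · exact Or.inr (Or.inr (by linear_combination h4))
  · rw [sq_apply, h3, h4, zero_smul, zero_smul, add_zero] at h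
    exact Or.inl ((smul_eq_zero.1 h.symm).resolve_right hw)

/-- The weights of an operator on `V`. -/
private theorem SD_wt {H : Type} [AddCommGroup H] [Module ℂ H] {ψ : H →ₗ[ℂ] H →ₗ[ℂ] ℂ} {e f : H} {V : Submodule ℂ H}
    (halt : ∀ u, ψ u u = 0) (he : e ∈ V) (hf : f ∈ V) (hef : ψ e f = 1) {Θ : End ℂ H} {c : ℂ}
    (h : ∀ v ∈ V, sq ψ e f (Θ v) - Θ (sq ψ e f v) = c • Θ v) (hne : ∃ v ∈ V, Θ v ≠ 0) :
    c = 0 ∨ c = 1 ∨ c = -1 ∨ c = 2 ∨ c = -2 := by
  by_contra hcon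
  push Not at hcon
  obtain ⟨c0, c1, c2, c3, c4⟩ := hcon
  have k : ∀ (l : ℂ) (w : H), sq ψ e f w = l • w → l ≠ 0 → l ≠ 1 → l ≠ -1 → w = 0 := by
    intro l w hw h0 h1 h2
    by_contra hw0
    rcases SD_l halt hef hw hw0 with h3 | h3 | h3
    · exact h0 h3
    · exact h1 h3
    · exact h2 h3
  have he0 : Θ e = 0 := by
    have h1 := h e he
    rw [SD_te halt hef, map_neg] at h1
    refine k (c - 1) (Θ e) ?_ (fun h2 => c1 (by linear_combination h2)) (fun h2 => c3 (by linear_combination h2))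
      (fun h2 => c0 (by linear_combination h2))
    rw [sub_neg_eq_add] at h1
    rw [eq_sub_of_add_eq h1]
    module
  have hf0 : Θ f = 0 := by
    have h1 := h f hf
    rw [SD_tf halt hef] at h1
    refine k (c + 1) (Θ f) ?_ (fun h2 => c2 (by linear_combination h2)) (fun h2 => c0 (by linear_combination h2))
      (fun h2 => c4 (by linear_combination h2))
    rw [eq_add_of_sub_eq h1]
    module
  obtain ⟨v, hv, hv0⟩ := hne
  refine hv0 ?_
  have h1 : ψ e (v - ((- ψ f v) • e + ψ e v • f)) = 0 := by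
    simp only [map_sub, map_add, map_smul, smul_eq_mul, halt, hef]
    ring
  have h2 : ψ f (v - ((- ψ f v) • e + ψ e v • f)) = 0 := by
    simp only [map_sub, map_add, map_smul, smul_eq_mul, halt]
    rw [alt_neg halt f e, hef]
    ring
  have h3 := h _ (V.sub_mem hv (V.add_mem (V.smul_mem (- ψ f v) he) (V.smul_mem (ψ e v) hf)))
  rw [sq_apply ψ e f (v - ((- ψ f v) • e + ψ e v • f)), h1, h2, zero_smul, zero_smul, add_zero, map_zero, sub_zero] at h3
  have h4 := k c _ h3 c0 c1 c2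
  rw [map_sub, map_add, map_smul, map_smul, he0, hf0, smul_zero, smul_zero, add_zero, sub_zero] at h4
  exact h4

/-- The bracket with `sq a b`. -/
private theorem SD_br {H : Type} [AddCommGroup H] [Module ℂ H] {ψ : H →ₗ[ℂ] H →ₗ[ℂ] ℂ} {S : Submodule ℂ H}
    {X Y : End ℂ H} (hX : X ∈ TGR.sp ψ) (hXS : ∀ v ∈ S, X v ∈ S) {a b : H}
    (hY : ∀ w ∈ S, Y w = sq ψ a b w) {w : H} (hw : w ∈ S) :
    X (Y w) - Y (X w) = sq ψ (X a) b w + sq ψ a (X b) w := by
  rw [hY w hw, hY (X w) (hXS w hw)]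
  have h := congrArg (fun T : End ℂ H => T w) (sq_bracket hX a b)
  simpa only [LinearMap.sub_apply, Module.End.mul_apply, LinearMap.add_apply] using h

/-- `sq u v` is not zero. -/
private theorem SD_nz {H : Type} [AddCommGroup H] [Module ℂ H] {ψ : H →ₗ[ℂ] H →ₗ[ℂ] ℂ} {V' : Submodule ℂ H}
    (hV' : ∀ u ∈ V', (∀ v ∈ V', ψ u v = 0) → u = 0) {u v : H} (hu : u ∈ V')
    (hu0 : u ≠ 0) (hv0 : v ≠ 0) : ∃ w ∈ V', sq ψ u v w ≠ 0 := by
  obtain ⟨w, hw, hw0⟩ : ∃ w ∈ V', ψ u w ≠ 0 := by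
    by_contra hcon
    push Not at hcon
    exact hu0 (hV' u hu hcon)
  refine ⟨w, hw, fun h => ?_⟩
  rw [sq_apply] at h
  have h1 := congrArg (fun x => ψ x w) h
  simp only [map_add, map_smul, LinearMap.add_apply, LinearMap.smul_apply, smul_eq_mul, map_zero,
    LinearMap.zero_apply] at h1
  have h2 : (2 * ψ u w) * ψ v w = 0 := by linear_combination h1
  have h3 : ψ v w = 0 := (mul_eq_zero.1 h2).resolve_left (mul_ne_zero two_ne_zero hw0)
  rw [h3, zero_smul, add_zero] at h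
  exact hv0 ((smul_eq_zero.1 h).resolve_left hw0)

theorem sq_of_graph {H : Type} [AddCommGroup H] [Module ℂ H] {ψ : H →ₗ[ℂ] H →ₗ[ℂ] ℂ} (halt : ∀ u, ψ u u = 0)
    {V V' : Submodule ℂ H} (hV' : ∀ u ∈ V', (∀ v ∈ V', ψ u v = 0) → u = 0) {𝔞 : Submodule ℂ (End ℂ H)}
    (hlie : ∀ X ∈ 𝔞, ∀ Y ∈ 𝔞, X * Y - Y * X ∈ 𝔞) (hskew : ∀ X ∈ 𝔞, X ∈ TGR.sp ψ) (hsV : ∀ X ∈ 𝔞, ∀ v ∈ V, X v ∈ V)
    (hsV' : ∀ X ∈ 𝔞, ∀ v ∈ V', X v ∈ V') (hfull : ∀ a ∈ V, ∀ b ∈ V, ∃ Y ∈ 𝔞, ∀ w ∈ V, Y w = sq ψ a b w)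
    (hfull' : ∀ a ∈ V', ∀ b ∈ V', ∃ Y ∈ 𝔞, ∀ w ∈ V', Y w = sq ψ a b w)
    (hgr : ∀ X ∈ 𝔞, (∀ v ∈ V', X v = 0) → ∀ v ∈ V, X v = 0) (hgr' : ∀ X ∈ 𝔞, (∀ v ∈ V, X v = 0) → ∀ v ∈ V', X v = 0)
    {t : End ℂ H} (ht : t ∈ 𝔞) {e f : H} (he : e ∈ V) (hf : f ∈ V) (h1 : ψ e f = 1)
    (h2 : ∀ v ∈ V, t v = sq ψ e f v) (hdiag : V' ≤ Submodule.span ℂ {w | w ∈ V' ∧ ∃ a : ℂ, t w = a • w}) :
    ∃ e' f' : H, e' ∈ V' ∧ f' ∈ V' ∧ ψ e' f' = 1 ∧ ∀ v ∈ V', t v = sq ψ e' f' v := by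
  have te : t e = -e := by rw [h2 e he, SD_te halt h1]
  have tf : t f = f := by rw [h2 f hf, SD_tf halt h1]
  have hbr : ∀ (Y : End ℂ H) (c : ℂ), Y ∈ 𝔞 → t * Y - Y * t - c • Y ∈ 𝔞 := fun Y c hY =>
    sub_mem (hlie t ht Y hY) (Submodule.smul_mem _ c hY)
  -- (2)
  have step2 : ∀ (a b : ℂ) (u v : H), u ∈ V' → v ∈ V' → u ≠ 0 → v ≠ 0 → t u = a • u → t v = b • v →
      a + b = 0 ∨ a + b = 1 ∨ a + b = -1 ∨ a + b = 2 ∨ a + b = -2 := by
    intro a b u v hu hv hu0 hv0 hau hbv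
    obtain ⟨Y, hY, hYw⟩ := hfull' u hu v hv
    have h3 : ∀ w ∈ V', (t * Y - Y * t - (a + b) • Y) w = 0 := by
      intro w hw
      have h4 := SD_br (hskew t ht) (hsV' t ht) hYw hw
      rw [LinearMap.sub_apply, LinearMap.sub_apply, LinearMap.smul_apply, Module.End.mul_apply, Module.End.mul_apply, h4,
        hau, hbv, hYw w hw, sq_smul, sq_comm ψ (a • u) v, sq_smul, sq_comm ψ v u, LinearMap.smul_apply,
        LinearMap.smul_apply]
      module
    have h4 := hgr _ (hbr Y (a + b) hY) h3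
    refine SD_wt halt he hf h1 (Θ := Y) (fun v hv => ?_) ?_
    · have h5 := h4 v hv
      rw [LinearMap.sub_apply, LinearMap.sub_apply, LinearMap.smul_apply, Module.End.mul_apply, Module.End.mul_apply,
        h2 v hv, h2 (Y v) (hsV Y hY v hv), sub_eq_zero] at h5
      exact h5
    · by_contra hcon
      push Not at hcon
      obtain ⟨w, hw, hw0⟩ := SD_nz hV' hu hu0 hv0 (v := v)
      exact hw0 (by rw [← hYw w hw, hgr' Y hY hcon w hw])
  -- (3)
  obtain ⟨Y, hY, hYw⟩ := hfull f hf f hf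
  have hYV : ∀ w ∈ V', t (Y w) = Y (t w) + (2 : ℂ) • Y w := by
    have h3 : ∀ w ∈ V, (t * Y - Y * t - (2 : ℂ) • Y) w = 0 := by
      intro w hw
      have h4 := SD_br (hskew t ht) (hsV t ht) hYw hw
      rw [LinearMap.sub_apply, LinearMap.sub_apply, LinearMap.smul_apply, Module.End.mul_apply, Module.End.mul_apply, h4,
        tf, hYw w hw]
      module
    intro w hw
    have h5 := hgr' _ (hbr Y 2 hY) h3 w hw
    rw [LinearMap.sub_apply, LinearMap.sub_apply, LinearMap.smul_apply, Module.End.mul_apply, Module.End.mul_apply,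
      sub_eq_zero, sub_eq_iff_eq_add] at h5
    rw [h5, add_comm]
  obtain ⟨e', he'V, a, hae', hYe'⟩ : ∃ u ∈ V', ∃ a : ℂ, t u = a • u ∧ Y u ≠ 0 := by
    by_contra hcon
    push Not at hcon
    have h3 : ∀ v ∈ V', Y v = 0 := by
      intro v hv
      have h4 := hdiag hv
      refine Submodule.span_induction (p := fun v _ => Y v = 0) ?_ (map_zero Y) ?_ ?_ h4
      · rintro w ⟨hw, a, haw⟩
        exact hcon w hw a haw
      · intro x y _ _ hx hy
        rw [map_add, hx, hy, add_zero]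
      · intro c x _ hx
        rw [map_smul, hx, smul_zero]
    have h4 := hgr Y hY h3 e he
    rw [hYw e he, sq_apply, alt_neg halt f e, h1] at h4
    have h5 : (-2 : ℂ) • f = 0 := by
      rw [← h4]
      module
    have h6 : f = 0 := (smul_eq_zero.1 h5).resolve_left (by norm_num)
    rw [h6, map_zero] at h1
    exact zero_ne_one h1
  have he'0 : e' ≠ 0 := fun h => hYe' (by rw [h, map_zero])
  have hf₀V : Y e' ∈ V' := hsV' Y hY e' he'V
  have htf₀ : t (Y e') = (a + 2) • Y e' := by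
    rw [hYV e' he'V, hae', map_smul, ← add_smul]
  have ha : a = -1 := by
    have h3 := step2 a a e' e' he'V he'V he'0 he'0 hae' hae'
    have h4 := step2 (a + 2) (a + 2) (Y e') (Y e') hf₀V hf₀V hYe' hYe' htf₀ htf₀
    have h5 : (a + 2 + (a + 2)) - (a + a) = 4 := by ring
    rcases h3 with h3 | h3 | h3 | h3 | h3 <;> rcases h4 with h4 | h4 | h4 | h4 | h4 <;>
      first
        | (exfalso; rw [h3, h4] at h5; norm_num at h5; done)
        | linear_combination (1 / 2 : ℂ) * h3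
  subst ha
  have hte' : t e' = -e' := by rw [hae', neg_one_smul]
  have htf₀' : t (Y e') = Y e' := by
    rw [htf₀]
    module
  -- (4)
  have step4 : ∀ (a : ℂ) (v : H), v ∈ V' → v ≠ 0 → t v = a • v → a = 0 ∨ a = 1 ∨ a = -1 := by
    intro a v hv hv0 hav
    have h3 := step2 a a v v hv hv hv0 hv0 hav hav
    have h4 := step2 a 1 v (Y e') hv hf₀V hv0 hYe' hav (by rw [htf₀', one_smul])
    have h5 : 2 * (a + 1) - (a + a) = 2 := by ring
    rcases h3 with h3 | h3 | h3 | h3 | h3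
    · exact Or.inl (by linear_combination (1 / 2 : ℂ) * h3)
    · exfalso
      rcases h4 with h4 | h4 | h4 | h4 | h4 <;> rw [h3, h4] at h5 <;> norm_num at h5
    · exfalso
      rcases h4 with h4 | h4 | h4 | h4 | h4 <;> rw [h3, h4] at h5 <;> norm_num at h5
    · exact Or.inr (Or.inl (by linear_combination (1 / 2 : ℂ) * h3))
    · exact Or.inr (Or.inr (by linear_combination (1 / 2 : ℂ) * h3))
  -- skewness
  have hsk : ∀ (a b : ℂ) (u v : H), t u = a • u → t v = b • v → (a + b) * ψ u v = 0 := by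
    intro a b u v hau hbv
    have h3 := TGR.mem_sp.1 (hskew t ht) u v
    rw [hau, hbv, map_smul, LinearMap.smul_apply, map_smul, smul_eq_mul, smul_eq_mul] at h3
    linear_combination h3
  -- (5)
  have step5 : ∀ v ∈ V', t v = v → ∃ c : ℂ, v = c • Y e' := by
    intro v hv htv
    have hY2 : ∀ (Z : End ℂ H) (b : H), Z ∈ 𝔞 → t b = b → (∀ w ∈ V', Z w = sq ψ (Y e') b w) →
        ∃ s : ℂ, ∀ w ∈ V, Z w = s • sq ψ f f w := by
      intro Z b hZ htb hZw
      have h3 : ∀ w ∈ V', (t * Z - Z * t - (2 : ℂ) • Z) w = 0 := by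
        intro w hw
        have h4 := SD_br (hskew t ht) (hsV' t ht) hZw hw
        rw [LinearMap.sub_apply, LinearMap.sub_apply, LinearMap.smul_apply, Module.End.mul_apply, Module.End.mul_apply,
          h4, htf₀', htb, hZw w hw]
        module
      have h4 := hgr _ (hbr Z 2 hZ) h3
      refine ad_two' halt he hf h1 fun v hv => ?_
      have h5 := h4 v hv
      rw [LinearMap.sub_apply, LinearMap.sub_apply, LinearMap.smul_apply, Module.End.mul_apply, Module.End.mul_apply,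
        h2 v hv, h2 (Z v) (hsV Z hZ v hv), sub_eq_zero] at h5
      exact h5
    obtain ⟨Y₁, hY₁, hY₁w⟩ := hfull' (Y e') hf₀V (Y e') hf₀V
    obtain ⟨Y₂, hY₂, hY₂w⟩ := hfull' (Y e') hf₀V v hv
    obtain ⟨s₁, hs₁⟩ := hY2 Y₁ (Y e') hY₁ htf₀' hY₁w
    obtain ⟨s₂, hs₂⟩ := hY2 Y₂ v hY₂ htv hY₂w
    have hs₁0 : s₁ ≠ 0 := by
      rintro rfl
      obtain ⟨w, hw, hw0⟩ := SD_nz hV' hf₀V hYe' hYe' (v := Y e')
      refine hw0 ?_
      rw [← hY₁w w hw]
      exact hgr' Y₁ hY₁ (fun v hv => by rw [hs₁ v hv, zero_smul]) w hw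
    have h6 : ∀ w ∈ V', (s₁ • Y₂ - s₂ • Y₁) w = 0 := by
      refine hgr' _ (sub_mem (Submodule.smul_mem _ _ hY₂) (Submodule.smul_mem _ _ hY₁)) fun w hw => ?_
      rw [LinearMap.sub_apply, LinearMap.smul_apply, LinearMap.smul_apply, hs₁ w hw, hs₂ w hw, smul_smul, smul_smul,
        mul_comm, sub_self]
    obtain ⟨w₀, hw₀, hw₀0⟩ : ∃ w ∈ V', ψ (Y e') w ≠ 0 := by
      by_contra hcon
      push Not at hcon
      exact hYe' (hV' _ hf₀V hcon)
    have h7 := h6 w₀ hw₀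
    rw [LinearMap.sub_apply, LinearMap.smul_apply, LinearMap.smul_apply, hY₁w w₀ hw₀, hY₂w w₀ hw₀, sq_apply, sq_apply] at h7
    refine ⟨(s₁ * ψ (Y e') w₀)⁻¹ * (2 * s₂ * ψ (Y e') w₀ - s₁ * ψ v w₀), ?_⟩
    have h8 : (s₁ * ψ (Y e') w₀) • v = (2 * s₂ * ψ (Y e') w₀ - s₁ * ψ v w₀) • Y e' := by
      rw [← sub_eq_zero, ← h7]
      module
    rw [mul_smul, ← h8, smul_smul, inv_mul_cancel₀ (mul_ne_zero hs₁0 hw₀0), one_smul]
  -- (6)
  have hne : ψ e' (Y e') ≠ 0 := by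
    intro h0
    refine he'0 (hV' e' he'V fun w hw => ?_)
    have h3 := hdiag hw
    refine Submodule.span_induction (p := fun w _ => ψ e' w = 0) ?_ (map_zero _) ?_ ?_ h3
    · rintro v ⟨hv, b, hbv⟩
      by_cases hb : b = 1
      · subst hb
        obtain ⟨c, hc⟩ := step5 v hv (by rw [hbv, one_smul])
        rw [hc, map_smul, h0, smul_zero]
      · have h4 := hsk (-1) b e' v hae' hbv
        exact (mul_eq_zero.1 h4).resolve_left fun h5 => hb (by linear_combination h5)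
    · intro x y _ _ hx hy
      rw [map_add, hx, hy, add_zero]
    · intro c x _ hx
      rw [map_smul, hx, smul_zero]
  have hf'V : (ψ e' (Y e'))⁻¹ • Y e' ∈ V' := V'.smul_mem _ hf₀V
  have hef' : ψ e' ((ψ e' (Y e'))⁻¹ • Y e') = 1 := by rw [map_smul, smul_eq_mul, inv_mul_cancel₀ hne]
  have htf' : t ((ψ e' (Y e'))⁻¹ • Y e') = (ψ e' (Y e'))⁻¹ • Y e' := by rw [map_smul, htf₀']
  obtain ⟨f', hf'⟩ : ∃ f', f' = (ψ e' (Y e'))⁻¹ • Y e' := ⟨_, rfl⟩
  rw [← hf'] at hf'V hef' htf'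
  have step5' : ∀ v ∈ V', t v = v → ∃ c : ℂ, v = c • f' := by
    intro v hv htv
    obtain ⟨c, hc⟩ := step5 v hv htv
    refine ⟨c * ψ e' (Y e'), ?_⟩
    rw [hf', smul_smul, mul_assoc, mul_inv_cancel₀ hne, mul_one]
    exact hc
  refine ⟨e', f', he'V, hf'V, hef', fun v hv => ?_⟩
  have h3 := hdiag hv
  refine Submodule.span_induction (p := fun v _ => t v = sq ψ e' f' v) ?_ (by rw [map_zero, map_zero]) ?_ ?_ h3
  · rintro v ⟨hv, b, hbv⟩
    by_cases hv0 : v = 0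
    · rw [hv0, map_zero, map_zero]
    rcases step4 b v hv hv0 hbv with rfl | rfl | rfl
    · have h4 : ψ e' v = 0 := (mul_eq_zero.1 (hsk (-1) 0 e' v hae' hbv)).resolve_left (by norm_num)
      have h5 : ψ f' v = 0 := (mul_eq_zero.1 (hsk 1 0 f' v (by rw [htf', one_smul]) hbv)).resolve_left (by norm_num)
      rw [hbv, sq_apply, h4, h5, zero_smul, zero_smul, zero_smul, add_zero]
    · obtain ⟨c, hc⟩ := step5' v hv (by rw [hbv, one_smul])
      rw [hc, map_smul, map_smul, htf', SD_tf halt hef']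
    · have h4 : v - ψ v f' • e' = 0 := by
        refine hV' _ (V'.sub_mem hv (V'.smul_mem _ he'V)) fun w hw => ?_
        have h5 := hdiag hw
        refine Submodule.span_induction (p := fun w _ => ψ (v - ψ v f' • e') w = 0) ?_ (map_zero _) ?_ ?_ h5
        · rintro x ⟨hx, b, hbx⟩
          have htv' : t (v - ψ v f' • e') = (-1 : ℂ) • (v - ψ v f' • e') := by
            rw [map_sub, map_smul, hbv, hae']
            module
          by_cases hb : b = 1
          · subst hb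
            obtain ⟨c, hc⟩ := step5' x hx (by rw [hbx, one_smul])
            rw [hc, map_smul, map_sub, map_smul, LinearMap.sub_apply, LinearMap.smul_apply, hef', smul_eq_mul, smul_eq_mul,
              mul_one, sub_self, mul_zero]
          · have h6 := hsk (-1) b _ x htv' hbx
            exact (mul_eq_zero.1 h6).resolve_left fun h7 => hb (by linear_combination h7)
        · intro x y _ _ hx hy
          rw [map_add, hx, hy, add_zero]
        · intro c x _ hx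
          rw [map_smul, hx, smul_zero]
      have h5 : v = ψ v f' • e' := sub_eq_zero.1 h4
      rw [h5, map_smul, map_smul, hte', SD_te halt hef']
  · intro x y _ _ hx hy
    rw [map_add, map_add, hx, hy]
  · intro c x _ hx
    rw [map_smul, map_smul, hx]

end TPM
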