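import Pool.Agent.Lib.MP_021685_agTM.M0

/-! LEAF SE (medium-).  The symplectic Lie algebra is spanned by the `sq ψ a b`.

PROOF of `skew_span`.  Let `b k` be a basis of `V` (`Module.finBasis ℂ V`), and `b' k ∈ V` the dual basis for `ψ`: `ψ (b k) (b' l) = if k = l then 1 else 0` (the map `V → Dual V`, `v ↦ (u ↦ ψ u v)`, is injective by `hV` and `alt_neg`, so
bijective (`LinearMap.injective_iff_surjective_of_finrank_eq_finrank`, `Subspace.dual_finrank_eq`), and `b' l` is the preimage of the dual basis; or `LinearMap.BilinForm.dualBasis`).  For `w ∈ V`: `w = ∑ k, ψ (b k) w • b' k` (both sides have the same `ψ (b l) _`, and the `b l`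
span `V`), and `w = - ∑ k, ψ (b' k) w • b k` (for `w = b l`: `ψ (b' k) (b l) = - δ`; linear).  Let `B = (1 / 2) • ∑ k, sq ψ (b k) (A (b' k))`.  For `w ∈ V`: `∑ k, ψ (b k) w • A (b' k) = A w`, and
`∑ k, ψ (A (b' k)) w • b k = - ∑ k, ψ (b' k) (A w) • b k = A w` (`hsk`, `A w ∈ V`).  So `B w = A w`. -/


set_option autoImplicit false

namespace TPM

open Module TPR

theorem skew_span {H : Type} [AddCommGroup H] [Module ℂ H] [FiniteDimensional ℂ H] {ψ : H →ₗ[ℂ] H →ₗ[ℂ] ℂ}
    (halt : ∀ u, ψ u u = 0) {V : Submodule ℂ H} (hV : ∀ u ∈ V, (∀ v ∈ V, ψ u v = 0) → u = 0) {A : End ℂ H}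
    (hAV : ∀ v ∈ V, A v ∈ V) (hsk : ∀ u ∈ V, ∀ v ∈ V, ψ (A u) v + ψ u (A v) = 0) :
    ∃ B ∈ Submodule.span ℂ {Y : End ℂ H | ∃ a ∈ V, ∃ b ∈ V, Y = sq ψ a b}, ∀ w ∈ V, B w = A w := by
  classical
  let φ : V →ₗ[ℂ] Module.Dual ℂ V := (ψ.domRestrict₁₂ V V).flip
  have hφ : ∀ (v u : V), φ v u = ψ (u : H) (v : H) := fun v u => rfl
  have hinj : Function.Injective φ := by
    rw [injective_iff_map_eq_zero]
    intro v hv
    apply Subtype.ext
    refine hV v v.2 fun u hu => ?_
    rw [alt_neg halt]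
    have h := hφ v ⟨u, hu⟩
    rw [hv] at h
    have h' : ψ u (v : H) = 0 := h.symm
    rw [h', neg_zero]
  have hsurj : Function.Surjective φ :=
    (LinearMap.injective_iff_surjective_of_finrank_eq_finrank (Subspace.dual_finrank_eq (K := ℂ) (V := V)).symm).1 hinj
  set b := Module.finBasis ℂ V with hb
  choose b' hb' using fun k => hsurj (b.coord k)
  have h1 : ∀ (w : V) k, ψ (w : H) (b' k : H) = b.repr w k := by
    intro w k
    rw [← hφ, hb', Basis.coord_apply]
  have h2 : ∀ w : V, ∑ k, ψ (b' k : H) (w : H) • (b k : H) = - (w : H) := by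
    intro w
    have h := congrArg (fun x : V => (x : H)) (b.sum_repr w)
    simp only [Submodule.coe_sum, Submodule.coe_smul] at h
    rw [← h, ← Finset.sum_neg_distrib]
    refine Finset.sum_congr rfl fun k _ => ?_
    rw [alt_neg halt, h, h1, neg_smul]
  have h3 : ∀ w : V, ∑ k, ψ (b k : H) (w : H) • (b' k : H) = (w : H) := by
    intro w
    have hmem : ∑ k, ψ (b k : H) (w : H) • (b' k : H) ∈ V :=
      V.sum_mem fun k _ => V.smul_mem _ (b' k).2
    rw [← sub_eq_zero]
    refine hV _ (V.sub_mem hmem w.2) fun u hu => ?_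
    rw [alt_neg halt, map_sub, map_sum]
    have h := congrArg (fun x : V => (x : H)) (b.sum_repr ⟨u, hu⟩)
    simp only [Submodule.coe_sum, Submodule.coe_smul] at h
    have h4 : ψ u (w : H) = ∑ k, b.repr ⟨u, hu⟩ k * ψ (b k : H) (w : H) := by
      conv_lhs => rw [← h]
      rw [map_sum, LinearMap.sum_apply]
      refine Finset.sum_congr rfl fun k _ => ?_
      rw [map_smul, LinearMap.smul_apply, smul_eq_mul]
    have h5 : ∑ k, ψ u (ψ (b k : H) (w : H) • (b' k : H)) = ψ u (w : H) := by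
      rw [h4]
      refine Finset.sum_congr rfl fun k _ => ?_
      rw [map_smul, smul_eq_mul, mul_comm]
      have h6 := h1 ⟨u, hu⟩ k
      simp only at h6
      rw [h6]
    rw [h5, sub_self, neg_zero]
  refine ⟨(1 / 2 : ℂ) • ∑ k, sq ψ (b k : H) (A (b' k : H)), Submodule.smul_mem _ _ (Submodule.sum_mem _ fun k _ =>
    Submodule.subset_span ⟨_, (b k).2, _, hAV _ (b' k).2, rfl⟩), fun w hw => ?_⟩
  have h4 : ∑ k, ψ (b k : H) w • A (b' k : H) = A w := by
    have h := congrArg A (h3 ⟨w, hw⟩)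
    rw [map_sum] at h
    simpa only [map_smul] using h
  have h5 : ∑ k, ψ (A (b' k : H)) w • (b k : H) = A w := by
    have h := h2 ⟨A w, hAV w hw⟩
    have h6 : ∀ k, ψ (A (b' k : H)) w = - ψ (b' k : H) (A w) := fun k =>
      eq_neg_of_add_eq_zero_left (hsk _ (b' k).2 w hw)
    simp only [h6, neg_smul, Finset.sum_neg_distrib]
    simp only at h
    rw [h, neg_neg]
  rw [LinearMap.smul_apply, LinearMap.sum_apply]
  simp only [sq_apply, Finset.sum_add_distrib]
  rw [h4, h5, ← two_smul ℂ (A w), smul_smul]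
  norm_num

end TPM
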