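import Pool.Agent.Lib.MP_021685_agTM.RA
import Pool.Agent.Lib.MP_021685_agTM.QS
import Pool.Agent.Lib.MP_021685_agTM.QC2

/-! LEAF SG (medium).  The partner of a piece of dimension one.  (Compare `partner2` in leaf QU, `QU.lean`, proved: parts can be copied.)

PROOF.  Let `J x`.  (1) There is `y` with `ψ u₀ v₀ ≠ 0` for some `u₀ ∈ U x`, `v₀ ∈ U y` (otherwise `ψ u v = ∑ y, ψ u (pr y v) = 0` for `u ∈ U x`, `u ≠ 0` (`hD.ne`), all `v`: contradiction to `hnd`).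
(2) For every such `y`: `finrank (U y) ≤ finrank (U x) ≤ 1`: `fin_le` (leaf QS) for `A = U x`, `B = U y`: the space `{v ∈ U y | ∀ u ∈ U x, ψ u v = 0}` is stable, not `U y`, so `⊥` (`hD.simple`).  So `J y`: otherwise let `β` be the form of `hβ y`; take `w ∈ U y`, `w ≠ 0`; every `u`, `v ∈ U y` are
multiples of `w` and `β w w = 0`, so `β` is zero on `U y`: contradiction to non-degeneracy.
(3) Take `i` with `U x ⊓ F.maxGenEigenspace (lam i) ≠ ⊥` (`hline x`).  As `finrank (U x) ≤ 1`, `U x ≤ F.maxGenEigenspace (lam i)`.  For every `y` as in (1), by (2) `J y`, and there is `l` with `U y ⊓ F.maxGenEigenspace (lam l) ≠ ⊥`, so `U y ≤ F.maxGenEigenspace (lam l)`.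
`F.maxGenEigenspace z ≤ (F ^ d).maxGenEigenspace (z ^ d)` (`F ^ d - z ^ d = G * (F - z)` with `G` commuting: private `PE_fac` in `MP_021685_agTP/PE.lean`: copy it).  So `u₀ ∈ (F ^ d).maxGenEigenspace (lam i ^ d)`, `v₀ ∈ (F ^ d).maxGenEigenspace (lam l ^ d)`, `ψ u₀ v₀ ≠ 0`, and by `form_zero`
(leaf QC2, for `f = F ^ d`, `S = S' = ⊤`, `q = Q ^ d`, `hF`): `lam i ^ d * lam l ^ d = Q ^ d = lam i ^ d * lam (bar i) ^ d` (`hR.mulbar`), so `lam l ^ d = lam (bar i) ^ d` (`lam i ≠ 0`), and `l = bar i` by `hR.pow_ne hQ hd` (`RA.lean`).  So for two such `y`, `y'`: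
`U y ⊓ F.maxGenEigenspace (lam (bar i)) ≠ ⊥` and the same for `y'`, and `y = y'` by `hdist`. -/

set_option autoImplicit false

namespace TPM

open Module TPR

private theorem SG_dimU {G H X : Type} [Group G] [AddCommGroup H] [Module ℂ H] [FiniteDimensional ℂ H]
    [Fintype X] {ρ : Representation ℂ G H} {μ : G →* ℂˣ} {U : X → Submodule ℂ H} {pr : X → End ℂ H}
    (hD : Dec ρ U pr) {ψ : H →ₗ[ℂ] H →ₗ[ℂ] ℂ} (hψ : ∀ g u v, ψ (ρ g u) (ρ g v) = μ g * ψ u v) {x y : X}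
    {u₀ v₀ : H} (hu₀ : u₀ ∈ U x) (hv₀ : v₀ ∈ U y) (h₀ : ψ u₀ v₀ ≠ 0) :
    finrank ℂ (U y) ≤ finrank ℂ (U x) := by
  refine fin_le (β := ψ) fun v hv h => ?_
  let S : Submodule ℂ H :=
    { carrier := {v | v ∈ U y ∧ ∀ u ∈ U x, ψ u v = 0}
      add_mem' := by
        rintro a b ⟨ha, ha'⟩ ⟨hb, hb'⟩
        refine ⟨(U y).add_mem ha hb, fun u hu => ?_⟩
        rw [map_add, ha' u hu, hb' u hu, add_zero]
      zero_mem' := ⟨(U y).zero_mem, fun u _ => by rw [map_zero]⟩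
      smul_mem' := by
        rintro c a ⟨ha, ha'⟩
        refine ⟨(U y).smul_mem c ha, fun u hu => ?_⟩
        rw [map_smul, ha' u hu, smul_zero] }
  have hSle : S ≤ U y := fun u hu => hu.1
  have hSst : Stab ρ ⊤ S := by
    intro g hg v hv
    refine ⟨hD.stab y g hg v hv.1, fun u hu => ?_⟩
    have h1 : ρ g (ρ g⁻¹ u) = u := by
      rw [← Module.End.mul_apply, ← map_mul, mul_inv_cancel, map_one, Module.End.one_apply]
    rw [← h1, hψ, hv.2 _ (hD.stab x g⁻¹ (Subgroup.mem_top _) u hu), mul_zero]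
  rcases hD.simple y S hSle hSst with hS | hS
  · have h2 : v ∈ S := ⟨hv, h⟩
    rw [hS] at h2
    exact (Submodule.mem_bot ℂ).1 h2
  · exfalso
    have h2 : v₀ ∈ S := by
      rw [hS]
      exact hv₀
    exact h₀ (h2.2 u₀ hu₀)

private theorem SG_line {H : Type} [AddCommGroup H] [Module ℂ H] [FiniteDimensional ℂ H] {A : Submodule ℂ H}
    (hA : finrank ℂ A ≤ 1) {v v' : H} (hv : v ∈ A) (hv' : v' ∈ A) (h0 : v' ≠ 0) : ∃ c : ℂ, v = c • v' := by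
  obtain ⟨e, he⟩ := finrank_le_one_iff.1 hA
  obtain ⟨c₁, hc₁⟩ := he ⟨v, hv⟩
  obtain ⟨c₂, hc₂⟩ := he ⟨v', hv'⟩
  have hc₁' : c₁ • (e : H) = v := congrArg Subtype.val hc₁
  have hc₂' : c₂ • (e : H) = v' := congrArg Subtype.val hc₂
  have h9 : c₂ ≠ 0 := by
    rintro rfl
    rw [zero_smul] at hc₂'
    exact h0 hc₂'.symm
  refine ⟨c₁ / c₂, ?_⟩
  rw [← hc₁', ← hc₂', smul_smul, div_mul_cancel₀ _ h9]

private theorem SG_fac {H : Type} [AddCommGroup H] [Module ℂ H] (F : End ℂ H) (y : ℂ) (d : ℕ) :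
    ∃ G : End ℂ H, F ^ d - (y ^ d) • (1 : End ℂ H) = G * (F - y • (1 : End ℂ H)) ∧
      Commute (F - y • (1 : End ℂ H)) G := by
  have hc : Commute F (y • (1 : End ℂ H)) := (Commute.one_right F).smul_right y
  have h1 := hc.geom_sum₂_mul d
  have h2 := hc.mul_geom_sum₂ d
  have h3 : (y • (1 : End ℂ H)) ^ d = (y ^ d) • (1 : End ℂ H) := by
    rw [_root_.smul_pow, one_pow]
  refine ⟨∑ i ∈ Finset.range d, F ^ i * (y • (1 : End ℂ H)) ^ (d - 1 - i), ?_, ?_⟩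
  · rw [h1, h3]
  · exact h2.trans h1.symm

private theorem SG_pow {H : Type} [AddCommGroup H] [Module ℂ H] (F : End ℂ H) (y : ℂ) (d : ℕ) {u : H}
    (hu : u ∈ F.maxGenEigenspace y) : u ∈ (F ^ d).maxGenEigenspace (y ^ d) := by
  obtain ⟨n, hn⟩ := (Module.End.mem_maxGenEigenspace F y u).1 hu
  obtain ⟨G, hG, hc⟩ := SG_fac F y d
  refine (Module.End.mem_maxGenEigenspace _ _ u).2 ⟨n, ?_⟩
  rw [hG, hc.symm.mul_pow, Module.End.mul_apply, hn, map_zero]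

private theorem SG_le {H : Type} [AddCommGroup H] [Module ℂ H] [FiniteDimensional ℂ H] {A B : Submodule ℂ H}
    (hA : finrank ℂ A ≤ 1) (h : A ⊓ B ≠ ⊥) : A ≤ B := by
  obtain ⟨w, hw, hw0⟩ := Submodule.exists_mem_ne_zero_of_ne_bot h
  intro v hv
  obtain ⟨c, hc⟩ := SG_line hA hv hw.1 hw0
  rw [hc]
  exact B.smul_mem c hw.2

theorem partner3 {G H X ι : Type} [Group G] [AddCommGroup H] [Module ℂ H] [FiniteDimensional ℂ H] [Fintype X]
    [Fintype ι] {ρ : Representation ℂ G H} {μ : G →* ℂˣ} {U : X → Submodule ℂ H} {pr : X → End ℂ H} (hD : Dec ρ U pr)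
    {ψ : H →ₗ[ℂ] H →ₗ[ℂ] ℂ} (hnd : ∀ u, (∀ v, ψ u v = 0) → u = 0)
    (hψ : ∀ g u v, ψ (ρ g u) (ρ g v) = μ g * ψ u v) {J : X → Prop}
    (hL : ∀ x, finrank ℂ (U x) ≤ 1 → J x)
    {Q : ℕ} (hQ : 1 < Q) {lam : ι → ℂ} {bar : ι → ι} {S : ℂ → Prop} (hR : RelSys Q lam bar S) {F : End ℂ H} {d : ℕ}
    (hd : 0 < d) (hF : ∀ u v, ψ ((F ^ d) u) ((F ^ d) v) = (Q : ℂ) ^ d * ψ u v)
    (hline : ∀ x, J x → finrank ℂ (U x) ≤ 1 ∧ ∃ i, U x ⊓ F.maxGenEigenspace (lam i) ≠ ⊥)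
    (hdist : ∀ x y i, J x → J y → U x ⊓ F.maxGenEigenspace (lam i) ≠ ⊥ → U y ⊓ F.maxGenEigenspace (lam i) ≠ ⊥ → x = y)
    (x : X) (hx : J x) : ∃ y, J y ∧ ∀ y', y' ≠ y → ∀ u ∈ U x, ∀ v ∈ U y', ψ u v = 0 := by
  classical
  have hex : ∃ y, ∃ u ∈ U x, ∃ v ∈ U y, ψ u v ≠ 0 := by
    by_contra hcon
    push Not at hcon
    obtain ⟨u, hu, hu0⟩ := Submodule.exists_mem_ne_zero_of_ne_bot (hD.ne x)
    refine hu0 (hnd u fun v => ?_)
    rw [← hD.sum v, map_sum]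
    exact Finset.sum_eq_zero fun y _ => hcon y u hu _ (hD.mem y v)
  have hq0 : (Q : ℂ) ≠ 0 := by
    have : Q ≠ 0 := by omega
    exact_mod_cast this
  have hlam0 : ∀ i, lam i ≠ 0 := by
    intro i h
    have h1 := hR.mulbar i
    rw [h, zero_mul] at h1
    exact hq0 h1.symm
  obtain ⟨hUx, i, hxi⟩ := hline x hx
  have hUy : ∀ y, (∃ u ∈ U x, ∃ v ∈ U y, ψ u v ≠ 0) → finrank ℂ (U y) ≤ 1 := by
    rintro y ⟨u, hu, v, hv, hne⟩
    exact (SG_dimU hD hψ hu hv hne).trans hUx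
  have hJ : ∀ y, (∃ u ∈ U x, ∃ v ∈ U y, ψ u v ≠ 0) → J y := fun y hy => hL y (hUy y hy)
  have hmeet : ∀ y, (∃ u ∈ U x, ∃ v ∈ U y, ψ u v ≠ 0) → U y ⊓ F.maxGenEigenspace (lam (bar i)) ≠ ⊥ := by
    intro y hy
    obtain ⟨-, l, hl⟩ := hline y (hJ y hy)
    have hyd := hUy y hy
    obtain ⟨u, hu, v, hv, hne⟩ := hy
    have hu' := SG_pow F (lam i) d (SG_le hUx hxi hu)
    have hv' := SG_pow F (lam l) d (SG_le hyd hl hv)
    have hprod : lam i ^ d * lam l ^ d = (Q : ℂ) ^ d := by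
      by_contra hne2
      exact hne (form_zero (f := F ^ d) (β := ψ) (S := ⊤) (S' := ⊤) (fun _ _ => Submodule.mem_top)
        (fun _ _ => Submodule.mem_top) (q := (Q : ℂ) ^ d) (fun u _ v _ => hF u v) hne2
        Submodule.mem_top Submodule.mem_top hu' hv')
    have h2 : lam l ^ d = lam (bar i) ^ d := by
      refine mul_left_cancel₀ (pow_ne_zero d (hlam0 i)) ?_
      rw [hprod, ← mul_pow, hR.mulbar i]
    have h3 : l = bar i := by
      by_contra hlb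
      exact (hR.pow_ne hQ hd (bar i)).1 l hlb h2
    rw [← h3]
    exact hl
  obtain ⟨y, hy⟩ := hex
  refine ⟨y, hJ y hy, fun y' hy' u hu v hv => ?_⟩
  by_contra h0
  have hy2 : ∃ u ∈ U x, ∃ v ∈ U y', ψ u v ≠ 0 := ⟨u, hu, v, hv, h0⟩
  exact hy' (hdist y' y (bar i) (hJ y' hy2) (hJ y hy) (hmeet y' hy2) (hmeet y hy))

end TPM
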