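import Pool.Agent.Lib.MP_021685_agTM.SE

/-! LEAF SH (medium-).  The skew endomorphisms of `U z + U (bar z)` are spanned by the `sq ψ a b`.

PROOF.  Case `bar z = z`: `skew_span` (leaf SE) for `V = U z`, `A = D` (`hV`: if `u ∈ U z` and `ψ u v = 0` for all `v ∈ U z` then `ψ u v = ψ u (pr z v) = 0` for all `v` by `hC.dec.sum`, `hC.orth`, and `u = 0` by `hC.nd`; `hsk`: `TGR.mem_sp`).  The last statement: for
`y ≠ z`, `w ∈ U y`: all the `sq ψ a b` with `a`, `b ∈ U z` are zero at `w` (`TPR.sq_apply`, `hC.orth`), so all elements of the span are (`Submodule.span_induction`).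
Case `bar z ≠ z`.  Let `b k` be a basis of `U z` (`Module.finBasis`) and `b' k ∈ U (bar z)` the dual basis: `ψ (b k) (b' l) = if k = l then 1 else 0` (the map `U (bar z) → Dual (U z)`, `v ↦ (u ↦ ψ u v)`, is injective: if `ψ u v = 0` for all `u ∈ U z` then `ψ v u = 0` for all `u` (`hC.orth (bar z)`, `hC.bar_bar`,
`alt_neg`) so `v = 0`; and `finrank (U (bar z)) = finrank (U z)` by `fin_bar` twice (leaf QS: if you want to import it), or both maps `U (bar z) → Dual (U z)`, `U z → Dual (U (bar z))` are injective; so it is bijective).  Then `w = ∑ k, ψ (b k) w • b' k` for `w ∈ U (bar z)` and `w = - ∑ k, ψ (b' k) w • b k` for `w ∈ U z`.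
Let `B = ∑ k, sq ψ (b k) (D (b' k))`.  `w ∈ U (bar z)`: `∑ k, ψ (b k) w • D (b' k) = D w`, and `ψ (D (b' k)) w = 0` (`D (b' k)`, `w ∈ U (bar z)`, `hC.orth`, `bar (bar z) = z ≠ bar z`).  `w ∈ U z`: `ψ (b k) w = 0`, and
`∑ k, ψ (D (b' k)) w • b k = - ∑ k, ψ (b' k) (D w) • b k = D w` (`hDs`).  `w ∈ U y`, `y ≠ z`, `bar z`: zero by `hC.orth`. -/

set_option autoImplicit false

namespace TPM

open Module TPR

private theorem SH_nd {G H X : Type} [Group G] [AddCommGroup H] [Module ℂ H] [Fintype X]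
    {ρ : Representation ℂ G H} {μ : G →* ℂˣ} {U : X → Submodule ℂ H} {pr : X → End ℂ H} {bar : X → X}
    {ψ : H →ₗ[ℂ] H →ₗ[ℂ] ℂ} (hC : Cx ρ μ U pr bar ψ) (z : X) {u : H} (hu : u ∈ U z)
    (h : ∀ v ∈ U (bar z), ψ u v = 0) : u = 0 := by
  classical
  refine hC.nd u fun w => ?_
  rw [← hC.dec.sum w, map_sum]
  refine Finset.sum_eq_zero fun y _ => ?_
  by_cases hy : y = bar z
  · rw [hy]
    exact h _ (hC.dec.mem (bar z) w)
  · exact hC.orth z y hy u hu _ (hC.dec.mem y w)

private theorem SH_inj {H : Type} [AddCommGroup H] [Module ℂ H] [FiniteDimensional ℂ H]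
    {ψ : H →ₗ[ℂ] H →ₗ[ℂ] ℂ} (halt : ∀ u, ψ u u = 0) {V V' : Submodule ℂ H}
    (h : ∀ v ∈ V', (∀ u ∈ V, ψ v u = 0) → v = 0) :
    Function.Injective ((ψ.domRestrict₁₂ V V').flip : V' →ₗ[ℂ] Module.Dual ℂ V) := by
  rw [injective_iff_map_eq_zero]
  intro v hv
  apply Subtype.ext
  refine h v v.2 fun u hu => ?_
  rw [alt_neg halt]
  have h1 : (ψ.domRestrict₁₂ V V').flip v ⟨u, hu⟩ = ψ u (v : H) := rfl
  rw [hv] at h1
  have h2 : ψ u (v : H) = 0 := h1.symm
  rw [h2, neg_zero]

theorem skew_pair {G H X : Type} [Group G] [AddCommGroup H] [Module ℂ H] [FiniteDimensional ℂ H] [Fintype X]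
    {ρ : Representation ℂ G H} {μ : G →* ℂˣ} {U : X → Submodule ℂ H} {pr : X → End ℂ H} {bar : X → X}
    {ψ : H →ₗ[ℂ] H →ₗ[ℂ] ℂ} (hC : Cx ρ μ U pr bar ψ) {D : End ℂ H} (hDU : ∀ z, ∀ v ∈ U z, D v ∈ U z)
    (hDs : D ∈ TGR.sp ψ) (z : X) :
    ∃ B ∈ Submodule.span ℂ {Y : End ℂ H | ∃ a ∈ U z, ∃ b ∈ U (bar z), Y = sq ψ a b},
      (∀ w ∈ U z, B w = D w) ∧ (∀ w ∈ U (bar z), B w = D w) ∧ ∀ y, y ≠ z → y ≠ bar z → ∀ w ∈ U y, B w = 0 := by
  classical
  by_cases hz : bar z = z
  · have hV : ∀ u ∈ U z, (∀ v ∈ U z, ψ u v = 0) → u = 0 := fun u hu h => SH_nd hC z hu (by rwa [hz])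
    obtain ⟨B, hB, hB1⟩ := skew_span hC.alt hV (hDU z) fun u _ v _ => TGR.mem_sp.1 hDs u v
    rw [hz]
    refine ⟨B, hB, hB1, hB1, fun y hy _ w hw => ?_⟩
    clear hB1
    induction hB using Submodule.span_induction with
    | mem Y hY =>
      obtain ⟨a, ha, b, hb, rfl⟩ := hY
      have h1 : y ≠ bar z := by
        rw [hz]
        exact hy
      rw [sq_apply, hC.orth z y h1 a ha w hw, hC.orth z y h1 b hb w hw, zero_smul, zero_smul, add_zero]
    | zero => rfl
    | add Y Z _ _ hY hZ => rw [LinearMap.add_apply, hY, hZ, add_zero]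
    | smul c Y _ hY => rw [LinearMap.smul_apply, hY, smul_zero]
  · have hnd1 : ∀ u ∈ U z, (∀ v ∈ U (bar z), ψ u v = 0) → u = 0 := fun u hu h => SH_nd hC z hu h
    have hnd2 : ∀ v ∈ U (bar z), (∀ u ∈ U z, ψ v u = 0) → v = 0 := fun v hv h => SH_nd hC (bar z) hv (by
      rw [hC.bar_bar]
      exact h)
    have hinj := SH_inj hC.alt (V := U z) (V' := U (bar z)) hnd2
    have hinj' := SH_inj hC.alt (V := U (bar z)) (V' := U z) hnd1
    have hfin : finrank ℂ (U (bar z)) = finrank ℂ (Module.Dual ℂ (U z)) := by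
      have e1 := LinearMap.finrank_le_finrank_of_injective hinj
      have e2 := LinearMap.finrank_le_finrank_of_injective hinj'
      rw [Subspace.dual_finrank_eq] at e1 e2 ⊢
      exact le_antisymm e1 e2
    have hsurj := (LinearMap.injective_iff_surjective_of_finrank_eq_finrank hfin).1 hinj
    set b := Module.finBasis ℂ (U z) with hb
    choose b' hb' using fun k => hsurj (b.coord k)
    have h1 : ∀ (w : U z) k, ψ (w : H) (b' k : H) = b.repr w k := by
      intro w k
      have h : (ψ.domRestrict₁₂ (U z) (U (bar z))).flip (b' k) w = ψ (w : H) (b' k : H) := rfl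
      rw [← h, hb', Basis.coord_apply]
    have h2 : ∀ w : U z, ∑ k, ψ (b' k : H) (w : H) • (b k : H) = - (w : H) := by
      intro w
      have h := congrArg (fun x : U z => (x : H)) (b.sum_repr w)
      simp only [Submodule.coe_sum, Submodule.coe_smul] at h
      rw [← h, ← Finset.sum_neg_distrib]
      refine Finset.sum_congr rfl fun k _ => ?_
      rw [alt_neg hC.alt, h, h1, neg_smul]
    have h3 : ∀ w : U (bar z), ∑ k, ψ (b k : H) (w : H) • (b' k : H) = (w : H) := by
      intro w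
      have hmem : ∑ k, ψ (b k : H) (w : H) • (b' k : H) ∈ U (bar z) :=
        Submodule.sum_mem _ fun k _ => Submodule.smul_mem _ _ (b' k).2
      rw [← sub_eq_zero]
      refine hnd2 _ (Submodule.sub_mem _ hmem w.2) fun u hu => ?_
      rw [alt_neg hC.alt, map_sub, map_sum]
      have h := congrArg (fun x : U z => (x : H)) (b.sum_repr ⟨u, hu⟩)
      simp only [Submodule.coe_sum, Submodule.coe_smul] at h
      have h4 : ψ u (w : H) = ∑ k, b.repr ⟨u, hu⟩ k * ψ (b k : H) (w : H) := by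
        conv_lhs => rw [← h]
        rw [map_sum, LinearMap.sum_apply]
        refine Finset.sum_congr rfl fun k _ => ?_
        rw [map_smul, LinearMap.smul_apply, smul_eq_mul]
      have h5 : ∑ k, ψ u (ψ (b k : H) (w : H) • (b' k : H)) = ψ u (w : H) := by
        rw [h4]
        refine Finset.sum_congr rfl fun k _ => ?_
        rw [map_smul, smul_eq_mul, mul_comm]
        have h6 := h1 ⟨u, hu⟩ k
        simp only at h6
        rw [h6]
      rw [h5, sub_self, neg_zero]
    have ho1 : z ≠ bar z := Ne.symm hz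
    have ho2 : bar z ≠ bar (bar z) := by
      rw [hC.bar_bar]
      exact hz
    refine ⟨∑ k, sq ψ (b k : H) (D (b' k : H)), Submodule.sum_mem _ fun k _ =>
      Submodule.subset_span ⟨_, (b k).2, _, hDU _ _ (b' k).2, rfl⟩, fun w hw => ?_, fun w hw => ?_,
      fun y hy hy' w hw => ?_⟩
    · rw [LinearMap.sum_apply]
      have h := h2 ⟨D w, hDU z w hw⟩
      simp only at h
      have h6 : ∀ k, sq ψ (b k : H) (D (b' k : H)) w = -(ψ (b' k : H) (D w) • (b k : H)) := by
        intro k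
        have h7 := TGR.mem_sp.1 hDs (b' k : H) w
        rw [sq_apply, hC.orth z z ho1 _ (b k).2 w hw, zero_smul, zero_add, eq_neg_of_add_eq_zero_left h7, neg_smul]
      rw [Finset.sum_congr rfl fun k _ => h6 k, Finset.sum_neg_distrib, h, neg_neg]
    · rw [LinearMap.sum_apply]
      have h6 : ∀ k, sq ψ (b k : H) (D (b' k : H)) w = ψ (b k : H) w • D (b' k : H) := by
        intro k
        rw [sq_apply, hC.orth (bar z) (bar z) ho2 _ (hDU _ _ (b' k).2) w hw, zero_smul, add_zero]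
      have h := congrArg D (h3 ⟨w, hw⟩)
      rw [map_sum] at h
      rw [Finset.sum_congr rfl fun k _ => h6 k]
      simpa only [map_smul] using h
    · rw [LinearMap.sum_apply]
      refine Finset.sum_eq_zero fun k _ => ?_
      have h7 : y ≠ bar (bar z) := by
        rw [hC.bar_bar]
        exact hy
      rw [sq_apply, hC.orth z y hy' _ (b k).2 w hw, hC.orth (bar z) y h7 _ (hDU _ _ (b' k).2) w hw, zero_smul,
        zero_smul, add_zero]

end TPM
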