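import Pool.Agent.Lib.MP_021685_agTM.SH
import Pool.Agent.Lib.MP_021685_agTM.QV

/-! LEAF SI (medium-).  The pieces of dimension one.  (Generalisation of leaf SF: it replaces it.)

PROOF.  (Compare `line_kill` in leaf QV, `QV.lean`.)  `U x` is the line of `e₀`; `v : H` with `ψ e₀ v ≠ 0` (`hC.nd`), `f₀ = pr (bar x) v ∈ U (bar x)`, `ψ e₀ f₀ = ψ e₀ v ≠ 0` (`hC.orth`, `hC.dec.sum`), `f = (ψ e₀ f₀)⁻¹ • f₀`, `e = e₀`.
`U (bar x)` is the line of `f` (`fin_bar`, leaf QS).  `D f = b • f` for some `b` (`hDU`), and `ψ (D e) f + ψ e (D f) = 0` (`hDs`, `TGR.mem_sp`): `- 1 + b = 0`: `D f = f`.  `S = sq ψ e f`: `S e = - e`, `S f = f`, and `S` is zero on the other pieces: it agrees with `D` on `U x`, `U (bar x)`.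
CLAIM: for every finite set `F` of elements `z` with `z ≠ x`, `z ≠ bar x` and `∀ a ∈ U z, ∀ b ∈ U (bar z), sq ψ a b ∈ TGR.kill T` there is `D' ∈ TGR.kill T`, `D' ∈ TGR.sp ψ`, which preserves all the pieces, is zero on `U z` for `z ∈ F` and on all `U y` on which `D` is zero, and agrees with
`D` on `U x` and `U (bar x)`.  Induction on `F` (`Finset.induction_on`): let `D'` be given for `F`, and `z` be new; take `B` from `skew_pair` (leaf SH) for `D'` and `z`; `B ∈ TGR.kill T` and `B ∈ TGR.sp ψ` and `B` preserves all the pieces (`Submodule.span_induction`; `TPR.sq_mem`.. compare the use of `sq` in `QV.lean`,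
`QH.lean`; on `U y`: `B w = D' w` or `0`), and `D' - B` is as wanted: on `U z` it is `0`; on `U y` for `y ∈ F`, or if `D` is zero on `U y`: `D'` is zero there and `B w = D' w = 0` (`y = z`, `bar z`) or `B w = 0`; on `U x`, `U (bar x)`: `x ≠ z`, `bar z` (`hC.bar_bar`) so `B` is zero.
Let `F` be the set of all such `z`.  `D' - S` preserves all the pieces and is zero on all `U y` with `¬ N y` (`hother`), and on `U x`, `U (bar x)`: in `TGR.kill T` by `kill_of_zero` (leaf QV).  So `S ∈ TGR.kill T`. -/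

set_option autoImplicit false

namespace TPM

open Module Function TPR

private theorem SI_line {H : Type} [AddCommGroup H] [Module ℂ H] [FiniteDimensional ℂ H] {S : Submodule ℂ H}
    (h : finrank ℂ S ≤ 1) {e : H} (he : e ∈ S) (h0 : e ≠ 0) : ∀ w ∈ S, ∃ c : ℂ, w = c • e := by
  have h1 : finrank ℂ S = 1 := by
    refine le_antisymm h ?_
    have h2 : S ≠ ⊥ := fun h3 => by
      rw [h3, Submodule.mem_bot] at he
      exact h0 he
    exact Submodule.one_le_finrank_iff.2 h2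
  intro w hw
  have h2 : (⟨e, he⟩ : S) ≠ 0 := fun h3 => h0 (congrArg Subtype.val h3)
  obtain ⟨c, hc⟩ := (finrank_eq_one_iff_of_nonzero' (⟨e, he⟩ : S) h2).1 h1 ⟨w, hw⟩
  exact ⟨c, (congrArg Subtype.val hc).symm⟩

private theorem SI_step {G H W X : Type} [Group G] [AddCommGroup H] [Module ℂ H] [FiniteDimensional ℂ H]
    [AddCommGroup W] [Module ℂ W] [Fintype X] {ρ : Representation ℂ G H} {μ : G →* ℂˣ} {U : X → Submodule ℂ H}
    {pr : X → End ℂ H} {bar : X → X} {ψ : H →ₗ[ℂ] H →ₗ[ℂ] ℂ} {k : ℕ}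
    {T : MultilinearMap ℂ (fun _ : Fin k => H) (W →ₗ[ℂ] ℂ)} (hC : Cx ρ μ U pr bar ψ) (x : X) {D : End ℂ H}
    (hDU : ∀ z, ∀ v ∈ U z, D v ∈ U z) (hDs : D ∈ TGR.sp ψ) (hDk : D ∈ TGR.kill T) (F : Finset X) :
    (∀ z ∈ F, z ≠ x ∧ z ≠ bar x ∧ ∀ a ∈ U z, ∀ b ∈ U (bar z), sq ψ a b ∈ TGR.kill T) →
    ∃ D' : End ℂ H, D' ∈ TGR.kill T ∧ D' ∈ TGR.sp ψ ∧ (∀ z, ∀ v ∈ U z, D' v ∈ U z) ∧
      (∀ z ∈ F, ∀ v ∈ U z, D' v = 0) ∧ (∀ z, (∀ v ∈ U z, D v = 0) → ∀ v ∈ U z, D' v = 0) ∧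
      (∀ v ∈ U x, D' v = D v) ∧ ∀ v ∈ U (bar x), D' v = D v := by
  classical
  induction F using Finset.induction_on with
  | empty =>
    intro _
    exact ⟨D, hDk, hDs, hDU, fun z hz => absurd hz (Finset.notMem_empty z), fun _ h => h, fun _ _ => rfl,
      fun _ _ => rfl⟩
  | insert z F _ ih =>
    intro hF
    obtain ⟨D', hk, hs, hU, h0, hz0, hx, hbx⟩ := ih fun y hy => hF y (Finset.mem_insert_of_mem hy)
    obtain ⟨hzx, hzb, hzk⟩ := hF z (Finset.mem_insert_self z F)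
    obtain ⟨B, hB, hB1, hB2, hB3⟩ := skew_pair hC hU hs z
    have hBk : B ∈ TGR.kill T := by
      have hle : Submodule.span ℂ {Y : End ℂ H | ∃ a ∈ U z, ∃ b ∈ U (bar z), Y = sq ψ a b} ≤ TGR.kill T := by
        refine Submodule.span_le.2 ?_
        rintro Y ⟨a, ha, b, hb, rfl⟩
        exact hzk a ha b hb
      exact hle hB
    have hBs : B ∈ TGR.sp ψ := by
      have hle : Submodule.span ℂ {Y : End ℂ H | ∃ a ∈ U z, ∃ b ∈ U (bar z), Y = sq ψ a b} ≤ TGR.sp ψ := by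
        refine Submodule.span_le.2 ?_
        rintro Y ⟨a, ha, b, hb, rfl⟩
        exact sq_skew hC.alt a b
      exact hle hB
    have hBy : ∀ y, ∀ w ∈ U y, B w = D' w ∨ B w = 0 := by
      intro y w hw
      by_cases h1 : y = z
      · rw [h1] at hw
        exact Or.inl (hB1 w hw)
      · by_cases h2 : y = bar z
        · rw [h2] at hw
          exact Or.inl (hB2 w hw)
        · exact Or.inr (hB3 y h1 h2 w hw)
    have hBz : ∀ y, ∀ w ∈ U y, D' w = 0 → (D' - B) w = 0 := by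
      intro y w hw h1
      rw [LinearMap.sub_apply]
      rcases hBy y w hw with h2 | h2
      · rw [h2, sub_self]
      · rw [h2, h1, sub_self]
    refine ⟨D' - B, Submodule.sub_mem _ hk hBk, Submodule.sub_mem _ hs hBs, ?_, ?_, ?_, ?_, ?_⟩
    · intro y w hw
      rw [LinearMap.sub_apply]
      rcases hBy y w hw with h2 | h2
      · rw [h2, sub_self]
        exact Submodule.zero_mem _
      · rw [h2, sub_zero]
        exact hU y w hw
    · intro y hy w hw
      rcases Finset.mem_insert.1 hy with h1 | h1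
      · rw [h1] at hw
        rw [LinearMap.sub_apply, hB1 w hw, sub_self]
      · exact hBz y w hw (h0 y h1 w hw)
    · intro y hy w hw
      exact hBz y w hw (hz0 y hy w hw)
    · intro w hw
      have h1 : x ≠ bar z := by
        intro h
        apply hzb
        rw [h, hC.bar_bar]
      rw [LinearMap.sub_apply, hB3 x (fun h => hzx h.symm) h1 w hw, sub_zero]
      exact hx w hw
    · intro w hw
      have h1 : bar x ≠ bar z := by
        intro h
        apply hzx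
        rw [← hC.bar_bar z, ← h, hC.bar_bar]
      rw [LinearMap.sub_apply, hB3 (bar x) (fun h => hzb h.symm) h1 w hw, sub_zero]
      exact hbx w hw

theorem line_kill3 {G H W X : Type} [Group G] [AddCommGroup H] [Module ℂ H] [FiniteDimensional ℂ H] [AddCommGroup W]
    [Module ℂ W] [Fintype X] {ρ : Representation ℂ G H} {μ : G →* ℂˣ} {U : X → Submodule ℂ H} {pr : X → End ℂ H}
    {bar : X → X} {ψ : H →ₗ[ℂ] H →ₗ[ℂ] ℂ} {k : ℕ} {T : MultilinearMap ℂ (fun _ : Fin k => H) (W →ₗ[ℂ] ℂ)}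
    (hC : Cx ρ μ U pr bar ψ) {N : X → Prop} (hN : ∀ z, N z → ∀ v a, v a ∈ U z → T v = 0) {x : X}
    (hx1 : finrank ℂ (U x) ≤ 1) {D : End ℂ H} (hDU : ∀ z, ∀ v ∈ U z, D v ∈ U z) (hDs : D ∈ TGR.sp ψ)
    (hDk : D ∈ TGR.kill T) {e₀ : H} (he₀ : e₀ ∈ U x) (h0 : e₀ ≠ 0) (hDe : D e₀ = -e₀)
    (hother : ∀ z, z ≠ x → z ≠ bar x → ¬ N z → (∀ v ∈ U z, D v = 0) ∨
      ∀ a ∈ U z, ∀ b ∈ U (bar z), sq ψ a b ∈ TGR.kill T) :
    ∃ e f : H, e ∈ U x ∧ f ∈ U (bar x) ∧ ψ e f = 1 ∧ sq ψ e f ∈ TGR.kill T := by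
  classical
  obtain ⟨v, hv⟩ : ∃ v, ψ e₀ v ≠ 0 := by
    by_contra hcon
    push Not at hcon
    exact h0 (hC.nd e₀ hcon)
  have h1 : ψ e₀ v = ψ e₀ (pr (bar x) v) := by
    conv_lhs => rw [← hC.dec.sum v]
    rw [map_sum]
    refine Finset.sum_eq_single (bar x) (fun y _ hy => ?_) (fun h => absurd (Finset.mem_univ _) h)
    exact hC.orth x y hy e₀ he₀ _ (hC.dec.mem y v)
  obtain ⟨f₀, hf₀⟩ : ∃ f₀, f₀ = pr (bar x) v := ⟨_, rfl⟩
  have hf0U : f₀ ∈ U (bar x) := by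
    rw [hf₀]
    exact hC.dec.mem (bar x) v
  have h3 : ψ e₀ f₀ ≠ 0 := by
    rw [hf₀, ← h1]
    exact hv
  obtain ⟨f, hf⟩ : ∃ f, f = (ψ e₀ f₀)⁻¹ • f₀ := ⟨_, rfl⟩
  have hfU : f ∈ U (bar x) := by
    rw [hf]
    exact Submodule.smul_mem _ _ hf0U
  have hef : ψ e₀ f = 1 := by
    rw [hf, map_smul, smul_eq_mul, inv_mul_cancel₀ h3]
  have hfe : ψ f e₀ = -1 := by
    rw [alt_neg hC.alt f e₀, hef]
  have hf0 : f ≠ 0 := by
    intro h
    rw [h, map_zero] at hef
    exact zero_ne_one hef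
  have hlx := SI_line hx1 he₀ h0
  have hlbx := SI_line ((fin_bar hC x).trans hx1) hfU hf0
  have hDf : D f = f := by
    obtain ⟨b, hb⟩ := hlbx (D f) (hDU (bar x) f hfU)
    have h4 := TGR.mem_sp.1 hDs e₀ f
    rw [hDe, hb, map_neg, LinearMap.neg_apply, map_smul, hef, smul_eq_mul, mul_one] at h4
    have h5 : b = 1 := by
      rw [neg_add_eq_zero] at h4
      exact h4.symm
    rw [hb, h5, one_smul]
  have hSe : sq ψ e₀ f e₀ = -e₀ := by
    rw [sq_apply, hC.alt e₀, zero_smul, zero_add, hfe, neg_smul, one_smul]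
  have hSf : sq ψ e₀ f f = f := by
    rw [sq_apply, hC.alt f, zero_smul, add_zero, hef, one_smul]
  have hSx : ∀ w ∈ U x, sq ψ e₀ f w = D w := by
    intro w hw
    obtain ⟨c, rfl⟩ := hlx w hw
    rw [map_smul, map_smul, hSe, hDe]
  have hSbx : ∀ w ∈ U (bar x), sq ψ e₀ f w = D w := by
    intro w hw
    obtain ⟨c, rfl⟩ := hlbx w hw
    rw [map_smul, map_smul, hSf, hDf]
  have hS0 : ∀ z, z ≠ x → z ≠ bar x → ∀ w ∈ U z, sq ψ e₀ f w = 0 := by
    intro z hz hz' w hw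
    have h4 : z ≠ bar (bar x) := by
      rw [hC.bar_bar]
      exact hz
    rw [sq_apply, hC.orth x z hz' e₀ he₀ w hw, hC.orth (bar x) z h4 f hfU w hw, zero_smul, zero_smul, add_zero]
  obtain ⟨Zp, hZp⟩ : ∃ Zp : X → Prop, Zp = fun z => z ≠ x ∧ z ≠ bar x ∧
      ∀ a ∈ U z, ∀ b ∈ U (bar z), sq ψ a b ∈ TGR.kill T := ⟨_, rfl⟩
  obtain ⟨D', hk, -, hU, hF0, hz0, hDx, hDbx⟩ := SI_step hC x hDU hDs hDk (Finset.univ.filter Zp) (by
    intro z hz
    have hz2 := (Finset.mem_filter.1 hz).2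
    rw [hZp] at hz2
    exact hz2)
  have hDc : ∀ z, ∀ w ∈ U z, (D' - sq ψ e₀ f) w = 0 ∨ ((D' - sq ψ e₀ f) w = D' w ∧ N z) := by
    intro z w hw
    rw [LinearMap.sub_apply]
    by_cases hzx : z = x
    · subst hzx
      left
      rw [hSx w hw, hDx w hw, sub_self]
    · by_cases hzb : z = bar x
      · rw [hzb] at hw
        left
        rw [hSbx w hw, hDbx w hw, sub_self]
      · rw [hS0 z hzx hzb w hw, sub_zero]
        by_cases hNz : N z
        · exact Or.inr ⟨rfl, hNz⟩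
        · left
          rcases hother z hzx hzb hNz with h4 | h4
          · exact hz0 z h4 w hw
          · refine hF0 z (Finset.mem_filter.2 ⟨Finset.mem_univ _, ?_⟩) w hw
            rw [hZp]
            exact ⟨hzx, hzb, h4⟩
  have hDk' : D' - sq ψ e₀ f ∈ TGR.kill T := by
    refine kill_of_zero hC.dec hN (fun z w hw => ?_) fun z hz w hw => ?_
    · rcases hDc z w hw with h | ⟨h, -⟩
      · rw [h]
        exact Submodule.zero_mem _
      · rw [h]
        exact hU z w hw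
    · rcases hDc z w hw with h | ⟨-, h'⟩
      · exact h
      · exact absurd h' hz
  refine ⟨e₀, f, he₀, hfU, hef, ?_⟩
  have h4 : sq ψ e₀ f = D' - (D' - sq ψ e₀ f) := by abel
  rw [h4]
  exact Submodule.sub_mem _ hk hDk'

end TPM
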