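import Pool.Agent.Lib.MP_021685_agTM.SH
import Pool.Agent.Lib.MP_021685_agTM.QF

/-! LEAF SJ (easy+).  A piece whose `sq ψ a b` kill the form.

PROOF.  `Y₁ ∈ Ap T ψ U` with `Y₁ w = sq ψ a b w` for `w ∈ U x` (`hfull`); `B` from `skew_pair` (leaf SH) for `D = Y₁`, `z = y` (`mem_Ap`, `TGR.alg`: `Y₁ ∈ TGR.sp ψ`).  `B ∈ Ap T ψ U`: `Submodule.span_induction` (or `Submodule.span_le`): every `sq ψ a b` with `a ∈ U y`, `b ∈ U (bar y)` is in `TGR.kill T` (`hy`), in `TGR.sp ψ`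
(`TPR.sq_skew` or similar: see how `sq` is used in `QF.lean`, `QV.lean`, `QX.lean`) and preserves all the pieces (`TPR.sq_apply`: on `U z` for `z = bar y`: the value is `ψ a w • b + ψ b w • a`, and `ψ b w = 0` by `hC.orth` unless `bar y = y`; on `U z` for `z = y`: `ψ a w = 0` unless `bar y = y`; zero
otherwise).  `Y = Y₁ - B`: on `U x` it is `sq ψ a b` (`x ≠ y`, and `x ≠ bar y` as `bar x = x`: `hC.bar_bar`), on `U y` it is `0`. -/

set_option autoImplicit false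

namespace TPM

open Module TPR

theorem pair_sub {G H W X : Type} [Group G] [AddCommGroup H] [Module ℂ H] [FiniteDimensional ℂ H] [AddCommGroup W]
    [Module ℂ W] [Fintype X] {ρ : Representation ℂ G H} {μ : G →* ℂˣ} {U : X → Submodule ℂ H} {pr : X → End ℂ H}
    {bar : X → X} {ψ : H →ₗ[ℂ] H →ₗ[ℂ] ℂ} {k : ℕ} {T : MultilinearMap ℂ (fun _ : Fin k => H) (W →ₗ[ℂ] ℂ)}
    (hC : Cx ρ μ U pr bar ψ) {x y : X} (hxy : x ≠ y) (hx : bar x = x)
    (hfull : ∀ a ∈ U x, ∀ b ∈ U x, ∃ Y ∈ Ap T ψ U, ∀ w ∈ U x, Y w = sq ψ a b w)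
    (hy : ∀ a ∈ U y, ∀ b ∈ U (bar y), sq ψ a b ∈ TGR.kill T) :
    ∀ a ∈ U x, ∀ b ∈ U x, ∃ Y ∈ Ap T ψ U, (∀ w ∈ U x, Y w = sq ψ a b w) ∧ ∀ w ∈ U y, Y w = 0 := by
  intro a ha b hb
  obtain ⟨Y₁, hY₁, hY₁x⟩ := hfull a ha b hb
  have hY₁' := mem_Ap.1 hY₁
  obtain ⟨B, hB, hBy, -, hB0⟩ := skew_pair hC hY₁'.2 hY₁'.1.2 y
  have hBA : B ∈ Ap T ψ U := by
    refine Submodule.span_le.2 ?_ hB
    rintro Z ⟨c, hc, d, hd, rfl⟩
    refine mem_Ap.2 ⟨⟨hy c hc d hd, sq_skew hC.alt c d⟩, fun z v hv => ?_⟩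
    rw [sq_apply]
    refine add_mem ?_ ?_
    · by_cases h : z = bar y
      · subst h
        exact Submodule.smul_mem _ _ hd
      · rw [hC.orth y z h c hc v hv, zero_smul]
        exact zero_mem _
    · by_cases h : z = bar (bar y)
      · rw [hC.bar_bar] at h
        subst h
        exact Submodule.smul_mem _ _ hc
      · rw [hC.orth (bar y) z h d hd v hv, zero_smul]
        exact zero_mem _
  have hxb : x ≠ bar y := by
    intro h
    apply hxy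
    have h1 : bar x = bar (bar y) := congrArg bar h
    rwa [hx, hC.bar_bar] at h1
  refine ⟨Y₁ - B, sub_mem hY₁ hBA, fun w hw => ?_, fun w hw => ?_⟩
  · rw [LinearMap.sub_apply, hY₁x w hw, hB0 x hxy hxb w hw, sub_zero]
  · rw [LinearMap.sub_apply, hBy w hw, sub_self]

end TPM
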