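import Pool.Agent.Lib.MP_021685_agTM.SD
import Pool.Agent.Lib.MP_021685_agTM.SE
import Pool.Agent.Lib.MP_021685_agTM.QX

/-! LEAF SK (medium-).  Two symplectic pieces, each with an element of its own.

PROOF.  Copy of `pair` in `QX.lean` (private `QX_M`, `QX_ideal`: copy them with the prefix `SK`), with these changes.  `hfull` from `restr` with `τ` on `U x`; `hfull'` from `restr` with `τ'` on `U y`.  Case 1: there is `Z ∈ Ap T ψ U`, zero on `U y`, not zero on `U x`: `QX_ideal`.  Otherwise `hcase`: every `Z ∈ Ap T ψ U`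
which is zero on `U y` is zero on `U x`; `hgr'`: every `Z ∈ Ap T ψ U` which is zero on `U x` is zero on `U y`: if not, by `QX_ideal` for `y` every `sq ψ a b` (`a`, `b ∈ U y`) agrees on `U y` with an element of `Ap T ψ U` which is zero on `U x`, and by `skew_span` (leaf SE; `V = U y`, `A = τ`) and
`Submodule.span_induction` there is `Y ∈ Ap T ψ U` which agrees with `τ` on `U y` and is zero on `U x`; `τ - Y` is zero on `U y`, so on `U x` (`hcase`), so `τ f = 0`, but `τ f = f ≠ 0`.  `sq_of_graph` (leaf SD) for `V = U x`, `V' = U y`, `𝔞 = Ap T ψ U`, `t = τ` gives `e''`, `f'' ∈ U y` with `ψ e'' f'' = 1`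
and `τ v = sq ψ e'' f'' v` for `v ∈ U y`.  Then `exists_J`, `comm_J`, `iso_of_J` as in `pair`. -/

set_option autoImplicit false

namespace TPM

open Module TPR

section

variable {G H W X : Type} [Group G] [AddCommGroup H] [Module ℂ H] [AddCommGroup W] [Module ℂ W] [Fintype X]
  {ρ : Representation ℂ G H} {σ : Representation ℂ G W} {μ : G →* ℂˣ} {U : X → Submodule ℂ H} {pr : X → End ℂ H}
  {bar : X → X} {ψ : H →ₗ[ℂ] H →ₗ[ℂ] ℂ} {k : ℕ} {m : ℤ} {T : MultilinearMap ℂ (fun _ : Fin k => H) (W →ₗ[ℂ] ℂ)}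

/-- The elements which vanish on the piece `U y`. -/
private def SK_M (T : MultilinearMap ℂ (fun _ : Fin k => H) (W →ₗ[ℂ] ℂ)) (ψ : H →ₗ[ℂ] H →ₗ[ℂ] ℂ)
    (U : X → Submodule ℂ H) (y : X) : Submodule ℂ (End ℂ H) where
  carrier := {Z | Z ∈ Ap T ψ U ∧ ∀ v ∈ U y, Z v = 0}
  add_mem' := by
    rintro Y Z ⟨hY1, hY2⟩ ⟨hZ1, hZ2⟩
    exact ⟨add_mem hY1 hZ1, fun v hv => by rw [LinearMap.add_apply, hY2 v hv, hZ2 v hv, add_zero]⟩
  zero_mem' := ⟨zero_mem _, fun v _ => rfl⟩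
  smul_mem' := by
    rintro c Y ⟨hY1, hY2⟩
    exact ⟨Submodule.smul_mem _ _ hY1, fun v hv => by rw [LinearMap.smul_apply, hY2 v hv, smul_zero]⟩

private theorem SK_ideal (hC : Cx ρ μ U pr bar ψ) {x y : X} (hx : bar x = x)
    (hfull : ∀ a ∈ U x, ∀ b ∈ U x, ∃ Y ∈ Ap T ψ U, ∀ w ∈ U x, Y w = sq ψ a b w) {Z : End ℂ H} (hZ : Z ∈ Ap T ψ U)
    (hZy : ∀ v ∈ U y, Z v = 0) {v₀ : H} (hv₀ : v₀ ∈ U x) (hne : Z v₀ ≠ 0) :
    ∀ a ∈ U x, ∀ b ∈ U x, ∃ Y ∈ Ap T ψ U, (∀ w ∈ U x, Y w = sq ψ a b w) ∧ ∀ w ∈ U y, Y w = 0 := by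
  intro a ha b hb
  obtain ⟨Y, hY, hYab⟩ := ideal_all hC.alt (V := U x) (hC.nd_piece hx) (𝔞 := Ap T ψ U) (M := SK_M T ψ U y)
    (fun Y hY u _ v _ => TGR.mem_sp.1 hY.1.1.2 u v) (fun Y hY v hv => hY.1.2 x v hv) hfull
    (fun Y hY Z hZ => ⟨Ap_lie hY hZ.1, fun v hv => by
      rw [LinearMap.sub_apply, Module.End.mul_apply, Module.End.mul_apply, hZ.2 v hv, hZ.2 _ (hY.2 y v hv), map_zero,
        sub_zero]⟩) (Y₀ := Z) ⟨hZ, hZy⟩ hv₀ hne a ha b hb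
  exact ⟨Y, hY.1, hYab, hY.2⟩

end

theorem pair2 {G H W X : Type} [Group G] [AddCommGroup H] [Module ℂ H] [FiniteDimensional ℂ H] [AddCommGroup W]
    [Module ℂ W] [Fintype X] {ρ : Representation ℂ G H} {σ : Representation ℂ G W} {μ : G →* ℂˣ}
    {U : X → Submodule ℂ H} {pr : X → End ℂ H} {bar : X → X} {ψ : H →ₗ[ℂ] H →ₗ[ℂ] ℂ} {k : ℕ} {m : ℤ}
    {T : MultilinearMap ℂ (fun _ : Fin k => H) (W →ₗ[ℂ] ℂ)} (hC : Cx ρ μ U pr bar ψ) (hT : TGR.IsTate ρ σ μ ⊤ m T)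
    {x y : X} (hxy : x ≠ y) (hx : bar x = x) (hy : bar y = y) {τ : End ℂ H} (hτ : τ ∈ Ap T ψ U) {e f : H}
    (he : e ∈ U x) (hf : f ∈ U x) (hef : ψ e f = 1) (hτx : ∀ v ∈ U x, τ v = sq ψ e f v)
    (hdiag : U y ≤ Submodule.span ℂ {w | w ∈ U y ∧ ∃ a : ℂ, τ w = a • w}) {τ' : End ℂ H} (hτ' : τ' ∈ Ap T ψ U)
    {e' f' : H} (he' : e' ∈ U y) (hf' : f' ∈ U y) (hef' : ψ e' f' = 1) (hτy : ∀ v ∈ U y, τ' v = sq ψ e' f' v)
    (hiso : ¬ Iso ρ pr y x) :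
    ∀ a ∈ U x, ∀ b ∈ U x, ∃ Y ∈ Ap T ψ U, (∀ w ∈ U x, Y w = sq ψ a b w) ∧ ∀ w ∈ U y, Y w = 0 := by
  have hfull : ∀ a ∈ U x, ∀ b ∈ U x, ∃ Y ∈ Ap T ψ U, ∀ w ∈ U x, Y w = sq ψ a b w := fun a ha b hb =>
    restr hC hT hx he hf (by rw [hef]; exact one_ne_zero) hτ hτx ha hb
  have hfull' : ∀ a ∈ U y, ∀ b ∈ U y, ∃ Y ∈ Ap T ψ U, ∀ w ∈ U y, Y w = sq ψ a b w := fun a ha b hb =>
    restr hC hT hy he' hf' (by rw [hef']; exact one_ne_zero) hτ' hτy ha hb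
  by_cases hcase : ∃ Z ∈ Ap T ψ U, (∀ v ∈ U y, Z v = 0) ∧ ∃ v ∈ U x, Z v ≠ 0
  · obtain ⟨Z, hZ, hZy, v₀, hv₀, hne⟩ := hcase
    exact SK_ideal hC hx hfull hZ hZy hv₀ hne
  exfalso
  push Not at hcase
  have hf0 : f ≠ 0 := by
    rintro rfl
    rw [map_zero] at hef
    exact zero_ne_one hef
  have hτf : τ f = f := by
    rw [hτx f hf, sq_apply, hef, hC.alt, one_smul, zero_smul, add_zero]
  have hgr' : ∀ Z ∈ Ap T ψ U, (∀ v ∈ U x, Z v = 0) → ∀ v ∈ U y, Z v = 0 := by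
    intro Z hZ hZx v hv
    by_contra hne
    have hid := SK_ideal hC hy hfull' hZ hZx hv hne
    obtain ⟨B, hB, hBτ⟩ := skew_span hC.alt (V := U y) (hC.nd_piece hy) (A := τ) (hτ.2 y)
      (fun u _ v _ => TGR.mem_sp.1 hτ.1.2 u v)
    have hY : ∃ Y ∈ Ap T ψ U, (∀ w ∈ U y, Y w = B w) ∧ ∀ w ∈ U x, Y w = 0 := by
      clear hBτ
      induction hB using Submodule.span_induction with
      | mem B hB =>
        obtain ⟨a, ha, b, hb, rfl⟩ := hB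
        exact hid a ha b hb
      | zero => exact ⟨0, zero_mem _, fun w _ => rfl, fun w _ => rfl⟩
      | add B B' _ _ ih ih' =>
        obtain ⟨Y, h1, h2, h3⟩ := ih
        obtain ⟨Y', h1', h2', h3'⟩ := ih'
        refine ⟨Y + Y', add_mem h1 h1', fun w hw => ?_, fun w hw => ?_⟩
        · rw [LinearMap.add_apply, LinearMap.add_apply, h2 w hw, h2' w hw]
        · rw [LinearMap.add_apply, h3 w hw, h3' w hw, add_zero]
      | smul c B _ ih =>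
        obtain ⟨Y, h1, h2, h3⟩ := ih
        refine ⟨c • Y, Submodule.smul_mem _ _ h1, fun w hw => ?_, fun w hw => ?_⟩
        · rw [LinearMap.smul_apply, LinearMap.smul_apply, h2 w hw]
        · rw [LinearMap.smul_apply, h3 w hw, smul_zero]
    obtain ⟨Y, hY, hY1, hY2⟩ := hY
    have h1 := hcase (τ - Y) (sub_mem hτ hY) (fun v hv => by
      rw [LinearMap.sub_apply, hY1 v hv, hBτ v hv, sub_self]) f hf
    rw [LinearMap.sub_apply, hY2 f hf, sub_zero, hτf] at h1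
    exact hf0 h1
  obtain ⟨e'', f'', he'', hf'', hef'', hτy'⟩ := sq_of_graph hC.alt (V := U x) (V' := U y) (hC.nd_piece hy)
    (𝔞 := Ap T ψ U) (fun X hX Y hY => Ap_lie hX hY) (fun X hX => hX.1.2) (fun X hX v hv => hX.2 x v hv)
    (fun X hX v hv => hX.2 y v hv) hfull hfull' hcase hgr' hτ he hf hef hτx hdiag
  obtain ⟨J, c, hc, hJ, hform, hθ⟩ := exists_J hC.alt (V := U x) (V' := U y) (𝔞 := Ap T ψ U)
    (fun X hX Y hY => Ap_lie hX hY) (fun X hX => hX.1.2) (fun X hX v hv => hX.2 x v hv)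
    (fun X hX v hv => hX.2 y v hv) hfull' hcase hgr' hτ he hf he'' hf'' hef hef'' hτx hτy' (hC.dec.mem y)
    (hC.dec.id y)
  have hJc := comm_J hC.alt (V := U x) (V' := U y) (hC.nd_piece hy) (𝔞 := Ap T ψ U)
    (fun X hX Y hY => Ap_lie hX hY) (fun X hX => hX.1.2) (fun X hX v hv => hX.2 x v hv)
    (fun X hX v hv => hX.2 y v hv) hfull' hcase hc hJ hform hθ
  exact hiso (iso_of_J hC hT hxy hx hy hfull hc hJ hform hJc)

end TPM
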