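import Pool.Agent.Lib.MP_021685_agTM.M0
import Pool.Agent.Lib.MP_021685_agTM.QS

/-! LEAF SL (medium-, 2 theorems).  An element of rank two, for two forms; and the partner of a piece.

PROOF of `sq_form`.  `e ≠ 0`.  `D e = - e`, `D f = f` (`TPR.sq_apply`, `alt_neg`: `ψ f e = - 1`).  For `v : H` let `v₀ = v - ψ e v • f + ψ f v • e`: `ψ e v₀ = 0`, `ψ f v₀ = 0`, so `D v₀ = 0`.  By skewness for `ψ'` (`TGR.mem_sp`): `ψ' (D e) v₀ + ψ' e (D v₀) = 0`, so `ψ' e v₀ = 0`; the same for `f`: `ψ' f v₀ = 0`.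
So `ψ' e v = ψ e v * ψ' e f` and `ψ' f v = - ψ f v * ψ' f e = ψ f v * ψ' e f`, for all `v`.  If `ψ' e f = 0` then `ψ' e v = 0` for all `v`, `e = 0` (`hnd'`): contradiction.  Let `c = (ψ' e f)⁻¹`: `sq ψ' e (c • f) v = ψ' e v • (c • f) + ψ' (c • f) v • e = ψ e v • f + ψ f v • e = D v`.

PROOF of `partner4`.  (1) If `u ∈ U x`, and `ψ u v = 0` for all `v ∈ U y`, where `y` is such that `ψ` is not zero on `U x × U y`, then `u = 0`: the set of the `u ∈ U x` with `ψ u v = 0` for all `v ∈ U y` is a stable subspace (`hψ`, `hD.stab`; see `SG.lean` or `fin_le` in `QS.lean`), not `U x`, so it is `⊥` (`hD.simple`).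
(2) For every such `y`: `e ≠ 0`, `e ∈ U x`, so by (1) there is `v ∈ U y` with `ψ e v ≠ 0`.  `D v`, `D (D v) ∈ U y`, and `D v + D (D v) = (2 * ψ e v) • f` (`D v = ψ e v • f + ψ f v • e`, `D (D v) = ψ e v • f - ψ f v • e`), so `f ∈ U y`.
(3) There is such a `y` (`e ≠ 0`, `hnd`, `hD.sum`).  If `y'` is another one, then `f ∈ U y ⊓ U y'` and `f ≠ 0`: `y = y'` (`hD.id`, `hD.zero`). -/

set_option autoImplicit false

namespace TPM

open Module TPR

theorem sq_form {H : Type} [AddCommGroup H] [Module ℂ H] {ψ ψ' : H →ₗ[ℂ] H →ₗ[ℂ] ℂ} (halt : ∀ u, ψ u u = 0)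
    (halt' : ∀ u, ψ' u u = 0) (hnd' : ∀ u, (∀ v, ψ' u v = 0) → u = 0) {D : End ℂ H} {e f : H} (hef : ψ e f = 1)
    (hD : ∀ v, D v = sq ψ e f v) (hsk : D ∈ TGR.sp ψ') :
    ∃ c : ℂ, ψ' e (c • f) = 1 ∧ ∀ v, D v = sq ψ' e (c • f) v := by
  have he : D e = - e := by
    rw [hD, sq_apply, halt, alt_neg halt f e, hef, zero_smul, zero_add, neg_smul, one_smul]
  have hf : D f = f := by
    rw [hD, sq_apply, halt, hef, zero_smul, add_zero, one_smul]
  have hfe : ψ f e = -1 := by rw [alt_neg halt f e, hef]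
  have h0 : ∀ v, D (v - ψ e v • f + ψ f v • e) = 0 := by
    intro v
    rw [hD, sq_apply]
    simp only [map_add, map_sub, map_smul, smul_eq_mul, hef, hfe, halt]
    module
  have h1 : ∀ v, ψ' e v = ψ e v * ψ' e f := by
    intro v
    have h2 := (TGR.mem_sp.1 hsk) e (v - ψ e v • f + ψ f v • e)
    rw [h0, map_zero, add_zero, he, map_neg, LinearMap.neg_apply, neg_eq_zero] at h2
    simp only [map_add, map_sub, map_smul, smul_eq_mul, halt'] at h2
    linear_combination h2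
  have h2 : ∀ v, ψ' f v = ψ f v * ψ' e f := by
    intro v
    have h3 := (TGR.mem_sp.1 hsk) f (v - ψ e v • f + ψ f v • e)
    rw [h0, map_zero, add_zero, hf] at h3
    simp only [map_add, map_sub, map_smul, smul_eq_mul, halt', alt_neg halt' f e] at h3
    linear_combination h3
  have hk : ψ' e f ≠ 0 := by
    intro h3
    have h4 : e = 0 := hnd' e fun v => by rw [h1, h3, mul_zero]
    rw [h4, map_zero, LinearMap.zero_apply] at hef
    exact zero_ne_one hef
  refine ⟨(ψ' e f)⁻¹, ?_, fun v => ?_⟩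
  · rw [map_smul, smul_eq_mul, inv_mul_cancel₀ hk]
  · rw [hD, sq_apply, sq_apply, map_smul, LinearMap.smul_apply, h1, h2, smul_smul, smul_eq_mul, mul_assoc,
      mul_inv_cancel₀ hk, mul_one, mul_left_comm, inv_mul_cancel₀ hk, mul_one]

theorem partner4 {G H X : Type} [Group G] [AddCommGroup H] [Module ℂ H] [FiniteDimensional ℂ H] [Fintype X]
    {ρ : Representation ℂ G H} {μ : G →* ℂˣ} {U : X → Submodule ℂ H} {pr : X → End ℂ H} (hD : Dec ρ U pr)
    {ψ : H →ₗ[ℂ] H →ₗ[ℂ] ℂ} (halt : ∀ u, ψ u u = 0) (hnd : ∀ u, (∀ v, ψ u v = 0) → u = 0)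
    (hψ : ∀ g u v, ψ (ρ g u) (ρ g v) = μ g * ψ u v) {D : End ℂ H} (hDU : ∀ z, ∀ v ∈ U z, D v ∈ U z) {e f : H}
    (hef : ψ e f = 1) (hDD : ∀ v, D v = sq ψ e f v) {x : X} (he : e ∈ U x) :
    ∃ y, f ∈ U y ∧ ∀ y', y' ≠ y → ∀ u ∈ U x, ∀ v ∈ U y', ψ u v = 0 := by
  classical
  have he0 : e ≠ 0 := by
    intro h
    rw [h, map_zero, LinearMap.zero_apply] at hef
    exact zero_ne_one hef
  have hf0 : f ≠ 0 := by
    intro h
    rw [h, map_zero] at hef
    exact zero_ne_one hef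
  have hDe : D e = - e := by
    rw [hDD, sq_apply, halt, alt_neg halt f e, hef, zero_smul, zero_add, neg_smul, one_smul]
  have hDf : D f = f := by
    rw [hDD, sq_apply, halt, hef, zero_smul, add_zero, one_smul]
  have hfin : ∀ y, ∀ v ∈ U y, ψ e v ≠ 0 → f ∈ U y := by
    intro y v hv hne
    have h1 : D v + D (D v) = (2 * ψ e v) • f := by
      have h2 : D v = ψ e v • f + ψ f v • e := by rw [hDD, sq_apply]
      rw [h2, map_add, map_smul, map_smul, hDe, hDf]
      module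
    have h2 : D v + D (D v) ∈ U y := (U y).add_mem (hDU y v hv) (hDU y _ (hDU y v hv))
    have h3 : (2 * ψ e v) ≠ 0 := mul_ne_zero two_ne_zero hne
    have h4 : f = (2 * ψ e v)⁻¹ • (D v + D (D v)) := by
      rw [h1, smul_smul, inv_mul_cancel₀ h3, one_smul]
    rw [h4]
    exact (U y).smul_mem _ h2
  have hex : ∃ y, ∃ v ∈ U y, ψ e v ≠ 0 := by
    by_contra hcon
    push Not at hcon
    refine he0 (hnd e fun v => ?_)
    rw [← hD.sum v, map_sum]
    exact Finset.sum_eq_zero fun y _ => hcon y _ (hD.mem y v)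
  obtain ⟨y, v, hv, hne⟩ := hex
  have hfy := hfin y v hv hne
  refine ⟨y, hfy, fun y' hy' u hu w hw => ?_⟩
  by_contra h0
  let S : Submodule ℂ H :=
    { carrier := {u | u ∈ U x ∧ ∀ w ∈ U y', ψ u w = 0}
      add_mem' := by
        rintro a b ⟨ha, ha'⟩ ⟨hb, hb'⟩
        refine ⟨(U x).add_mem ha hb, fun w hw => ?_⟩
        rw [map_add, LinearMap.add_apply, ha' w hw, hb' w hw, add_zero]
      zero_mem' := ⟨(U x).zero_mem, fun w _ => by rw [map_zero, LinearMap.zero_apply]⟩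
      smul_mem' := by
        rintro c a ⟨ha, ha'⟩
        refine ⟨(U x).smul_mem c ha, fun w hw => ?_⟩
        rw [map_smul, LinearMap.smul_apply, ha' w hw, smul_zero] }
  have hSle : S ≤ U x := fun u hu => hu.1
  have hSst : Stab ρ ⊤ S := by
    intro g hg a ha
    refine ⟨hD.stab x g hg a ha.1, fun w hw => ?_⟩
    have h1 : ρ g (ρ g⁻¹ w) = w := by
      rw [← Module.End.mul_apply, ← map_mul, mul_inv_cancel, map_one, Module.End.one_apply]
    rw [← h1, hψ, ha.2 _ (hD.stab y' g⁻¹ (Subgroup.mem_top _) w hw), mul_zero]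
  rcases hD.simple x S hSle hSst with hS | hS
  · have h2 : e ∉ S := by
      rw [hS]
      exact fun h => he0 ((Submodule.mem_bot ℂ).1 h)
    have h3 : ∃ w ∈ U y', ψ e w ≠ 0 := by
      by_contra hcon
      push Not at hcon
      exact h2 ⟨he, hcon⟩
    obtain ⟨w', hw', hne'⟩ := h3
    have h4 := hfin y' w' hw' hne'
    have h5 := hD.id y' f h4
    rw [hD.zero y' y hy' f hfy] at h5
    exact hf0 h5.symm
  · have h2 : u ∈ S := by
      rw [hS]
      exact hu
    exact h0 (h2.2 w hw)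

end TPM
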