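import Pool.Agent.Lib.MP_021685_agTM.M0
import Pool.Agent.Lib.MP_021685_agTP.PE
import Pool.Agent.Lib.MP_021685_agTM.QC3

/-! LEAF SM (medium).  The generalised eigenspaces of `F` and `F ^ d` on a stable subspace.

PROOF.  `V` is the supremum of the `V ⊓ F.maxGenEigenspace y` (`Submodule.eq_iSup_inf_genEigenspace` in `Mathlib/LinearAlgebra/Eigenspace/Triangularizable.lean`, `Module.End.iSup_maxGenEigenspace_eq_top F`), so `v = ∑ y ∈ s, u y` with `u y ∈ V ⊓ F.maxGenEigenspace y` for `y ∈ s` (`Submodule.mem_iSup_iff_exists_finsupp` or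
`Submodule.mem_iSup_iff_exists_dfinsupp`..).  `F.maxGenEigenspace y ≤ (F ^ d).maxGenEigenspace (y ^ d)` (private `SG_pow` in `SG.lean`: copy it).  Collect the terms with equal `y ^ d`: `v = ∑ w' ∈ s.image (· ^ d), ∑ y ∈ s with y ^ d = w', u y`; the generalised eigenspaces of `F ^ d` are independent
(`Module.End.independent_maxGenEigenspace`, or `Module.End.disjoint_genEigenspace`, or use the projections `exists_projs (F ^ d)` of leaf QC3, import it: `π w` applied to `v` gives `v = π w v = ∑ y ∈ s with y ^ d = w, u y`, which is the shortest way).  So `v = ∑ y ∈ s with y ^ d = w, u y`. -/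

set_option autoImplicit false

namespace TPM

open Module TPR

private theorem SM_fac {H : Type} [AddCommGroup H] [Module ℂ H] (F : End ℂ H) (y : ℂ) (d : ℕ) :
    ∃ G : End ℂ H, F ^ d - (y ^ d) • (1 : End ℂ H) = G * (F - y • (1 : End ℂ H)) ∧
      Commute (F - y • (1 : End ℂ H)) G := by
  have hc : Commute F (y • (1 : End ℂ H)) := (Commute.one_right F).smul_right y
  have h1 := hc.geom_sum₂_mul d
  have h2 := hc.mul_geom_sum₂ d
  have h3 : (y • (1 : End ℂ H)) ^ d = (y ^ d) • (1 : End ℂ H) := by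
    rw [_root_.smul_pow, one_pow]
  refine ⟨∑ i ∈ Finset.range d, F ^ i * (y • (1 : End ℂ H)) ^ (d - 1 - i), ?_, ?_⟩
  · rw [h1, h3]
  · exact h2.trans h1.symm

private theorem SM_pow {H : Type} [AddCommGroup H] [Module ℂ H] (F : End ℂ H) (y : ℂ) (d : ℕ) {u : H}
    (hu : u ∈ F.maxGenEigenspace y) : u ∈ (F ^ d).maxGenEigenspace (y ^ d) := by
  obtain ⟨n, hn⟩ := (Module.End.mem_maxGenEigenspace F y u).1 hu
  obtain ⟨G, hG, hc⟩ := SM_fac F y d
  refine (Module.End.mem_maxGenEigenspace _ _ u).2 ⟨n, ?_⟩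
  rw [hG, hc.symm.mul_pow, Module.End.mul_apply, hn, map_zero]

theorem eig_pow {H : Type} [AddCommGroup H] [Module ℂ H] [FiniteDimensional ℂ H] {F : End ℂ H} {V : Submodule ℂ H}
    (hV : ∀ v ∈ V, F v ∈ V) {d : ℕ} {w : ℂ} {v : H} (hv : v ∈ V) (hw : v ∈ (F ^ d).maxGenEigenspace w) :
    ∃ (s : Finset ℂ) (u : ℂ → H), v = ∑ y ∈ s, u y ∧ ∀ y ∈ s, y ^ d = w ∧ u y ∈ V ∧ u y ∈ F.maxGenEigenspace y := by
  classical
  obtain ⟨π, -, hid, hoff, hst, -, -⟩ := exists_projs F
  obtain ⟨κ, -, kid, koff, -, -, -⟩ := exists_projs (F ^ d)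
  have hmem : v ∈ ⨆ y, F.maxGenEigenspace y := by
    rw [Module.End.iSup_maxGenEigenspace_eq_top F]
    exact Submodule.mem_top
  obtain ⟨f, hf, hsum⟩ := (Submodule.mem_iSup_iff_exists_finsupp _ v).1 hmem
  have hfV : ∀ z, f z ∈ V := by
    intro z
    have h1 : π z v = f z := by
      rw [← hsum, Finsupp.sum, map_sum]
      by_cases hz : z ∈ f.support
      · rw [Finset.sum_eq_single_of_mem z hz fun y _ hy => hoff z y hy _ (hf y), hid z _ (hf z)]
      · rw [Finset.sum_eq_zero fun y hy => hoff z y (fun h => hz (h ▸ hy)) _ (hf y)]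
        exact (Finsupp.notMem_support_iff.1 hz).symm
    rw [← h1]
    exact hst z V hV v hv
  refine ⟨f.support.filter fun y => y ^ d = w, fun y => f y, ?_, fun y hy => ⟨(Finset.mem_filter.1 hy).2, hfV y, hf y⟩⟩
  have h1 : κ w v = v := kid w v hw
  rw [← h1]
  nth_rewrite 1 [← hsum]
  rw [Finsupp.sum, map_sum, Finset.sum_filter]
  refine Finset.sum_congr rfl fun y _ => ?_
  by_cases hy : y ^ d = w
  · rw [if_pos hy]
    exact kid w _ (hy ▸ SM_pow F y d (hf y))
  · rw [if_neg hy]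
    exact koff w (y ^ d) hy _ (SM_pow F y d (hf y))

end TPM
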