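import Pool.Agent.Lib.MP_021685_agTM.SA
import Pool.Agent.Lib.MP_021685_agTM.SC
import Pool.Agent.Lib.MP_021685_agTM.SM

/-! LEAF SN (medium).  The element `D` on a symplectic piece `U` contained in an `F`-stable subspace `V` (`U` is stable only under `F ^ d`).

PROOF.  `torus_piece` (leaf SC) for `F ^ d` instead of `F`, `lam l ^ d` instead of `lam l`, `χ' y = χ y / d`, and `S' w = ∃ y, y ≠ 0 ∧ S y ∧ y ^ d = w`.  `χ (y ^ n) = n * χ y` for `y ≠ 0` (induction; `χ 1 = 0`); `lam l ≠ 0` (`hR.mulbar`, `Q ≠ 0`).  `hF0`: an eigenvalue of `F ^ d` is not `0`: `F` is injective (`hF0` for `F`), so is `F ^ d`.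
`h1`, `h2`, `h3`, `h4`: clear.  `hev`: let `v ∈ U ⊓ (F ^ d).maxGenEigenspace w`, `v ≠ 0`; by `eig_pow` (leaf SM, for `V`) `v = ∑ y ∈ s, u y`, and there is `y ∈ s` with `u y ≠ 0`, `y ^ d = w`, `V ⊓ F.maxGenEigenspace y ≠ ⊥`; by `hev` `y = lam l` or `S y`; `y ≠ 0` as it is an eigenvalue of `F` (`F.maxGenEigenspace y ≠ ⊥`).
`hone`: `U ⊓ (F ^ d).maxGenEigenspace (lam i ^ d) = U ⊓ F.maxGenEigenspace (lam i)`: `≥`: `SG_pow` (private in `SG.lean`: copy); `≤`: by `eig_pow` `v = ∑ y ∈ s, u y`, `y ^ d = lam i ^ d`; if `u y ≠ 0` then `y = lam l` or `S y`, so `y = lam i` by `hR.pow_ne hQ hd i` (`RA.lean`): all terms are in `F.maxGenEigenspace (lam i)`. -/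

set_option autoImplicit false

namespace TPM

open Module TPR

private theorem SN_fac {H : Type} [AddCommGroup H] [Module ℂ H] (F : End ℂ H) (y : ℂ) (d : ℕ) :
    ∃ G : End ℂ H, F ^ d - (y ^ d) • (1 : End ℂ H) = G * (F - y • (1 : End ℂ H)) ∧
      Commute (F - y • (1 : End ℂ H)) G := by
  have hc : Commute F (y • (1 : End ℂ H)) := (Commute.one_right F).smul_right y
  have h1 := hc.geom_sum₂_mul d
  have h2 := hc.mul_geom_sum₂ d
  have h3 : (y • (1 : End ℂ H)) ^ d = (y ^ d) • (1 : End ℂ H) := by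
    rw [_root_.smul_pow, one_pow]
  refine ⟨∑ i ∈ Finset.range d, F ^ i * (y • (1 : End ℂ H)) ^ (d - 1 - i), ?_, ?_⟩
  · rw [h1, h3]
  · exact h2.trans h1.symm

private theorem SN_pow {H : Type} [AddCommGroup H] [Module ℂ H] (F : End ℂ H) (y : ℂ) (d : ℕ) {u : H}
    (hu : u ∈ F.maxGenEigenspace y) : u ∈ (F ^ d).maxGenEigenspace (y ^ d) := by
  obtain ⟨n, hn⟩ := (Module.End.mem_maxGenEigenspace F y u).1 hu
  obtain ⟨G, hG, hc⟩ := SN_fac F y d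
  refine (Module.End.mem_maxGenEigenspace _ _ u).2 ⟨n, ?_⟩
  rw [hG, hc.symm.mul_pow, Module.End.mul_apply, hn, map_zero]

private theorem SN_chi {χ : ℂ → ℂ} (hχ : ∀ y y', y ≠ 0 → y' ≠ 0 → χ (y * y') = χ y + χ y') {y : ℂ}
    (hy : y ≠ 0) (n : ℕ) : χ (y ^ n) = n * χ y := by
  induction n with
  | zero =>
    have h := hχ 1 1 one_ne_zero one_ne_zero
    rw [mul_one] at h
    rw [pow_zero, Nat.cast_zero, zero_mul]
    exact left_eq_add.1 h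
  | succ n ih =>
    rw [pow_succ, hχ _ _ (pow_ne_zero n hy) hy, ih]
    push_cast
    ring

private theorem SN_inj {H : Type} [AddCommGroup H] [Module ℂ H] {F : End ℂ H}
    (hF0 : ∀ y, F.HasEigenvalue y → y ≠ 0) (n : ℕ) : ∀ v, (F ^ n) v = 0 → v = 0 := by
  have h1 : ∀ v, F v = 0 → v = 0 := by
    intro v hv
    by_contra h0
    refine hF0 0 (Module.End.hasEigenvalue_of_hasEigenvector (x := v) ⟨?_, h0⟩) rfl
    exact Module.End.mem_eigenspace_iff.2 (by rw [hv, zero_smul])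
  induction n with
  | zero =>
    intro v hv
    rwa [pow_zero, Module.End.one_apply] at hv
  | succ n ih =>
    intro v hv
    rw [pow_succ, Module.End.mul_apply] at hv
    exact h1 v (ih _ hv)

theorem own_piece {H : Type} [AddCommGroup H] [Module ℂ H] [FiniteDimensional ℂ H] {F D : End ℂ H} {ι : Type}
    [Fintype ι] {Q : ℕ} (hQ : 1 < Q) {lam : ι → ℂ} {bar : ι → ι} {S : ℂ → Prop} (hR : RelSys Q lam bar S) {χ : ℂ → ℂ}
    (hχ : ∀ y y', y ≠ 0 → y' ≠ 0 → χ (y * y') = χ y + χ y') (hF0 : ∀ y, F.HasEigenvalue y → y ≠ 0) {i : ι}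
    (h1 : χ (lam i) = -1) (h2 : χ (lam (bar i)) = 1) (h3 : ∀ l, l ≠ i → l ≠ bar i → χ (lam l) = 0)
    (h4 : ∀ y, y ≠ 0 → S y → χ y = 0) {d : ℕ} (hd : 0 < d)
    (hDF : ∀ w, ∀ v ∈ (F ^ d).maxGenEigenspace w, D v = (χ w / d) • v)
    {ψ : H →ₗ[ℂ] H →ₗ[ℂ] ℂ} (halt : ∀ u, ψ u u = 0) {U V : Submodule ℂ H} (hUV : U ≤ V) (hFV : ∀ v ∈ V, F v ∈ V)
    (hFU : ∀ v ∈ U, (F ^ d) v ∈ U) (hU : ∀ u ∈ U, (∀ v ∈ U, ψ u v = 0) → u = 0)
    (hsk : ∀ u ∈ U, ∀ v ∈ U, ψ (D u) v + ψ u (D v) = 0)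
    (hev : ∀ y, V ⊓ F.maxGenEigenspace y ≠ ⊥ → (∃ l, lam l = y) ∨ S y)
    (hone : finrank ℂ ↥(U ⊓ F.maxGenEigenspace (lam i)) = 1) :
    ∃ e f : H, e ∈ U ∧ f ∈ U ∧ ψ e f = 1 ∧ ∀ v ∈ U, D v = sq ψ e f v := by
  have hdc : (d : ℂ) ≠ 0 := Nat.cast_ne_zero.2 hd.ne'
  have hq0c : (Q : ℂ) ≠ 0 := by
    have : Q ≠ 0 := by omega
    exact_mod_cast this
  have hlam0 : ∀ l, lam l ≠ 0 := by
    intro l h
    have h5 := hR.mulbar l
    rw [h, zero_mul] at h5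
    exact hq0c h5.symm
  have hpow : ∀ y, y ≠ 0 → χ (y ^ d) / d = χ y := by
    intro y hy
    rw [SN_chi hχ hy, mul_div_cancel_left₀ _ hdc]
  have hcl : ∀ y v, v ∈ V → v ∈ F.maxGenEigenspace y → v ≠ 0 → (∃ l, lam l = y) ∨ (y ≠ 0 ∧ S y) := by
    intro y v hv hy hv0
    rcases hev y (fun h => hv0 ((Submodule.mem_bot ℂ).1 (h ▸ Submodule.mem_inf.2 ⟨hv, hy⟩))) with h | h
    · exact Or.inl h
    · refine Or.inr ⟨hF0 y ?_, h⟩
      have h5 : F.HasUnifEigenvalue y ⊤ := fun h => hv0 ((Submodule.mem_bot ℂ).1 (h ▸ hy))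
      exact h5.lt zero_lt_one
  have hspace : U ⊓ (F ^ d).maxGenEigenspace (lam i ^ d) = U ⊓ F.maxGenEigenspace (lam i) := by
    refine le_antisymm (fun v hv => ?_) (fun v hv => ?_)
    · obtain ⟨hvU, hvE⟩ := Submodule.mem_inf.1 hv
      obtain ⟨s, u, hs, hu⟩ := eig_pow hFV (hUV hvU) hvE
      refine Submodule.mem_inf.2 ⟨hvU, ?_⟩
      rw [hs]
      refine Submodule.sum_mem _ fun y hy => ?_
      obtain ⟨h5, h6, h7⟩ := hu y hy
      rcases eq_or_ne (u y) 0 with h8 | h8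
      · rw [h8]
        exact Submodule.zero_mem _
      · rcases hcl y (u y) h6 h7 h8 with ⟨l, hl⟩ | ⟨-, hS⟩
        · by_cases hli : l = i
          · rw [← hli, hl]
            exact h7
          · exact absurd (by rw [hl, h5]) ((hR.pow_ne hQ hd i).1 l hli)
        · exact absurd h5 ((hR.pow_ne hQ hd i).2 y hS)
    · obtain ⟨hvU, hvE⟩ := Submodule.mem_inf.1 hv
      exact Submodule.mem_inf.2 ⟨hvU, SN_pow F (lam i) d hvE⟩
  refine torus_piece (F := F ^ d) (lam := fun l => lam l ^ d) (bar := bar)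
    (S := fun w => ∃ y, y ≠ 0 ∧ S y ∧ y ^ d = w) (χ := fun w => χ w / d) (i := i) ?_ ?_ ?_ ?_ ?_ hDF halt hFU
    hU hsk ?_ ?_
  · intro y hy h0
    obtain ⟨v, hv⟩ := hy.exists_hasEigenvector
    refine hv.2 (SN_inj hF0 d v ?_)
    rw [hv.apply_eq_smul, h0, zero_smul]
  · show χ (lam i ^ d) / d = -1
    rw [hpow _ (hlam0 i), h1]
  · show χ (lam (bar i) ^ d) / d = 1
    rw [hpow _ (hlam0 _), h2]
  · intro l hl hl'
    show χ (lam l ^ d) / d = 0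
    rw [hpow _ (hlam0 _), h3 l hl hl']
  · rintro w _ ⟨y, hy0, hS, rfl⟩
    show χ (y ^ d) / d = 0
    rw [hpow _ hy0, h4 y hy0 hS]
  · intro w hw
    obtain ⟨v, hv, hv0⟩ := Submodule.exists_mem_ne_zero_of_ne_bot hw
    obtain ⟨hvU, hvE⟩ := Submodule.mem_inf.1 hv
    obtain ⟨s, u, hs, hu⟩ := eig_pow hFV (hUV hvU) hvE
    obtain ⟨y, hy, hy0⟩ : ∃ y ∈ s, u y ≠ 0 := by
      by_contra hno
      push Not at hno
      exact hv0 (hs.trans (Finset.sum_eq_zero hno))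
    obtain ⟨h5, h6, h7⟩ := hu y hy
    rcases hcl y (u y) h6 h7 hy0 with ⟨l, hl⟩ | ⟨h8, hS⟩
    · exact Or.inl ⟨l, by rw [hl, h5]⟩
    · exact Or.inr ⟨y, h8, hS, h5⟩
  · rw [hspace]
    exact hone

end TPM
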