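import Pool.Agent.Lib.MP_021685_agTM.SC

/-! LEAF SO (easy+).  The element `D` if the eigenvalue is simple on `H`.

PROOF.  `torus_piece` (leaf SC) for `U = ⊤` (`hev`: `⊤ ⊓ F.maxGenEigenspace y ≠ ⊥` gives `F.HasEigenvalue y`; `hone`: `top_inf_eq`): there are `e`, `f` with `ψ e f = 1` and `D v = sq ψ e f v` for all `v`.  `D e₀ = χ (lam i) • e₀ = - e₀` (`hDF`, `h1`), so `- e₀ = ψ e e₀ • f + ψ f e₀ • e` (`TPR.sq_apply`).
Apply `ψ e`: `- ψ e e₀ = ψ e e₀` (`ψ e f = 1`, `halt`), so `ψ e e₀ = 0` and `e₀ = c • e` with `c = - ψ f e₀`; `c ≠ 0` as `e₀ ≠ 0`.  Take `c⁻¹ • f`: `ψ e₀ (c⁻¹ • f) = 1`, `sq ψ (c • e) (c⁻¹ • f) = sq ψ e f`. -/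

set_option autoImplicit false

namespace TPM

open Module TPR

theorem own_top {H : Type} [AddCommGroup H] [Module ℂ H] [FiniteDimensional ℂ H] {F D : End ℂ H} {ι : Type}
    {lam : ι → ℂ} {bar : ι → ι} {S : ℂ → Prop} {χ : ℂ → ℂ} (hF0 : ∀ y, F.HasEigenvalue y → y ≠ 0) {i : ι}
    (h1 : χ (lam i) = -1) (h2 : χ (lam (bar i)) = 1) (h3 : ∀ l, l ≠ i → l ≠ bar i → χ (lam l) = 0)
    (h4 : ∀ y, y ≠ 0 → S y → χ y = 0) (hDF : ∀ y, ∀ v ∈ F.maxGenEigenspace y, D v = χ y • v)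
    {ψ : H →ₗ[ℂ] H →ₗ[ℂ] ℂ} (halt : ∀ u, ψ u u = 0) (hnd : ∀ u, (∀ v, ψ u v = 0) → u = 0) (hsk : D ∈ TGR.sp ψ)
    (hev : ∀ y, F.HasEigenvalue y → (∃ l, lam l = y) ∨ S y) (hone : finrank ℂ ↥(F.maxGenEigenspace (lam i)) = 1)
    {e₀ : H} (he₀ : e₀ ∈ F.maxGenEigenspace (lam i)) (h0 : e₀ ≠ 0) :
    ∃ f : H, ψ e₀ f = 1 ∧ ∀ v, D v = sq ψ e₀ f v := by
  have hone' : finrank ℂ ↥((⊤ : Submodule ℂ H) ⊓ F.maxGenEigenspace (lam i)) = 1 := by
    rw [top_inf_eq]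
    exact hone
  obtain ⟨e, f, -, -, hef, hD⟩ := torus_piece (U := (⊤ : Submodule ℂ H)) hF0 h1 h2 h3 h4 hDF halt (fun v _ => Submodule.mem_top)
    (fun u _ h => hnd u fun v => h v Submodule.mem_top) (fun u _ v _ => hsk u v)
    (fun y hy => hev y (by
      rw [top_inf_eq] at hy
      have h : F.HasUnifEigenvalue y ⊤ := hy
      exact h.lt zero_lt_one)) hone'
  have hD' : ∀ v, D v = ψ e v • f + ψ f v • e := fun v => (hD v Submodule.mem_top).trans (sq_apply ψ e f v)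
  have he : D e₀ = - e₀ := by
    rw [hDF _ e₀ he₀, h1, neg_one_smul]
  have h5 : ψ e e₀ • f + ψ f e₀ • e = - e₀ := by
    rw [← hD' e₀, he]
  have h6 : ψ e e₀ = 0 := by
    have h := congrArg (fun v => ψ e v) h5
    simp only [map_add, map_smul, map_neg, smul_eq_mul, hef, halt, mul_one, mul_zero, add_zero] at h
    have h7 : (2 : ℂ) * ψ e e₀ = 0 := by linear_combination h
    exact (mul_eq_zero.1 h7).resolve_left two_ne_zero
  rw [h6, zero_smul, zero_add] at h5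
  have h7 : e₀ = (- ψ f e₀) • e := by
    rw [neg_smul, h5, neg_neg]
  have hc : - ψ f e₀ ≠ 0 := by
    intro h
    rw [h, zero_smul] at h7
    exact h0 h7
  obtain ⟨c, hcdef⟩ : ∃ c, c = - ψ f e₀ := ⟨_, rfl⟩
  rw [← hcdef] at h7 hc
  refine ⟨c⁻¹ • f, ?_, fun v => ?_⟩
  · rw [h7, map_smul, map_smul, LinearMap.smul_apply, hef, smul_eq_mul, smul_eq_mul, mul_one, inv_mul_cancel₀ hc]
  · rw [hD', sq_apply, h7, map_smul, map_smul, LinearMap.smul_apply, LinearMap.smul_apply, smul_smul, smul_smul, smul_eq_mul, smul_eq_mul]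
    congr 1
    · congr 1
      field_simp
    · congr 1
      field_simp

end TPM
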