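import Pool.Agent.Lib.MP_021685_agTM.S0
import Pool.Agent.Lib.MP_021685_agTM.SA
import Pool.Agent.Lib.MP_021685_agTM.SB

/-!
# The element of the Lie algebra which comes from one place
-/

set_option autoImplicit false

namespace TPM

open Polynomial Module Function TPR

/-- The good elements, in terms of relation systems. -/
def RelAt {G W : Type} [Group G] [AddCommGroup W] [Module ℂ W] (σ : Representation ℂ G W) (μ : G →* ℂˣ) (φ : G)
    (P : ℤ[X]) (S : ℂ → Prop) : Prop :=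
  ∃ (Q : ℕ) (ι : Type) (_ : Fintype ι) (_ : DecidableEq ι) (lam : ι → ℂ) (bar : ι → ι), 1 < Q ∧ (μ φ : ℂ) = Q ∧
    RelSys Q lam bar S ∧ P.map (Int.castRingHom ℂ) = ∏ i, (X - C (lam i)) ∧ ∀ y, End.HasEigenvalue (σ φ) y → S y

theorem root_iff {P : ℤ[X]} {ι : Type} [Fintype ι] {lam : ι → ℂ}
    (hprod : P.map (Int.castRingHom ℂ) = ∏ i, (X - C (lam i))) (z : ℂ) : aeval z P = 0 ↔ ∃ i, lam i = z := by
  have hevP : aeval z P = (P.map (Int.castRingHom ℂ)).eval z := by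
    rw [Polynomial.eval_map, Polynomial.aeval_def]
    rfl
  rw [hevP, hprod, eval_prod, Finset.prod_eq_zero_iff]
  constructor
  · rintro ⟨i, -, hi⟩
    rw [eval_sub, eval_X, eval_C, sub_eq_zero] at hi
    exact ⟨i, hi.symm⟩
  · rintro ⟨i, hi⟩
    exact ⟨i, Finset.mem_univ _, by rw [eval_sub, eval_X, eval_C, hi, sub_self]⟩

theorem stab_iff {G H : Type} [Group G] [AddCommGroup H] [Module ℂ H] {ρ : Representation ℂ G H}
    {K : Subgroup G} {S : Submodule ℂ H} : Stab (ρ.comp K.subtype : Representation ℂ K H) ⊤ S ↔ Stab ρ K S := by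
  constructor
  · intro h g hg v hv
    exact h ⟨g, hg⟩ trivial v hv
  · intro h g _ v hv
    exact h g.1 g.2 v hv

theorem eig_ne_zero {G H : Type} [Group G] [AddCommGroup H] [Module ℂ H] (ρ : Representation ℂ G H) (φ : G) :
    ∀ y, End.HasEigenvalue (ρ φ) y → y ≠ 0 := by
  rintro y hy rfl
  obtain ⟨v, hv⟩ := hy.exists_hasEigenvector
  have h1 : ρ φ v = 0 := by rw [hv.apply_eq_smul, zero_smul]
  have h2 : ρ φ⁻¹ (ρ φ v) = v := by
    rw [← Module.End.mul_apply, ← map_mul, inv_mul_cancel, map_one]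
    rfl
  rw [h1, map_zero] at h2
  exact hv.2 h2.symm

theorem exists_tor {G H W : Type} [Group G] [AddCommGroup H] [Module ℂ H] [FiniteDimensional ℂ H] [AddCommGroup W]
    [Module ℂ W] [FiniteDimensional ℂ W] {ρ : Representation ℂ G H} {σ : Representation ℂ G W} {μ : G →* ℂˣ} {φ : G}
    {Q : ℕ} (hQ : 1 < Q) (hφ : (μ φ : ℂ) = Q) {ι : Type} [Fintype ι] {lam : ι → ℂ} {bar : ι → ι} {S : ℂ → Prop}
    (hR : RelSys Q lam bar S) (hsm : ∀ y, End.HasEigenvalue (σ φ) y → S y) (i : ι) {K : Subgroup G} {d : ℕ}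
    (hd : 0 < d) (hφd : φ ^ d ∈ K) (k : ℕ) (m : ℤ) :
    ∃ (χ : ℂ → ℂ) (D : End ℂ H), (∀ y y', y ≠ 0 → y' ≠ 0 → χ (y * y') = χ y + χ y') ∧ χ (lam i) = -1 ∧
      χ (lam (bar i)) = 1 ∧ (∀ l, l ≠ i → l ≠ bar i → χ (lam l) = 0) ∧ (∀ y, y ≠ 0 → S y → χ y = 0) ∧
      Tor (ρ.comp K.subtype : Representation ℂ K H) (σ.comp K.subtype : Representation ℂ K W) (μ.comp K.subtype) k m D ∧
      (∀ y, ∀ v ∈ End.maxGenEigenspace (ρ φ) y, D v = χ y • v) ∧
      ∀ w, ∀ v ∈ End.maxGenEigenspace ((ρ φ : End ℂ H) ^ d) w, D v = (χ w / d) • v := by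
  obtain ⟨χ, hχ, h1, h2, h3, h4⟩ := exists_char hR hQ i
  have hQ0 : (Q : ℂ) ≠ 0 := Nat.cast_ne_zero.2 (by omega)
  obtain ⟨D, hD1, hD2, hD3, hD4, hD5, hD6⟩ := exists_torus (F := ρ φ) (eig_ne_zero ρ φ) hd hχ hQ (h4 _ hQ0 hR.nat)
  have hρd : ρ (φ ^ d) = (ρ φ : End ℂ H) ^ d := map_pow ρ φ d
  have hμd : (μ (φ ^ d) : ℂ) = (Q : ℂ) ^ d := by rw [map_pow, Units.val_pow_eq_pow_val, hφ]
  have hst : ∀ S : Submodule ℂ H, Stab (ρ.comp K.subtype : Representation ℂ K H) ⊤ S →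
      ∀ v ∈ S, ((ρ φ : End ℂ H) ^ d) v ∈ S := by
    intro S hS v hv
    rw [← hρd]
    exact (stab_iff.1 hS) _ hφd v hv
  refine ⟨χ, D, hχ, h1, h2, h3, h4, ⟨fun S hS => hD2 S (hst S hS), fun β S S' hS hS' hβ => ?_,
    fun S hS => hD4 S (hst S hS), fun T hT => ?_⟩, hD1, hD6⟩
  · refine hD3 β S S' (hst S hS) (hst S' hS') fun u hu v hv => ?_
    have h := hβ ⟨φ ^ d, hφd⟩ u hu v hv
    rw [← hρd, ← hμd]
    exact h
  · refine hD5 W (σ φ) (fun y hy h0 => h4 y h0 (hsm y hy)) k ((d : ℤ) * m) T fun v w => ?_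
    have h1 := hT ⟨φ ^ d, hφd⟩ trivial v w
    have h2 : ((((μ.comp K.subtype) ⟨φ ^ d, hφd⟩ ^ m : ℂˣ)) : ℂ) = (Q : ℂ) ^ ((d : ℤ) * m) := by
      show (((μ (φ ^ d)) ^ m : ℂˣ) : ℂ) = _
      rw [Units.val_zpow_eq_zpow_val, map_pow, Units.val_pow_eq_pow_val, hφ, zpow_mul, zpow_natCast]
    rw [h2] at h1
    rw [← h1]
    show T (fun a => ((ρ φ : End ℂ H) ^ d) (v a)) (((σ φ : End ℂ W) ^ d) w) =
      T (fun a => ρ (φ ^ d) (v a)) (σ (φ ^ d) w)
    rw [map_pow, map_pow]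

theorem Tor.neg {G H W : Type} [Group G] [AddCommGroup H] [Module ℂ H] [AddCommGroup W] [Module ℂ W]
    {ρ : Representation ℂ G H} {σ : Representation ℂ G W} {μ : G →* ℂˣ} {k : ℕ} {m : ℤ} {D : End ℂ H}
    (h : Tor ρ σ μ k m D) : Tor ρ σ μ k m (-D) := by
  refine ⟨fun S hS v hv => ?_, fun β S S' hS hS' hβ u hu v hv => ?_, fun S hS => ?_, fun T hT => ?_⟩
  · rw [LinearMap.neg_apply]
    exact neg_mem (h.stab S hS v hv)
  · rw [LinearMap.neg_apply, LinearMap.neg_apply, map_neg, LinearMap.neg_apply, map_neg, ← neg_add,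
      h.skew β S S' hS hS' hβ u hu v hv, neg_zero]
  · refine (h.diag S hS).trans (Submodule.span_mono ?_)
    rintro w ⟨hw, a, ha⟩
    exact ⟨hw, -a, by rw [LinearMap.neg_apply, ha, neg_smul]⟩
  · exact neg_mem (h.kill T hT)

end TPM
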