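import Pool.Agent.Lib.MP_021685_agTM.SZ
import Pool.Agent.Lib.MP_021685_agTM.RR
import Pool.Agent.Lib.MP_021685_agTM.RS
import Pool.Agent.Lib.MP_021685_agTM.OD
import Pool.Agent.Lib.MP_021685_agTAL.AL6
import Pool.Agent.Lib.MP_021685_agSP.SPT

/-! The main theorem for number fields: every factor with a good place of its own. -/

set_option autoImplicit false

namespace TPM

open Polynomial Module TI

/-- The roots of a good polynomial `P` form a relation system. -/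
theorem relSys_of_good {Q : ℕ} {P : ℤ[X]} {S : ℂ → Prop} (h : Good Q P S) :
    ∃ (ι : Type) (_ : Fintype ι) (_ : DecidableEq ι) (lam : ι → ℂ) (bar : ι → ι), RelSys Q lam bar S ∧
      P.map (Int.castRingHom ℂ) = ∏ i, (X - C (lam i)) := by
  classical
  obtain ⟨hQ, hmon, hsep, habs, hS1, hSQ, hSm, hSi, hF⟩ := h
  obtain ⟨ι, _, lam, hprod, hinj⟩ : ∃ (ι : Type) (_ : Fintype ι) (lam : ι → ℂ),
      P.map (Int.castRingHom ℂ) = ∏ i, (X - C (lam i)) ∧ Function.Injective lam := by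
    refine ⟨{z : ℂ // z ∈ (P.map (Int.castRingHom ℂ)).roots.toFinset}, inferInstance, fun z => z.1, ?_,
      Subtype.val_injective⟩
    have h1 : (P.map (Int.castRingHom ℂ)).Monic := hmon.map _
    have h2 := (IsAlgClosed.splits (P.map (Int.castRingHom ℂ))).eq_prod_roots_of_monic h1
    have h3 : (P.map (Int.castRingHom ℂ)).roots.Nodup := nodup_roots hsep
    conv_lhs => rw [h2]
    rw [Finset.prod_coe_sort (P.map (Int.castRingHom ℂ)).roots.toFinset fun z => (X - C z : ℂ[X]),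
      Finset.prod_multiset_map_count]
    refine Finset.prod_congr rfl fun z hz => ?_
    rw [Multiset.count_eq_one_of_mem h3 (Multiset.mem_toFinset.1 hz), pow_one]
  have hW : ∀ z : ℂ, aeval z P = 0 → ‖z‖ ^ 2 = (Q : ℝ) ∧ z ^ 2 ≠ (Q : ℂ) := by
    intro z hz
    refine ⟨?_, ?_⟩
    · have h1 := habs z hz
      rw [Complex.mul_conj, Complex.normSq_eq_norm_sq] at h1
      exact_mod_cast h1
    · obtain ⟨i, rfl⟩ := (root_iff hprod z).1 hz
      exact sq_ne_of_fullFor hF hS1 hprod i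
  have hSn : ∀ n : ℕ, S ((Q : ℂ) ^ n) := by
    intro n
    induction n with
    | zero => rw [pow_zero]; exact hS1
    | succ n ih => rw [pow_succ]; exact hSm _ _ ih hSQ
  obtain ⟨-, bar, hbb, hbn, hbar⟩ := TLF.exists_bar hprod hinj hW
  exact ⟨ι, inferInstance, inferInstance, lam, bar, ⟨hinj, hbb, hbn, hbar, hS1, hSQ, hSm, fun y _ hy => hSi y hy,
    fun n y hy hn i => rel_of_fullFor hQ hSm hSn hF hprod hinj bar hbb hbar n hy hn i⟩, hprod⟩

/-- From good places to relation systems. -/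
theorem relAt_of_goodAt {G W : Type} [Group G] [AddCommGroup W] [Module ℂ W] {σ : Representation ℂ G W}
    {μ : G →* ℂˣ} {φ : G} {P : ℤ[X]} {S : ℂ → Prop} (h : GoodAt σ μ φ P S) : RelAt σ μ φ P S := by
  obtain ⟨Q, hg, hφ, hsm⟩ := h
  obtain ⟨ι, hι1, hι2, lam, bar, hR, hprod⟩ := relSys_of_good hg
  exact ⟨Q, ι, hι1, hι2, lam, bar, hg.1, hφ, hR, hprod, hsm⟩

theorem Enough.imp {G H : Type} [Group G] [AddCommGroup H] [Module ℂ H] [FiniteDimensional ℂ H]
    {ρ : Representation ℂ G H} {μ : G →* ℂˣ} {R R' : G → ℤ[X] → (ℂ → Prop) → Prop} (hR : ∀ φ P S, R φ P S → R' φ P S)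
    (h : Enough R ρ μ) : Enough R' ρ μ := by
  have ho : ∀ U, Own R ρ μ U → Own R' ρ μ U := by
    rintro U ⟨φ, P, S, V, z, h1, h2⟩
    exact ⟨φ, P, S, V, z, hR φ P S h1, h2⟩
  rcases h with ⟨φ, P, S, h1, h2⟩ | ⟨h1, h2, h3⟩
  · exact Or.inl ⟨φ, P, S, hR φ P S h1, h2⟩
  · refine Or.inr ⟨h1, fun U hU => (h2 U hU).imp_right (ho U), ?_⟩
    rcases h3 with h3 | ⟨φ, P, S, h4, h5⟩
    · exact Or.inl fun U hU => ho U (h3 U hU)
    · exact Or.inr ⟨φ, P, S, hR φ P S h4, h5⟩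

/-- The main theorem for groups. -/
theorem fullG : FullG := by
  intro G H W _ _ _ _ _ _ _ ρ σ μ hform hen G' k m T hG' hT
  exact full_of_enough hform (hen.imp fun φ P S h => relAt_of_goodAt h) hG' hT

/-- The polynomials over the fields of a family. -/
theorem good_of_family {r : ℕ} {g : Fin r → ℕ} {E : Fin r → Type} [∀ i, Field (E i)] [∀ i, NumberField (E i)]
    (hE : Family g E) {Q : ℕ} (hQ : 1 < Q) {P : ℤ[X]} (hP : TGR.IsOver Q E P) :
    Good Q P fun y => ∀ i, TAF.Small Q (TAL.Gens (E i)) (g i) y := by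
  obtain ⟨hE, hA⟩ := hE
  obtain ⟨hmon, hsep, J, _, a, ha, hind, hroot⟩ := hP
  have hF := ((TSP.tateFields hE hA Q J a P (by omega) hmon ha hroot).1 hind).2
  have hg : ∀ i, 0 < g i := by
    intro i
    have h1 : 0 < finrank ℚ (E i) := finrank_pos
    have h2 := (hE i).2
    omega
  refine ⟨hQ, hmon, hsep, fun z hz => ?_, fun i => small_one, fun i => small_nat (hg i) Q,
    fun y y' hy hy' i => small_mul (hy i) (hy' i), fun y hy i => ?_, fun V W _ _ _ _ _ _ F G' hFs hc hG' =>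
      hF V W F G' hFs hc fun y hy i _ => hG' y hy i⟩
  · obtain ⟨i, k, φ, rfl⟩ := (hroot z).1 hz
    exact ha i k φ
  · rcases eq_or_ne y 0 with rfl | h0
    · rw [inv_zero]
      exact hy i
    · exact small_inv h0 (hy i)

/-- The fields generated by the Frobenius elements of generic polynomials. -/
theorem over_of_generic {q g r : ℕ} (hq : 0 < q) (hg : 2 ≤ g) {t : Fin r → ℤ[X]} (ht : ∀ i, t i ∈ TI.Weil q g)
    (hG : TAL.GenericFields q g t) (E : Fin r → Type) [∀ i, Field (E i)] [∀ i, NumberField (E i)]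
    (hF : ∀ i, HIA.IsFrobField q (t i) (E i)) :
    Family (fun _ => g) E ∧ TGR.IsOver q E (∏ i, TI.frobPoly q (t i)) := by
  obtain ⟨hE, hiso⟩ := hG E hF
  have hA : TAL.Apart E := fun i j hij => ⟨⟨fun e => hij (hiso i j ⟨e⟩)⟩, Or.inr (Or.inl fun σ _ => (hE i).1.2.2 σ)⟩
  refine ⟨⟨fun i => ⟨(hE i).1.1, (hE i).2⟩, TSP.sep_of_signs (fun i => ⟨(hE i).1.1, (hE i).1.2.1⟩) hA⟩, ?_⟩
  choose a ha htop using hF
  have hroots : ∀ (i : Fin r) (z : ℂ), z ∈ TAF.Roots q (t i) ↔ ∃ φ : E i →+* ℂ, φ (a i) = z := by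
    intro i z
    refine ⟨fun hz => TAF.exists_root (ht i) (hE i).2 (ha i) (htop i) hz, ?_⟩
    rintro ⟨φ, rfl⟩
    exact TAF.root_of_emb (ha i) φ
  have hW : ∀ (i : Fin r) (φ : E i →+* ℂ), φ (a i) * starRingEnd ℂ (φ (a i)) = (q : ℂ) := fun i φ =>
    TAL.weil_abs hq (ht i) ((hroots i _).2 ⟨φ, rfl⟩)
  have hinj : ∀ i j, i ≠ j → t i ≠ t j := by
    intro i j hij h
    obtain ⟨φ⟩ : Nonempty (E i →+* ℂ) := inferInstance
    obtain ⟨ψ, hψ⟩ := (hroots j (φ (a i))).1 (by rw [← h]; exact (hroots i _).2 ⟨φ, rfl⟩)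
    have h1 : φ.toRatAlgHom.range = ψ.toRatAlgHom.range := by
      refine le_antisymm ?_ ?_
      · rintro _ ⟨x, rfl⟩
        exact TAF.mem_of_adjoin ψ.toRatAlgHom.fieldRange φ (htop i) ⟨a j, hψ⟩ x
      · rintro _ ⟨x, rfl⟩
        exact TAF.mem_of_adjoin φ.toRatAlgHom.fieldRange ψ (htop j) ⟨a i, hψ.symm⟩ x
    exact hij (hiso i j ⟨((AlgEquiv.ofInjectiveField φ.toRatAlgHom).trans
      ((Subalgebra.equivOfEq _ _ h1).trans (AlgEquiv.ofInjectiveField ψ.toRatAlgHom).symm)).toRingEquiv⟩)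
  have hsep : ((∏ i, TI.frobPoly q (t i)).map (Int.castRingHom ℚ)).Separable :=
    TAL.sep_frob (g := fun _ => g) hq ht (fun i => TAL.irr_of_field (ht i) (ha i) (htop i) (hE i).2) hinj
  refine ⟨monic_prod_of_monic _ _ fun i _ => (TAF.frob_monic q (t i) (ht i).1).1, ?_, fun _ => Unit, fun _ => inferInstance,
    fun i _ => a i, fun i _ φ => hW i φ, fun i => TAL.indep_single (hE i).1.2.1 hq hg (hE i).2 (htop i) (hW i), fun z => ?_⟩
  · have h1 := hsep.map (f := algebraMap ℚ ℂ)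
    rw [Polynomial.map_map] at h1
    exact h1
  · rw [map_prod, Finset.prod_eq_zero_iff]
    constructor
    · rintro ⟨i, -, hi⟩
      obtain ⟨φ, hφ⟩ := (hroots i z).1 hi
      exact ⟨i, (), φ, hφ⟩
    · rintro ⟨i, _, φ, hφ⟩
      exact ⟨i, Finset.mem_univ _, (hroots i z).2 ⟨φ, hφ⟩⟩

end TPM
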