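import Pool.Agent.Lib.MP_021685_agTM.S0
import Pool.Agent.Lib.MP_021685_agTM.SI
import Pool.Agent.Lib.MP_021685_agTM.SJ
import Pool.Agent.Lib.MP_021685_agTM.SK

/-!
# All the pieces, each with an element of its own
-/

set_option autoImplicit false

namespace TPM

open Module TPR

section

variable {G H W X : Type} [Group G] [AddCommGroup H] [Module ℂ H] [FiniteDimensional ℂ H] [AddCommGroup W]
  [Module ℂ W] [Fintype X] {ρ : Representation ℂ G H} {σ : Representation ℂ G W} {μ : G →* ℂˣ}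
  {U : X → Submodule ℂ H} {pr : X → End ℂ H} {bar : X → X} {ψ : H →ₗ[ℂ] H →ₗ[ℂ] ℂ} {k : ℕ} {m : ℤ}
  {T : MultilinearMap ℂ (fun _ : Fin k => H) (W →ₗ[ℂ] ℂ)} {K L : X → Prop}

omit [FiniteDimensional ℂ H] in
theorem Tor.mem_Ap {D : End ℂ H} (h : Tor ρ σ μ k m D) (hC : Cx ρ μ U pr bar ψ) (hT : TGR.IsTate ρ σ μ ⊤ m T) :
    D ∈ Ap T ψ U :=
  ⟨⟨h.kill T hT, TGR.mem_sp.2 fun u v => h.skew ψ ⊤ ⊤ (fun _ _ _ _ => trivial) (fun _ _ _ _ => trivial)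
    (fun g u _ v _ => hC.sim g u v) u trivial v trivial⟩, fun z w hw => h.stab _ (hC.dec.stab z) w hw⟩

/-- The pieces with an eigenvalue which is simple on `H`. -/
theorem kill_top (hC : Cx ρ μ U pr bar ψ) (hT : TGR.IsTate ρ σ μ ⊤ m T) {x : X} (h3 : ∃ (D : End ℂ H) (e f : H),
      Tor ρ σ μ k m D ∧ e ∈ U x ∧ f ∈ U (bar x) ∧ ψ e f = 1 ∧ ∀ v, D v = sq ψ e f v) {u v : H}
    (hu : u ∈ U x) (hv : v ∈ U (bar x)) : sq ψ u v ∈ TGR.kill T := by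
  obtain ⟨D, e, f, hD, he, hf, hef, hDv⟩ := h3
  have h1 : D = sq ψ e f := LinearMap.ext hDv
  exact piece_one hC hT he hf (by rw [hef]; exact one_ne_zero) (h1 ▸ hD.kill T hT) hu hv

/-- All the `sq ψ u v` kill the form `T`, for a symplectic piece. -/
theorem kill_own (hC : Cx ρ μ U pr bar ψ) (hL : ∀ x, L x → finrank ℂ (U x) ≤ 1)
    (h3 : ∀ x, K x → ∃ (D : End ℂ H) (e f : H),
      Tor ρ σ μ k m D ∧ e ∈ U x ∧ f ∈ U (bar x) ∧ ψ e f = 1 ∧ ∀ v, D v = sq ψ e f v)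
    (h1 : ∀ x, ¬ K x → ¬ L x → bar x = x ∧ ∃ (D : End ℂ H) (e f : H),
      Tor ρ σ μ k m D ∧ e ∈ U x ∧ f ∈ U x ∧ ψ e f = 1 ∧ ∀ v ∈ U x, D v = sq ψ e f v) {r : X → X}
    (hr : ∀ x y, Iso ρ pr x y → r x = r y) (hT : TGR.IsTate ρ σ μ ⊤ m T)
    (hN : ∀ y, r y ≠ y → ∀ v a, v a ∈ U y → T v = 0) {x : X} (hKx : ¬ K x) (hLx : ¬ L x) {u v : H} (hu : u ∈ U x)
    (hv : v ∈ U x) : sq ψ u v ∈ TGR.kill T := by
  classical
  obtain ⟨hx, D, e, f, hD, he, hf, hef, hDv⟩ := h1 x hKx hLx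
  by_cases hrx : r x = x
  swap
  · exact kill_zero (N := fun y => r y ≠ y) hN hrx hu hv
  have hτ := hD.mem_Ap hC hT
  have hfull : ∀ a ∈ U x, ∀ b ∈ U x, ∃ Y ∈ Ap T ψ U, ∀ w ∈ U x, Y w = sq ψ a b w := fun a ha b hb =>
    restr hC hT hx he hf (by rw [hef]; exact one_ne_zero) hτ hDv ha hb
  obtain ⟨Y, hY, hY1, hY2⟩ := goursat hC hx hfull (Finset.univ.filter fun y => y ≠ x ∧ r y = y) (by
    intro y hy
    obtain ⟨-, hyx, hry⟩ := Finset.mem_filter.1 hy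
    have hiso : ¬ Iso ρ pr y x := fun h => hyx (by rw [← hry, hr y x h, hrx])
    by_cases hKy : K y
    · exact pair_sub hC (Ne.symm hyx) hx hfull fun a ha b hb => kill_top hC hT (h3 y hKy) ha hb
    by_cases hLy : L y
    · exact pair_one hC hx hfull (hL y hLy)
    obtain ⟨hyb, D', e', f', hD', he', hf', hef', hDv'⟩ := h1 y hKy hLy
    exact pair2 hC hT (Ne.symm hyx) hx hyb hτ he hf hef hDv (hD.diag _ (hC.dec.stab y)) (hD'.mem_Ap hC hT) he' hf' hef'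
      hDv' hiso) u hu v hv
  exact kill_diff hC (N := fun y => r y ≠ y) hN hx (not_not.2 hrx) hY hu hv hY1 (fun z hz hNz w hw =>
    hY2 z (Finset.mem_filter.2 ⟨Finset.mem_univ _, hz, not_not.1 hNz⟩) w hw)

/-- All the `sq ψ u v` kill the form `T`. -/
theorem kill_all (hC : Cx ρ μ U pr bar ψ) (hL : ∀ x, L x → finrank ℂ (U x) ≤ 1)
    (h3 : ∀ x, K x → ∃ (D : End ℂ H) (e f : H),
      Tor ρ σ μ k m D ∧ e ∈ U x ∧ f ∈ U (bar x) ∧ ψ e f = 1 ∧ ∀ v, D v = sq ψ e f v)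
    (h1 : ∀ x, ¬ K x → ¬ L x → bar x = x ∧ ∃ (D : End ℂ H) (e f : H),
      Tor ρ σ μ k m D ∧ e ∈ U x ∧ f ∈ U x ∧ ψ e f = 1 ∧ ∀ v ∈ U x, D v = sq ψ e f v)
    (h2 : ∀ x, L x → ∃ (D : End ℂ H) (e : H),
      Tor ρ σ μ k m D ∧ e ∈ U x ∧ e ≠ 0 ∧ D e = -e ∧ ∀ z, z ≠ x → z ≠ bar x → L z → ∀ v ∈ U z, D v = 0) {r : X → X}
    (hr : ∀ x y, Iso ρ pr x y → r x = r y) (hT : TGR.IsTate ρ σ μ ⊤ m T)
    (hN : ∀ y, r y ≠ y → ∀ v a, v a ∈ U y → T v = 0) (x : X) {u v : H} (hu : u ∈ U x)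
    (hv : v ∈ U (bar x)) : sq ψ u v ∈ TGR.kill T := by
  by_cases hKx : K x
  · exact kill_top hC hT (h3 x hKx) hu hv
  by_cases hLx : L x
  · obtain ⟨D, e₀, hD, he₀, h0, hDe, hz⟩ := h2 x hLx
    have hτ := hD.mem_Ap hC hT
    obtain ⟨e, f, he, hf, hef, hk⟩ := line_kill3 hC (N := fun y => r y ≠ y) hN (hL x hLx) hτ.2 hτ.1.2 hτ.1.1 he₀ h0 hDe
      (fun z hzx hzb _ => by
        by_cases hKz : K z
        · exact Or.inr fun a ha b hb => kill_top hC hT (h3 z hKz) ha hb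
        by_cases hLz : L z
        · exact Or.inl (hz z hzx hzb hLz)
        · refine Or.inr fun a ha b hb => ?_
          rw [(h1 z hKz hLz).1] at hb
          exact kill_own hC hL h3 h1 hr hT hN hKz hLz ha hb)
    exact piece_one hC hT he hf (by rw [hef]; exact one_ne_zero) hk hu hv
  · rw [(h1 x hKx hLx).1] at hv
    exact kill_own hC hL h3 h1 hr hT hN hKx hLx hu hv

end

end TPM
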