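import Pool.Agent.Lib.MP_021685_agTM.SX
import Pool.Agent.Lib.MP_021685_agTM.QN
import Pool.Agent.Lib.MP_021685_agTP.PM1
import Pool.Agent.Lib.MP_021685_agTP.PN
import Pool.Agent.Lib.MP_021685_agTP.PT

/-!
# All the Tate forms, for a connected group
-/

set_option autoImplicit false

namespace TPM

open Module TPR

variable {G H W X : Type} [Group G] [AddCommGroup H] [Module ℂ H] [FiniteDimensional ℂ H] [AddCommGroup W]
  [Module ℂ W] [FiniteDimensional ℂ W] [Fintype X] {ρ : Representation ℂ G H} {σ : Representation ℂ G W} {μ : G →* ℂˣ}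
  {U : X → Submodule ℂ H} {pr : X → End ℂ H} {bar : X → X} {ψ : H →ₗ[ℂ] H →ₗ[ℂ] ℂ} {k : ℕ} {m : ℤ} {K L : X → Prop}

/-- The Tate forms of a connected group. -/
theorem span_own (hC : Cx ρ μ U pr bar ψ) (hL : ∀ x, L x → finrank ℂ (U x) ≤ 1)
    (h3 : ∀ x, K x → ∃ (D : End ℂ H) (e f : H),
      Tor ρ σ μ k m D ∧ e ∈ U x ∧ f ∈ U (bar x) ∧ ψ e f = 1 ∧ ∀ v, D v = sq ψ e f v)
    (h1 : ∀ x, ¬ K x → ¬ L x → bar x = x ∧ ∃ (D : End ℂ H) (e f : H),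
      Tor ρ σ μ k m D ∧ e ∈ U x ∧ f ∈ U x ∧ ψ e f = 1 ∧ ∀ v ∈ U x, D v = sq ψ e f v)
    (h2 : ∀ x, L x → ∃ (D : End ℂ H) (e : H),
      Tor ρ σ μ k m D ∧ e ∈ U x ∧ e ≠ 0 ∧ D e = -e ∧ ∀ z, z ≠ x → z ≠ bar x → L z → ∀ v ∈ U z, D v = 0)
    {T : MultilinearMap ℂ (fun _ : Fin k => H) (W →ₗ[ℂ] ℂ)} (hT : TGR.IsTate ρ σ μ ⊤ m T) :
    ∃ G'' : Subgroup G, G''.FiniteIndex ∧
      T ∈ Submodule.span ℂ {T' : MultilinearMap ℂ (fun _ : Fin k => H) (W →ₗ[ℂ] ℂ) | TGR.IsProduct ρ σ μ G'' m T'} := by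
  classical
  obtain ⟨r, R, Q, hrr, hr, -, hRe, hQe, hRQ, hR0⟩ := exists_reps hC.dec
  refine recomb hC.dec hrr hRe hQe hRQ hR0 (fun T hT hN => ?_) hT
  have hmem := fun (x : X) (u v : H) (hu : u ∈ U x) (hv : v ∈ U (bar x)) =>
    kill_all hC hL h3 h1 h2 hr hT hN x hu hv
  obtain ⟨n, u, u', h1, h2, h3, h4, h5⟩ := exists_family hC.alt hC.nd (A := TGR.kill T) (𝒟 := Set.range U)
    (Set.finite_range _) (by
      rw [eq_top_iff]
      intro v _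
      rw [← hC.dec.sum v]
      exact Submodule.sum_mem _ fun x _ => (le_sSup (Set.mem_range_self x) : U x ≤ sSup (Set.range U))
        (hC.dec.mem x v)) (by
      rintro D ⟨x, rfl⟩
      refine ⟨_, ⟨bar x, rfl⟩, ?_, fun u hu v hv => hmem x u v hu hv⟩
      rintro D'' ⟨y, rfl⟩ hne u hu v hv
      exact hC.orth x y (fun h => hne (h ▸ rfl)) u hu v hv)
  obtain ⟨b, hb, hnf⟩ := hyp_basis hC.alt h1 h2 h3 h5
  exact full_of_torus hC.sim hnf (inferInstance : (⊤ : Subgroup G).FiniteIndex) hT fun x hx =>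
    diag_mem hnf (A := TGR.kill T) (fun a => by rw [(hb a).1, (hb a).2]; exact h4 a) hx

end TPM
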