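import Pool.Agent.Lib.MP_021685_agTM.QA
import Pool.Agent.Lib.MP_021685_agTM.RB
import Pool.Agent.Lib.MP_021685_agTM.QD
import Pool.Agent.Lib.MP_021685_agTM.QM
import Pool.Agent.Lib.MP_021685_agTM.ST
import Pool.Agent.Lib.MP_021685_agTM.SG
import Pool.Agent.Lib.MP_021685_agTM.SL
import Pool.Agent.Lib.MP_021685_agTM.SN
import Pool.Agent.Lib.MP_021685_agTM.SO
import Pool.Agent.Lib.MP_021685_agTM.SY
import Pool.Agent.Lib.MP_021685_agTP.PG
import Pool.Agent.Lib.MP_021685_agTP.PH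
import Pool.Agent.Lib.MP_021685_agTG.GX

/-!
# Enough good elements
-/

set_option autoImplicit false

namespace TPM

open Polynomial Module Function TPR

private theorem SZ_conn {G H : Type} [Group G] [AddCommGroup H] [Module ℂ H] {ρ : Representation ℂ G H}
    {K₁ K₂ : Subgroup G} (hle : K₂ ≤ K₁) (hK₂ : K₂.FiniteIndex)
    (hmin : ∀ K' : Subgroup G, K' ≤ K₁ → K'.FiniteIndex → ∀ S : Submodule ℂ H, Stab ρ K' S → Stab ρ K₁ S)
    (K : Subgroup K₂) (hK : K.FiniteIndex) (S : Submodule ℂ H)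
    (hS : Stab (ρ.comp K₂.subtype : Representation ℂ K₂ H) K S) :
    Stab (ρ.comp K₂.subtype : Representation ℂ K₂ H) ⊤ S := by
  rw [stab_iff]
  have h1 : (K.map K₂.subtype).FiniteIndex := by
    refine ⟨?_⟩
    rw [Subgroup.index_map_subtype]
    exact mul_ne_zero hK.index_ne_zero hK₂.index_ne_zero
  have h2 : Stab ρ K₁ S := by
    refine hmin _ ?_ h1 S ?_
    · rintro g ⟨g', -, rfl⟩
      exact hle g'.2
    · rintro g ⟨g', hg', rfl⟩ v hv
      exact hS g' hg' v hv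
  exact fun g hg => h2 g (hle hg)

section

variable {G H W X : Type} [Group G] [AddCommGroup H] [Module ℂ H] [FiniteDimensional ℂ H] [AddCommGroup W]
  [Module ℂ W] [FiniteDimensional ℂ W] [Fintype X] {ρ : Representation ℂ G H} {σ : Representation ℂ G W}
  {μ : G →* ℂˣ} {K : Subgroup G} {U : X → Submodule ℂ H} {pr : X → End ℂ H} {k : ℕ} {m : ℤ}

omit [Fintype X] in
/-- The element for a piece of the first kind. -/
private theorem SZ_top {ψ : H →ₗ[ℂ] H →ₗ[ℂ] ℂ} (halt : ∀ u, ψ u u = 0) (hnd : ∀ u, (∀ v, ψ u v = 0) → u = 0)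
    (hψ : ∀ (g : K) (u v : H), ψ ((ρ.comp K.subtype : Representation ℂ K H) g u)
      ((ρ.comp K.subtype : Representation ℂ K H) g v) = (μ.comp K.subtype) g * ψ u v) {φ : G}
    {d : ℕ} (hd : 0 < d) (hφd : φ ^ d ∈ K) {Q : ℕ} (hQ : 1 < Q) (hφ : (μ φ : ℂ) = Q) {ι : Type} [Fintype ι]
    {lam : ι → ℂ} {bar : ι → ι} {S : ℂ → Prop} (hR : RelSys Q lam bar S)
    (hsm : ∀ y, End.HasEigenvalue (σ φ) y → S y)
    (hev : ∀ y, End.HasEigenvalue (ρ φ) y → (∃ l, lam l = y) ∨ S y) {i : ι}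
    (hone : finrank ℂ ↥(End.maxGenEigenspace (ρ φ) (lam i)) = 1) {x : X}
    (hx : U x ⊓ End.maxGenEigenspace (ρ φ) (lam i) ≠ ⊥) :
    ∃ (D : End ℂ H) (e f : H), Tor (ρ.comp K.subtype : Representation ℂ K H)
      (σ.comp K.subtype : Representation ℂ K W) (μ.comp K.subtype) k m D ∧ e ∈ U x ∧ ψ e f = 1 ∧
        ∀ v, D v = sq ψ e f v := by
  obtain ⟨χ, D, hχ, h1, h2, h3, h4, hT, hD1, hD2⟩ := exists_tor (ρ := ρ) hQ hφ hR hsm i hd hφd k m
  obtain ⟨e, ⟨heU, heE⟩, he0⟩ := (Submodule.ne_bot_iff _).1 hx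
  obtain ⟨f, hef, hDf⟩ := own_top (eig_ne_zero ρ φ) h1 h2 h3 h4 hD1 halt hnd (TGR.mem_sp.2 fun u v =>
    hT.skew ψ ⊤ ⊤ (fun _ _ _ _ => trivial) (fun _ _ _ _ => trivial) (fun g u _ v _ => hψ g u v) u trivial v trivial)
    hev hone heE he0
  exact ⟨D, e, f, hT, heU, hef, hDf⟩

/-- The element for a piece of dimension one. -/
private theorem SZ_line {bX : X → X} {ψ : H →ₗ[ℂ] H →ₗ[ℂ] ℂ}
    (hC : Cx (ρ.comp K.subtype : Representation ℂ K H) (μ.comp K.subtype) U pr bX ψ) {φ : G}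
    {d : ℕ} (hd : 0 < d) (hφd : φ ^ d ∈ K) {Q : ℕ} (hQ : 1 < Q) (hφ : (μ φ : ℂ) = Q) {ι : Type} [Fintype ι]
    {lam : ι → ℂ} {bar : ι → ι} {S : ℂ → Prop} (hR : RelSys Q lam bar S)
    (hsm : ∀ y, End.HasEigenvalue (σ φ) y → S y)
    (hline : ∀ x, finrank ℂ (U x) ≤ 1 → ∃ i, U x ≤ End.maxGenEigenspace (ρ φ) (lam i))
    (hdist : ∀ x y i, finrank ℂ (U x) ≤ 1 → finrank ℂ (U y) ≤ 1 → U x ≤ End.maxGenEigenspace (ρ φ) (lam i) →
      U y ≤ End.maxGenEigenspace (ρ φ) (lam i) → x = y) {x : X} (hx : finrank ℂ (U x) ≤ 1) :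
    ∃ (D : End ℂ H) (e : H), Tor (ρ.comp K.subtype : Representation ℂ K H)
      (σ.comp K.subtype : Representation ℂ K W) (μ.comp K.subtype) k m D ∧ e ∈ U x ∧ e ≠ 0 ∧ D e = -e ∧
        ∀ z, z ≠ x → z ≠ bX x → finrank ℂ (U z) ≤ 1 → ∀ v ∈ U z, D v = 0 := by
  obtain ⟨i, hi⟩ := hline x hx
  obtain ⟨χ, D, hχ, h1, h2, h3, h4, hT, hD1, hD2⟩ := exists_tor (ρ := ρ) hQ hφ hR hsm i hd hφd k m
  obtain ⟨e, he, he0⟩ := (Submodule.ne_bot_iff _).1 (hC.dec.ne x)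
  have hDe : D e = -e := by rw [hD1 _ e (hi he), h1, neg_one_smul]
  refine ⟨D, e, hT, he, he0, hDe, fun z hzx hzb hz v hv => ?_⟩
  obtain ⟨l, hl⟩ := hline z hz
  rw [hD1 _ v (hl hv), h3 l (fun h => hzx ?_) (fun h => hzb ?_), zero_smul]
  · subst h
    exact hdist z x l hz hx hl hi
  · have hbx : finrank ℂ (U (bX x)) ≤ 1 := (fin_bar hC x).trans hx
    obtain ⟨l', hl'⟩ := hline (bX x) hbx
    obtain ⟨w, hw⟩ : ∃ w, ψ e w ≠ 0 := by
      by_contra hcon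
      push Not at hcon
      exact he0 (hC.nd e hcon)
    rw [hC.sum_form he] at hw
    have hw' := hC.dec.mem (bX x) w
    have h5 := hT.skew ψ ⊤ ⊤ (fun _ _ _ _ => trivial) (fun _ _ _ _ => trivial) (fun g u _ v _ => hC.sim g u v) e trivial
      (pr (bX x) w) trivial
    rw [hDe, hD1 _ _ (hl' hw'), map_neg, LinearMap.neg_apply, map_smul, smul_eq_mul] at h5
    have h6 : χ (lam l') = 1 := by
      have h7 : (χ (lam l') - 1) * ψ e (pr (bX x) w) = 0 := by linear_combination h5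
      rcases mul_eq_zero.1 h7 with h8 | h8
      · exact sub_eq_zero.1 h8
      · exact absurd h8 hw
    have h7 : l' = bar i := by
      by_contra hne
      by_cases hl'i : l' = i
      · rw [hl'i, h1] at h6
        norm_num at h6
      · rw [h3 l' hl'i hne] at h6
        exact zero_ne_one h6
    exact hdist z (bX x) l hz hbx hl (by rw [h, ← h7]; exact hl')

end

/-- The theorem, over relation systems. -/
theorem full_of_enough {G H W : Type} [Group G] [AddCommGroup H] [Module ℂ H] [FiniteDimensional ℂ H] [AddCommGroup W]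
    [Module ℂ W] [FiniteDimensional ℂ W] {ρ : Representation ℂ G H} {σ : Representation ℂ G W} {μ : G →* ℂˣ}
    (hform : TGR.HasForm ρ μ) (hen : Enough (RelAt σ μ) ρ μ) {G' : Subgroup G} {k : ℕ} {m : ℤ}
    {T : MultilinearMap ℂ (fun _ : Fin k => H) (W →ₗ[ℂ] ℂ)} (hG' : G'.FiniteIndex) (hT : TGR.IsTate ρ σ μ G' m T) :
    ∃ G'' : Subgroup G, G''.FiniteIndex ∧
      T ∈ Submodule.span ℂ {T' : MultilinearMap ℂ (fun _ : Fin k => H) (W →ₗ[ℂ] ℂ) | TGR.IsProduct ρ σ μ G'' m T'} := by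
  classical
  rcases hen with ⟨φ, P, S, ⟨Q, ι, _, _, lam, bar, hQ, hφ, hR, hprod, hsm⟩, hchar⟩ | ⟨hss, hpc, hln⟩
  · exact full_simple hQ hR hform hφ (hchar.trans hprod) hsm hG' hT
  obtain ⟨ψ, halt, hnd, hψ⟩ := hform
  -- the pieces
  obtain ⟨K₁, hK₁le, hK₁, hK₁n, hmin⟩ := exists_min ρ G' hG'
  obtain ⟨n, U, pr, hD₁⟩ := exists_dec (ρ := (ρ.comp K₁.subtype : Representation ℂ K₁ H)) (fun S hS => by
    obtain ⟨S', hS', hc⟩ := semisimple_normal hss hK₁n (stab_iff.1 hS)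
    exact ⟨S', stab_iff.2 hS', hc⟩)
  have hpiece : ∀ x, IsPiece ρ (U x) := by
    intro x
    refine ⟨hD₁.ne x, ⟨K₁, hK₁, stab_iff.1 (hD₁.stab x)⟩, fun G₂ S hG₂ hle hS => ?_⟩
    refine hD₁.simple x S hle (stab_iff.2 (hmin (G₂ ⊓ K₁) inf_le_right ?_ S fun g hg => hS g hg.1))
    exact (inferInstance : (G₂ ⊓ K₁).FiniteIndex)
  rcases Nat.eq_zero_or_pos n with rfl | hn
  · have hsub : Subsingleton H := by
      refine ⟨fun a b => ?_⟩
      rw [← hD₁.sum a, ← hD₁.sum b, Finset.univ_eq_empty, Finset.sum_empty, Finset.sum_empty]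
    obtain ⟨b, -, hnf⟩ := hyp_basis (ψ := ψ) (n := 0) (u := fun _ => 0) (u' := fun _ => 0) halt
      (fun a => a.elim0) (fun a => a.elim0) (fun a => a.elim0) (fun v _ => Subsingleton.elim _ _)
    exact full_of_torus hψ hnf hG' hT fun x hx => diag_mem hnf (A := TGR.kill T) (fun a => a.elim0) hx
  -- the forms
  have hβ : ∀ x, ∃ G₂ : Subgroup G, G₂.FiniteIndex ∧ (Symp ρ μ (U x) → ∃ β : H →ₗ[ℂ] H →ₗ[ℂ] ℂ, (∀ u ∈ U x, β u u = 0) ∧
      (∀ u ∈ U x, (∀ v ∈ U x, β u v = 0) → u = 0) ∧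
        ∀ g ∈ G₂, ∀ u ∈ U x, ∀ v ∈ U x, β (ρ g u) (ρ g v) = μ g * β u v) := by
    intro x
    by_cases hx : Symp ρ μ (U x)
    · obtain ⟨G₂, β, hG₂, h1, h2, h3⟩ := hx
      exact ⟨G₂, hG₂, fun _ => ⟨β, h1, h2, h3⟩⟩
    · exact ⟨⊤, inferInstance, fun h => absurd h hx⟩
  choose G₂ hG₂ hβ using hβ
  obtain ⟨K, hKK₁, hKG₂, hK⟩ : ∃ K : Subgroup G, K ≤ K₁ ∧ (∀ x, K ≤ G₂ x) ∧ K.FiniteIndex := by
    refine ⟨K₁ ⊓ ⨅ x, G₂ x, inf_le_left, fun x => inf_le_right.trans (iInf_le _ x), ?_⟩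
    have h1 : (⨅ x, G₂ x).FiniteIndex := Subgroup.finiteIndex_iInf hG₂
    exact (inferInstance : (K₁ ⊓ ⨅ x, G₂ x).FiniteIndex)
  have hD : Dec (ρ.comp K.subtype : Representation ℂ K H) U pr := by
    refine ⟨fun x => stab_iff.2 fun g hg => stab_iff.1 (hD₁.stab x) g (hKK₁ hg), hD₁.ne, fun x S hle hS => ?_,
      hD₁.mem, hD₁.id, hD₁.zero, hD₁.sum, fun x g v => hD₁.comm x ⟨g.1, hKK₁ g.2⟩ v⟩
    exact hD₁.simple x S hle (stab_iff.2 (hmin K hKK₁ hK S (stab_iff.1 hS)))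
  have hpow : ∀ φ : G, ∃ d, 0 < d ∧ φ ^ d ∈ K := by
    intro φ
    obtain ⟨n, hn, -, h⟩ := Subgroup.exists_pow_mem_of_index_ne_zero hK.index_ne_zero φ
    exact ⟨n, hn, h⟩
  have hψK : ∀ (g : K) (u v : H), ψ ((ρ.comp K.subtype : Representation ℂ K H) g u)
      ((ρ.comp K.subtype : Representation ℂ K H) g v) = (μ.comp K.subtype) g * ψ u v := fun g u v => hψ g.1 u v
  have hUinj : ∀ y y', U y = U y' → y = y' := by
    intro y y' h
    by_contra hne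
    obtain ⟨v, hv, hv0⟩ := (Submodule.ne_bot_iff _).1 (hD.ne y)
    refine hv0 ?_
    rw [← hD.id y v hv]
    exact hD.zero y y' hne v (h ▸ hv)
  have hfin1 : ∀ x, finrank ℂ (U x) ≤ 1 → finrank ℂ (U x) = 1 := fun x hx =>
    le_antisymm hx (Submodule.one_le_finrank_iff.2 (hD.ne x))
  -- the pieces of the first kind
  obtain ⟨KK, hKK⟩ : ∃ KK : Fin n → Prop, ∀ x, KK x ↔ ∃ (D : End ℂ H) (e f : H),
      Tor (ρ.comp K.subtype : Representation ℂ K H) (σ.comp K.subtype : Representation ℂ K W) (μ.comp K.subtype) k m D ∧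
        e ∈ U x ∧ ψ e f = 1 ∧ ∀ v, D v = sq ψ e f v := ⟨_, fun _ => Iff.rfl⟩
  have hown : ∀ x, Own (RelAt σ μ) ρ μ (U x) → ¬ KK x → Symp ρ μ (U x) ∧
      ∃ (φ : G) (P : ℤ[X]) (S : ℂ → Prop) (V : Submodule ℂ H) (z : ℂ), RelAt σ μ φ P S ∧ U x ≤ V ∧
        (∀ v ∈ V, ρ φ v ∈ V) ∧ (∀ y, V ⊓ End.maxGenEigenspace (ρ φ) y ≠ ⊥ → aeval y P = 0 ∨ S y) ∧ aeval z P = 0 ∧
          finrank ℂ ↥(U x ⊓ End.maxGenEigenspace (ρ φ) z) = 1 := by
    rintro x ⟨φ, P, S, V, z, hrel, hUV, hV, hev, hz, ⟨rfl, hone, hne⟩ | ⟨hs, hone⟩⟩ hKx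
    · exfalso
      refine hKx ((hKK x).2 ?_)
      obtain ⟨Q, ι, _, _, lam, bar, hQ, hφ, hR, hprod, hsm⟩ := hrel
      obtain ⟨i, rfl⟩ := (root_iff hprod z).1 hz
      obtain ⟨d, hd, hφd⟩ := hpow φ
      refine SZ_top halt hnd hψK hd hφd hQ hφ hR hsm (fun y hy => ?_) hone hne
      refine (hev y ?_).imp_left (root_iff hprod y).1
      rw [top_inf_eq]
      obtain ⟨v, hv⟩ := hy.exists_hasEigenvector
      refine (Submodule.ne_bot_iff _).2 ⟨v, (Module.End.mem_maxGenEigenspace _ _ _).2 ⟨1, ?_⟩, hv.2⟩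
      rw [pow_one, LinearMap.sub_apply, hv.apply_eq_smul, LinearMap.smul_apply, Module.End.one_apply, sub_self]
    · exact ⟨hs, φ, P, S, V, z, hrel, hUV, hV, hev, hz, hone⟩
  have hKKpart : ∀ x (D : End ℂ H) (e f : H), Tor (ρ.comp K.subtype : Representation ℂ K H)
      (σ.comp K.subtype : Representation ℂ K W) (μ.comp K.subtype) k m D → e ∈ U x → ψ e f = 1 →
        (∀ v, D v = sq ψ e f v) → ∃ y, f ∈ U y ∧ KK y ∧ ∀ y', y' ≠ y → ∀ u ∈ U x, ∀ v ∈ U y', ψ u v = 0 := by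
    intro x D e f hTor he hef hDv
    obtain ⟨y, hfy, hy⟩ := partner4 hD halt hnd hψK (fun z v hv => hTor.stab _ (hD.stab z) v hv) hef hDv he
    refine ⟨y, hfy, (hKK y).2 ⟨-D, f, -e, hTor.neg, hfy, ?_, fun v => ?_⟩, hy⟩
    · rw [map_neg, alt_neg halt f e, hef, neg_neg]
    · rw [LinearMap.neg_apply, hDv, sq_apply, sq_apply, map_neg, LinearMap.neg_apply, smul_neg, neg_smul, neg_add,
        add_comm]
  -- the pieces of dimension one
  obtain ⟨L, hL1, hLown, hLpart, hLdat⟩ : ∃ L : Fin n → Prop, (∀ x, L x → finrank ℂ (U x) ≤ 1) ∧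
      (∀ x, ¬ L x → Own (RelAt σ μ) ρ μ (U x)) ∧
      (∀ x, L x → ∃ y, L y ∧ ∀ y', y' ≠ y → ∀ u ∈ U x, ∀ v ∈ U y', ψ u v = 0) ∧
      ∀ (bX : Fin n → Fin n) (ψ' : H →ₗ[ℂ] H →ₗ[ℂ] ℂ), Cx (ρ.comp K.subtype : Representation ℂ K H) (μ.comp K.subtype) U
        pr bX ψ' → ∀ x, L x → ∃ (D : End ℂ H) (e : H), Tor (ρ.comp K.subtype : Representation ℂ K H)
          (σ.comp K.subtype : Representation ℂ K W) (μ.comp K.subtype) k m D ∧ e ∈ U x ∧ e ≠ 0 ∧ D e = -e ∧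
            ∀ z, z ≠ x → z ≠ bX x → L z → ∀ v ∈ U z, D v = 0 := by
    rcases hln with hall | ⟨φ, P, S, ⟨Q, ι, _, _, lam, bar, hQ, hφ, hR, hprod, hsm⟩, hl1, hl2⟩
    · exact ⟨fun _ => False, fun _ h => h.elim, fun x _ => hall _ (hpiece x), fun _ h => h.elim,
        fun _ _ _ _ h => h.elim⟩
    · obtain ⟨d, hd, hφd⟩ := hpow φ
      have hline : ∀ x, finrank ℂ (U x) ≤ 1 → ∃ i, U x ≤ End.maxGenEigenspace (ρ φ) (lam i) := by
        intro x hx
        obtain ⟨z, hz, hzU⟩ := hl1 _ (hpiece x) (hfin1 x hx)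
        obtain ⟨i, rfl⟩ := (root_iff hprod z).1 hz
        exact ⟨i, hzU⟩
      have hdist : ∀ x y i, finrank ℂ (U x) ≤ 1 → finrank ℂ (U y) ≤ 1 → U x ≤ End.maxGenEigenspace (ρ φ) (lam i) →
          U y ≤ End.maxGenEigenspace (ρ φ) (lam i) → x = y := fun x y i hx hy h1 h2 =>
        hUinj x y (hl2 _ _ _ (hpiece x) (hpiece y) (hfin1 x hx) (hfin1 y hy) h1 h2)
      have hle : ∀ x i, finrank ℂ (U x) ≤ 1 → U x ⊓ End.maxGenEigenspace (ρ φ) (lam i) ≠ ⊥ →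
          U x ≤ End.maxGenEigenspace (ρ φ) (lam i) := by
        intro x i hx hne
        obtain ⟨v, ⟨hvU, hvE⟩, hv0⟩ := (Submodule.ne_bot_iff _).1 hne
        obtain ⟨w₀, hw₀⟩ := finrank_le_one_iff.1 hx
        obtain ⟨c, hc⟩ := hw₀ ⟨v, hvU⟩
        have hc' : c • (w₀ : H) = v := congrArg Subtype.val hc
        have hc0 : c ≠ 0 := by
          rintro rfl
          rw [zero_smul] at hc'
          exact hv0 hc'.symm
        have hw : (w₀ : H) ∈ End.maxGenEigenspace (ρ φ) (lam i) := by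
          have h1 : (w₀ : H) = c⁻¹ • v := by rw [← hc', smul_smul, inv_mul_cancel₀ hc0, one_smul]
          rw [h1]
          exact Submodule.smul_mem _ _ hvE
        intro w hwU
        obtain ⟨c', hc''⟩ := hw₀ ⟨w, hwU⟩
        have h1 : c' • (w₀ : H) = w := congrArg Subtype.val hc''
        rw [← h1]
        exact Submodule.smul_mem _ _ hw
      refine ⟨fun x => finrank ℂ (U x) ≤ 1, fun x hx => hx, fun x hx => ?_, fun x hx => ?_, fun bX ψ' hC x hx =>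
        SZ_line hC hd hφd hQ hφ hR hsm hline hdist hx⟩
      · rcases hpc _ (hpiece x) with h | h
        · exact absurd h.le hx
        · exact h
      · refine partner3 hD hnd hψK (J := fun x => finrank ℂ (U x) ≤ 1) (fun _ h => h) hQ hR (F := ρ φ) hd (fun u v => ?_)
          (fun x hx => ⟨hx, ?_⟩) (fun x y i hx hy h1 h2 => hdist x y i hx hy (hle x i hx h1) (hle y i hy h2)) x hx
        · have h1 := hψ (φ ^ d) u v
          rw [map_pow, map_pow, Units.val_pow_eq_pow_val, hφ] at h1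
          exact h1
        · obtain ⟨i, hi⟩ := hline x hx
          refine ⟨i, ?_⟩
          rw [inf_eq_left.2 hi]
          exact hD.ne x
  obtain ⟨bX, ψ', hC, hJn, -⟩ := exists_cx hD (SZ_conn hKK₁ hK hmin) (μ := μ.comp K.subtype) halt hnd hψK
    (J := fun x => KK x ∨ L x) (by
      intro x hx
      rcases hx with hx | hx
      · obtain ⟨D, e, f, hTor, he, hef, hDv⟩ := (hKK x).1 hx
        obtain ⟨y, -, hKy, hy⟩ := hKKpart x D e f hTor he hef hDv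
        exact ⟨y, Or.inl hKy, hy⟩
      · obtain ⟨y, hLy, hy⟩ := hLpart x hx
        exact ⟨y, Or.inr hLy, hy⟩) (by
      intro x hx
      rw [not_or] at hx
      obtain ⟨β, h1, h2, h3⟩ := hβ x (hown x (hLown x hx.2) hx.1).1
      exact ⟨β, h1, h2, fun g u hu v hv => h3 g.1 (hKG₂ x g.2) u hu v hv⟩)
  have hTK : TGR.IsTate (ρ.comp K.subtype : Representation ℂ K H) (σ.comp K.subtype : Representation ℂ K W)
      (μ.comp K.subtype) ⊤ m T := fun g _ v w => hT g.1 (hK₁le (hKK₁ g.2)) v w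
  obtain ⟨G'', hG'', hmem⟩ := span_own (k := k) (m := m) (K := KK) (L := L) hC hL1 (by
      intro x hx
      obtain ⟨D, e, f, hTor, he, hef, hDv⟩ := (hKK x).1 hx
      obtain ⟨y, hfy, -, -⟩ := hKKpart x D e f hTor he hef hDv
      obtain ⟨c, hc, hc'⟩ := sq_form halt hC.alt hC.nd hef hDv (TGR.mem_sp.2 fun u v =>
        hTor.skew ψ' ⊤ ⊤ (fun _ _ _ _ => trivial) (fun _ _ _ _ => trivial) (fun g u _ v _ => hC.sim g u v) u trivial v
          trivial)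
      have hy : y = bX x := by
        by_contra hne
        rw [hC.orth x y hne e he _ (Submodule.smul_mem _ c hfy)] at hc
        exact zero_ne_one hc
      exact ⟨D, e, c • f, hTor, he, Submodule.smul_mem _ c (hy ▸ hfy), hc, hc'⟩) (by
      intro x hKx hLx
      have hbx := hJn x (by rw [not_or]; exact ⟨hKx, hLx⟩)
      refine ⟨hbx, ?_⟩
      obtain ⟨-, φ, P, S, V, z, ⟨Q, ι, _, _, lam, bar, hQ, hφ, hR, hprod, hsm⟩, hUV, hV, hev, hz, hone⟩ :=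
        hown x (hLown x hLx) hKx
      obtain ⟨i, rfl⟩ := (root_iff hprod z).1 hz
      obtain ⟨d, hd, hφd⟩ := hpow φ
      obtain ⟨χ, D, hχ, h1, h2, h3, h4, hTor, hD1, hD2⟩ := exists_tor (ρ := ρ) hQ hφ hR hsm i hd hφd k m
      obtain ⟨e, f, he, hf, hef, hDv⟩ := own_piece hQ hR hχ (eig_ne_zero ρ φ) h1 h2 h3 h4 hd hD2 hC.alt hUV hV
        (fun v hv => by
          have h5 := stab_iff.1 (hD.stab x) _ hφd v hv
          rwa [map_pow] at h5) (hC.nd_piece hbx)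
        (hTor.skew ψ' _ _ (hD.stab x) (hD.stab x) (fun g u _ v _ => hC.sim g u v))
        (fun y hy => (hev y hy).imp_left (root_iff hprod y).1) hone
      exact ⟨D, e, f, hTor, he, hf, hef, hDv⟩) (hLdat bX ψ' hC) hTK
  exact of_subgroup hK hG'' hmem

end TPM
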