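import Pool.Agent.Lib.MP_021685_agTM.STop
import Pool.Agent.Lib.MP_021685_agTM.GF
import Pool.Agent.Lib.MP_021685_agTT.GL
import Pool.Agent.Lib.MP_021685_agTT.PL
import Pool.Agent.Lib.MP_802513_agHX.P4

/-! The main theorem. -/

set_option autoImplicit false

namespace TPM

open Polynomial

/-- From generic fields to polynomials over their fields. -/
theorem bad_le {q g r : ℕ} (hq : 0 < q) (hg : 2 ≤ g) {Y : Set ℤ[X]} (hf : (TI.Weil q g).Finite) (hY : Y ⊆ TI.Weil q g)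
    {c : ℝ} (h : (({t : Fin r → ℤ[X] | (∀ i, t i ∈ Y) ∧ ¬ HIB.GenericFields q g t}).ncard : ℝ) ≤ c) :
    (({t : Fin r → ℤ[X] | (∀ i, t i ∈ Y) ∧ ¬ (TAL.GenericFields q g t ∧ FrobOver q g t)}).ncard : ℝ) ≤ c := by
  refine le_trans ?_ h
  have hYf : Y.Finite := hf.subset hY
  have hfin : {t : Fin r → ℤ[X] | (∀ i, t i ∈ Y) ∧ ¬ HIB.GenericFields q g t}.Finite := by
    apply Set.Finite.subset (Set.Finite.pi' (fun _ : Fin r => hYf))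
    rintro t ⟨hty, -⟩
    exact hty
  have hsub : {t : Fin r → ℤ[X] | (∀ i, t i ∈ Y) ∧ ¬ (TAL.GenericFields q g t ∧ FrobOver q g t)} ⊆
      {t : Fin r → ℤ[X] | (∀ i, t i ∈ Y) ∧ ¬ HIB.GenericFields q g t} := by
    rintro t ⟨hty, hn⟩
    refine ⟨hty, fun hG => hn ?_⟩
    have hG' : TAL.GenericFields q g t := hG
    exact ⟨hG', fun E _ _ hE => over_of_generic hq hg (fun i => hY (hty i)) hG' E hE⟩
  exact_mod_cast Set.ncard_le_ncard hsub hfin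

/-- The main theorem. -/
theorem main9 : Pool.Agent.Lib.MP_021685_agTT.LitPlace ∧ Pool.Agent.Lib.MP_021685_agTT.LitLift ∧ FullG ∧
    (∀ (Q : ℕ) (P : ℤ[X]), 1 < Q → P.Monic → (P.map (Int.castRingHom ℂ)).Separable →
      (∀ z : ℂ, aeval z P = 0 → z * starRingEnd ℂ z = (Q : ℂ)) → TI.Full Q P →
        Good Q P fun y => ∃ b : ℤ, y = (Q : ℂ) ^ b) ∧
    (∀ (r : ℕ) (g : Fin r → ℕ) (E : Fin r → Type) [∀ i, Field (E i)] [∀ i, NumberField (E i)] (Q : ℕ) (P : ℤ[X]),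
      Family g E → 1 < Q → TGR.IsOver Q E P → Good Q P fun y => ∀ i, TAF.Small Q (TAL.Gens (E i)) (g i) y) ∧
    (∀ q p : ℕ, 2 ≤ q → 2 ≤ p → ∃ C : ℝ, ∃ g₀ : ℕ, ∀ g : ℕ, g₀ ≤ g →
      (TI.Weil q g).Finite ∧ 0 < (TI.Weil q g).ncard ∧
        (TI.Weil q g).ncard ≤ 3 * ({h | h ∈ TI.Weil q g ∧ ¬ (p : ℤ) ∣ h.coeff 0} : Set ℤ[X]).ncard ∧
        ∀ (δ : ℝ) (Y : Set ℤ[X]), 0 < δ → Y ⊆ TI.Weil q g → δ * ((TI.Weil q g).ncard : ℝ) ≤ (Y.ncard : ℝ) → ∀ r : ℕ,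
          (({t : Fin r → ℤ[X] | (∀ i, t i ∈ Y) ∧ ¬ (TAL.GenericFields q g t ∧ FrobOver q g t)}).ncard : ℝ) ≤
            C * r * Real.log g / (δ * g) * (Y.ncard : ℝ) ^ r) ∧
    (∀ g : ℕ, 3 ≤ g → ∃ C c : ℝ, 0 < c ∧ ∀ q : ℕ, IsPrimePow q →
      (TI.Weil q g).Finite ∧ 0 < (TI.Weil q g).ncard ∧
        ∀ (δ : ℝ) (Y : Set ℤ[X]), 0 < δ → Y ⊆ TI.Weil q g → δ * ((TI.Weil q g).ncard : ℝ) ≤ (Y.ncard : ℝ) → ∀ r : ℕ,
          (({t : Fin r → ℤ[X] | (∀ i, t i ∈ Y) ∧ ¬ (TAL.GenericFields q g t ∧ FrobOver q g t)}).ncard : ℝ) ≤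
            C * r * Real.exp (-c * Real.sqrt (Real.log q)) / δ * (Y.ncard : ℝ) ^ r) := by
  refine ⟨Pool.Agent.Lib.MP_021685_agTT.lit_place fullG, Pool.Agent.Lib.MP_021685_agTT.lit_lift fullG, fullG,
    fun Q P hQ hm hsep habs hF => good_of_full hQ hm hsep habs hF,
    fun r g E _ _ Q P hE hQ hP => good_of_family hE hQ hP,
    fun q p hq hp => ?_, fun g hg => ?_⟩
  · obtain ⟨C, g₀, H⟩ := HIB.generic_count q hq p hp
    refine ⟨C, max 2 g₀, fun g hg => ?_⟩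
    obtain ⟨h1, h2, h3, h4⟩ := H g ((le_max_right _ _).trans hg)
    exact ⟨h1, h2, h3, fun δ Y hδ hY hδY r => bad_le (by omega) ((le_max_left _ _).trans hg) h1 hY (h4 δ Y hδ hY hδY r)⟩
  · obtain ⟨C, c, hc, H⟩ := HX.generic_count2 g hg
    refine ⟨C, c, hc, fun q hq => ?_⟩
    obtain ⟨h1, h2, h3⟩ := H q hq
    exact ⟨h1, h2, fun δ Y hδ hY hδY r => bad_le hq.pos (by omega) h1 hY (h3 δ Y hδ hY hδY r)⟩

end TPM
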